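import Pool.Agent.Lib.H62s.BAS

set_option autoImplicit false
open Finset
namespace H62s
open H62w
variable [Slope] {β : ℝ} {M : ℕ}

omit [Slope] in
theorem AVG_split (a b v : ℕ) (ha : 1 ≤ a) (F : ℕ → ℝ) :
    ∑ z ∈ (range (3 ^ (a + b))).filter (fun z => z % 3 = v), F z =
      ∑ y ∈ (range (3 ^ a)).filter (fun y => y % 3 = v), ∑ U ∈ range (3 ^ b), F (y + 3 ^ a * U) := by
  rw [← Finset.sum_product' (f := fun y U => F (y + 3 ^ a * U))]
  have h3 : 0 < 3 ^ a := by positivity
  have hd : 3 ∣ 3 ^ a := dvd_pow_self 3 (by omega)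
  refine Finset.sum_nbij' (fun z => (z % 3 ^ a, z / 3 ^ a)) (fun p => p.1 + 3 ^ a * p.2) ?_ ?_ ?_ ?_ ?_
  · intro z hz
    simp only [mem_filter, mem_range, mem_product] at hz ⊢
    refine ⟨⟨Nat.mod_lt _ h3, ?_⟩, ?_⟩
    · rw [Nat.mod_mod_of_dvd _ hd]
      exact hz.2
    · rw [Nat.div_lt_iff_lt_mul h3, mul_comm, ← pow_add]
      exact hz.1
  · rintro ⟨y, U⟩ hp
    simp only [mem_filter, mem_range, mem_product] at hp ⊢
    obtain ⟨⟨hy, hyv⟩, hU⟩ := hp
    refine ⟨?_, ?_⟩
    · rw [pow_add]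
      calc y + 3 ^ a * U < 3 ^ a + 3 ^ a * U := by omega
        _ = 3 ^ a * (U + 1) := by ring
        _ ≤ 3 ^ a * 3 ^ b := Nat.mul_le_mul_left _ hU
    · obtain ⟨c, hc⟩ := hd
      rw [hc, mul_assoc, Nat.add_mul_mod_self_left]
      exact hyv
  · intro z _
    exact Nat.mod_add_div z (3 ^ a)
  · rintro ⟨y, U⟩ hp
    simp only [mem_filter, mem_range, mem_product] at hp ⊢
    rw [Nat.add_mul_mod_self_left, Nat.mod_eq_of_lt hp.1.1, Nat.add_mul_div_left _ _ h3,
      Nat.div_eq_of_lt hp.1.1, zero_add]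
  · intro z _
    simp only
    rw [Nat.mod_add_div]

omit [Slope] in
theorem AVG_card (b v : ℕ) (hv : v = 1 ∨ v = 2) :
    ((((range (3 ^ (b + 1))).filter (fun z => z % 3 = v)).card : ℕ) : ℝ) = 3 ^ b := by
  have h := AVG_split 1 b v le_rfl (fun _ => (1:ℝ))
  have h1 : (range (3 ^ 1)).filter (fun y => y % 3 = v) = {v} := by
    rcases hv with rfl | rfl <;> decide
  rw [h1, Finset.sum_singleton] at h
  simp only [Finset.sum_const, card_range, nsmul_eq_mul, mul_one] at h
  rw [add_comm b 1, h]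
  push_cast
  rfl

/-- Chunk AVG. Mean over a class. Proof: mean of `base_step` over the units `y < 3^(j g + k + 1)` of the class
`v`; `(y, U) ↦ y + 3^(j g + k + 1) U` is a bijection onto the class mod `3^(j g + k + n J + 1)`. Replace the
`gw` sum by `gw_classes`, and `mean (j g + k)` by `mean Λ` by `mean_Gd`. -/
theorem av_lower (hβ : 0 < β) (hβ1 : β ≤ 1) (hM : 7 ≤ M) {n : ℕ} (hn : 1 ≤ n) (D : ℝ)
    (hD : ∀ v : ℕ, v = 1 ∨ v = 2 → Real.log (mm β M n) + D ≤ Real.log (cm β M n v))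
    (g j k J Λ v : ℕ) (hΛ : j * g ≤ Λ) (hv : v = 1 ∨ v = 2) :
    j * Real.log (mm β M g) + Real.log (mm β M k) + J * Real.log (mm β M n) +
        D / 2 * ∑ t ∈ range J, mean Λ v (fun y => Gd β M g n (k + n * t) j y) ≤
      av β M (j * g + k + n * J) v := by
  have hst : ∀ y ∈ (range (3 ^ (j * g + k + 1))).filter (fun y => y % 3 = v),
      j * Real.log (mm β M g) + Real.log (mm β M k) + J * Real.log (mm β M n) +
        D / 2 * ∑ t ∈ range J, Gd β M g n (k + n * t) j y ≤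
      (∑ U ∈ range (3 ^ (n * J)),
        Real.log (W β M (j * g + k + n * J) (y + 3 ^ (j * g + k + 1) * U))) / 3 ^ (n * J) := by
    intro y hy
    have hyv : y % 3 = v := (mem_filter.1 hy).2
    have hy3 : y % 3 ≠ 0 := by omega
    have h1 := base_step hβ hβ1 hM hn D hD g j k J y hy3
    rwa [gw_classes hβ hβ1 hM hn g j k J y hy3] at h1
  have hsum := Finset.sum_le_sum hst
  rw [Finset.sum_add_distrib, Finset.sum_const, nsmul_eq_mul, AVG_card _ _ hv, ← Finset.mul_sum,
    Finset.sum_comm, ← Finset.sum_div] at hsum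
  have hav : av β M (j * g + k + n * J) v = (∑ y ∈ (range (3 ^ (j * g + k + 1))).filter
      (fun y => y % 3 = v), ∑ U ∈ range (3 ^ (n * J)),
        Real.log (W β M (j * g + k + n * J) (y + 3 ^ (j * g + k + 1) * U))) /
        3 ^ (j * g + k + n * J) := by
    unfold av
    congr 1
    have h1 : j * g + k + n * J + 1 = (j * g + k + 1) + n * J := by ring
    rw [h1]
    exact AVG_split (j * g + k + 1) (n * J) v (by omega) _
  have hmean : ∀ t, mean Λ v (fun y => Gd β M g n (k + n * t) j y) =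
      (∑ y ∈ (range (3 ^ (j * g + k + 1))).filter (fun y => y % 3 = v),
        Gd β M g n (k + n * t) j y) / 3 ^ (j * g + k) := by
    intro t
    rw [mean_Gd hβ hβ1 hM g n (k + n * t) j v Λ (j * g + k) hv hΛ (by omega)]
    rfl
  simp only [hmean]
  rw [hav, ← Finset.sum_div, pow_add 3 (j * g + k) (n * J), mul_comm ((3:ℝ) ^ (j * g + k)),
    ← div_div, le_div_iff₀ (by positivity)]
  refine le_trans (le_of_eq ?_) hsum
  field_simp

end H62s
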