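import Pool.Agent.Lib.H62s.Defs2

set_option autoImplicit false
open Finset
namespace H62s
open H62w
variable [Slope] {β : ℝ} {M : ℕ}

private lemma GWG_empty {α : Type} (n : ℕ) (w : α → ℝ) (J : ℕ) (v : α → ℕ) :
    gw n w J (∅ : Finset α) v = 0 := by
  induction J generalizing v with
  | zero => rfl
  | succ J ih =>
    rw [gw]
    simp [ih]

/-- regrouping of a sum over fibres -/
private lemma GWG_fib {α γ : Type} [DecidableEq γ] (S : Finset α) (f : α → γ)
    (h : α → ℕ) (N : ℕ) (hN : ∀ a ∈ S, h a < N) (ψ : γ × ℕ → γ)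
    (hψ : ∀ a ∈ S, ∀ b ∈ S, ψ (f a, h a) = ψ (f b, h b) → (f a, h a) = (f b, h b))
    (G : Finset α → ℝ) (hG : G ∅ = 0) :
    ∑ κ ∈ S.image f, ∑ x ∈ range N, G ((S.filter (fun a => f a = κ)).filter (fun a => h a = x)) =
      ∑ κ ∈ S.image (fun a => ψ (f a, h a)), G (S.filter (fun a => ψ (f a, h a) = κ)) := by
  have e1 : S.image (fun a => ψ (f a, h a)) = (S.image (fun a => (f a, h a))).image ψ := by
    rw [image_image]; rfl
  have e6 : ∑ κ ∈ (S.image (fun a => (f a, h a))).image ψ,
      G (S.filter (fun a => ψ (f a, h a) = κ)) =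
      ∑ p ∈ S.image (fun a => (f a, h a)), G (S.filter (fun a => ψ (f a, h a) = ψ p)) := by
    refine sum_image ?_
    intro p hp q hq hpq
    rw [mem_coe, mem_image] at hp hq
    obtain ⟨a, ha, rfl⟩ := hp
    obtain ⟨b, hb, rfl⟩ := hq
    exact hψ a ha b hb hpq
  rw [e1, e6]
  · rw [← sum_product']
    have e2 : ∀ p ∈ (S.image f) ×ˢ (range N),
        G ((S.filter (fun a => f a = p.1)).filter (fun a => h a = p.2)) =
          G (S.filter (fun a => (f a, h a) = p)) := by
      intro p _
      congr 1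
      rw [filter_filter]
      apply filter_congr
      intro a _
      rw [Prod.ext_iff]
    rw [sum_congr rfl e2]
    have hsub : S.image (fun a => (f a, h a)) ⊆ (S.image f) ×ˢ (range N) := by
      intro p hp
      rw [mem_image] at hp
      obtain ⟨a, ha, rfl⟩ := hp
      rw [mem_product]
      exact ⟨mem_image_of_mem f ha, mem_range.2 (hN a ha)⟩
    rw [← sum_subset hsub]
    · apply sum_congr rfl
      intro p hp
      congr 1
      apply filter_congr
      intro a ha
      rw [mem_image] at hp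
      obtain ⟨b, hb, rfl⟩ := hp
      constructor
      · intro h1; rw [h1]
      · intro h1; exact hψ a ha b hb h1
    · intro p _ hp
      have e3 : S.filter (fun a => (f a, h a) = p) = ∅ := by
        rw [filter_eq_empty_iff]
        intro a ha h1
        exact hp (mem_image.2 ⟨a, ha, h1⟩)
      rw [e3, hG]

open Classical in
private lemma GWG_good (n g i j y : ℕ) :
    ∑ κ ∈ (BP M g j y).image (ky y i),
      (if ∀ x < 3 ^ n, (∑ a ∈ (BP M g j y).filter (fun a => ky y i a = κ), kap β M g j y a)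
          / (2 * 3 ^ n) ≤ ∑ a ∈ ((BP M g j y).filter (fun a => ky y i a = κ)).filter
            (fun a => en a y / 3 ^ (i + 1) % 3 ^ n = x), kap β M g j y a
        then ∑ a ∈ (BP M g j y).filter (fun a => ky y i a = κ), kap β M g j y a else 0) =
      Gd β M g n i j y := by
  rw [Gd, sum_filter, ← sum_fiberwise_of_maps_to (g := ky y i)
    (fun a ha => mem_image_of_mem (ky y i) ha)]
  apply sum_congr rfl
  intro κ hκ
  rw [mem_image] at hκ
  obtain ⟨a0, ha0, rfl⟩ := hκ
  have key : ∀ a ∈ (BP M g j y).filter (fun a => ky y i a = ky y i a0),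
      (gd β M g n i j y a ↔ ∀ x < 3 ^ n,
        (∑ a ∈ (BP M g j y).filter (fun a => ky y i a = ky y i a0), kap β M g j y a)
          / (2 * 3 ^ n) ≤ ∑ a ∈ ((BP M g j y).filter (fun a => ky y i a = ky y i a0)).filter
            (fun a => en a y / 3 ^ (i + 1) % 3 ^ n = x), kap β M g j y a) := by
    intro a ha
    rw [mem_filter] at ha
    unfold gd ms
    refine forall_congr' fun x => imp_congr_right fun _ => ?_
    rw [filter_filter, ha.2]
    rfl
  rw [sum_congr rfl (fun a ha => if_congr (key a ha) rfl rfl)]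
  split_ifs with hc
  · rfl
  · rw [sum_const_zero]

private lemma GWG_main {n : ℕ} (g j y J : ℕ) : ∀ k : ℕ,
    ∑ κ ∈ (BP M g j y).image (ky y k), gw n (kap β M g j y) J
        ((BP M g j y).filter (fun a => ky y k a = κ)) (fun a => en a y / 3 ^ (k + 1)) =
      ∑ t ∈ range J, Gd β M g n (k + n * t) j y := by
  induction J with
  | zero =>
    intro k
    simp [gw]
  | succ J ih =>
    intro k
    rw [sum_range_succ']
    have e1 : ∀ t, k + n * (t + 1) = (k + n) + n * t := fun t => by ring
    simp only [e1, mul_zero, add_zero]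
    rw [← ih (k + n)]
    simp only [gw]
    rw [sum_add_distrib, GWG_good, add_comm (Gd β M g n k j y)]
    congr 1
    have e2 : (fun a => en a y / 3 ^ (k + 1) / 3 ^ n) = fun a => en a y / 3 ^ (k + n + 1) := by
      funext a
      rw [Nat.div_div_eq_div_mul, ← pow_add]
      congr 2
      ring
    rw [e2]
    have e3 : (fun a => ky y (k + n) a) = fun a =>
        (fun p : (ℕ × ℕ) × ℕ => (p.1.1, p.1.2 + 3 ^ (k + 1) * p.2))
          (ky y k a, en a y / 3 ^ (k + 1) % 3 ^ n) := by
      funext a
      unfold ky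
      rw [show k + n + 1 = (k + 1) + n by ring, pow_add, Nat.mod_mul]
    have e4 : (BP M g j y).image (ky y (k + n)) = (BP M g j y).image (fun a =>
        (fun p : (ℕ × ℕ) × ℕ => (p.1.1, p.1.2 + 3 ^ (k + 1) * p.2))
          (ky y k a, en a y / 3 ^ (k + 1) % 3 ^ n)) := by
      rw [← e3]
    have e5 : ∀ κ : ℕ × ℕ, (BP M g j y).filter (fun a => ky y (k + n) a = κ) =
        (BP M g j y).filter (fun a => (fun p : (ℕ × ℕ) × ℕ => (p.1.1, p.1.2 + 3 ^ (k + 1) * p.2))
          (ky y k a, en a y / 3 ^ (k + 1) % 3 ^ n) = κ) := by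
      intro κ
      apply filter_congr
      intro a _
      rw [← congrFun e3 a]
    rw [e4]
    simp only [e5]
    refine GWG_fib (BP M g j y) (ky y k) (fun a => en a y / 3 ^ (k + 1) % 3 ^ n) (3 ^ n)
      (fun a _ => Nat.mod_lt _ (by positivity))
      (fun p : (ℕ × ℕ) × ℕ => (p.1.1, p.1.2 + 3 ^ (k + 1) * p.2)) ?_
      (fun s => gw n (kap β M g j y) J s (fun a => en a y / 3 ^ (k + n + 1)))
      (GWG_empty _ _ _ _)
    intro a _ b _ hab
    simp only [Prod.mk.injEq] at hab
    obtain ⟨h1, h2⟩ := hab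
    have ha : (ky y k a).2 < 3 ^ (k + 1) := Nat.mod_lt _ (by positivity)
    have hb : (ky y k b).2 < 3 ^ (k + 1) := Nat.mod_lt _ (by positivity)
    have h3 : (ky y k a).2 = (ky y k b).2 := by
      have := congrArg (· % 3 ^ (k + 1)) h2
      simpa [Nat.add_mul_mod_self_left, Nat.mod_eq_of_lt ha, Nat.mod_eq_of_lt hb] using this
    have h4 : en a y / 3 ^ (k + 1) % 3 ^ n = en b y / 3 ^ (k + 1) % 3 ^ n := by
      rw [h3] at h2
      have h5 := Nat.add_left_cancel h2
      exact Nat.eq_of_mul_eq_mul_left (by positivity) h5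
    rw [Prod.mk.injEq, Prod.ext_iff]
    exact ⟨⟨h1, h3⟩, h4⟩

/-- Chunk GWG. The functional `gw` of the classes at level `k` is the sum of the good masses at the levels
`k, k+n, ..`. Proof: more generally, for a class `s` of `ky y i` (all `a` with `ky y i a = κ`),
`gw n kap J s (fun a => en a y / 3^(i+1)) = ∑ t < J, (mass of the a in s that are good at level i + n t)`.
Induction on `J`: the first term of `gw` is the mass of `s` if the class is good, and the classes of
`ky y (i+n)` inside `s` are the `s.filter (v a % 3^n = x)`, with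
`en a y / 3^(i+1) / 3^n = en a y / 3^(i+n+1)`. -/
theorem gw_classes (hβ : 0 < β) (hβ1 : β ≤ 1) (hM : 7 ≤ M) {n : ℕ} (hn : 1 ≤ n) (g j k J y : ℕ)
    (hy : y % 3 ≠ 0) :
    ∑ κ ∈ (BP M g j y).image (ky y k), gw n (kap β M g j y) J
        ((BP M g j y).filter (fun a => ky y k a = κ)) (fun a => en a y / 3 ^ (k + 1)) =
      ∑ t ∈ range J, Gd β M g n (k + n * t) j y := by
  exact GWG_main g j y J k

end H62s
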