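import Pool.Agent.Lib.H62s.BPB

set_option autoImplicit false
open Finset
namespace H62s
open H62w
variable [Slope] {β : ℝ} {M : ℕ}

omit [Slope] in
theorem RIG_shift {N q c w : ℕ} (hw : w < N) : (q + c) % N = (w + c) % N ↔ q % N = w := by
  constructor
  · intro h
    have h1 : q ≡ w [MOD N] := Nat.ModEq.add_right_cancel' c h
    rw [h1, Nat.mod_eq_of_lt hw]
  · intro h
    have h1 : q ≡ w [MOD N] := by
      change q % N = w % N
      rw [h, Nat.mod_eq_of_lt hw]
    exact Nat.ModEq.add_right c h1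

omit [Slope] in
theorem RIG_div {P e r c : ℕ} (hP : 0 < P) (he : e % P = r) :
    (e + c) / P = e / P + (r + c) / P := by
  have h1 : e + c = r + c + P * (e / P) := by
    have := Nat.mod_add_div e P
    omega
  rw [h1, Nat.add_mul_div_left _ _ hP, add_comm]

theorem RIG_gd (g n i j y t : ℕ) (hy : y % 3 ≠ 0) {a : List ℕ} (ha : a ∈ BP M g j y) :
    gd β M g n i j (y + 3 ^ (j * g + 1) * t) a ↔ gd β M g n i j y a := by
  set y' := y + 3 ^ (j * g + 1) * t with hy'
  have hB : BP M g j y' = BP M g j y := BP_add M g j y t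
  have hk : ∀ b ∈ BP M g j y, kap β M g j y' b = kap β M g j y b := fun b hb => kap_add β hb
  have he : ∀ b ∈ BP M g j y, en b y' = en b y + 3 * 2 ^ b.sum * t := fun b hb =>
    en_BP_add hy hb
  have hP : 0 < 3 ^ (i + 1) := by positivity
  have hky : ∀ b ∈ BP M g j y, (ky y' i b = ky y' i a ↔ ky y i b = ky y i a) := by
    intro b hb
    simp only [ky, Prod.mk.injEq]
    constructor
    · rintro ⟨h1, h2⟩
      refine ⟨h1, ?_⟩
      rw [he b hb, he a ha, h1] at h2
      exact Nat.ModEq.add_right_cancel' _ h2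
    · rintro ⟨h1, h2⟩
      refine ⟨h1, ?_⟩
      rw [he b hb, he a ha, h1]
      exact Nat.ModEq.add_right _ h2
  set c0 := (en a y % 3 ^ (i + 1) + 3 * 2 ^ a.sum * t) / 3 ^ (i + 1) with hc0
  have hwd : ∀ b ∈ BP M g j y, ky y i b = ky y i a →
      wd y' i n b = (en b y / 3 ^ (i + 1) + c0) % 3 ^ n := by
    intro b hb hab
    simp only [ky, Prod.mk.injEq] at hab
    rw [wd, he b hb, hab.1, RIG_div hP hab.2]
  have hms : ms (BP M g j y') (kap β M g j y') (ky y' i) a =
      ms (BP M g j y) (kap β M g j y) (ky y i) a := by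
    rw [ms, ms, hB, filter_congr hky]
    exact sum_congr rfl fun b hb => hk b (mem_filter.1 hb).1
  have hsum : ∀ w < 3 ^ n, ∑ b ∈ (BP M g j y').filter
        (fun b => ky y' i b = ky y' i a ∧ wd y' i n b = (w + c0) % 3 ^ n), kap β M g j y' b =
      ∑ b ∈ (BP M g j y).filter (fun b => ky y i b = ky y i a ∧ wd y i n b = w),
        kap β M g j y b := by
    intro w hw
    rw [hB]
    have h1 : (BP M g j y).filter
        (fun b => ky y' i b = ky y' i a ∧ wd y' i n b = (w + c0) % 3 ^ n) =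
        (BP M g j y).filter (fun b => ky y i b = ky y i a ∧ wd y i n b = w) := by
      refine filter_congr fun b hb => ?_
      rw [hky b hb]
      constructor
      · rintro ⟨h2, h3⟩
        refine ⟨h2, ?_⟩
        rw [hwd b hb h2, RIG_shift hw] at h3
        exact h3
      · rintro ⟨h2, h3⟩
        refine ⟨h2, ?_⟩
        rw [hwd b hb h2, RIG_shift hw]
        exact h3
    rw [h1]
    exact sum_congr rfl fun b hb => hk b (mem_filter.1 hb).1
  have hN : 0 < 3 ^ n := by positivity
  constructor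
  · intro h w hw
    have h1 := h ((w + c0) % 3 ^ n) (Nat.mod_lt _ hN)
    rw [hms, hsum w hw] at h1
    exact h1
  · intro h w hw
    set w' := (w + (3 ^ n - c0 % 3 ^ n)) % 3 ^ n with hw'
    have hw'l : w' < 3 ^ n := Nat.mod_lt _ hN
    have h2 : (w' + c0) % 3 ^ n = w := by
      have h3 : c0 % 3 ^ n < 3 ^ n := Nat.mod_lt _ hN
      rw [hw', Nat.mod_add_mod]
      have h4 : w + (3 ^ n - c0 % 3 ^ n) + c0 = w + 3 ^ n * (c0 / 3 ^ n + 1) := by
        have h5 := Nat.mod_add_div c0 (3 ^ n)
        have h6 : 3 ^ n * (c0 / 3 ^ n + 1) = 3 ^ n * (c0 / 3 ^ n) + 3 ^ n := by ring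
        omega
      rw [h4, Nat.add_mul_mod_self_left, Nat.mod_eq_of_lt hw]
    have h1 := h w' hw'l
    rw [← hms, ← hsum w' hw'l, h2] at h1
    exact h1

theorem RIG_mean_succ {f : ℕ → ℝ} {Λ v : ℕ} (hv : v = 1 ∨ v = 2)
    (hf : ∀ y t : ℕ, y % 3 ≠ 0 → f (y + 3 ^ (Λ + 1) * t) = f y) :
    mean (Λ + 1) v f = mean Λ v f := by
  have hv0 : v ≠ 0 := by omega
  set P := 3 ^ (Λ + 1) with hP
  have hP3 : P % 3 = 0 := by
    rw [hP, pow_succ]
    exact Nat.mul_mod_left _ _
  have h1 : 3 ^ (Λ + 1 + 1) = P + (P + P) := by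
    rw [pow_succ, ← hP]
    ring
  have hshift : ∀ t x : ℕ, (if (P * t + x) % 3 = v then f (P * t + x) else 0) =
      if x % 3 = v then f x else 0 := by
    intro t x
    have h2 : (P * t + x) % 3 = x % 3 := by
      have : (P * t) % 3 = 0 := by rw [Nat.mul_mod, hP3, zero_mul, Nat.zero_mod]
      omega
    rw [h2]
    by_cases hx : x % 3 = v
    · rw [if_pos hx, if_pos hx, add_comm]
      exact hf x t (by omega)
    · rw [if_neg hx, if_neg hx]
  have h3 : ∑ y ∈ (range (3 ^ (Λ + 1 + 1))).filter (fun y => y % 3 = v), f y =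
      3 * ∑ y ∈ (range P).filter (fun y => y % 3 = v), f y := by
    rw [sum_filter, sum_filter, h1, sum_range_add, sum_range_add]
    have e1 : ∑ x ∈ range P, (if (P + x) % 3 = v then f (P + x) else 0) =
        ∑ x ∈ range P, if x % 3 = v then f x else 0 :=
      sum_congr rfl fun x _ => by
        have := hshift 1 x
        rwa [mul_one] at this
    have e2 : ∑ x ∈ range P, (if (P + (P + x)) % 3 = v then f (P + (P + x)) else 0) =
        ∑ x ∈ range P, if x % 3 = v then f x else 0 :=
      sum_congr rfl fun x _ => by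
        have := hshift 2 x
        have e3 : P * 2 + x = P + (P + x) := by ring
        rwa [e3] at this
    rw [e1, e2]
    ring
  rw [mean, mean, h3, pow_succ]
  have : (3 : ℝ) ^ Λ ≠ 0 := by positivity
  field_simp
  rfl

theorem RIG_mean {f : ℕ → ℝ} {m v : ℕ} (hv : v = 1 ∨ v = 2)
    (hf : ∀ y t : ℕ, y % 3 ≠ 0 → f (y + 3 ^ (m + 1) * t) = f y) {Λ : ℕ} (h : m ≤ Λ) :
    mean Λ v f = mean m v f := by
  induction Λ, h using Nat.le_induction with
  | base => rfl
  | succ Λ hΛ ih =>
    rw [← ih]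
    refine RIG_mean_succ hv fun y t hy => ?_
    have h1 : 3 ^ (Λ + 1) * t = 3 ^ (m + 1) * (3 ^ (Λ - m) * t) := by
      rw [← mul_assoc, ← pow_add]
      congr 2
      omega
    rw [h1]
    exact hf y _ hy

/-- Chunk RIG. `Gd` only depends on `y mod 3^(j g + 1)`. Proof: by `BP_add`, `kap_add`, `en_BP_add` the paths and
their masses are the same at `y' = y + 3^(j g + 1) t` and the end points of the paths with sum `l` are all moved by
`3 * 2^l * t`. So two paths with the same sum are in the same class of `ky y' i` iff they are in the same class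
of `ky y i`, and in one class the windows are all moved by one constant mod `3^n`, which permutes the
values `w` in the definition of `gd`. -/
theorem Gd_add (hβ : 0 < β) (hβ1 : β ≤ 1) (hM : 7 ≤ M) (g n i j y t : ℕ) (hy : y % 3 ≠ 0) :
    Gd β M g n i j (y + 3 ^ (j * g + 1) * t) = Gd β M g n i j y := by
  classical
  rw [Gd, Gd, BP_add]
  have h1 : (BP M g j y).filter (fun a => gd β M g n i j (y + 3 ^ (j * g + 1) * t) a) =
      (BP M g j y).filter (fun a => gd β M g n i j y a) :=
    filter_congr fun a ha => RIG_gd g n i j y t hy ha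
  rw [h1]
  exact sum_congr rfl fun a ha => kap_add β (mem_filter.1 ha).1

/-- The mean of `Gd` over a class does not depend on the modulus. -/
theorem mean_Gd (hβ : 0 < β) (hβ1 : β ≤ 1) (hM : 7 ≤ M) (g n i j v Λ Λ' : ℕ) (hv : v = 1 ∨ v = 2)
    (h : j * g ≤ Λ) (h' : j * g ≤ Λ') :
    mean Λ v (fun y => Gd β M g n i j y) = mean Λ' v (fun y => Gd β M g n i j y) := by
  have hf : ∀ y t : ℕ, y % 3 ≠ 0 → Gd β M g n i j (y + 3 ^ (j * g + 1) * t) = Gd β M g n i j y :=
    fun y t hy => Gd_add hβ hβ1 hM g n i j y t hy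
  rw [RIG_mean hv hf h, RIG_mean hv hf h']

end H62s
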