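import Pool.Agent.Lib.H62s.GWA
import Pool.Agent.Lib.H62s.GWG
import Pool.Agent.Lib.H62s.RIG

set_option autoImplicit false
open Finset
namespace H62s
open H62w
variable [Slope] {β : ℝ} {M : ℕ}

omit [Slope] in
theorem BAS_perm {K : ℕ} {X q : ℕ} (hX : X % 3 ≠ 0) {F : ℕ → ℝ} (hF : ∀ x, F x = F (x % 3 ^ K)) :
    ∑ U ∈ range (3 ^ K), F (q + X * U) = ∑ U ∈ range (3 ^ K), F U := by
  have hN : 0 < 3 ^ K := by positivity
  have hcop : Nat.gcd (3 ^ K) X = 1 := by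
    refine Nat.Coprime.pow_left K ?_
    rw [Nat.Prime.coprime_iff_not_dvd Nat.prime_three]
    intro h
    exact hX (Nat.mod_eq_zero_of_dvd h)
  have hmaps : ∀ U ∈ range (3 ^ K), (q + X * U) % 3 ^ K ∈ range (3 ^ K) := fun U _ =>
    mem_range.2 (Nat.mod_lt _ hN)
  have hinj : Set.InjOn (fun U => (q + X * U) % 3 ^ K) (range (3 ^ K) : Finset ℕ) := by
    intro a ha b hb hab
    have h1 : q + X * a ≡ q + X * b [MOD 3 ^ K] := hab
    have h2 := Nat.ModEq.add_left_cancel' q h1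
    have h3 := Nat.ModEq.cancel_left_of_coprime hcop h2
    have h4 : a % 3 ^ K = b % 3 ^ K := h3
    rwa [Nat.mod_eq_of_lt (mem_range.1 ha), Nat.mod_eq_of_lt (mem_range.1 hb)] at h4
  have hsurj : Set.SurjOn (fun U => (q + X * U) % 3 ^ K) (range (3 ^ K) : Finset ℕ)
      (range (3 ^ K) : Finset ℕ) :=
    Finset.surjOn_of_injOn_of_card_le _ hmaps hinj le_rfl
  exact sum_nbij (fun U => (q + X * U) % 3 ^ K) hmaps hinj hsurj fun U _ => hF _

omit [Slope] in
theorem BAS_jensen {ι : Type} (t : Finset ι) (p z : ι → ℝ) (hp : ∀ i ∈ t, 0 ≤ p i)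
    (h1 : ∑ i ∈ t, p i = 1) (hz : ∀ i ∈ t, 0 < z i) :
    ∑ i ∈ t, p i * Real.log (z i) ≤ Real.log (∑ i ∈ t, p i * z i) := by
  have h2 := strictConcaveOn_log_Ioi.concaveOn.le_map_sum (t := t) (w := p) (p := z) hp h1
    (fun i hi => hz i hi)
  simpa only [smul_eq_mul] using h2

/-- the sums over a class -/
noncomputable def BASY (β : ℝ) (M g j k n J y : ℕ) (κ : ℕ × ℕ) (b : List ℕ) (V : ℕ) : ℝ :=
  ∑ a ∈ (BP M g j y).filter (fun a => ky y k a = κ), kap β M g j y a *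
    W β M (n * J) (en b κ.2 % 3 + 3 * (2 ^ b.sum * (en a y / 3 ^ (k + 1)) + V))

theorem BAS_step1 (hβ : 0 < β) (hβ1 : β ≤ 1) (hM : 7 ≤ M) (g j k m y U : ℕ) (hy : y % 3 ≠ 0) :
    0 < ∑ a ∈ BP M g j y, kap β M g j y a * W β M (k + m) (en a y + 3 ^ (k + 1) * (2 ^ a.sum * U)) ∧
    j * Real.log (mm β M g) + Real.log (∑ a ∈ BP M g j y, kap β M g j y a *
        W β M (k + m) (en a y + 3 ^ (k + 1) * (2 ^ a.sum * U))) ≤
      Real.log (W β M (j * g + k + m) (y + 3 ^ (j * g + k + 1) * U)) := by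
  have e0 : y + 3 ^ (j * g + k + 1) * U = y + 3 ^ (j * g + 1) * (3 ^ k * U) := by ring
  have hy' : (y + 3 ^ (j * g + 1) * (3 ^ k * U)) % 3 ≠ 0 := by
    have : 3 ^ (j * g + 1) * (3 ^ k * U) = 3 * (3 ^ (j * g) * (3 ^ k * U)) := by ring
    omega
  have h1 := W_BP hβ hβ1 hM (g := g) (j := j) (i := k + m) hy'
  rw [BP_add, ← add_assoc] at h1
  have h2 : ∑ a ∈ BP M g j y, kap β M g j (y + 3 ^ (j * g + 1) * (3 ^ k * U)) a *
        W β M (k + m) (en a (y + 3 ^ (j * g + 1) * (3 ^ k * U))) =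
      ∑ a ∈ BP M g j y, kap β M g j y a *
        W β M (k + m) (en a y + 3 ^ (k + 1) * (2 ^ a.sum * U)) := by
    refine sum_congr rfl fun a ha => ?_
    rw [kap_add β ha, en_BP_add hy ha]
    congr 2
    ring
  rw [h2] at h1
  rw [e0]
  have hne : (BP M g j y).Nonempty := by
    by_contra hcon
    rw [not_nonempty_iff_eq_empty] at hcon
    have h3 := kap_sum hβ hβ1 hM (g := g) (j := j) hy
    rw [hcon, sum_empty] at h3
    exact zero_ne_one h3
  have hpos : 0 < ∑ a ∈ BP M g j y, kap β M g j y a *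
      W β M (k + m) (en a y + 3 ^ (k + 1) * (2 ^ a.sum * U)) := by
    refine sum_pos (fun a ha => mul_pos (kap_pos hβ hβ1 hM hy ha) ?_) hne
    have h4 := (BP_spec hy ha).2.2.2.1
    have h5 : (en a y + 3 ^ (k + 1) * (2 ^ a.sum * U)) % 3 ≠ 0 := by
      have : 3 ^ (k + 1) * (2 ^ a.sum * U) = 3 * (3 ^ k * (2 ^ a.sum * U)) := by ring
      omega
    exact (mm_pos hβ hβ1 hM (k + m)).trans_le (mm_le β M (k + m) _ h5)
  refine ⟨hpos, ?_⟩
  have hmm := mm_pos hβ hβ1 hM g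
  rw [← Real.log_pow, ← Real.log_mul (pow_pos hmm j).ne' hpos.ne']
  exact Real.log_le_log (mul_pos (pow_pos hmm j) hpos) h1

theorem BAS_step2 (g j k n J y U : ℕ) (hβ : 0 < β) (hβ1 : β ≤ 1) (hM : 7 ≤ M) (hy : y % 3 ≠ 0)
    (κ : ℕ × ℕ) :
    ∑ b ∈ PP M k κ.2, wt β k b * BASY β M g j k n J y κ b
        (en b κ.2 / 3 + 2 ^ (b.sum + κ.1) * U) ≤
      ∑ a ∈ (BP M g j y).filter (fun a => ky y k a = κ), kap β M g j y a *
        W β M (k + n * J) (en a y + 3 ^ (k + 1) * (2 ^ a.sum * U)) := by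
  simp only [BASY, mul_sum]
  rw [sum_comm]
  refine sum_le_sum fun a ha => ?_
  obtain ⟨ha1, ha2⟩ := mem_filter.1 ha
  have hk1 : a.sum = κ.1 := congrArg Prod.fst ha2
  have hk2 : en a y % 3 ^ (k + 1) = κ.2 := congrArg Prod.snd ha2
  have e1 : en a y + 3 ^ (k + 1) * (2 ^ a.sum * U) =
      κ.2 + 3 ^ (k + 1) * (en a y / 3 ^ (k + 1) + 2 ^ κ.1 * U) := by
    rw [← hk2, ← hk1]
    have := Nat.mod_add_div (en a y) (3 ^ (k + 1))
    rw [mul_add]
    omega
  have h1 := W_super β M k (n * J) (en a y + 3 ^ (k + 1) * (2 ^ a.sum * U))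
  have e2 : PP M k (en a y + 3 ^ (k + 1) * (2 ^ a.sum * U)) = PP M k κ.2 := by
    rw [PP_mod, Nat.add_mul_mod_self_left, hk2]
  rw [e2] at h1
  have h2 : ∑ b ∈ PP M k κ.2, wt β k b * (kap β M g j y a * W β M (n * J)
        (en b κ.2 % 3 + 3 * (2 ^ b.sum * (en a y / 3 ^ (k + 1)) +
          (en b κ.2 / 3 + 2 ^ (b.sum + κ.1) * U)))) =
      kap β M g j y a * ∑ b ∈ PP M k κ.2, wt β k b * W β M (n * J)
        (en b (en a y + 3 ^ (k + 1) * (2 ^ a.sum * U))) := by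
    rw [mul_sum]
    refine sum_congr rfl fun b hb => ?_
    have hb' := mem_PP.1 hb
    have e3 : en b (en a y + 3 ^ (k + 1) * (2 ^ a.sum * U)) =
        en b κ.2 % 3 + 3 * (2 ^ b.sum * (en a y / 3 ^ (k + 1)) +
          (en b κ.2 / 3 + 2 ^ (b.sum + κ.1) * U)) := by
      rw [e1]
      have h3 := (en_add b κ.2 (en a y / 3 ^ (k + 1) + 2 ^ κ.1 * U) hb'.2.1).2
      rw [hb'.1.1] at h3
      rw [h3]
      have h4 := Nat.mod_add_div (en b κ.2) 3
      have h5 : 3 * 2 ^ b.sum * (en a y / 3 ^ (k + 1) + 2 ^ κ.1 * U) =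
          3 * (2 ^ b.sum * (en a y / 3 ^ (k + 1)) + 2 ^ (b.sum + κ.1) * U) := by ring
      rw [h5]
      omega
    rw [e3]
    ring
  rw [h2]
  exact mul_le_mul_of_nonneg_left h1 (kap_pos hβ hβ1 hM hy ha1).le

/-- one fixed `U` -/
theorem BAS_step3 (hβ : 0 < β) (hβ1 : β ≤ 1) (hM : 7 ≤ M) (g j k n J y U : ℕ) (hy : y % 3 ≠ 0) :
    j * Real.log (mm β M g) + ∑ κ ∈ (BP M g j y).image (ky y k),
        (∑ a ∈ (BP M g j y).filter (fun a => ky y k a = κ), kap β M g j y a) *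
          ∑ b ∈ PP M k κ.2, wt β k b / W β M k κ.2 * (Real.log (mm β M k) +
            Real.log (BASY β M g j k n J y κ b (en b κ.2 / 3 + 2 ^ (b.sum + κ.1) * U)) -
            Real.log (∑ a ∈ (BP M g j y).filter (fun a => ky y k a = κ), kap β M g j y a)) ≤
      Real.log (W β M (j * g + k + n * J) (y + 3 ^ (j * g + k + 1) * U)) := by
  classical
  obtain ⟨hZ, h1⟩ := BAS_step1 hβ hβ1 hM g j k (n * J) y U hy
  refine le_trans ?_ h1
  refine add_le_add le_rfl ?_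
  set K := (BP M g j y).image (ky y k) with hK
  set T : ℕ × ℕ → ℝ := fun κ => ∑ a ∈ (BP M g j y).filter (fun a => ky y k a = κ),
    kap β M g j y a with hT
  set V : ℕ × ℕ → List ℕ → ℕ := fun κ b => en b κ.2 / 3 + 2 ^ (b.sum + κ.1) * U with hV
  set Y : ℕ × ℕ → List ℕ → ℝ := fun κ b => BASY β M g j k n J y κ b (V κ b) with hY
  have hmaps : ∀ a ∈ BP M g j y, ky y k a ∈ K := fun a ha => mem_image_of_mem _ ha
  have hTpos : ∀ κ ∈ K, 0 < T κ := by
    intro κ hκ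
    obtain ⟨a, ha, rfl⟩ := mem_image.1 hκ
    exact sum_pos (fun b hb => kap_pos hβ hβ1 hM hy (mem_filter.1 hb).1)
      ⟨a, mem_filter.2 ⟨ha, rfl⟩⟩
  have hTsum : ∑ κ ∈ K, T κ = 1 := by
    rw [← kap_sum hβ hβ1 hM (g := g) (j := j) hy]
    exact sum_fiberwise_of_maps_to hmaps _
  have hunit : ∀ κ ∈ K, κ.2 % 3 ≠ 0 := by
    intro κ hκ
    obtain ⟨a, ha, rfl⟩ := mem_image.1 hκ
    change en a y % 3 ^ (k + 1) % 3 ≠ 0
    rw [Nat.mod_mod_of_dvd _ (dvd_pow_self 3 (Nat.succ_ne_zero k))]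
    exact (BP_spec hy ha).2.2.2.1
  have hWpos : ∀ κ ∈ K, 0 < W β M k κ.2 := fun κ hκ =>
    (mm_pos hβ hβ1 hM k).trans_le (mm_le β M k _ (hunit κ hκ))
  have hYpos : ∀ κ ∈ K, ∀ b ∈ PP M k κ.2, 0 < Y κ b := by
    intro κ hκ b hb
    obtain ⟨a, ha, hak⟩ := mem_image.1 hκ
    refine sum_pos (fun a ha => mul_pos (kap_pos hβ hβ1 hM hy (mem_filter.1 ha).1) ?_)
      ⟨a, mem_filter.2 ⟨ha, hak⟩⟩
    have h3 := (mem_PP.1 hb).2.2.1
    refine (mm_pos hβ hβ1 hM (n * J)).trans_le (mm_le β M (n * J) _ ?_)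
    omega
  have hpsum : ∀ κ ∈ K, ∑ b ∈ PP M k κ.2, wt β k b / W β M k κ.2 = 1 := by
    intro κ hκ
    rw [← sum_div]
    exact div_self (hWpos κ hκ).ne'
  -- the inner Jensen inequality
  have hin : ∀ κ ∈ K, ∑ b ∈ PP M k κ.2, wt β k b / W β M k κ.2 * (Real.log (mm β M k) +
      Real.log (Y κ b) - Real.log (T κ)) ≤
      Real.log ((∑ b ∈ PP M k κ.2, wt β k b * Y κ b) / T κ) := by
    intro κ hκ
    have hW := hWpos κ hκ
    have hT0 := hTpos κ hκ
    have h2 := BAS_jensen (PP M k κ.2) (fun b => wt β k b / W β M k κ.2)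
      (fun b => W β M k κ.2 * Y κ b / T κ) (fun b _ => (div_pos (wt_pos β k b) hW).le)
      (hpsum κ hκ) (fun b hb => div_pos (mul_pos hW (hYpos κ hκ b hb)) hT0)
    have h3 : ∑ b ∈ PP M k κ.2, wt β k b / W β M k κ.2 * (W β M k κ.2 * Y κ b / T κ) =
        (∑ b ∈ PP M k κ.2, wt β k b * Y κ b) / T κ := by
      rw [sum_div]
      refine sum_congr rfl fun b _ => ?_
      field_simp
    rw [h3] at h2
    refine le_trans (sum_le_sum fun b hb => ?_) h2
    refine mul_le_mul_of_nonneg_left ?_ (div_pos (wt_pos β k b) hW).le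
    rw [Real.log_div (mul_pos hW (hYpos κ hκ b hb)).ne' hT0.ne',
      Real.log_mul hW.ne' (hYpos κ hκ b hb).ne']
    have h4 := Real.log_le_log (mm_pos hβ hβ1 hM k) (mm_le β M k _ (hunit κ hκ))
    linarith
  have hApos : ∀ κ ∈ K, 0 < (∑ b ∈ PP M k κ.2, wt β k b * Y κ b) / T κ := by
    intro κ hκ
    refine div_pos (sum_pos (fun b hb => mul_pos (wt_pos β k b) (hYpos κ hκ b hb)) ?_) (hTpos κ hκ)
    by_contra hcon
    rw [not_nonempty_iff_eq_empty] at hcon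
    have h3 := hpsum κ hκ
    rw [hcon, sum_empty] at h3
    exact zero_ne_one h3
  have hout := BAS_jensen K T (fun κ => (∑ b ∈ PP M k κ.2, wt β k b * Y κ b) / T κ)
    (fun κ hκ => (hTpos κ hκ).le) hTsum hApos
  refine le_trans (sum_le_sum fun κ hκ =>
    mul_le_mul_of_nonneg_left (hin κ hκ) (hTpos κ hκ).le) (hout.trans ?_)
  have h5 : ∑ κ ∈ K, T κ * ((∑ b ∈ PP M k κ.2, wt β k b * Y κ b) / T κ) =
      ∑ κ ∈ K, ∑ b ∈ PP M k κ.2, wt β k b * Y κ b := by
    refine sum_congr rfl fun κ hκ => ?_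
    have := (hTpos κ hκ).ne'
    field_simp
  rw [h5]
  refine Real.log_le_log ?_ ?_
  · rw [← h5]
    have hKne : K.Nonempty := by
      by_contra hcon
      rw [not_nonempty_iff_eq_empty] at hcon
      rw [hcon, sum_empty] at hTsum
      exact zero_ne_one hTsum
    exact sum_pos (fun κ hκ => mul_pos (hTpos κ hκ) (hApos κ hκ)) hKne
  · rw [← sum_fiberwise_of_maps_to hmaps]
    exact sum_le_sum fun κ _ => BAS_step2 g j k n J y U hβ hβ1 hM hy κ

/-- Chunk BAS, first part: a fixed unit `y`, the digits above `j g + k` uniform.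
Proof: `y_U = y + 3^(j g + k + 1) U`. `W_BP` gives `log W (j g + k + n J) y_U ≥ j log mm g +
log ∑_a kap a W (k + n J) (en a y_U)`, `a ∈ BP j y` (`BP_add`, `kap_add`), with
`en a y_U = en a y + 3^(k+1) 2^(a.sum) U` (`en_BP_add` with `t = 3^k U`), which has the same residue mod `3^(k+1)`
and quotient `v a + 2^(a.sum) U`, `v a = en a y / 3^(k+1)`. Group by `κ = ky y k a = (l, r)`, mass `T_κ`,
class `s_κ`. By `W_super`, `W (k + n J) z ≥ ∑_{b ∈ PP k r} wt b W (n J) (en b z)`,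
`en b (r + 3^(k+1) v) = en b r + 3 2^(b.sum) v = c_b + 3 (q_b + 2^(b.sum) v)`. Two applications of
Jensen (`∑ T_κ = 1`; `∑_b wt b / W k r = 1`, `W k r ≥ mm k`):
`log ∑_κ T_κ ∑_b wt b Z_{κ,b} ≥ ∑_κ T_κ (log mm k + ∑_b (wt b / W k r) log Z_{κ,b})`,
`Z_{κ,b} = (1/T_κ) ∑_{a ∈ s_κ} kap a W (n J) (c_b + 3 (q_b + 2^(b.sum) (v a + 2^l U)))`.
Mean over `U < 3^(n J)`: `U ↦ q_b + 2^(b.sum + l) U` permutes the residues mod `3^(n J)`, so `gain` (GWA.lean) with
`X = 2^(b.sum)` gives mean `log Z_{κ,b} ≥ J log mm n + (D/2) gw(s_κ, v) / T_κ`. -/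
theorem base_step (hβ : 0 < β) (hβ1 : β ≤ 1) (hM : 7 ≤ M) {n : ℕ} (hn : 1 ≤ n) (D : ℝ)
    (hD : ∀ v : ℕ, v = 1 ∨ v = 2 → Real.log (mm β M n) + D ≤ Real.log (cm β M n v))
    (g j k J y : ℕ) (hy : y % 3 ≠ 0) :
    j * Real.log (mm β M g) + Real.log (mm β M k) + J * Real.log (mm β M n) +
        D / 2 * ∑ κ ∈ (BP M g j y).image (ky y k), gw n (kap β M g j y) J
          ((BP M g j y).filter (fun a => ky y k a = κ)) (fun a => en a y / 3 ^ (k + 1)) ≤
      (∑ U ∈ range (3 ^ (n * J)),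
        Real.log (W β M (j * g + k + n * J) (y + 3 ^ (j * g + k + 1) * U))) / 3 ^ (n * J) := by
  classical
  set K := (BP M g j y).image (ky y k) with hK
  set T : ℕ × ℕ → ℝ := fun κ => ∑ a ∈ (BP M g j y).filter (fun a => ky y k a = κ),
    kap β M g j y a with hT
  set N : ℝ := 3 ^ (n * J) with hN
  have hN0 : 0 < N := by positivity
  have hmaps : ∀ a ∈ BP M g j y, ky y k a ∈ K := fun a ha => mem_image_of_mem _ ha
  have hTpos : ∀ κ ∈ K, 0 < T κ := by
    intro κ hκ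
    obtain ⟨a, ha, rfl⟩ := mem_image.1 hκ
    exact sum_pos (fun b hb => kap_pos hβ hβ1 hM hy (mem_filter.1 hb).1)
      ⟨a, mem_filter.2 ⟨ha, rfl⟩⟩
  have hTsum : ∑ κ ∈ K, T κ = 1 := by
    rw [← kap_sum hβ hβ1 hM (g := g) (j := j) hy]
    exact sum_fiberwise_of_maps_to hmaps _
  have hunit : ∀ κ ∈ K, κ.2 % 3 ≠ 0 := by
    intro κ hκ
    obtain ⟨a, ha, rfl⟩ := mem_image.1 hκ
    change en a y % 3 ^ (k + 1) % 3 ≠ 0
    rw [Nat.mod_mod_of_dvd _ (dvd_pow_self 3 (Nat.succ_ne_zero k))]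
    exact (BP_spec hy ha).2.2.2.1
  have hWpos : ∀ κ ∈ K, 0 < W β M k κ.2 := fun κ hκ =>
    (mm_pos hβ hβ1 hM k).trans_le (mm_le β M k _ (hunit κ hκ))
  have hpsum : ∀ κ ∈ K, ∑ b ∈ PP M k κ.2, wt β k b / W β M k κ.2 = 1 := by
    intro κ hκ
    rw [← sum_div]
    exact div_self (hWpos κ hκ).ne'
  -- the means over `U`
  have hmean : ∀ κ : ℕ × ℕ, ∀ b : List ℕ, ∑ U ∈ range (3 ^ (n * J)),
      Real.log (BASY β M g j k n J y κ b (en b κ.2 / 3 + 2 ^ (b.sum + κ.1) * U)) =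
      ∑ U ∈ range (3 ^ (n * J)), Real.log (BASY β M g j k n J y κ b U) := by
    intro κ b
    refine BAS_perm (F := fun V => Real.log (BASY β M g j k n J y κ b V)) ?_ fun x => ?_
    · intro h
      have h1 : 3 ∣ 2 ^ (b.sum + κ.1) := Nat.dvd_of_mod_eq_zero h
      have h2 := Nat.Prime.dvd_of_dvd_pow Nat.prime_three h1
      norm_num at h2
    · change Real.log (BASY β M g j k n J y κ b x) =
        Real.log (BASY β M g j k n J y κ b (x % 3 ^ (n * J)))
      congr 1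
      refine sum_congr rfl fun a _ => ?_
      congr 1
      rw [W_mod, W_mod β M (n * J) (_ + 3 * (_ + x % 3 ^ (n * J)))]
      congr 1
      have h3 : x = x % 3 ^ (n * J) + 3 ^ (n * J) * (x / 3 ^ (n * J)) := (Nat.mod_add_div x _).symm
      conv_lhs => rw [h3]
      have h4 : en b κ.2 % 3 + 3 * (2 ^ b.sum * (en a y / 3 ^ (k + 1)) +
          (x % 3 ^ (n * J) + 3 ^ (n * J) * (x / 3 ^ (n * J)))) =
          en b κ.2 % 3 + 3 * (2 ^ b.sum * (en a y / 3 ^ (k + 1)) + x % 3 ^ (n * J)) +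
            3 ^ (n * J + 1) * (x / 3 ^ (n * J)) := by ring
      rw [h4, Nat.add_mul_mod_self_left]
  -- the gain
  have hgain : ∀ κ ∈ K, ∀ b ∈ PP M k κ.2,
      T κ * (Real.log (T κ) + J * Real.log (mm β M n)) + D / 2 * gw n (kap β M g j y) J
          ((BP M g j y).filter (fun a => ky y k a = κ)) (fun a => en a y / 3 ^ (k + 1)) ≤
        T κ * ((∑ U ∈ range (3 ^ (n * J)), Real.log (BASY β M g j k n J y κ b U)) / N) := by
    intro κ hκ b hb
    obtain ⟨a, ha, hak⟩ := mem_image.1 hκ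
    refine gain hβ hβ1 hM hn D hD (kap β M g j y) J _ ⟨a, mem_filter.2 ⟨ha, hak⟩⟩
      (fun a ha => kap_pos hβ hβ1 hM hy (mem_filter.1 ha).1) _ (2 ^ b.sum) (en b κ.2 % 3) ?_ ?_
    · intro h
      have h1 : 3 ∣ 2 ^ b.sum := Nat.dvd_of_mod_eq_zero h
      have h2 := Nat.Prime.dvd_of_dvd_pow Nat.prime_three h1
      norm_num at h2
    · have h3 := (mem_PP.1 hb).2.2.1
      omega
  -- summation over `U`
  have h1 := sum_le_sum fun U (_ : U ∈ range (3 ^ (n * J))) =>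
    BAS_step3 hβ hβ1 hM g j k n J y U hy
  rw [sum_add_distrib, sum_const, card_range, nsmul_eq_mul, sum_comm] at h1
  rw [le_div_iff₀ hN0]
  refine le_trans ?_ h1
  have hcast : ((3 ^ (n * J) : ℕ) : ℝ) = N := by
    rw [hN]
    push_cast
    ring
  rw [hcast]
  have h2 : ∀ κ ∈ K, N * (T κ * (Real.log (mm β M k) + J * Real.log (mm β M n)) + D / 2 *
      gw n (kap β M g j y) J ((BP M g j y).filter (fun a => ky y k a = κ))
        (fun a => en a y / 3 ^ (k + 1))) ≤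
      ∑ U ∈ range (3 ^ (n * J)), T κ * ∑ b ∈ PP M k κ.2, wt β k b / W β M k κ.2 *
        (Real.log (mm β M k) +
          Real.log (BASY β M g j k n J y κ b (en b κ.2 / 3 + 2 ^ (b.sum + κ.1) * U)) -
          Real.log (T κ)) := by
    intro κ hκ
    rw [← mul_sum, sum_comm]
    have h3 : ∀ b ∈ PP M k κ.2, ∑ U ∈ range (3 ^ (n * J)), wt β k b / W β M k κ.2 *
        (Real.log (mm β M k) +
          Real.log (BASY β M g j k n J y κ b (en b κ.2 / 3 + 2 ^ (b.sum + κ.1) * U)) -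
          Real.log (T κ)) = wt β k b / W β M k κ.2 * (N * (Real.log (mm β M k) - Real.log (T κ)) +
          ∑ U ∈ range (3 ^ (n * J)), Real.log (BASY β M g j k n J y κ b U)) := by
      intro b _
      rw [← mul_sum, sum_sub_distrib, sum_add_distrib, hmean, sum_const, sum_const, card_range,
        nsmul_eq_mul, nsmul_eq_mul, hcast]
      ring
    rw [sum_congr rfl h3, mul_sum]
    have h4 : ∀ b ∈ PP M k κ.2, wt β k b / W β M k κ.2 *
        (N * (T κ * (Real.log (mm β M k) + J * Real.log (mm β M n)) + D / 2 *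
          gw n (kap β M g j y) J ((BP M g j y).filter (fun a => ky y k a = κ))
            (fun a => en a y / 3 ^ (k + 1)))) ≤
        T κ * (wt β k b / W β M k κ.2 * (N * (Real.log (mm β M k) - Real.log (T κ)) +
          ∑ U ∈ range (3 ^ (n * J)), Real.log (BASY β M g j k n J y κ b U))) := by
      intro b hb
      have h5 := hgain κ hκ b hb
      have h6 : N * (T κ * (Real.log (T κ) + J * Real.log (mm β M n)) + D / 2 *
          gw n (kap β M g j y) J ((BP M g j y).filter (fun a => ky y k a = κ))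
            (fun a => en a y / 3 ^ (k + 1))) ≤
          T κ * ∑ U ∈ range (3 ^ (n * J)), Real.log (BASY β M g j k n J y κ b U) := by
        have h7 := mul_le_mul_of_nonneg_left h5 hN0.le
        refine h7.trans (le_of_eq ?_)
        field_simp
      have h8 : 0 ≤ wt β k b / W β M k κ.2 := (div_pos (wt_pos β k b) (hWpos κ hκ)).le
      have h9 := mul_le_mul_of_nonneg_left (a := wt β k b / W β M k κ.2)
        (show N * (T κ * (Real.log (mm β M k) + J * Real.log (mm β M n)) + D / 2 *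
          gw n (kap β M g j y) J ((BP M g j y).filter (fun a => ky y k a = κ))
            (fun a => en a y / 3 ^ (k + 1))) ≤
          T κ * (N * (Real.log (mm β M k) - Real.log (T κ)) +
          ∑ U ∈ range (3 ^ (n * J)), Real.log (BASY β M g j k n J y κ b U)) by linarith) h8
      refine h9.trans (le_of_eq ?_)
      ring
    refine le_trans (le_of_eq ?_) (sum_le_sum h4)
    rw [← sum_mul, hpsum κ hκ, one_mul]
  have h3 := sum_le_sum h2
  refine le_trans (le_of_eq ?_) (add_le_add le_rfl h3)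
  rw [← mul_sum, sum_add_distrib, ← sum_mul, hTsum, ← mul_sum]
  ring

end H62s
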