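import Pool.Agent.Lib.H62w.PathsA

set_option autoImplicit false
open Finset
namespace H62s
open H62w

/-! Chunk BIN: number of words of given length and sum, and the entropy function. -/

/-- `h(μ) = μ log μ - (μ-1) log (μ-1)`. -/
noncomputable def hh (μ : ℝ) : ℝ := μ * Real.log μ - (μ - 1) * Real.log (μ - 1)

/-- Words of length `n` and sum `L`. -/
def wsum (M n L : ℕ) : Finset (List ℕ) := (words M n).filter (fun l => l.sum = L)

theorem BIN_mem {M n L : ℕ} {l : List ℕ} :
    l ∈ wsum M n L ↔ l.length = n ∧ (∀ a ∈ l, 1 ≤ a ∧ a ≤ M) ∧ l.sum = L := by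
  unfold wsum
  rw [mem_filter, mem_words, and_assoc]

/-- Increase the first letter by one. -/
def BIN_inc : List ℕ → List ℕ
  | [] => []
  | a :: l => (a + 1) :: l

/-- There are at least `C(L-1, n-1)` of them. Induction on `L` by Pascal's rule: words of length `n+1` and sum `L+1`
contain `1 :: l` (`l` of length `n`, sum `L`) and the words of length `n+1`, sum `L` with the first letter
increased by one. -/
theorem card_wsum (M n L : ℕ) (h : L + 1 ≤ M) : L.choose n ≤ (wsum M (n + 1) (L + 1)).card := by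
  induction L generalizing n with
  | zero =>
    rcases n with _ | n
    · simp only [Nat.choose_zero_right, Nat.one_le_iff_ne_zero, ne_eq, card_eq_zero]
      rw [← ne_eq, ← nonempty_iff_ne_empty]
      exact ⟨[1], BIN_mem.2 ⟨by simp, by simpa using h, by simp⟩⟩
    · simp
  | succ L ih =>
    rcases n with _ | n
    · simp only [Nat.choose_zero_right, Nat.one_le_iff_ne_zero, ne_eq, card_eq_zero]
      rw [← ne_eq, ← nonempty_iff_ne_empty]
      exact ⟨[L + 1 + 1], BIN_mem.2 ⟨by simp, by simpa using h, by simp⟩⟩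
    · rw [Nat.choose_succ_succ]
      have h1 := ih n (by omega)
      have h2 := ih (n + 1) (by omega)
      have hinj1 : Set.InjOn (fun l : List ℕ => 1 :: l) (wsum M (n + 1) (L + 1) : Set (List ℕ)) := by
        intro a _ b _ hab
        exact (List.cons.inj hab).2
      have hinj2 : Set.InjOn BIN_inc (wsum M (n + 1 + 1) (L + 1) : Set (List ℕ)) := by
        intro a ha b hb hab
        have ha' := (BIN_mem.1 (mem_coe.1 ha)).1
        have hb' := (BIN_mem.1 (mem_coe.1 hb)).1
        rcases a with _ | ⟨a, l⟩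
        · simp at ha'
        rcases b with _ | ⟨b, l'⟩
        · simp at hb'
        simp only [BIN_inc, List.cons.injEq, Nat.add_right_cancel_iff] at hab
        rw [hab.1, hab.2]
      have hdisj : Disjoint ((wsum M (n + 1) (L + 1)).image (fun l => 1 :: l))
          ((wsum M (n + 1 + 1) (L + 1)).image BIN_inc) := by
        rw [disjoint_left]
        intro l h1 h2
        obtain ⟨a, -, rfl⟩ := mem_image.1 h1
        obtain ⟨b, hb, hb2⟩ := mem_image.1 h2
        obtain ⟨hb3, hb4, -⟩ := BIN_mem.1 hb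
        rcases b with _ | ⟨b, l'⟩
        · simp at hb3
        simp only [BIN_inc, List.cons.injEq] at hb2
        have := (hb4 b List.mem_cons_self).1
        omega
      have hsub : (wsum M (n + 1) (L + 1)).image (fun l => 1 :: l) ∪
          (wsum M (n + 1 + 1) (L + 1)).image BIN_inc ⊆ wsum M (n + 1 + 1) (L + 1 + 1) := by
        refine union_subset ?_ ?_
        · intro l hl
          obtain ⟨a, ha, rfl⟩ := mem_image.1 hl
          obtain ⟨h3, h4, h5⟩ := BIN_mem.1 ha
          refine BIN_mem.2 ⟨by simp [h3], ?_, by simp [h5]; omega⟩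
          intro c hc
          rcases List.mem_cons.1 hc with rfl | hc
          · exact ⟨le_rfl, by omega⟩
          · exact h4 c hc
        · intro l hl
          obtain ⟨a, ha, rfl⟩ := mem_image.1 hl
          obtain ⟨h3, h4, h5⟩ := BIN_mem.1 ha
          rcases a with _ | ⟨a, l⟩
          · simp at h3
          refine BIN_mem.2 ⟨by simpa [BIN_inc] using h3, ?_, ?_⟩
          · intro c hc
            rcases List.mem_cons.1 hc with rfl | hc
            · simp only [List.sum_cons] at h5
              exact ⟨by omega, by omega⟩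
            · exact h4 c (List.mem_cons_of_mem _ hc)
          · simp only [BIN_inc, List.sum_cons] at h5 ⊢
            omega
      calc L.choose n + L.choose (n + 1) ≤ (wsum M (n + 1) (L + 1)).card +
            (wsum M (n + 1 + 1) (L + 1)).card := add_le_add h1 h2
        _ = ((wsum M (n + 1) (L + 1)).image (fun l => 1 :: l)).card +
            ((wsum M (n + 1 + 1) (L + 1)).image BIN_inc).card := by
          rw [card_image_of_injOn hinj1, card_image_of_injOn hinj2]
        _ = ((wsum M (n + 1) (L + 1)).image (fun l => 1 :: l) ∪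
            (wsum M (n + 1 + 1) (L + 1)).image BIN_inc).card := (card_union_of_disjoint hdisj).symm
        _ ≤ _ := card_le_card hsub

/-- The terms of the binomial formula. -/
def BIN_tm (n m k : ℕ) : ℕ := (n + m).choose k * (n ^ k * m ^ (n + m - k))

/-- `C(L,n) ≥ L^L / (n^n (L-n)^(L-n) (L+1))`: the term `k = n` of `(n + (L-n))^L = ∑ C(L,k) n^k (L-n)^(L-k)` is the
largest one (the ratio of the terms `k+1` and `k` is `(L-k) n / ((k+1)(L-n))`, at least one iff `k < n`). -/
theorem choose_ge (L n : ℕ) (h : n ≤ L) :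
    L ^ L ≤ (L + 1) * (L.choose n * (n ^ n * (L - n) ^ (L - n))) := by
  obtain ⟨m, rfl⟩ := Nat.exists_eq_add_of_le h
  rw [Nat.add_sub_cancel_left]
  rcases Nat.eq_zero_or_pos m with rfl | hm
  · simp only [add_zero, Nat.choose_self, pow_zero, mul_one, one_mul]
    exact Nat.le_mul_of_pos_left _ (by omega)
  -- the ratio of two consecutive terms
  have hr : ∀ k, k + 1 ≤ n + m →
      BIN_tm n m (k + 1) * ((k + 1) * m) = BIN_tm n m k * ((n + m - k) * n) := by
    intro k hk
    obtain ⟨j, hj⟩ := Nat.exists_eq_add_of_le hk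
    have e1 : n + m - k = j + 1 := by omega
    have e2 : n + m - (k + 1) = j := by omega
    have h1 := Nat.choose_succ_right_eq (n + m) k
    unfold BIN_tm
    rw [e1] at h1
    rw [e1, e2]
    calc (n + m).choose (k + 1) * (n ^ (k + 1) * m ^ j) * ((k + 1) * m)
        = ((n + m).choose (k + 1) * (k + 1)) * (n ^ (k + 1) * m ^ (j + 1)) := by ring
      _ = ((n + m).choose k * (j + 1)) * (n ^ (k + 1) * m ^ (j + 1)) := by rw [h1]
      _ = (n + m).choose k * (n ^ k * m ^ (j + 1)) * ((j + 1) * n) := by ring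
  have hup : ∀ k, k + 1 ≤ n → BIN_tm n m k ≤ BIN_tm n m (k + 1) := by
    intro k hk
    have h1 := hr k (by omega)
    have h2 : (k + 1) * m ≤ (n + m - k) * n := by
      obtain ⟨i, rfl⟩ := Nat.exists_eq_add_of_le hk
      have e : k + 1 + i + m - k = 1 + i + m := by omega
      rw [e]
      nlinarith [Nat.zero_le (i * k), Nat.zero_le (i * i), Nat.zero_le (i * m)]
    have h3 : BIN_tm n m k * ((k + 1) * m) ≤ BIN_tm n m (k + 1) * ((k + 1) * m) := by
      rw [h1]
      exact Nat.mul_le_mul_left _ h2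
    exact Nat.le_of_mul_le_mul_right h3 (by positivity)
  have hdn : ∀ k, n ≤ k → k + 1 ≤ n + m → BIN_tm n m (k + 1) ≤ BIN_tm n m k := by
    intro k hk hk2
    have h1 := hr k hk2
    have h2 : (n + m - k) * n ≤ (k + 1) * m := by
      obtain ⟨i, rfl⟩ := Nat.exists_eq_add_of_le hk
      obtain ⟨j, hj⟩ := Nat.exists_eq_add_of_le hk2
      have e : n + m - (n + i) = j + 1 := by omega
      have e3 : m = i + 1 + j := by omega
      rw [e, e3]
      nlinarith [Nat.zero_le (i * n), Nat.zero_le (i * i), Nat.zero_le (i * j)]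
    have h3 : BIN_tm n m (k + 1) * ((k + 1) * m) ≤ BIN_tm n m k * ((k + 1) * m) := by
      rw [h1]
      exact Nat.mul_le_mul_left _ h2
    exact Nat.le_of_mul_le_mul_right h3 (by positivity)
  have hmax1 : ∀ i, i ≤ n → BIN_tm n m (n - i) ≤ BIN_tm n m n := by
    intro i
    induction i with
    | zero => intro _; simp
    | succ i ih =>
      intro hi
      have h1 := hup (n - (i + 1)) (by omega)
      have e : n - (i + 1) + 1 = n - i := by omega
      rw [e] at h1
      exact h1.trans (ih (by omega))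
  have hmax2 : ∀ i, i ≤ m → BIN_tm n m (n + i) ≤ BIN_tm n m n := by
    intro i
    induction i with
    | zero => intro _; simp
    | succ i ih =>
      intro hi
      exact (hdn (n + i) (by omega) (by omega)).trans (ih (by omega))
  have hmax : ∀ k ∈ range (n + m + 1), BIN_tm n m k ≤ BIN_tm n m n := by
    intro k hk
    rw [mem_range] at hk
    rcases le_total k n with h1 | h1
    · have := hmax1 (n - k) (by omega)
      rwa [show n - (n - k) = k by omega] at this
    · have := hmax2 (k - n) (by omega)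
      rwa [show n + (k - n) = k by omega] at this
  have hsum := sum_le_sum hmax
  rw [sum_const, card_range, smul_eq_mul] at hsum
  have e1 : (n + m) ^ (n + m) = ∑ k ∈ range (n + m + 1), BIN_tm n m k := by
    rw [add_pow]
    refine sum_congr rfl fun k _ => ?_
    unfold BIN_tm
    simp only [Nat.cast_id]
    ring
  rw [e1]
  refine hsum.trans (le_of_eq ?_)
  unfold BIN_tm
  rw [Nat.add_sub_cancel_left]

/-- For the slope `p0/q0 > 1`: with `n = q0 t`, `L = p0 t` the number of words is `≥ e^((h(μ) - ε) n)` for large `t`.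
`C(L-1,n-1) = (n/L) C(L,n)`. -/
theorem card_wsum_exp (p0 q0 : ℕ) (hq : 0 < q0) (hp : q0 < p0) (ε : ℝ) (hε : 0 < ε) :
    ∃ t : ℕ, 1 ≤ t ∧ ∀ M : ℕ, p0 * t ≤ M →
      Real.exp ((hh ((p0 : ℝ) / q0) - ε) * (q0 * t : ℕ)) ≤ ((wsum M (q0 * t) (p0 * t)).card : ℝ) := by
  have hp0 : 0 < p0 := by omega
  have hq' : (0 : ℝ) < q0 := by exact_mod_cast hq
  have hp' : (0 : ℝ) < p0 := by exact_mod_cast hp0
  have hpq' : (q0 : ℝ) < p0 := by exact_mod_cast hp
  obtain ⟨t, ht⟩ := exists_nat_gt (4 * (p0 : ℝ) ^ 2 / (q0 * (ε * q0) ^ 2))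
  have ht0 : 0 < (t : ℝ) := lt_of_le_of_lt (by positivity) ht
  have ht1 : 1 ≤ t := by exact_mod_cast ht0
  refine ⟨t, ht1, fun M hM => ?_⟩
  have hn : 0 < q0 * t := Nat.mul_pos hq (by omega)
  have hnL : q0 * t < p0 * t := Nat.mul_lt_mul_of_pos_right hp (by omega)
  set n := q0 * t with hn_def
  set L := p0 * t with hL_def
  have hL : 0 < L := by omega
  have hLr : (L : ℝ) = p0 * t := by rw [hL_def]; push_cast; ring
  have hnr : (n : ℝ) = q0 * t := by rw [hn_def]; push_cast; ring
  have hn' : (0 : ℝ) < n := by exact_mod_cast hn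
  have hL' : (0 : ℝ) < L := by exact_mod_cast hL
  have hnL' : (n : ℝ) < L := by exact_mod_cast hnL
  -- number of words
  have h1 : (L - 1).choose (n - 1) ≤ (wsum M n L).card := by
    have := card_wsum M (n - 1) (L - 1) (by omega)
    rwa [show n - 1 + 1 = n by omega, show L - 1 + 1 = L by omega] at this
  have h2 : n * L.choose n = L * (L - 1).choose (n - 1) := by
    have := Nat.add_one_mul_choose_eq (L - 1) (n - 1)
    rw [show n - 1 + 1 = n by omega, show L - 1 + 1 = L by omega] at this
    rw [this, mul_comm]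
  have h3 := choose_ge L n hnL.le
  -- logs
  have hsub : ((L - n : ℕ) : ℝ) = (L : ℝ) - n := by
    rw [Nat.cast_sub hnL.le]
  have hLn : (0 : ℝ) < (L : ℝ) - n := by linarith
  have hratio : (p0 : ℝ) / q0 = L / n := by
    rw [hLr, hnr]; field_simp
  have hexp : Real.exp (hh ((p0 : ℝ) / q0) * n) =
      (L : ℝ) ^ L / ((n : ℝ) ^ n * ((L : ℝ) - n) ^ (L - n)) := by
    have e1 : hh ((p0 : ℝ) / q0) * n =
        L * Real.log L - (n * Real.log n + ((L : ℝ) - n) * Real.log ((L : ℝ) - n)) := by
      unfold hh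
      rw [hratio]
      have e2 : (L : ℝ) / n - 1 = ((L : ℝ) - n) / n := by field_simp
      rw [e2, Real.log_div hL'.ne' hn'.ne', Real.log_div hLn.ne' hn'.ne']
      field_simp
      ring
    rw [e1, Real.exp_sub, Real.exp_add]
    have e3 : ∀ (x : ℝ) (k : ℕ), 0 < x → Real.exp (k * Real.log x) = x ^ k := by
      intro x k hx
      rw [mul_comm, Real.exp_mul, Real.exp_log hx, Real.rpow_natCast]
    have e4 : Real.exp (((L : ℝ) - n) * Real.log ((L : ℝ) - n)) = ((L : ℝ) - n) ^ (L - n) := by
      have := e3 ((L : ℝ) - n) (L - n) hLn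
      rwa [hsub] at this
    rw [e3 _ _ hL', e3 _ _ hn', e4]
  have h3' : (L : ℝ) ^ L ≤ (L + 1) * (L.choose n * ((n : ℝ) ^ n * ((L : ℝ) - n) ^ (L - n))) := by
    rw [← hsub]
    exact_mod_cast h3
  have h4 : Real.exp (hh ((p0 : ℝ) / q0) * n) ≤ (L + 1) * L.choose n := by
    rw [hexp, div_le_iff₀ (by positivity)]
    linarith
  have h5 : (L.choose n : ℝ) = (L : ℝ) / n * ((L - 1).choose (n - 1) : ℕ) := by
    have : (n : ℝ) * L.choose n = L * ((L - 1).choose (n - 1) : ℕ) := by exact_mod_cast h2
    field_simp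
    linarith
  have h6 : (((L - 1).choose (n - 1) : ℕ) : ℝ) ≤ (wsum M n L).card := by exact_mod_cast h1
  have h7 : ((L : ℝ) + 1) * (L / n) ≤ Real.exp (ε * n) := by
    have e1 := Real.quadratic_le_exp_of_nonneg (x := ε * n) (by positivity)
    have e2 : (L : ℝ) / n = p0 / q0 := hratio.symm
    rw [e2]
    have e3 : ((L : ℝ) + 1) * (p0 / q0) ≤ (ε * n) ^ 2 / 2 := by
      have e4 : 4 * (p0 : ℝ) ^ 2 < t * (q0 * (ε * q0) ^ 2) := by
        rwa [div_lt_iff₀ (by positivity)] at ht
      have e5 : (L : ℝ) + 1 ≤ 2 * (p0 * t) := by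
        rw [hLr]
        have : (1 : ℝ) ≤ p0 * t := by
          have : 1 ≤ p0 * t := Nat.mul_pos hp0 (by omega)
          exact_mod_cast this
        linarith
      rw [mul_div_assoc', div_le_iff₀ hq', hnr]
      calc ((L : ℝ) + 1) * p0 ≤ 2 * (p0 * t) * p0 := by gcongr
        _ = 4 * (p0 : ℝ) ^ 2 * t / 2 := by ring
        _ ≤ t * (q0 * (ε * q0) ^ 2) * t / 2 := by gcongr
        _ = (ε * (q0 * t)) ^ 2 / 2 * q0 := by ring
    have : 0 ≤ ε * n := by positivity
    linarith
  have h8 : Real.exp (hh ((p0 : ℝ) / q0) * n) ≤ Real.exp (ε * n) * (wsum M n L).card := by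
    calc Real.exp (hh ((p0 : ℝ) / q0) * n) ≤ (L + 1) * L.choose n := h4
      _ = ((L + 1) * (L / n)) * (((L - 1).choose (n - 1) : ℕ) : ℝ) := by rw [h5]; ring
      _ ≤ Real.exp (ε * n) * (wsum M n L).card := by gcongr
  have h9 : (hh ((p0 : ℝ) / q0) - ε) * n = hh ((p0 : ℝ) / q0) * n - ε * n := by ring
  rw [h9, Real.exp_sub, div_le_iff₀ (Real.exp_pos _)]
  linarith

end H62s
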