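import Pool.Agent.Lib.H62s.Defs2

set_option autoImplicit false
open Finset
namespace H62s
open H62w
variable [Slope] {β : ℝ} {M : ℕ}

/-! Chunk BPB: elementary facts on block paths. All by induction on `j` (blocks in front). -/

theorem bpb_mem_succ {g j y : ℕ} {a : List ℕ} : a ∈ BP M g (j + 1) y ↔
    ∃ b ∈ PP M g y, ∃ c ∈ BP M g j (en b y), a = b ++ c := by
  simp only [BP, mem_biUnion, mem_image]
  constructor
  · rintro ⟨b, hb, c, hc, rfl⟩
    exact ⟨b, hb, c, hc, rfl⟩
  · rintro ⟨b, hb, c, hc, rfl⟩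
    exact ⟨b, hb, c, hc, rfl⟩

theorem bpb_len {g y : ℕ} {b : List ℕ} (hb : b ∈ PP M g y) : b.length = g := (mem_PP.1 hb).1.1

theorem bpb_take {g y : ℕ} {b : List ℕ} (hb : b ∈ PP M g y) (c : List ℕ) :
    (b ++ c).take g = b := by
  rw [← bpb_len hb]; exact List.take_left

theorem bpb_drop {g y : ℕ} {b : List ℕ} (hb : b ∈ PP M g y) (c : List ℕ) :
    (b ++ c).drop g = c := by
  rw [← bpb_len hb]; exact List.drop_left

theorem bpb_kap_succ (β : ℝ) {g j y : ℕ} {b : List ℕ} (hb : b ∈ PP M g y) (c : List ℕ) :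
    kap β M g (j + 1) y (b ++ c) = wt β g b / W β M g y * kap β M g j (en b y) c := by
  rw [kap, bpb_take hb, bpb_drop hb]

theorem BP_sum_succ (β : ℝ) (M g j y : ℕ) (F : List ℕ → ℝ) :
    ∑ a ∈ BP M g (j + 1) y, kap β M g (j + 1) y a * F a =
      ∑ b ∈ PP M g y, wt β g b / W β M g y *
        ∑ a ∈ BP M g j (en b y), kap β M g j (en b y) a * F (b ++ a) := by
  rw [BP, sum_biUnion]
  · refine sum_congr rfl fun b hb => ?_
    rw [sum_image (fun c _ c' _ h => List.append_cancel_left h), mul_sum]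
    refine sum_congr rfl fun c _ => ?_
    rw [bpb_kap_succ β hb, mul_assoc]
  · intro b hb b' hb' hne
    rw [Function.onFun, disjoint_left]
    intro x hx hx'
    rw [mem_image] at hx hx'
    obtain ⟨c, _, rfl⟩ := hx
    obtain ⟨c', _, h⟩ := hx'
    apply hne
    have h1 := bpb_take (M := M) (mem_coe.1 hb) c
    have h2 := bpb_take (M := M) (mem_coe.1 hb') c'
    rw [← h1, ← h2, h]

/-- Splitting a path of `j + h` blocks after `j` blocks. -/
theorem BP_split (β : ℝ) (M g j h y : ℕ) (F : List ℕ → ℝ) :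
    ∑ a ∈ BP M g (j + h) y, kap β M g (j + h) y a * F a =
      ∑ a ∈ BP M g j y, kap β M g j y a *
        ∑ b ∈ BP M g h (en a y), kap β M g h (en a y) b * F (a ++ b) := by
  induction j generalizing y F with
  | zero =>
    simp only [Nat.zero_add, BP, sum_singleton, kap, one_mul, List.nil_append, en]
  | succ j ih =>
    have e : j + 1 + h = (j + h) + 1 := by omega
    rw [e, BP_sum_succ, BP_sum_succ]
    refine sum_congr rfl fun b _ => ?_
    rw [ih (en b y) (fun a => F (b ++ a))]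
    congr 1
    refine sum_congr rfl fun a _ => ?_
    rw [en_append]
    simp only [List.append_assoc]

theorem BP_append {g j h y : ℕ} {a b : List ℕ} (ha : a ∈ BP M g j y) (hb : b ∈ BP M g h (en a y)) :
    a ++ b ∈ BP M g (j + h) y := by
  induction j generalizing y a with
  | zero =>
    rw [BP, mem_singleton] at ha
    subst ha
    rw [Nat.zero_add, List.nil_append]
    exact hb
  | succ j ih =>
    obtain ⟨c, hc, d, hd, rfl⟩ := bpb_mem_succ.1 ha
    have e : j + 1 + h = (j + h) + 1 := by omega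
    rw [e, bpb_mem_succ]
    rw [en_append] at hb
    exact ⟨c, hc, d ++ b, ih hd hb, List.append_assoc c d b⟩

theorem BP_exists {g j h y : ℕ} {c : List ℕ} (hc : c ∈ BP M g (j + h) y) :
    ∃ a ∈ BP M g j y, ∃ b ∈ BP M g h (en a y), c = a ++ b := by
  induction j generalizing y c with
  | zero =>
    rw [Nat.zero_add] at hc
    exact ⟨[], by rw [BP, mem_singleton], c, hc, rfl⟩
  | succ j ih =>
    have e : j + 1 + h = (j + h) + 1 := by omega
    rw [e, bpb_mem_succ] at hc
    obtain ⟨b, hb, d, hd, rfl⟩ := hc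
    obtain ⟨a, ha, f, hf, rfl⟩ := ih hd
    refine ⟨b ++ a, bpb_mem_succ.2 ⟨b, hb, a, ha, rfl⟩, f, ?_, (List.append_assoc b a f).symm⟩
    rw [en_append]
    exact hf

theorem kap_append (β : ℝ) {g j h y : ℕ} {a b : List ℕ} (ha : a ∈ BP M g j y) :
    kap β M g (j + h) y (a ++ b) = kap β M g j y a * kap β M g h (en a y) b := by
  induction j generalizing y a with
  | zero =>
    rw [BP, mem_singleton] at ha
    subst ha
    rw [Nat.zero_add, List.nil_append]
    simp only [kap, one_mul, en]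
  | succ j ih =>
    obtain ⟨c, hc, d, hd, rfl⟩ := bpb_mem_succ.1 ha
    have e : j + 1 + h = (j + h) + 1 := by omega
    rw [e, List.append_assoc, bpb_kap_succ β hc, bpb_kap_succ β hc, ih hd, en_append, mul_assoc]

theorem BP_spec {g j y : ℕ} (hy : y % 3 ≠ 0) {a : List ℕ} (ha : a ∈ BP M g j y) :
    a.length = j * g ∧ (∀ x ∈ a, 1 ≤ x ∧ x ≤ M) ∧ va a y ∧ en a y % 3 ≠ 0 ∧ a.sum ≤ M * (j * g) := by
  induction j generalizing y a with
  | zero =>
    rw [BP, mem_singleton] at ha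
    subst ha
    exact ⟨by simp, by simp, trivial, hy, by simp⟩
  | succ j ih =>
    obtain ⟨b, hb, c, hc, rfl⟩ := bpb_mem_succ.1 ha
    obtain ⟨⟨h1, h2⟩, h3, h4, -⟩ := mem_PP.1 hb
    obtain ⟨k1, k2, k3, k4, k5⟩ := ih h4 hc
    have hs : b.sum ≤ M * g := by
      have := List.sum_le_card_nsmul b M (fun x hx => (h2 x hx).2)
      rw [h1, smul_eq_mul] at this
      rw [mul_comm]; exact this
    refine ⟨?_, ?_, ?_, ?_, ?_⟩
    · rw [List.length_append, h1, k1]; ring
    · intro x hx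
      rcases List.mem_append.1 hx with hx | hx
      · exact h2 x hx
      · exact k2 x hx
    · rw [va_append]; exact ⟨h3, k3⟩
    · rw [en_append]; exact k4
    · rw [List.sum_append]
      calc b.sum + c.sum ≤ M * g + M * (j * g) := Nat.add_le_add hs k5
        _ = _ := by ring

theorem bpb_W_pos (hβ : 0 < β) (hβ1 : β ≤ 1) (hM : 7 ≤ M) {g y : ℕ} (hy : y % 3 ≠ 0) :
    0 < W β M g y := (mm_pos hβ hβ1 hM g).trans_le (mm_le β M g y hy)

theorem kap_pos (hβ : 0 < β) (hβ1 : β ≤ 1) (hM : 7 ≤ M) {g j y : ℕ} (hy : y % 3 ≠ 0) {a : List ℕ}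
    (ha : a ∈ BP M g j y) : 0 < kap β M g j y a := by
  induction j generalizing y a with
  | zero => simp only [kap]; exact one_pos
  | succ j ih =>
    obtain ⟨b, hb, c, hc, rfl⟩ := bpb_mem_succ.1 ha
    rw [bpb_kap_succ β hb]
    exact mul_pos (div_pos (wt_pos β g b) (bpb_W_pos hβ hβ1 hM hy))
      (ih (mem_PP.1 hb).2.2.1 hc)

theorem kap_sum (hβ : 0 < β) (hβ1 : β ≤ 1) (hM : 7 ≤ M) {g j y : ℕ} (hy : y % 3 ≠ 0) :
    ∑ a ∈ BP M g j y, kap β M g j y a = 1 := by
  induction j generalizing y with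
  | zero => simp [BP, kap]
  | succ j ih =>
    have h := BP_sum_succ β M g j y (fun _ => 1)
    simp only [mul_one] at h
    rw [h]
    have : ∀ b ∈ PP M g y, wt β g b / W β M g y * ∑ a ∈ BP M g j (en b y), kap β M g j (en b y) a =
        wt β g b / W β M g y := fun b hb => by rw [ih (mem_PP.1 hb).2.2.1, mul_one]
    rw [sum_congr rfl this, ← sum_div]
    exact div_self (bpb_W_pos hβ hβ1 hM hy).ne'

/-- `wt ≤ 1` and `W ≥ mm`. -/
theorem kap_le (hβ : 0 < β) (hβ1 : β ≤ 1) (hM : 7 ≤ M) {g j y : ℕ} (hy : y % 3 ≠ 0) {a : List ℕ}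
    (ha : a ∈ BP M g j y) : kap β M g j y a * mm β M g ^ j ≤ 1 := by
  induction j generalizing y a with
  | zero => simp [kap]
  | succ j ih =>
    obtain ⟨b, hb, c, hc, rfl⟩ := bpb_mem_succ.1 ha
    have hb3 := (mem_PP.1 hb).2.2.1
    rw [bpb_kap_succ β hb, pow_succ]
    have hW := bpb_W_pos hβ hβ1 hM (g := g) hy
    have hm := mm_pos hβ hβ1 hM g
    have h1 : wt β g b / W β M g y * mm β M g ≤ 1 := by
      rw [div_mul_eq_mul_div, div_le_one hW]
      calc wt β g b * mm β M g ≤ 1 * W β M g y :=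
            mul_le_mul (wt_le_one hβ.le hb) (mm_le β M g y hy) hm.le zero_le_one
        _ = _ := one_mul _
    have h2 := ih hb3 hc
    have h3 : 0 ≤ kap β M g j (en b y) c * mm β M g ^ j :=
      mul_nonneg (kap_pos hβ hβ1 hM hb3 hc).le (pow_nonneg hm.le j)
    calc wt β g b / W β M g y * kap β M g j (en b y) c * (mm β M g ^ j * mm β M g) =
          (wt β g b / W β M g y * mm β M g) * (kap β M g j (en b y) c * mm β M g ^ j) := by ring
      _ ≤ 1 * 1 := mul_le_mul h1 h2 h3 zero_le_one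
      _ = 1 := one_mul 1

omit [Slope] in
theorem bpb_pow (g j t : ℕ) : 3 ^ ((j + 1) * g + 1) * t = 3 ^ (g + 1) * (3 ^ (j * g) * t) := by
  rw [← mul_assoc, ← pow_add]
  congr 2
  ring

theorem bpb_PP_add (M g y s : ℕ) : PP M g (y + 3 ^ (g + 1) * s) = PP M g y := by
  rw [PP_mod M g (y + 3 ^ (g + 1) * s), Nat.add_mul_mod_self_left, ← PP_mod]

theorem bpb_W_add (β : ℝ) (M g y s : ℕ) : W β M g (y + 3 ^ (g + 1) * s) = W β M g y := by
  unfold W
  rw [bpb_PP_add]

theorem bpb_en_add {g j y t : ℕ} {b : List ℕ} (hb : b ∈ PP M g y) :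
    en b (y + 3 ^ ((j + 1) * g + 1) * t) = en b y + 3 ^ (j * g + 1) * (2 ^ b.sum * t) := by
  rw [bpb_pow]
  have h := (en_add b y (3 ^ (j * g) * t) (mem_PP.1 hb).2.1).2
  rw [bpb_len hb] at h
  rw [h, pow_succ]
  ring

theorem BP_add (M : ℕ) (g j y t : ℕ) : BP M g j (y + 3 ^ (j * g + 1) * t) = BP M g j y := by
  induction j generalizing y t with
  | zero => simp only [BP]
  | succ j ih =>
    simp only [BP]
    have e1 : PP M g (y + 3 ^ ((j + 1) * g + 1) * t) = PP M g y := by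
      rw [bpb_pow, bpb_PP_add]
    rw [e1]
    refine biUnion_congr rfl fun b hb => ?_
    rw [bpb_en_add hb, ih]

theorem kap_add (β : ℝ) {g j y t : ℕ} {a : List ℕ} (ha : a ∈ BP M g j y) :
    kap β M g j (y + 3 ^ (j * g + 1) * t) a = kap β M g j y a := by
  induction j generalizing y t a with
  | zero => simp only [kap]
  | succ j ih =>
    obtain ⟨b, hb, c, hc, rfl⟩ := bpb_mem_succ.1 ha
    have e1 : PP M g (y + 3 ^ ((j + 1) * g + 1) * t) = PP M g y := by
      rw [bpb_pow, bpb_PP_add]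
    have hb' : b ∈ PP M g (y + 3 ^ ((j + 1) * g + 1) * t) := by rw [e1]; exact hb
    rw [bpb_kap_succ β hb', bpb_kap_succ β hb, bpb_en_add hb, ih hc, bpb_pow, bpb_W_add]

theorem en_BP_add {g j y t : ℕ} (hy : y % 3 ≠ 0) {a : List ℕ} (ha : a ∈ BP M g j y) :
    en a (y + 3 ^ (j * g + 1) * t) = en a y + 3 * 2 ^ a.sum * t := by
  obtain ⟨h1, -, h3, -⟩ := BP_spec hy ha
  have h := (en_add a y t h3).2
  rw [h1] at h
  exact h

/-- Lower bound of `W` by block paths: `W_super` and `W ≥ mm` in each block. -/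
theorem W_BP (hβ : 0 < β) (hβ1 : β ≤ 1) (hM : 7 ≤ M) {g j i y : ℕ} (hy : y % 3 ≠ 0) :
    mm β M g ^ j * ∑ a ∈ BP M g j y, kap β M g j y a * W β M i (en a y) ≤ W β M (j * g + i) y := by
  induction j generalizing y with
  | zero => simp [BP, kap, en]
  | succ j ih =>
    rw [BP_sum_succ β M g j y (fun a => W β M i (en a y)), mul_sum]
    have hW := bpb_W_pos hβ hβ1 hM (g := g) hy
    have hm := mm_pos hβ hβ1 hM g
    have hmW := mm_le β M g y hy
    have e : (j + 1) * g + i = g + (j * g + i) := by ring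
    rw [e]
    refine le_trans (sum_le_sum fun b hb => ?_) (W_super β M g (j * g + i) y)
    have hb3 := (mem_PP.1 hb).2.2.1
    have h := ih (y := en b y) hb3
    simp only [en_append]
    have h0 : 0 ≤ mm β M g ^ j * ∑ a ∈ BP M g j (en b y), kap β M g j (en b y) a *
        W β M i (en a (en b y)) := by
      refine mul_nonneg (pow_nonneg hm.le j) (sum_nonneg fun a ha => ?_)
      exact mul_nonneg (kap_pos hβ hβ1 hM hb3 ha).le
        (bpb_W_pos hβ hβ1 hM (BP_spec hb3 ha).2.2.2.1).le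
    calc mm β M g ^ (j + 1) * (wt β g b / W β M g y * ∑ a ∈ BP M g j (en b y),
          kap β M g j (en b y) a * W β M i (en a (en b y))) =
          wt β g b * ((mm β M g / W β M g y) * (mm β M g ^ j * ∑ a ∈ BP M g j (en b y),
          kap β M g j (en b y) a * W β M i (en a (en b y)))) := by
            rw [pow_succ]; ring
      _ ≤ wt β g b * (1 * W β M (j * g + i) (en b y)) := by
            refine mul_le_mul_of_nonneg_left ?_ (wt_pos β g b).le
            exact mul_le_mul ((div_le_one hW).2 hmW) h h0 zero_le_one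
      _ = _ := by rw [one_mul]

/-- The total and the end point mod `3^(M j g + 1)` determine the path. `en a r ≤ 2^(a.sum) r / 3^(j g) <
3 * 2^(M j g) ≤ 3^(M j g + 1)` by `en_le`, then `en_inj` (PathsA.lean). -/
theorem BP_inj {g j r : ℕ} (hr : r < 3 ^ (j * g + 1)) (hr3 : r % 3 ≠ 0) {a b : List ℕ}
    (ha : a ∈ BP M g j r) (hb : b ∈ BP M g j r) (hs : a.sum = b.sum)
    (he : en a r % 3 ^ (M * (j * g) + 1) = en b r % 3 ^ (M * (j * g) + 1)) : a = b := by
  have key : ∀ c ∈ BP M g j r, en c r < 3 ^ (M * (j * g) + 1) := by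
    intro c hc
    obtain ⟨h1, -, h3, -, h5⟩ := BP_spec hr3 hc
    have h6 := en_le c r h3
    rw [h1] at h6
    have h7 : 2 ^ c.sum ≤ 3 ^ (M * (j * g)) :=
      (Nat.pow_le_pow_right (by norm_num) h5).trans (Nat.pow_le_pow_left (by norm_num) _)
    have h8 : 3 ^ (j * g) * en c r < 3 ^ (j * g) * 3 ^ (M * (j * g) + 1) := by
      calc 3 ^ (j * g) * en c r ≤ 2 ^ c.sum * r := h6
        _ ≤ 3 ^ (M * (j * g)) * r := Nat.mul_le_mul_right r h7
        _ < 3 ^ (M * (j * g)) * 3 ^ (j * g + 1) :=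
            Nat.mul_lt_mul_of_pos_left hr (by positivity)
        _ = _ := by ring
    exact lt_of_mul_lt_mul_left h8 (Nat.zero_le _)
  rw [Nat.mod_eq_of_lt (key a ha), Nat.mod_eq_of_lt (key b hb)] at he
  obtain ⟨h1, h2, h3, -⟩ := BP_spec hr3 ha
  obtain ⟨k1, k2, k3, -⟩ := BP_spec hr3 hb
  exact en_inj (h1.trans k1.symm) hs (fun x hx => (h2 x hx).1) (fun x hx => (k2 x hx).1) h3 k3 he

end H62s
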