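import Pool.Agent.Lib.H62s.Defs2
import Pool.Agent.Lib.H62s.BIN

set_option autoImplicit false
open Finset
namespace H62s
open H62w

theorem CMW_lift {l : List ℕ} {n r t : ℕ} (hl : l.length = n) (h : va l r) (h' : va l (r + 3 ^ n * t)) :
    en l (r + 3 ^ n * t) = en l r + 2 ^ l.sum * t := by
  have h1 := en_eq l r h
  have h2 := en_eq l _ h'
  rw [hl] at h1 h2
  have h3 : 2 ^ l.sum * (r + 3 ^ n * t) = 3 ^ n * (en l r + 2 ^ l.sum * t) + cc l := by
    rw [mul_add, h1]; ring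
  rw [h2] at h3
  exact Nat.eq_of_mul_eq_mul_left (pow_pos (by norm_num) _) (Nat.add_right_cancel h3)

theorem CMW_three (e0 u : ℕ) (hu : u % 3 ≠ 0) :
    ((range 3).filter (fun t => (e0 + u * t) % 3 ≠ 0)).card = 2 := by
  have h1 : ∀ t, (e0 + u * t) % 3 = (e0 % 3 + (u % 3) * t) % 3 := by
    intro t
    exact Nat.ModEq.add (Nat.mod_modEq e0 3).symm ((Nat.mod_modEq u 3).symm.mul_right t)
  simp only [h1]
  have he : e0 % 3 < 3 := Nat.mod_lt _ (by norm_num)
  have hu3 : u % 3 < 3 := Nat.mod_lt _ (by norm_num)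
  generalize e0 % 3 = e at *
  generalize u % 3 = w at *
  interval_cases w
  · exact absurd rfl hu
  · interval_cases e <;> decide
  · interval_cases e <;> decide

/-- Chunk CMW. Each word `l` of length `n ≥ 1` whose first letter has the parity of the class `v` is valid at
exactly one residue mod `3^n`, which is in the class `v`, and at two of its three lifts mod `3^(n+1)` the end
point is a unit (`exists_unique_class`, `va_iff`, `en_add` in PathsA.lean). -/
theorem count_valid {n v : ℕ} (hn : 1 ≤ n) (hv : v = 1 ∨ v = 2) {l : List ℕ} (hl : l.length = n)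
    (hl1 : 2 ^ l.headI * v % 3 = 1) :
    ((range (3 ^ (n + 1))).filter (fun y => y % 3 = v ∧ va l y ∧ en l y % 3 ≠ 0)).card = 2 := by
  obtain ⟨r, hr, hy⟩ := exists_unique_class l n
  have hva : ∀ y, va l y ↔ y % 3 ^ n = r := fun y => by rw [va_iff, hl]; exact hy y
  have hv3 : ∀ y, va l y → y % 3 = v := by
    intro y h
    obtain ⟨a, l', rfl⟩ : ∃ a l', l = a :: l' := by
      cases l with
      | nil => simp at hl; omega
      | cons a l' => exact ⟨a, l', rfl⟩
    have h1 : 2 ^ a * y % 3 = 1 := h.1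
    have h2 : 2 ^ a * v % 3 = 1 := by simpa using hl1
    have h3 : 2 ^ a * y ≡ 2 ^ a * v [MOD 3] := by unfold Nat.ModEq; rw [h1, h2]
    have h4 : y ≡ v [MOD 3] := by
      refine Nat.ModEq.cancel_left_of_coprime ?_ h3
      rw [Nat.gcd_comm]
      exact Nat.Coprime.pow_left _ (by norm_num)
    rw [h4]
    rcases hv with rfl | rfl <;> rfl
  have hrva : va l r := (hva r).2 (Nat.mod_eq_of_lt hr)
  have h3n : 0 < 3 ^ n := pow_pos (by norm_num) _
  have hset : (range (3 ^ (n + 1))).filter (fun y => y % 3 = v ∧ va l y ∧ en l y % 3 ≠ 0) =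
      ((range 3).filter (fun t => (en l r + 2 ^ l.sum * t) % 3 ≠ 0)).image
        (fun t => r + 3 ^ n * t) := by
    ext y
    simp only [mem_filter, mem_range, mem_image]
    constructor
    · rintro ⟨h1, -, h2, h3⟩
      have h4 := (hva y).1 h2
      have h5 : y = r + 3 ^ n * (y / 3 ^ n) := by
        conv_lhs => rw [← Nat.mod_add_div y (3 ^ n), h4]
      refine ⟨y / 3 ^ n, ⟨?_, ?_⟩, h5.symm⟩
      · rw [Nat.div_lt_iff_lt_mul h3n, mul_comm]
        rw [pow_succ] at h1; exact h1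
      · rw [← CMW_lift hl hrva (by rw [← h5]; exact h2), ← h5]
        exact h3
    · rintro ⟨t, ⟨h1, h2⟩, rfl⟩
      have h3 : va l (r + 3 ^ n * t) := by
        rw [hva, Nat.add_mul_mod_self_left, Nat.mod_eq_of_lt hr]
      refine ⟨?_, hv3 _ h3, h3, ?_⟩
      · have h4 : 3 ^ n * t ≤ 3 ^ n * 2 := Nat.mul_le_mul_left _ (by omega)
        rw [pow_succ]
        omega
      · rw [CMW_lift hl hrva h3]
        exact h2
  rw [hset, card_image_of_injective _ (fun t t' h => by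
    have h5 : 3 ^ n * t = 3 ^ n * t' := Nat.add_left_cancel h
    exact Nat.eq_of_mul_eq_mul_left h3n h5)]
  apply CMW_three
  rw [Nat.pow_mod]
  rcases Nat.even_or_odd' l.sum with ⟨k, hk | hk⟩
  · rw [hk, pow_mul]; norm_num
    rw [Nat.pow_mod]; norm_num
  · rw [hk, pow_succ, pow_mul, Nat.mul_mod, Nat.pow_mod]; norm_num

variable [Slope]

theorem cm_ge (β : ℝ) {M n v : ℕ} (hn : 1 ≤ n) (hv : v = 1 ∨ v = 2) (S : Finset (List ℕ))
    (hS : S ⊆ words M n)
    (hS1 : ∀ l ∈ S, 2 ^ l.headI * v % 3 = 1 ∧ Slope.p * n ≤ Slope.q * l.sum) :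
    2 / 3 ^ n * ∑ l ∈ S, wt β n l ≤ cm β M n v := by
  classical
  set Y := (range (3 ^ (n + 1))).filter (fun y => y % 3 = v) with hY
  have h1 : ∀ y ∈ Y, ∑ l ∈ S, (if va l y ∧ en l y % 3 ≠ 0 then wt β n l else 0) ≤ W β M n y := by
    intro y _
    rw [← Finset.sum_filter]
    unfold W
    refine Finset.sum_le_sum_of_subset_of_nonneg ?_ fun l _ _ => (wt_pos _ _ _).le
    intro l hl
    rw [mem_filter] at hl
    rw [mem_PP]
    exact ⟨mem_words.1 (hS hl.1), hl.2.1, hl.2.2, (hS1 l hl.1).2⟩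
  have h2 := Finset.sum_le_sum h1
  rw [Finset.sum_comm] at h2
  have h3 : ∀ l ∈ S, ∑ y ∈ Y, (if va l y ∧ en l y % 3 ≠ 0 then wt β n l else 0) = 2 * wt β n l := by
    intro l hl
    rw [← Finset.sum_filter, Finset.sum_const, hY, Finset.filter_filter,
      count_valid hn hv (mem_words.1 (hS hl)).1 (hS1 l hl).1]
    simp
  rw [Finset.sum_congr rfl h3, ← Finset.mul_sum] at h2
  have h4 : cm β M n v = (∑ y ∈ Y, W β M n y) / 3 ^ n := rfl
  rw [h4, div_mul_eq_mul_div]
  gcongr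

/-- concatenations of `m` words of length `n1` and sum `L1` -/
def CMW_BB (M n1 L1 : ℕ) : ℕ → Finset (List ℕ)
  | 0 => {[]}
  | m + 1 => ((wsum M n1 L1) ×ˢ (CMW_BB M n1 L1 m)).image (fun x => x.1 ++ x.2)

omit [Slope] in
theorem CMW_wsum {M n L : ℕ} {l : List ℕ} :
    l ∈ wsum M n L ↔ (l.length = n ∧ ∀ a ∈ l, 1 ≤ a ∧ a ≤ M) ∧ l.sum = L := by
  rw [wsum, mem_filter, mem_words]

omit [Slope] in
theorem CMW_mem {M n1 L1 : ℕ} (m : ℕ) {l : List ℕ} (hl : l ∈ CMW_BB M n1 L1 m) :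
    (l.length = m * n1 ∧ ∀ a ∈ l, 1 ≤ a ∧ a ≤ M) ∧ l.sum = m * L1 := by
  induction m generalizing l with
  | zero =>
    rw [CMW_BB, mem_singleton] at hl
    subst hl
    simp
  | succ m ih =>
    rw [CMW_BB, mem_image] at hl
    obtain ⟨⟨x, y⟩, hxy, rfl⟩ := hl
    rw [mem_product] at hxy
    obtain ⟨⟨h1, h2⟩, h3⟩ := CMW_wsum.1 hxy.1
    obtain ⟨⟨h1', h2'⟩, h3'⟩ := ih hxy.2
    refine ⟨⟨?_, ?_⟩, ?_⟩
    · rw [List.length_append, h1, h1']; ring
    · intro a ha
      rcases List.mem_append.1 ha with ha | ha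
      · exact h2 a ha
      · exact h2' a ha
    · rw [List.sum_append, h3, h3']; ring

omit [Slope] in
theorem CMW_card {M n1 L1 : ℕ} (m : ℕ) :
    (CMW_BB M n1 L1 m).card = (wsum M n1 L1).card ^ m := by
  induction m with
  | zero => simp [CMW_BB]
  | succ m ih =>
    rw [CMW_BB, card_image_of_injOn, card_product, ih, pow_succ, mul_comm]
    rintro ⟨x, y⟩ hx ⟨x', y'⟩ hx' h
    rw [mem_coe, mem_product] at hx hx'
    have h2 : x.length = x'.length := by
      rw [(CMW_wsum.1 hx.1).1.1, (CMW_wsum.1 hx'.1).1.1]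
    obtain ⟨h4, h5⟩ := List.append_inj (show x ++ y = x' ++ y' from h) h2
    rw [h4, h5]

omit [Slope] in
/-- Growth of the class means. Proof: `t` from `card_wsum_exp` with `ε/2`, `n1 = q0 t`, `L1 = p0 t`,
`M0 = max 7 L1`. For `n = 1 + m n1 + r`, `r < n1`: the words `c :: (m blocks from wsum M n1 L1) ++ (r letters 2)` with `c = 2` or `3`
according to the class `v` are different, satisfy the slope condition (`p ≤ 2 q`, and `q L1 = p n1`), and have weight
`≥ (2^(3 q + 2 q n1))^(-β) ≥ 2^(-(3 + 2 n1) q)`. Number: `(wsum card)^m ≥ exp ((h - ε/2) n1 m)`. -/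
theorem mean_growth (p0 q0 : ℕ) (hq : 0 < q0) (hp : q0 < p0) (ε : ℝ) (hε : 0 < ε) :
    ∃ M0 : ℕ, ∀ [Slope], Slope.p * q0 = Slope.q * p0 → ∀ M : ℕ, M0 ≤ M →
      ∃ C : ℝ, ∀ β : ℝ, 0 < β → β ≤ 1 → ∀ n v : ℕ, 1 ≤ n → (v = 1 ∨ v = 2) →
        (hh ((p0 : ℝ) / q0) - Real.log 3 - ε) * n - C ≤ Real.log (cm β M n v) := by
  classical
  obtain ⟨t, ht, hcard⟩ := card_wsum_exp p0 q0 hq hp (ε / 2) (by linarith)
  set n1 := q0 * t with hn1
  set L1 := p0 * t with hL1
  set H := hh ((p0 : ℝ) / q0) with hH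
  refine ⟨max 7 L1, ?_⟩
  intro inst hsl M hM
  have hM7 : 7 ≤ M := le_trans (le_max_left _ _) hM
  have hML : L1 ≤ M := le_trans (le_max_right _ _) hM
  have hcard := hcard M hML
  refine ⟨|H - ε / 2| * (1 + n1) + ((3 + 2 * n1) * Slope.q) * Real.log 2, ?_⟩
  intro β hβ hβ1 n v hn hv
  have hn1pos : 0 < n1 := Nat.mul_pos hq (by omega)
  obtain ⟨m, r, hmr, hr⟩ : ∃ m r, n = 1 + m * n1 + r ∧ r < n1 := by
    refine ⟨(n - 1) / n1, (n - 1) % n1, ?_, Nat.mod_lt _ hn1pos⟩
    have := Nat.div_add_mod (n - 1) n1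
    rw [mul_comm] at this
    omega
  obtain ⟨c, hc2, hc3, hcv⟩ : ∃ c, 2 ≤ c ∧ c ≤ 3 ∧ 2 ^ c * v % 3 = 1 := by
    rcases hv with rfl | rfl
    · exact ⟨2, by norm_num, by norm_num, by norm_num⟩
    · exact ⟨3, by norm_num, by norm_num, by norm_num⟩
  set S := (CMW_BB M n1 L1 m).image (fun l => c :: (l ++ List.replicate r 2)) with hS
  have hSmem : ∀ l ∈ S, ∃ l0 ∈ CMW_BB M n1 L1 m, l = c :: (l0 ++ List.replicate r 2) := by
    intro l hl
    rw [hS, mem_image] at hl
    obtain ⟨l0, h0, h1⟩ := hl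
    exact ⟨l0, h0, h1.symm⟩
  have hScard : S.card = (wsum M n1 L1).card ^ m := by
    rw [hS, card_image_of_injective, CMW_card]
    intro x y hxy
    have := List.cons_injective hxy
    exact List.append_cancel_right this
  have hsum : ∀ l ∈ S, l.sum = c + m * L1 + 2 * r := by
    intro l hl
    obtain ⟨l0, h0, rfl⟩ := hSmem l hl
    rw [List.sum_cons, List.sum_append, (CMW_mem m h0).2, List.sum_replicate, smul_eq_mul]
    ring
  have hSw : S ⊆ words M n := by
    intro l hl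
    obtain ⟨l0, h0, rfl⟩ := hSmem l hl
    obtain ⟨⟨h1, h2⟩, h3⟩ := CMW_mem m h0
    rw [mem_words]
    refine ⟨?_, ?_⟩
    · rw [List.length_cons, List.length_append, h1, List.length_replicate, hmr]; ring
    · intro a ha
      rcases List.mem_cons.1 ha with rfl | ha
      · omega
      · rcases List.mem_append.1 ha with ha | ha
        · exact h2 a ha
        · rw [List.eq_of_mem_replicate ha]; omega
  have hpL : Slope.p * n1 = Slope.q * L1 := by
    rw [hn1, hL1, ← mul_assoc, hsl, mul_assoc]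
  have hpq := Slope.hpq
  have hpn : Slope.p * n = Slope.p + m * (Slope.q * L1) + Slope.p * r := by
    rw [hmr, ← hpL]; ring
  have hcond : ∀ l ∈ S, Slope.p * n ≤ Slope.q * l.sum ∧
      Slope.q * l.sum ≤ Slope.p * n + (3 + 2 * n1) * Slope.q := by
    intro l hl
    rw [hsum l hl, hpn]
    have e : Slope.q * (c + m * L1 + 2 * r) = Slope.q * c + m * (Slope.q * L1) + 2 * Slope.q * r := by
      ring
    rw [e]
    have e1 : Slope.p ≤ Slope.q * c := le_trans hpq (by rw [mul_comm]; exact Nat.mul_le_mul_left _ hc2)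
    have e2 : Slope.p * r ≤ 2 * Slope.q * r := Nat.mul_le_mul_right _ hpq
    have e3 : Slope.q * c ≤ 3 * Slope.q := by rw [mul_comm]; exact Nat.mul_le_mul_right _ hc3
    have e4 : 2 * Slope.q * r ≤ 2 * n1 * Slope.q := by
      calc 2 * Slope.q * r ≤ 2 * Slope.q * n1 := Nat.mul_le_mul_left _ hr.le
        _ = 2 * n1 * Slope.q := by ring
    constructor
    · omega
    · have e5 : (3 + 2 * n1) * Slope.q = 3 * Slope.q + 2 * n1 * Slope.q := by ring
      rw [e5]
      omega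
  have hhead : ∀ l ∈ S, 2 ^ l.headI * v % 3 = 1 ∧ Slope.p * n ≤ Slope.q * l.sum := by
    intro l hl
    refine ⟨?_, (hcond l hl).1⟩
    obtain ⟨l0, h0, rfl⟩ := hSmem l hl
    exact hcv
  have hge := cm_ge β hn hv S hSw hhead
  set E : ℕ := (3 + 2 * n1) * Slope.q with hE
  have hwt : ∀ l ∈ S, 1 / (2 : ℝ) ^ E ≤ wt β n l := by
    intro l hl
    obtain ⟨h1, h2⟩ := hcond l hl
    unfold wt
    have hb0 : (0 : ℝ) < 2 ^ (Slope.p * n) / 2 ^ (Slope.q * l.sum) := by positivity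
    have hb1 : (2 : ℝ) ^ (Slope.p * n) / 2 ^ (Slope.q * l.sum) ≤ 1 := by
      rw [div_le_one (by positivity)]
      exact pow_le_pow_right₀ (by norm_num) h1
    have hb2 : 1 / (2 : ℝ) ^ E ≤ 2 ^ (Slope.p * n) / 2 ^ (Slope.q * l.sum) := by
      rw [div_le_div_iff₀ (by positivity) (by positivity), one_mul, ← pow_add]
      exact pow_le_pow_right₀ (by norm_num) h2
    refine hb2.trans ?_
    conv_lhs => rw [← Real.rpow_one ((2 : ℝ) ^ (Slope.p * n) / 2 ^ (Slope.q * l.sum))]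
    exact Real.rpow_le_rpow_of_exponent_ge hb0 hb1 hβ1
  have hsumS : (S.card : ℝ) * (1 / (2 : ℝ) ^ E) ≤ ∑ l ∈ S, wt β n l := by
    have := Finset.card_nsmul_le_sum S (fun l => wt β n l) _ hwt
    simpa [nsmul_eq_mul] using this
  have hcardS : Real.exp ((H - ε / 2) * n1 * m) ≤ (S.card : ℝ) := by
    rw [hScard, Nat.cast_pow, mul_comm _ (m : ℝ), Real.exp_nat_mul]
    exact pow_le_pow_left₀ (Real.exp_pos _).le hcard m
  have hbig : Real.exp ((H - ε / 2) * n1 * m) * (1 / (2 : ℝ) ^ E) * (2 / 3 ^ n) ≤ cm β M n v := by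
    calc Real.exp ((H - ε / 2) * n1 * m) * (1 / (2 : ℝ) ^ E) * (2 / 3 ^ n)
        ≤ (S.card : ℝ) * (1 / (2 : ℝ) ^ E) * (2 / 3 ^ n) := by gcongr
      _ ≤ (∑ l ∈ S, wt β n l) * (2 / 3 ^ n) := by gcongr
      _ = 2 / 3 ^ n * ∑ l ∈ S, wt β n l := by ring
      _ ≤ _ := hge
  have hlog := Real.log_le_log (by positivity) hbig
  rw [Real.log_mul (by positivity) (by positivity), Real.log_mul (by positivity) (by positivity),
    Real.log_exp, Real.log_div (by norm_num) (by positivity),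
    Real.log_div (by norm_num) (by positivity), Real.log_one, Real.log_pow, Real.log_pow] at hlog
  refine le_trans ?_ hlog
  have hnr : (n : ℝ) = 1 + m * n1 + r := by rw [hmr]; push_cast; ring
  have hrr : (r : ℝ) ≤ n1 := by exact_mod_cast hr.le
  have hr0 : (0 : ℝ) ≤ r := Nat.cast_nonneg r
  have hlog2 : 0 < Real.log 2 := Real.log_pos (by norm_num)
  have hEr : (E : ℝ) = (3 + 2 * n1) * Slope.q := by rw [hE]; push_cast; ring
  have habs : (H - ε / 2) * (1 + r) ≤ |H - ε / 2| * (1 + n1) := by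
    calc (H - ε / 2) * (1 + r) ≤ |H - ε / 2| * (1 + r) :=
          mul_le_mul_of_nonneg_right (le_abs_self _) (by linarith)
      _ ≤ |H - ε / 2| * (1 + n1) := mul_le_mul_of_nonneg_left (by linarith) (abs_nonneg _)
  have hmn : (H - ε / 2) * n1 * m = (H - ε / 2) * n - (H - ε / 2) * (1 + r) := by
    rw [hnr]; ring
  rw [hmn, hEr]
  have hn0 : (0 : ℝ) ≤ n := Nat.cast_nonneg n
  have hεn : 0 ≤ ε / 2 * n := by positivity
  nlinarith

end H62s
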