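import Pool.Agent.Lib.H62s.CTY
import Pool.Agent.Lib.H62s.CMW

set_option autoImplicit false
open Finset
namespace H62s
open H62w

/-- Chunk CER. Certificate: every unit has the expected number of words of slope between `μ = p0/q0` and `μ + δ`.
Proof: `ε = (h(μ) - log 3 - g)/3`, `M = max M0 7` with `M0` from `mean_growth` (it does not depend on the
scaling). Choose the scaling `N` with `N q0 δ log 2 ≥ log M + 1` and the slope `⟨N p0, N q0, ..⟩`. `RR_one` and
`log_mm_ge` give `W 1 M n y ≥ exp ((h - log 3 - 2 ε) n - C)`. The words with `|l| > (μ + δ) n` have total weight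
`≤ M^n 2^(-N q0 δ n) ≤ e^(-n)`, the others have weight `≤ 1`. -/
theorem cert (p0 q0 : ℕ) (hq : 0 < q0) (hp : q0 < p0) (hpq : p0 ≤ 2 * q0) (g δ : ℝ)
    (hg : 0 < g) (hδ : 0 < δ) (h : g < hh ((p0 : ℝ) / q0) - Real.log 3) :
    ∃ M : ℕ, 7 ≤ M ∧ ∃ n1 : ℕ, ∀ n : ℕ, n1 ≤ n → ∀ y : ℕ, y % 3 ≠ 0 →
      Real.exp (g * n) ≤ (((words M n).filter (fun l => va l y ∧ en l y % 3 ≠ 0 ∧ p0 * n ≤ q0 * l.sum ∧
        (l.sum : ℝ) ≤ ((p0 : ℝ) / q0 + δ) * n)).card : ℝ) := by
  have hq' : (0 : ℝ) < q0 := by exact_mod_cast hq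
  have l2 : 0 < Real.log 2 := Real.log_pos (by norm_num)
  set h0 := hh ((p0 : ℝ) / q0) with hh0
  set ε := (h0 - Real.log 3 - g) / 3 with hε_def
  have hε : 0 < ε := by rw [hε_def]; linarith
  obtain ⟨M0, hM0⟩ := mean_growth p0 q0 hq hp ε hε
  set M := max M0 7 with hM_def
  have hM7 : 7 ≤ M := le_max_right _ _
  have hMpos : (0 : ℝ) < M := by
    have : 0 < M := by omega
    exact_mod_cast this
  have hlM : 0 ≤ Real.log M := Real.log_natCast_nonneg M
  obtain ⟨N, hN⟩ := exists_nat_gt ((Real.log M + 1) / (q0 * δ * Real.log 2))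
  have hN0 : (0 : ℝ) < N := lt_of_le_of_lt (by positivity) hN
  have hN1 : 0 < N := by exact_mod_cast hN0
  rw [div_lt_iff₀ (by positivity)] at hN
  let S : Slope := ⟨N * p0, N * q0, Nat.mul_pos hN1 hq, by
    have := Nat.mul_le_mul_left N hpq
    linarith⟩
  have hSp : Slope.p = N * p0 := rfl
  have hSq : Slope.q = N * q0 := rfl
  obtain ⟨C, hC⟩ := hM0 (by rw [hSp, hSq]; ring) M (le_max_left _ _)
  have hRR : h0 - Real.log 3 - ε ≤ RR 1 M :=
    RR_one hM7 (by linarith) (fun β hβ hβ1 n v hn hv => hC β hβ hβ1 n v hn hv)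
  obtain ⟨C2, hC20, hC2⟩ := log_mm_ge one_pos le_rfl hM7 hε
  obtain ⟨n1, hn1⟩ := exists_nat_gt ((C2 + 1) / ε)
  refine ⟨M, hM7, n1, fun n hn y hy => ?_⟩
  have hn' : C2 + 1 ≤ ε * n := by
    rw [div_lt_iff₀ hε] at hn1
    have : (n1 : ℝ) ≤ n := by exact_mod_cast hn
    nlinarith
  set F := (words M n).filter (fun l => va l y ∧ en l y % 3 ≠ 0 ∧ p0 * n ≤ q0 * l.sum ∧
        (l.sum : ℝ) ≤ ((p0 : ℝ) / q0 + δ) * n) with hF
  -- lower bound of W
  have hW1 : Real.exp (g * n + 1) ≤ W 1 M n y := by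
    have h1 := hC2 n
    have h2 := mm_le 1 M n y hy
    have h3 : 0 < mm 1 M n := mm_pos one_pos le_rfl hM7 n
    have h4 : g * n + 1 ≤ Real.log (mm 1 M n) := by
      have h5 : (h0 - Real.log 3 - ε) * n ≤ RR 1 M * n := by gcongr
      have h6 : h0 - Real.log 3 = g + 3 * ε := by rw [hε_def]; ring
      rw [h6] at h5
      nlinarith
    calc Real.exp (g * n + 1) ≤ Real.exp (Real.log (mm 1 M n)) := Real.exp_le_exp.2 h4
      _ = mm 1 M n := Real.exp_log h3
      _ ≤ _ := h2
  -- split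
  have hsplit : W 1 M n y ≤ F.card + ∑ l ∈ words M n, ((M : ℝ) ^ n)⁻¹ * Real.exp (-n) := by
    unfold W
    rw [← sum_filter_add_sum_filter_not (PP M n y)
      (fun l => (l.sum : ℝ) ≤ ((p0 : ℝ) / q0 + δ) * n)]
    refine add_le_add ?_ ?_
    · calc ∑ l ∈ (PP M n y).filter (fun l => (l.sum : ℝ) ≤ ((p0 : ℝ) / q0 + δ) * n), wt 1 n l
          ≤ ∑ l ∈ (PP M n y).filter (fun l => (l.sum : ℝ) ≤ ((p0 : ℝ) / q0 + δ) * n), (1 : ℝ) :=
            sum_le_sum fun l hl => wt_le_one zero_le_one (mem_filter.1 hl).1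
        _ = (((PP M n y).filter (fun l => (l.sum : ℝ) ≤ ((p0 : ℝ) / q0 + δ) * n)).card : ℝ) := by
            simp
        _ ≤ F.card := by
            have : (PP M n y).filter (fun l => (l.sum : ℝ) ≤ ((p0 : ℝ) / q0 + δ) * n) ⊆ F := by
              intro l hl
              obtain ⟨h1, h2⟩ := mem_filter.1 hl
              obtain ⟨h3, h4⟩ := mem_filter.1 h1
              obtain ⟨h5, h6, h7⟩ := h4
              rw [hSp, hSq, mul_assoc, mul_assoc] at h7
              exact mem_filter.2 ⟨h3, h5, h6, Nat.le_of_mul_le_mul_left h7 hN1, h2⟩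
            exact_mod_cast card_le_card this
    · calc ∑ l ∈ (PP M n y).filter (fun l => ¬ (l.sum : ℝ) ≤ ((p0 : ℝ) / q0 + δ) * n), wt 1 n l
          ≤ ∑ l ∈ (PP M n y).filter (fun l => ¬ (l.sum : ℝ) ≤ ((p0 : ℝ) / q0 + δ) * n),
            ((M : ℝ) ^ n)⁻¹ * Real.exp (-n) := by
            refine sum_le_sum fun l hl => ?_
            have h2 := (mem_filter.1 hl).2
            rw [not_le] at h2
            have h3 : (p0 : ℝ) * n + q0 * δ * n ≤ q0 * l.sum := by
              have h4 : ((p0 : ℝ) / q0 + δ) * n * q0 ≤ l.sum * q0 :=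
                mul_le_mul_of_nonneg_right h2.le hq'.le
              have h5 : ((p0 : ℝ) / q0 + δ) * n * q0 = p0 * n + q0 * δ * n := by
                field_simp
              linarith
            have h6 : wt 1 n l = Real.exp (Real.log 2 * ((N * p0 * n : ℕ) - (N * q0 * l.sum : ℕ))) := by
              unfold wt
              rw [Real.rpow_one, hSp, hSq, mul_sub, Real.exp_sub, Real.exp_mul, Real.exp_mul,
                Real.exp_log (by norm_num : (0:ℝ) < 2), Real.rpow_natCast, Real.rpow_natCast]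
            have h7 : ((M : ℝ) ^ n)⁻¹ * Real.exp (-n) = Real.exp (-(Real.log M + 1) * n) := by
              have : (M : ℝ) ^ n = Real.exp (Real.log M * n) := by
                rw [Real.exp_mul, Real.exp_log hMpos, Real.rpow_natCast]
              rw [this, ← Real.exp_neg, ← Real.exp_add]
              congr 1
              ring
            rw [h6, h7]
            refine Real.exp_le_exp.2 ?_
            simp only [Nat.cast_mul]
            have h8 : (N : ℝ) * p0 * n - N * q0 * l.sum ≤ - (N * (q0 * δ * n)) := by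
              have := mul_le_mul_of_nonneg_left h3 hN0.le
              linarith
            have h9 : Real.log 2 * ((N : ℝ) * p0 * n - N * q0 * l.sum) ≤
                Real.log 2 * (- (N * (q0 * δ * n))) := mul_le_mul_of_nonneg_left h8 l2.le
            have h10 : (Real.log M + 1) * n ≤ N * (q0 * δ * Real.log 2) * n :=
              mul_le_mul_of_nonneg_right hN.le (Nat.cast_nonneg n)
            linarith
        _ ≤ ∑ l ∈ words M n, ((M : ℝ) ^ n)⁻¹ * Real.exp (-n) := by
            refine sum_le_sum_of_subset_of_nonneg ?_ fun _ _ _ => by positivity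
            exact (filter_subset _ _).trans (filter_subset _ _)
  have hsmall : ∑ l ∈ words M n, ((M : ℝ) ^ n)⁻¹ * Real.exp (-n) ≤ 1 := by
    rw [sum_const, nsmul_eq_mul]
    have h1 : ((words M n).card : ℝ) ≤ (M : ℝ) ^ n := by exact_mod_cast card_words M n
    have h2 : Real.exp (-(n : ℝ)) ≤ 1 := Real.exp_le_one_iff.2 (by simp)
    calc ((words M n).card : ℝ) * (((M : ℝ) ^ n)⁻¹ * Real.exp (-n))
        ≤ (M : ℝ) ^ n * (((M : ℝ) ^ n)⁻¹ * 1) := by gcongr
      _ = 1 := by rw [mul_one, mul_inv_cancel₀ (by positivity)]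
  have hexp : Real.exp (g * n) + 1 ≤ Real.exp (g * n + 1) := by
    rw [Real.exp_add]
    have h1 : (1 : ℝ) ≤ Real.exp (g * n) := Real.one_le_exp (by positivity)
    have h2 : (1 : ℝ) + 1 ≤ Real.exp 1 := Real.add_one_le_exp 1
    nlinarith
  linarith

end H62s
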