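import Pool.Agent.Lib.H62s.ThmB

set_option autoImplicit false
open Finset
namespace H62s
open H62w
variable [Slope] {β : ℝ} {M : ℕ}

/-- Chunk CLS. A letter leading from any unit into a prescribed class.
Proof: the parity of `a` is forced by `y % 3`; among the three `a ∈ {2,..,7}` of that parity the end
points `(2^a y - 1)/3` are three different classes mod `3` (compare `exists_letter` in Paths.lean:
everything depends on `y % 9`, finite check). -/
theorem exists_letter_class (y v : ℕ) (hy : y % 3 ≠ 0) (hv : v = 1 ∨ v = 2) :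
    ∃ a, 2 ≤ a ∧ a ≤ 7 ∧ 2 ^ a * y % 3 = 1 ∧ nx a y % 3 = v := by
  have h9 : y % 9 < 9 := Nat.mod_lt _ (by norm_num)
  have hdec : y = 9 * (y / 9) + y % 9 := (Nat.div_add_mod y 9).symm
  set q := y / 9 with hq
  set r := y % 9 with hr
  have key : ∀ a : ℕ, 2 ^ a * y = 9 * (2 ^ a * q) + 2 ^ a * r := fun a => by
    rw [hdec]; ring
  have hr3 : r % 3 ≠ 0 := by omega
  have hcases : r = 1 ∨ r = 2 ∨ r = 4 ∨ r = 5 ∨ r = 7 ∨ r = 8 := by omega
  unfold nx
  rcases hv with rfl | rfl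
  · rcases hcases with h | h | h | h | h | h
    · refine ⟨2, by norm_num, by norm_num, ?_, ?_⟩ <;> (rw [key, h]; omega)
    · refine ⟨7, by norm_num, by norm_num, ?_, ?_⟩ <;> (rw [key, h]; omega)
    · refine ⟨6, by norm_num, by norm_num, ?_, ?_⟩ <;> (rw [key, h]; omega)
    · refine ⟨3, by norm_num, by norm_num, ?_, ?_⟩ <;> (rw [key, h]; omega)
    · refine ⟨4, by norm_num, by norm_num, ?_, ?_⟩ <;> (rw [key, h]; omega)
    · refine ⟨5, by norm_num, by norm_num, ?_, ?_⟩ <;> (rw [key, h]; omega)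
  · rcases hcases with h | h | h | h | h | h
    · refine ⟨4, by norm_num, by norm_num, ?_, ?_⟩ <;> (rw [key, h]; omega)
    · refine ⟨3, by norm_num, by norm_num, ?_, ?_⟩ <;> (rw [key, h]; omega)
    · refine ⟨2, by norm_num, by norm_num, ?_, ?_⟩ <;> (rw [key, h]; omega)
    · refine ⟨5, by norm_num, by norm_num, ?_, ?_⟩ <;> (rw [key, h]; omega)
    · refine ⟨6, by norm_num, by norm_num, ?_, ?_⟩ <;> (rw [key, h]; omega)
    · refine ⟨7, by norm_num, by norm_num, ?_, ?_⟩ <;> (rw [key, h]; omega)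

/-- One letter word. -/
theorem CLS_mem {a y : ℕ} (hM : 7 ≤ M) (h2 : 2 ≤ a) (h7 : a ≤ 7) (hv : 2 ^ a * y % 3 = 1)
    (hu : nx a y % 3 ≠ 0) : [a] ∈ PP M 1 y := by
  rw [mem_PP]
  refine ⟨⟨rfl, ?_⟩, ⟨hv, trivial⟩, hu, ?_⟩
  · intro b hb
    rw [List.mem_singleton] at hb
    subst hb
    omega
  · rw [List.sum_singleton, mul_one]
    calc Slope.p ≤ 2 * Slope.q := Slope.hpq
      _ = Slope.q * 2 := by ring
      _ ≤ Slope.q * a := Nat.mul_le_mul_left _ h2

theorem CLS_wt (hβ : 0 < β) (hβ1 : β ≤ 1) {a : ℕ} (h7 : a ≤ 7) :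
    -(7 * Slope.q * Real.log 2) ≤ Real.log (wt β 1 [a]) := by
  unfold wt
  have hpos : (0 : ℝ) < 2 ^ (Slope.p * 1) / 2 ^ (Slope.q * [a].sum) := by positivity
  rw [Real.log_rpow hpos, Real.log_div (by positivity) (by positivity), Real.log_pow, Real.log_pow,
    List.sum_singleton]
  push_cast
  have hl : 0 < Real.log 2 := Real.log_pos (by norm_num)
  have ha : (a : ℝ) ≤ 7 := by exact_mod_cast h7
  have hq0 : (0 : ℝ) ≤ (Slope.q : ℕ) := Nat.cast_nonneg _
  have hp0 : (0 : ℝ) ≤ (Slope.p : ℕ) := Nat.cast_nonneg _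
  have ha0 : (0 : ℝ) ≤ (a : ℝ) := Nat.cast_nonneg _
  have h1 : (Slope.q : ℝ) * a ≤ Slope.q * 7 := mul_le_mul_of_nonneg_left ha hq0
  have h2 : -((Slope.q : ℝ) * 7 * Real.log 2) ≤ Slope.p * 1 * Real.log 2 - Slope.q * a * Real.log 2 := by
    have h3 : (Slope.q : ℝ) * a * Real.log 2 ≤ Slope.q * 7 * Real.log 2 :=
      mul_le_mul_of_nonneg_right h1 hl.le
    have h4 : 0 ≤ (Slope.p : ℝ) * 1 * Real.log 2 := by positivity
    linarith
  have h5 : 0 ≤ (Slope.q : ℝ) * 7 * Real.log 2 := by positivity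
  nlinarith

/-- One step. -/
theorem CLS_step (hβ : 0 < β) (hβ1 : β ≤ 1) (hM : 7 ≤ M) (n : ℕ) {a y : ℕ} (h2 : 2 ≤ a) (h7 : a ≤ 7)
    (hy : y % 3 ≠ 0) (hv : 2 ^ a * y % 3 = 1) (hu : nx a y % 3 ≠ 0) :
    Real.log (W β M n (nx a y)) - 7 * Slope.q * Real.log 2 ≤ Real.log (W β M (n + 1) y) := by
  have hmem := CLS_mem (M := M) hM h2 h7 hv hu
  have h1 := W_super β M 1 n y
  have h3 : wt β 1 [a] * W β M n (nx a y) ≤ ∑ l ∈ PP M 1 y, wt β 1 l * W β M n (en l y) := by
    refine single_le_sum (f := fun l => wt β 1 l * W β M n (en l y)) ?_ hmem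
    intro l hl
    exact mul_nonneg (wt_pos _ _ _).le (J_W_pos hβ hβ1 hM n _ (J_mem_PP hl).2.2).le
  have h4 := h3.trans h1
  rw [add_comm 1 n] at h4
  have hW := J_W_pos hβ hβ1 hM n _ hu
  have hw := wt_pos β 1 [a]
  have h5 := Real.log_le_log (mul_pos hw hW) h4
  rw [Real.log_mul hw.ne' hW.ne'] at h5
  have h6 := CLS_wt hβ hβ1 h7
  linarith

/-- Reindexing. -/
theorem CLS_bij (a y0 n v : ℕ) (hv : v < 3) (hu : nx a y0 % 3 = v) (F : ℕ → ℝ) :
    ∑ t ∈ range (3 ^ n), F ((nx a y0 + 3 * 2 ^ a * t) % 3 ^ (n + 1)) =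
      ∑ y ∈ (range (3 ^ (n + 1))).filter (fun y => y % 3 = v), F y := by
  have hinj : Set.InjOn (fun t => (nx a y0 + 3 * 2 ^ a * t) % 3 ^ (n + 1)) (range (3 ^ n) : Finset ℕ) := by
    intro t ht t' ht' h
    rw [coe_range, Set.mem_Iio] at ht ht'
    have h1 : nx a y0 + 3 * 2 ^ a * t ≡ nx a y0 + 3 * 2 ^ a * t' [MOD 3 ^ (n + 1)] := h
    have h2 : 3 * (2 ^ a * t) ≡ 3 * (2 ^ a * t') [MOD 3 * 3 ^ n] := by
      have := Nat.ModEq.add_left_cancel' _ h1
      rw [pow_succ, mul_comm (3 ^ n) 3] at this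
      rwa [mul_assoc, mul_assoc] at this
    have h3 : 2 ^ a * t ≡ 2 ^ a * t' [MOD 3 ^ n] := Nat.ModEq.mul_left_cancel' (by norm_num) h2
    have h4 : t ≡ t' [MOD 3 ^ n] := by
      refine Nat.ModEq.cancel_left_of_coprime ?_ h3
      rw [Nat.Coprime.gcd_eq_one]
      exact Nat.Coprime.pow _ _ (by norm_num)
    exact Nat.ModEq.eq_of_lt_of_lt h4 ht ht'
  rw [← sum_image hinj]
  refine sum_congr ?_ fun _ _ => rfl
  refine eq_of_subset_of_card_le ?_ ?_
  · intro z hz
    rw [mem_image] at hz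
    obtain ⟨t, -, rfl⟩ := hz
    rw [mem_filter, mem_range]
    refine ⟨Nat.mod_lt _ (by positivity), ?_⟩
    rw [Nat.mod_mod_of_dvd _ (dvd_pow_self 3 (Nat.succ_ne_zero n)), mul_assoc, Nat.add_mul_mod_self_left]
    exact hu
  · rw [card_image_of_injOn hinj, card_range]
    have h1 : (range (3 ^ (n + 1))).filter (fun y => y % 3 = v) ⊆ (range (3 ^ n)).image (fun t => 3 * t + v) := by
      intro y hy
      rw [mem_filter, mem_range, pow_succ] at hy
      rw [mem_image]
      refine ⟨y / 3, ?_, ?_⟩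
      · rw [mem_range]
        omega
      · omega
    exact (card_le_card h1).trans (card_image_le.trans (by rw [card_range]))

/-- Chunk CLS. Each class mean at `n` is at most the smaller class mean at `n + 1`, up to a constant.
Proof: let `c` be the class with `AA (n+1) = av (n+1) c`. For `y` in the class `c` let `a y` be the letter
of `exists_letter_class` (it depends only on `y % 9`). The one letter word `[a]` is in `PP M 1 y` with
`wt β 1 [a] ≥ (2^(7 q))^(-β) ≥ 2^(-7 q)`, so by `W_super` (k = 1)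
`log W (n+1) y ≥ log W n (nx a y) - 7 q log 2`. Sum over the classes `y0` mod `9` with `y0 % 3 = c` (three
of them): `y = y0 + 9 t`, `t < 3^n`, `nx a y = nx a y0 + 3 * 2^a * t` runs mod `3^(n+1)` exactly once
through the class `v`. So `3^(n+1) av (n+1) c ≥ 3 * 3^n av n v - 3^(n+1) 7 q log 2`. -/
theorem av_le_AA (hβ : 0 < β) (hβ1 : β ≤ 1) (hM : 7 ≤ M) (n v : ℕ) (hv : v = 1 ∨ v = 2) :
    av β M n v ≤ AA β M (n + 1) + 7 * Slope.q * Real.log 2 := by
  have key : ∀ c : ℕ, c = 1 ∨ c = 2 → av β M n v ≤ av β M (n + 1) c + 7 * Slope.q * Real.log 2 := by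
    intro c hc
    have hfib : ∀ y0 : ℕ, y0 < 9 → y0 % 3 = c →
        3 ^ n * (av β M n v - 7 * Slope.q * Real.log 2) ≤
          ∑ t ∈ range (3 ^ n), Real.log (W β M (n + 1) (y0 + 9 * t)) := by
      intro y0 _ hy0
      obtain ⟨a, h2, h7, hva, hu⟩ := exists_letter_class y0 v (by omega) hv
      have hbij := CLS_bij a y0 n v (by omega) hu (fun y => Real.log (W β M n y))
      have h3 : ∀ t ∈ range (3 ^ n), Real.log (W β M n ((nx a y0 + 3 * 2 ^ a * t) % 3 ^ (n + 1)))
          - 7 * Slope.q * Real.log 2 ≤ Real.log (W β M (n + 1) (y0 + 9 * t)) := by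
        intro t _
        rw [← W_mod]
        have hva1 : va [a] y0 := ⟨hva, trivial⟩
        have h4 := en_add [a] y0 t hva1
        rw [List.length_singleton, List.sum_singleton] at h4
        have h5 : va [a] (y0 + 9 * t) := h4.1
        have h6 : nx a (y0 + 9 * t) = nx a y0 + 3 * 2 ^ a * t := h4.2
        rw [← h6]
        refine CLS_step hβ hβ1 hM n h2 h7 ?_ h5.1 ?_
        · omega
        · rw [h6, mul_assoc, Nat.add_mul_mod_self_left]
          omega
      have h4 := sum_le_sum h3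
      rw [sum_sub_distrib, hbij, sum_const, card_range, nsmul_eq_mul] at h4
      refine le_trans (le_of_eq ?_) h4
      unfold av
      push_cast
      field_simp
    have hsplit : ∑ y ∈ (range (3 ^ (n + 1 + 1))).filter (fun y => y % 3 = c), Real.log (W β M (n + 1) y) =
        ∑ y0 ∈ (range 9).filter (fun y => y % 3 = c),
          ∑ t ∈ range (3 ^ n), Real.log (W β M (n + 1) (y0 + 9 * t)) := by
      rw [← sum_product']
      refine (sum_bij' (fun x _ => x.1 + 9 * x.2) (fun y _ => (y % 9, y / 9)) ?_ ?_ ?_ ?_ ?_).symm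
      · intro x hx
        rw [mem_product, mem_filter, mem_range, mem_range] at hx
        rw [mem_filter, mem_range, pow_succ, pow_succ]
        constructor <;> omega
      · intro y hy
        rw [mem_filter, mem_range, pow_succ, pow_succ] at hy
        rw [mem_product, mem_filter, mem_range, mem_range]
        refine ⟨⟨?_, ?_⟩, ?_⟩ <;> dsimp only <;> omega
      · intro x hx
        rw [mem_product, mem_filter, mem_range, mem_range] at hx
        ext <;> dsimp only <;> omega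
      · intro y _
        dsimp only
        omega
      · intro x _
        rfl
    have hcard : ((range 9).filter (fun y => y % 3 = c)).card = 3 := by
      rcases hc with rfl | rfl <;> decide
    have h1 : ((3 : ℕ) : ℝ) * (3 ^ n * (av β M n v - 7 * Slope.q * Real.log 2)) ≤
        ∑ y ∈ (range (3 ^ (n + 1 + 1))).filter (fun y => y % 3 = c), Real.log (W β M (n + 1) y) := by
      rw [hsplit]
      have h0 := card_nsmul_le_sum ((range 9).filter (fun y => y % 3 = c))
        (fun y0 => ∑ t ∈ range (3 ^ n), Real.log (W β M (n + 1) (y0 + 9 * t)))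
        (3 ^ n * (av β M n v - 7 * Slope.q * Real.log 2)) (fun y0 hy0 => by
          rw [mem_filter, mem_range] at hy0
          exact hfib y0 hy0.1 hy0.2)
      rw [hcard, nsmul_eq_mul] at h0
      exact h0
    have h2 : av β M n v - 7 * Slope.q * Real.log 2 ≤ av β M (n + 1) c := by
      unfold av at h1 ⊢
      rw [le_div_iff₀ (by positivity)]
      refine le_trans (le_of_eq ?_) h1
      rw [pow_succ]
      push_cast
      ring
    linarith
  unfold AA
  rcases min_choice (av β M (n + 1) 1) (av β M (n + 1) 2) with h | h <;> rw [h]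
  · exact key 1 (Or.inl rfl)
  · exact key 2 (Or.inr rfl)

/-- Chunk CLS. Upper bound for both class means. Proof: `av_le_AA`, `J_bound` (ThmB.lean) at `n+1`, and
`log_mm_ge` (Paths.lean) with `c ε` in place of `ε`. -/
theorem av_upper (hβ : 0 < β) (hβ1 : β ≤ 1) (hM : 7 ≤ M) (hR : 0 < RR β M) (ε : ℝ) (hε : 0 < ε) :
    ∃ C : ℝ, 0 ≤ C ∧ ∀ n v : ℕ, (v = 1 ∨ v = 2) → av β M n v ≤ (RR β M + ε) * n + C := by
  obtain ⟨c, hc, hb⟩ := J_bound hβ hβ1 hM hR
  obtain ⟨C0, hC0, hge⟩ := log_mm_ge hβ hβ1 hM (ε := c * ε) (by positivity)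
  have hl : 0 < Real.log 2 := Real.log_pos (by norm_num)
  refine ⟨RR β M + ε + C0 / c + 7 * Slope.q * Real.log 2, by positivity, fun n v hv => ?_⟩
  have h1 := av_le_AA hβ hβ1 hM n v hv
  have h2 := hb (n + 1) (by omega)
  have h3 := hge (n + 1)
  have h4 : (RR β M * ((n + 1 : ℕ) : ℝ) - Real.log (mm β M (n + 1))) / c ≤ ε * ((n + 1 : ℕ) : ℝ) + C0 / c := by
    rw [div_le_iff₀ hc, add_mul, div_mul_cancel₀ _ hc.ne']
    linarith
  push_cast at h2 h3 h4
  linarith

end H62s
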