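import Mathlib

set_option autoImplicit false
open Finset
namespace H62s

/-! Chunk CONV: contraction of the chi-square distance under convolution in `Z / 3^n`.

Write `N = 3^n`, `‖f‖^2 = ∑ f^2`. (1) For `d` prime to `3` (a unit of `Z/N`) and `f` of sum zero
`‖f(· + d) - f‖^2 ≥ (2/N^2) ‖f‖^2`: for all `x, y` there is `j ≤ N` with `y = x + j d`, so by telescoping and
Cauchy-Schwarz `(f x - f y)^2 ≤ N ‖f(·+d) - f‖^2`; sum over `x, y` : left side `2 N ‖f‖^2`.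
(2) `‖∑_t p t f(· - t)‖^2 = ∑_{t,t'} p t p t' (‖f‖^2 - ‖f(·-t) - f(·-t')‖^2 / 2)` and by (1) the bracket is
`≤ (1 - 1/N^2) ‖f‖^2` when `t - t'` is prime to `3`; `∑_{t ≢ t'} p p' = P^2 - ∑_{d<3} p_d^2`.
(3) apply it to `f = m ∘ u^{-1} - mean`. -/

/-- Residue mod `3`. -/
def r3 {n : ℕ} (x : ZMod (3 ^ n)) : ℕ := x.val % 3

theorem CONV_shift {n : ℕ} (g : ZMod (3 ^ n) → ℝ) (t : ZMod (3 ^ n)) :
    ∑ x, g (x + t) = ∑ x, g x :=
  Equiv.sum_comp (Equiv.addRight t) g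

theorem CONV_tel {n : ℕ} (f : ZMod (3 ^ n) → ℝ) (d : ZMod (3 ^ n)) (k : ℕ) :
    ∑ x, (f (x + k • d) - f x) ^ 2 ≤ (k : ℝ) ^ 2 * ∑ x, (f (x + d) - f x) ^ 2 := by
  have h1 : ∀ x, f (x + k • d) - f x =
      ∑ j ∈ range k, (f (x + (j + 1) • d) - f (x + j • d)) := by
    intro x
    rw [Finset.sum_range_sub (fun j => f (x + j • d))]
    simp
  have h2 : ∀ x, (f (x + k • d) - f x) ^ 2 ≤
      (k : ℝ) * ∑ j ∈ range k, (f (x + (j + 1) • d) - f (x + j • d)) ^ 2 := by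
    intro x
    rw [h1 x]
    have := sq_sum_le_card_mul_sum_sq (s := range k)
      (f := fun j => f (x + (j + 1) • d) - f (x + j • d))
    simpa using this
  calc ∑ x, (f (x + k • d) - f x) ^ 2
      ≤ ∑ x, (k : ℝ) * ∑ j ∈ range k, (f (x + (j + 1) • d) - f (x + j • d)) ^ 2 :=
        Finset.sum_le_sum fun x _ => h2 x
    _ = (k : ℝ) * ∑ j ∈ range k, ∑ x, (f (x + (j + 1) • d) - f (x + j • d)) ^ 2 := by
        rw [← Finset.mul_sum, Finset.sum_comm]
    _ = (k : ℝ) * ∑ j ∈ range k, ∑ x, (f (x + d) - f x) ^ 2 := by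
        congr 1
        refine Finset.sum_congr rfl fun j _ => ?_
        have := CONV_shift (fun x => (f (x + d) - f x) ^ 2) (j • d)
        rw [← this]
        refine Finset.sum_congr rfl fun x _ => ?_
        rw [add_smul, one_smul, add_assoc]
    _ = (k : ℝ) ^ 2 * ∑ x, (f (x + d) - f x) ^ 2 := by
        rw [Finset.sum_const, card_range, nsmul_eq_mul]
        ring

theorem CONV_unit {n : ℕ} (d : ZMod (3 ^ n)) (hd : r3 d ≠ 0) : IsUnit d := by
  have h1 : Nat.Coprime d.val (3 ^ n) := by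
    refine Nat.Coprime.pow_right n ?_
    rw [Nat.coprime_comm, Nat.Prime.coprime_iff_not_dvd Nat.prime_three]
    intro h
    exact hd (Nat.mod_eq_zero_of_dvd h)
  have h2 := (ZMod.isUnit_iff_coprime d.val (3 ^ n)).2 h1
  rwa [ZMod.natCast_zmod_val] at h2

theorem CONV_pairs {n : ℕ} (f : ZMod (3 ^ n) → ℝ) (hf : ∑ x, f x = 0) :
    ∑ t, ∑ x, (f (x + t) - f x) ^ 2 = 2 * 3 ^ n * ∑ x, f x ^ 2 := by
  have hcard : (Finset.univ : Finset (ZMod (3 ^ n))).card = 3 ^ n := by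
    rw [Finset.card_univ, ZMod.card]
  have h1 : ∀ t, ∑ x, (f (x + t) - f x) ^ 2 =
      2 * ∑ x, f x ^ 2 - 2 * ∑ x, f (x + t) * f x := by
    intro t
    have h2 : ∑ x, f (x + t) ^ 2 = ∑ x, f x ^ 2 := CONV_shift (fun x => f x ^ 2) t
    calc ∑ x, (f (x + t) - f x) ^ 2
        = ∑ x, (f (x + t) ^ 2 + f x ^ 2 - 2 * (f (x + t) * f x)) :=
          Finset.sum_congr rfl fun x _ => by ring
      _ = _ := by
          rw [Finset.sum_sub_distrib, Finset.sum_add_distrib, h2, ← Finset.mul_sum]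
          ring
  simp only [h1]
  rw [Finset.sum_sub_distrib, Finset.sum_const, hcard, nsmul_eq_mul, ← Finset.mul_sum,
    Finset.sum_comm]
  have h3 : ∀ x, ∑ t, f (x + t) * f x = 0 := by
    intro x
    rw [← Finset.sum_mul]
    have h4 : ∑ t, f (x + t) = ∑ t, f t := Equiv.sum_comp (Equiv.addLeft x) f
    rw [h4, hf, zero_mul]
  simp only [h3]
  push_cast
  simp
  ring

theorem step1 {n : ℕ} (f : ZMod (3 ^ n) → ℝ) (hf : ∑ x, f x = 0) (d : ZMod (3 ^ n))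
    (hd : r3 d ≠ 0) :
    2 * ∑ x, f x ^ 2 ≤ (3 ^ n) ^ 2 * ∑ x, (f (x + d) - f x) ^ 2 := by
  have hD : 0 ≤ ∑ x, (f (x + d) - f x) ^ 2 := Finset.sum_nonneg fun x _ => sq_nonneg _
  have hcard : (Finset.univ : Finset (ZMod (3 ^ n))).card = 3 ^ n := by
    rw [Finset.card_univ, ZMod.card]
  have hall : ∀ t, ∑ x, (f (x + t) - f x) ^ 2 ≤
      (3 ^ n) ^ 2 * ∑ x, (f (x + d) - f x) ^ 2 := by
    intro t
    obtain ⟨u, hu⟩ := CONV_unit d hd
    have h1 : ((t * ↑u⁻¹ : ZMod (3 ^ n)).val) • d = t := by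
      rw [nsmul_eq_mul, ZMod.natCast_zmod_val, mul_assoc, ← hu, Units.inv_mul, mul_one]
    have h2 := CONV_tel f d ((t * ↑u⁻¹ : ZMod (3 ^ n)).val)
    rw [h1] at h2
    refine h2.trans (mul_le_mul_of_nonneg_right ?_ hD)
    have h3 : (t * ↑u⁻¹ : ZMod (3 ^ n)).val ≤ 3 ^ n := (ZMod.val_lt _).le
    have h4 : (((t * ↑u⁻¹ : ZMod (3 ^ n)).val : ℕ) : ℝ) ≤ 3 ^ n := by exact_mod_cast h3
    exact pow_le_pow_left₀ (by positivity) h4 2
  have h5 : ∑ t, ∑ x, (f (x + t) - f x) ^ 2 ≤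
      (3 ^ n : ℝ) * ((3 ^ n) ^ 2 * ∑ x, (f (x + d) - f x) ^ 2) := by
    refine (Finset.sum_le_card_nsmul _ _ _ fun t _ => hall t).trans ?_
    rw [hcard, nsmul_eq_mul]
    push_cast
    exact le_rfl
  rw [CONV_pairs f hf] at h5
  have h6 : (0:ℝ) < 3 ^ n := by positivity
  have h7 : (3 ^ n : ℝ) * (2 * ∑ x, f x ^ 2) ≤
      (3 ^ n : ℝ) * ((3 ^ n) ^ 2 * ∑ x, (f (x + d) - f x) ^ 2) := by
    calc (3 ^ n : ℝ) * (2 * ∑ x, f x ^ 2) = 2 * 3 ^ n * ∑ x, f x ^ 2 := by ring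
      _ ≤ _ := h5
  exact le_of_mul_le_mul_left h7 h6

theorem CONV_r3 {n : ℕ} (t t' : ZMod (3 ^ n)) (h : r3 t ≠ r3 t') : r3 (t' - t) ≠ 0 := by
  intro h0
  apply h
  rcases Nat.eq_zero_or_pos n with hn | hn
  · subst hn
    have h1 : t.val = 0 := by
      have := ZMod.val_lt t
      simpa using this
    have h2 : t'.val = 0 := by
      have := ZMod.val_lt t'
      simpa using this
    rw [r3, r3, h1, h2]
  · have h1 : t' = t + (t' - t) := by ring
    have h2 : t'.val = (t.val + (t' - t).val) % 3 ^ n := by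
      conv_lhs => rw [h1]
      rw [ZMod.val_add]
    have h3 : (3:ℕ) ∣ 3 ^ n := dvd_pow_self 3 hn.ne'
    rw [r3] at h0
    rw [r3, r3, h2, Nat.mod_mod_of_dvd _ h3, Nat.add_mod, h0]
    simp

theorem step2 {n : ℕ} (f : ZMod (3 ^ n) → ℝ) (hf : ∑ x, f x = 0) (p : ZMod (3 ^ n) → ℝ)
    (hp : ∀ t, 0 ≤ p t) :
    ∑ v, (∑ t, p t * f (v - t)) ^ 2 ≤
      ((∑ t, p t) ^ 2 - ((∑ t, p t) ^ 2 - ∑ d ∈ range 3, (∑ t ∈ univ.filter (fun t => r3 t = d), p t) ^ 2) /
        (3 ^ n) ^ 2) * ∑ x, f x ^ 2 := by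
  have hN : (0:ℝ) < (3 ^ n) ^ 2 := by positivity
  have hshift : ∀ t, ∑ v, f (v - t) ^ 2 = ∑ x, f x ^ 2 := by
    intro t
    have := CONV_shift (fun x => f x ^ 2) (-t)
    simpa [sub_eq_add_neg] using this
  have hinner : ∀ t t', ∑ v, f (v - t) * f (v - t') ≤
      (1 - (if r3 t = r3 t' then 0 else 1) / (3 ^ n) ^ 2) * ∑ x, f x ^ 2 := by
    intro t t'
    have h1 : ∑ v, f (v - t) * f (v - t') =
        ∑ x, f x ^ 2 - (∑ v, (f (v - t) - f (v - t')) ^ 2) / 2 := by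
      have h2 : ∑ v, (f (v - t) - f (v - t')) ^ 2 =
          ∑ v, f (v - t) ^ 2 + ∑ v, f (v - t') ^ 2 - 2 * ∑ v, f (v - t) * f (v - t') := by
        rw [Finset.mul_sum, ← Finset.sum_add_distrib, ← Finset.sum_sub_distrib]
        exact Finset.sum_congr rfl fun v _ => by ring
      rw [h2, hshift, hshift]
      ring
    rw [h1]
    split_ifs with h
    · have h3 : 0 ≤ ∑ v, (f (v - t) - f (v - t')) ^ 2 := Finset.sum_nonneg fun v _ => sq_nonneg _
      simp only [zero_div, sub_zero, one_mul]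
      linarith
    · have h4 := step1 f hf (t' - t) (CONV_r3 t t' h)
      have h5 : ∑ x, (f (x + (t' - t)) - f x) ^ 2 = ∑ v, (f (v - t) - f (v - t')) ^ 2 := by
        have := CONV_shift (fun x => (f (x + (t' - t)) - f x) ^ 2) (-t')
        rw [← this]
        refine Finset.sum_congr rfl fun v _ => ?_
        have e1 : v + -t' + (t' - t) = v - t := by ring
        have e2 : v + -t' = v - t' := by ring
        rw [e1, e2]
      rw [h5] at h4
      have h6 : (1 - 1 / ((3:ℝ) ^ n) ^ 2) * ∑ x, f x ^ 2 =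
          ∑ x, f x ^ 2 - (∑ x, f x ^ 2) / (3 ^ n) ^ 2 := by ring
      rw [h6]
      have h7 : (∑ x, f x ^ 2) / (3 ^ n) ^ 2 ≤ (∑ v, (f (v - t) - f (v - t')) ^ 2) / 2 := by
        rw [div_le_div_iff₀ hN (by norm_num)]
        linarith
      linarith
  have hexp : ∑ v, (∑ t, p t * f (v - t)) ^ 2 =
      ∑ t, ∑ t', p t * p t' * ∑ v, f (v - t) * f (v - t') := by
    have h1 : ∀ v, (∑ t, p t * f (v - t)) ^ 2 =
        ∑ t, ∑ t', p t * p t' * (f (v - t) * f (v - t')) := by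
      intro v
      rw [sq, Finset.sum_mul_sum]
      exact Finset.sum_congr rfl fun t _ => Finset.sum_congr rfl fun t' _ => by ring
    simp only [h1]
    rw [Finset.sum_comm]
    refine Finset.sum_congr rfl fun t _ => ?_
    rw [Finset.sum_comm]
    refine Finset.sum_congr rfl fun t' _ => ?_
    rw [Finset.mul_sum]
  have hsame : ∑ d ∈ range 3, (∑ t ∈ univ.filter (fun t => r3 t = d), p t) ^ 2 =
      ∑ t, ∑ t', p t * p t' * (if r3 t = r3 t' then 1 else 0) := by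
    have h1 : ∀ d, (∑ t ∈ univ.filter (fun t => r3 t = d), p t) ^ 2 =
        ∑ t ∈ univ.filter (fun t => r3 t = d),
          ∑ t', p t * p t' * (if r3 t = r3 t' then 1 else 0) := by
      intro d
      rw [sq, Finset.sum_mul_sum]
      refine Finset.sum_congr rfl fun t ht => ?_
      have htd : r3 t = d := (Finset.mem_filter.1 ht).2
      rw [Finset.sum_filter]
      refine Finset.sum_congr rfl fun t' _ => ?_
      rw [htd]
      by_cases h : r3 t' = d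
      · rw [if_pos h, if_pos h.symm, mul_one]
      · rw [if_neg h, if_neg (fun h' => h h'.symm), mul_zero]
    simp only [h1]
    exact Finset.sum_fiberwise_of_maps_to (fun t _ => Finset.mem_range.2 (Nat.mod_lt _ (by norm_num))) _
  have hP : (∑ t, p t) ^ 2 = ∑ t, ∑ t', p t * p t' := by
    rw [sq, Finset.sum_mul_sum]
  rw [hexp]
  calc ∑ t, ∑ t', p t * p t' * ∑ v, f (v - t) * f (v - t')
      ≤ ∑ t, ∑ t', p t * p t' *
        ((1 - (if r3 t = r3 t' then 0 else 1) / (3 ^ n) ^ 2) * ∑ x, f x ^ 2) := by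
        refine Finset.sum_le_sum fun t _ => Finset.sum_le_sum fun t' _ => ?_
        exact mul_le_mul_of_nonneg_left (hinner t t') (mul_nonneg (hp t) (hp t'))
    _ = ∑ t, ∑ t', (p t * p t' - (p t * p t' - p t * p t' * (if r3 t = r3 t' then 1 else 0)) /
        (3 ^ n) ^ 2) * ∑ x, f x ^ 2 := by
        refine Finset.sum_congr rfl fun t _ => Finset.sum_congr rfl fun t' _ => ?_
        split_ifs <;> ring
    _ = _ := by
        rw [hP, hsame]
        simp only [← Finset.sum_mul]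
        simp only [Finset.sum_sub_distrib, ← Finset.sum_div]

/-- The contraction. `c` and the unit `u` are arbitrary. -/
theorem conv {n : ℕ} (hn : 1 ≤ n) (m p : ZMod (3 ^ n) → ℝ) (hp : ∀ t, 0 ≤ p t)
    (u : (ZMod (3 ^ n))ˣ) (c : ZMod (3 ^ n)) :
    (∑ v, (∑ t, p t * m (↑u⁻¹ * (v - c - t))) ^ 2) - (∑ t, p t) ^ 2 * (∑ x, m x) ^ 2 / 3 ^ n ≤
      ((∑ t, p t) ^ 2 - ((∑ t, p t) ^ 2 - ∑ d ∈ range 3, (∑ t ∈ univ.filter (fun t => r3 t = d), p t) ^ 2) /
        (3 ^ n) ^ 2) * ((∑ x, m x ^ 2) - (∑ x, m x) ^ 2 / 3 ^ n) := by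
  have hcard : ((Finset.univ : Finset (ZMod (3 ^ n))).card : ℝ) = 3 ^ n := by
    rw [Finset.card_univ, ZMod.card]
    push_cast
    rfl
  have hN : (0:ℝ) < 3 ^ n := by positivity
  set P : ℝ := ∑ t, p t with hP
  set S : ℝ := ∑ x, m x with hS
  have hbij : ∀ (g : ZMod (3 ^ n) → ℝ) (b : ZMod (3 ^ n)), ∑ x, g (↑u⁻¹ * (x - b)) = ∑ x, g x := by
    intro g b
    have h1 : ∑ x, g (↑u⁻¹ * (x - b)) = ∑ x, g (↑u⁻¹ * x) := by
      have := CONV_shift (fun x => g (((u⁻¹ : (ZMod (3 ^ n))ˣ) : ZMod (3 ^ n)) * x)) (-b)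
      simpa [sub_eq_add_neg] using this
    rw [h1]
    exact Equiv.sum_comp (Units.mulLeft u⁻¹) g
  set f : ZMod (3 ^ n) → ℝ := fun x => m (↑u⁻¹ * (x - c)) - S / 3 ^ n with hf
  have hf0 : ∑ x, f x = 0 := by
    simp only [hf]
    rw [Finset.sum_sub_distrib, hbij m c, Finset.sum_const, nsmul_eq_mul, hcard]
    field_simp
    simp [hS]
  have hf2 : ∑ x, f x ^ 2 = (∑ x, m x ^ 2) - S ^ 2 / 3 ^ n := by
    have h1 : ∀ x, f x ^ 2 = m (↑u⁻¹ * (x - c)) ^ 2 - 2 * (S / 3 ^ n) * m (↑u⁻¹ * (x - c)) +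
        (S / 3 ^ n) ^ 2 := fun x => by simp only [hf]; ring
    simp only [h1]
    rw [Finset.sum_add_distrib, Finset.sum_sub_distrib, ← Finset.mul_sum, hbij m c,
      hbij (fun x => m x ^ 2) c, Finset.sum_const, nsmul_eq_mul, hcard, ← hS]
    field_simp
    ring
  have h := step2 f hf0 p hp
  rw [hf2] at h
  refine le_trans (le_of_eq ?_) h
  have hconvf : ∀ v, ∑ t, p t * f (v - t) = (∑ t, p t * m (↑u⁻¹ * (v - c - t))) - P * (S / 3 ^ n) := by
    intro v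
    simp only [hf, mul_sub, Finset.sum_sub_distrib]
    rw [← Finset.sum_mul, ← hP]
    congr 1
    refine Finset.sum_congr rfl fun t _ => ?_
    congr 2
    ring
  have hlin : ∑ v, ∑ t, p t * m (↑u⁻¹ * (v - c - t)) = P * S := by
    rw [Finset.sum_comm]
    have h1 : ∀ t, ∑ v, p t * m (↑u⁻¹ * (v - c - t)) = p t * S := by
      intro t
      rw [← Finset.mul_sum]
      congr 1
      have h2 := hbij m (c + t)
      rw [hS, ← h2]
      refine Finset.sum_congr rfl fun v _ => ?_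
      congr 2
      ring
    simp only [h1]
    rw [← Finset.sum_mul]
  simp only [hconvf]
  have h1 : ∀ v, (∑ t, p t * m (↑u⁻¹ * (v - c - t)) - P * (S / 3 ^ n)) ^ 2 =
      (∑ t, p t * m (↑u⁻¹ * (v - c - t))) ^ 2 -
        2 * (P * (S / 3 ^ n)) * (∑ t, p t * m (↑u⁻¹ * (v - c - t))) + (P * (S / 3 ^ n)) ^ 2 :=
    fun v => by ring
  simp only [h1]
  rw [Finset.sum_add_distrib, Finset.sum_sub_distrib, ← Finset.mul_sum, hlin, Finset.sum_const,
    nsmul_eq_mul, hcard]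
  field_simp
  ring

end H62s
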