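import Pool.Agent.Lib.H62s.T2B

set_option autoImplicit false
open Finset
namespace H62s
open H62w
variable [Slope]

theorem CTY_sum_le {M k : ℕ} {l : List ℕ} (hl : l ∈ words M k) : l.sum ≤ M * k := by
  rw [mem_words] at hl
  have h := List.sum_le_card_nsmul l M (fun a ha => (hl.2 a ha).2)
  rw [hl.1, smul_eq_mul, mul_comm] at h
  exact h

/-- Lipschitz continuity in beta. -/
theorem CTY_W_lip {β β' : ℝ} (h : β ≤ β') (M k y : ℕ) :
    Real.exp (-((β' - β) * (Slope.q * M * Real.log 2) * k)) * W β M k y ≤ W β' M k y := by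
  unfold W
  rw [mul_sum]
  refine sum_le_sum fun l hl => ?_
  unfold PP at hl
  rw [mem_filter] at hl
  have hs := CTY_sum_le hl.1
  unfold wt
  have hpos : (0 : ℝ) < 2 ^ (Slope.p * k) / 2 ^ (Slope.q * l.sum) := by positivity
  have h1 : ((2 : ℝ) ^ (Slope.p * k) / 2 ^ (Slope.q * l.sum)) ^ β' =
      ((2 : ℝ) ^ (Slope.p * k) / 2 ^ (Slope.q * l.sum)) ^ (β' - β) *
        ((2 : ℝ) ^ (Slope.p * k) / 2 ^ (Slope.q * l.sum)) ^ β := by
    rw [← Real.rpow_add hpos]
    congr 1
    ring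
  rw [h1]
  refine mul_le_mul_of_nonneg_right ?_ (by positivity)
  rw [Real.rpow_def_of_pos hpos]
  refine Real.exp_le_exp.mpr ?_
  have h2 : -(Slope.q * M * k * Real.log 2) ≤ Real.log ((2 : ℝ) ^ (Slope.p * k) / 2 ^ (Slope.q * l.sum)) := by
    rw [Real.log_div (by positivity) (by positivity), Real.log_pow, Real.log_pow]
    have h3 : (0 : ℝ) ≤ ((Slope.p * k : ℕ) : ℝ) * Real.log 2 := by
      have := Real.log_nonneg (by norm_num : (1 : ℝ) ≤ 2)
      positivity
    have h4 : ((Slope.q * l.sum : ℕ) : ℝ) * Real.log 2 ≤ Slope.q * M * k * Real.log 2 := by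
      refine mul_le_mul_of_nonneg_right ?_ (Real.log_nonneg (by norm_num))
      have h5 : Slope.q * l.sum ≤ Slope.q * (M * k) := Nat.mul_le_mul_left _ hs
      have h6 : ((Slope.q * l.sum : ℕ) : ℝ) ≤ ((Slope.q * (M * k) : ℕ) : ℝ) := by exact_mod_cast h5
      refine h6.trans (le_of_eq ?_)
      push_cast
      ring
    linarith
  have h5 : 0 ≤ β' - β := by linarith
  nlinarith

/-- Chunk CTY. -/
theorem RR_lip {β β' : ℝ} (hβ : 0 < β) (h : β ≤ β') (hβ1 : β' ≤ 1) {M : ℕ} (hM : 7 ≤ M) :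
    RR β M - (β' - β) * (Slope.q * M * Real.log 2) ≤ RR β' M := by
  refine le_of_forall_pos_le_add fun ε hε => ?_
  obtain ⟨C, hC, hge⟩ := log_mm_ge hβ (le_trans h hβ1) hM (ε := ε / 2) (by positivity)
  obtain ⟨k, hk⟩ := exists_nat_gt (C / (ε / 2))
  have hk0 : (0 : ℝ) < k := lt_of_le_of_lt (by positivity) hk
  have h1 := hge k
  have h2 : Real.log (mm β M k) - (β' - β) * (Slope.q * M * Real.log 2) * k ≤ Real.log (mm β' M k) := by
    obtain ⟨y, hy, hyW⟩ := exists_mm β' M k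
    have hy3 : y % 3 ≠ 0 := by
      unfold U at hy
      rw [mem_filter] at hy
      exact hy.2
    have h3 : Real.exp (-((β' - β) * (Slope.q * M * Real.log 2) * k)) * mm β M k ≤ mm β' M k := by
      rw [← hyW]
      exact le_trans (mul_le_mul_of_nonneg_left (mm_le β M k y hy3) (Real.exp_pos _).le) (CTY_W_lip h M k y)
    have h4 := mm_pos hβ (le_trans h hβ1) hM k
    have h5 := Real.log_le_log (by positivity) h3
    rw [Real.log_mul (Real.exp_pos _).ne' h4.ne', Real.log_exp] at h5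
    linarith
  have h6 := log_mm_le (lt_of_lt_of_le hβ h) hβ1 hM k
  rw [div_lt_iff₀ (by positivity)] at hk
  have h7 : (RR β M - (β' - β) * (Slope.q * M * Real.log 2)) * k ≤ (RR β' M + ε) * k := by
    nlinarith
  exact le_of_mul_le_mul_right h7 hk0

omit [Slope] in
/-- Two letters. -/
theorem CTY_two (y : ℕ) (hy : y % 3 ≠ 0) : ∃ a b : ℕ, a ≠ b ∧ (2 ≤ a ∧ a ≤ 7 ∧ 2 ^ a * y % 3 = 1 ∧ nx a y % 3 ≠ 0) ∧
    (2 ≤ b ∧ b ≤ 7 ∧ 2 ^ b * y % 3 = 1 ∧ nx b y % 3 ≠ 0) := by
  have hdec : y = 9 * (y / 9) + y % 9 := (Nat.div_add_mod y 9).symm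
  have hr9 : y % 9 < 9 := Nat.mod_lt _ (by norm_num)
  set q := y / 9 with hq
  set r := y % 9 with hr
  have hr3 : r % 3 ≠ 0 := by omega
  have key : ∀ a : ℕ, 2 ^ a * r % 3 = 1 → nx a r % 3 ≠ 0 → (2 ^ a * y % 3 = 1 ∧ nx a y % 3 ≠ 0) := by
    intro a h1 h2
    have e1 : 2 ^ a * y = 2 ^ a * r + 9 * (2 ^ a * q) := by
      rw [hdec]; ring
    refine ⟨by omega, ?_⟩
    unfold nx at h2 ⊢
    rw [e1]
    generalize 2 ^ a * q = u at *
    generalize 2 ^ a * r = v at *
    omega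
  have hcases : r = 1 ∨ r = 2 ∨ r = 4 ∨ r = 5 ∨ r = 7 ∨ r = 8 := by omega
  clear_value q r
  rcases hcases with h | h | h | h | h | h <;> subst h
  · exact ⟨2, 4, by norm_num, ⟨by norm_num, by norm_num, key 2 (by norm_num) (by unfold nx; norm_num)⟩,
      ⟨by norm_num, by norm_num, key 4 (by norm_num) (by unfold nx; norm_num)⟩⟩
  · exact ⟨3, 7, by norm_num, ⟨by norm_num, by norm_num, key 3 (by norm_num) (by unfold nx; norm_num)⟩,
      ⟨by norm_num, by norm_num, key 7 (by norm_num) (by unfold nx; norm_num)⟩⟩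
  · exact ⟨2, 6, by norm_num, ⟨by norm_num, by norm_num, key 2 (by norm_num) (by unfold nx; norm_num)⟩,
      ⟨by norm_num, by norm_num, key 6 (by norm_num) (by unfold nx; norm_num)⟩⟩
  · exact ⟨3, 5, by norm_num, ⟨by norm_num, by norm_num, key 3 (by norm_num) (by unfold nx; norm_num)⟩,
      ⟨by norm_num, by norm_num, key 5 (by norm_num) (by unfold nx; norm_num)⟩⟩
  · exact ⟨4, 6, by norm_num, ⟨by norm_num, by norm_num, key 4 (by norm_num) (by unfold nx; norm_num)⟩,
      ⟨by norm_num, by norm_num, key 6 (by norm_num) (by unfold nx; norm_num)⟩⟩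
  · exact ⟨5, 7, by norm_num, ⟨by norm_num, by norm_num, key 5 (by norm_num) (by unfold nx; norm_num)⟩,
      ⟨by norm_num, by norm_num, key 7 (by norm_num) (by unfold nx; norm_num)⟩⟩

theorem CTY_letter {M : ℕ} (hM : 7 ≤ M) {y a : ℕ} (h : 2 ≤ a ∧ a ≤ 7 ∧ 2 ^ a * y % 3 = 1 ∧ nx a y % 3 ≠ 0) :
    [a] ∈ PP M 1 y ∧ (1 : ℝ) / 2 < wt (1 / (8 * (Slope.q : ℝ))) 1 [a] := by
  have hq : (0 : ℝ) < Slope.q := by exact_mod_cast Slope.hq
  constructor
  · rw [mem_PP]
    refine ⟨⟨rfl, ?_⟩, ⟨h.2.2.1, trivial⟩, h.2.2.2, ?_⟩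
    · intro b hb
      rw [List.mem_singleton] at hb
      omega
    · rw [List.sum_singleton, mul_one]
      have h1 := Slope.hpq
      have h2 : Slope.q * 2 ≤ Slope.q * a := Nat.mul_le_mul_left _ h.1
      omega
  · unfold wt
    rw [List.sum_singleton, mul_one]
    have h1 : (1 : ℝ) / 2 ^ (7 * Slope.q) ≤ 2 ^ Slope.p / 2 ^ (Slope.q * a) := by
      rw [div_le_div_iff₀ (by positivity) (by positivity), one_mul, ← pow_add]
      apply pow_le_pow_right₀ (by norm_num)
      have : Slope.q * a ≤ Slope.q * 7 := Nat.mul_le_mul_left _ h.2.1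
      omega
    have h2 : ((1 : ℝ) / 2 ^ (7 * Slope.q)) ^ (1 / (8 * (Slope.q : ℝ))) ≤
        ((2 : ℝ) ^ Slope.p / 2 ^ (Slope.q * a)) ^ (1 / (8 * (Slope.q : ℝ))) :=
      Real.rpow_le_rpow (by positivity) h1 (by positivity)
    refine lt_of_lt_of_le ?_ h2
    have h3 : ((1 : ℝ) / 2 ^ (7 * Slope.q)) ^ (1 / (8 * (Slope.q : ℝ))) = (1 / 2) ^ ((7 : ℝ) / 8) := by
      rw [← one_div_pow, ← Real.rpow_natCast, ← Real.rpow_mul (by norm_num)]
      congr 1
      push_cast
      field_simp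
    rw [h3]
    have h4 : (1 / 2 : ℝ) ^ (1 : ℝ) < (1 / 2) ^ ((7 : ℝ) / 8) :=
      Real.rpow_lt_rpow_of_exponent_gt (by norm_num) (by norm_num) (by norm_num)
    rw [Real.rpow_one] at h4
    exact h4

/-- Base. -/
theorem RR_base {M : ℕ} (hM : 7 ≤ M) : 0 < RR (1 / (8 * (Slope.q : ℝ))) M := by
  have hq : (1 : ℝ) ≤ Slope.q := by exact_mod_cast Slope.hq
  have hβ : (0 : ℝ) < 1 / (8 * (Slope.q : ℝ)) := by positivity
  have hβ1 : 1 / (8 * (Slope.q : ℝ)) ≤ 1 := by
    rw [div_le_one (by positivity)]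
    linarith
  have hmm : 1 < mm (1 / (8 * (Slope.q : ℝ))) M 1 := by
    obtain ⟨y, hy, hyW⟩ := exists_mm (1 / (8 * (Slope.q : ℝ))) M 1
    have hy3 : y % 3 ≠ 0 := by
      unfold U at hy
      rw [mem_filter] at hy
      exact hy.2
    rw [← hyW]
    obtain ⟨a, b, hab, ha, hb⟩ := CTY_two y hy3
    obtain ⟨ha1, ha2⟩ := CTY_letter hM ha
    obtain ⟨hb1, hb2⟩ := CTY_letter hM hb
    have hne : [a] ≠ [b] := by
      intro h
      exact hab (List.cons.inj h).1
    have h1 : wt (1 / (8 * (Slope.q : ℝ))) 1 [a] + wt (1 / (8 * (Slope.q : ℝ))) 1 [b] ≤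
        W (1 / (8 * (Slope.q : ℝ))) M 1 y := by
      unfold W
      rw [← sum_pair hne]
      refine sum_le_sum_of_subset_of_nonneg ?_ fun l _ _ => (wt_pos _ _ _).le
      intro l hl
      rw [mem_insert, mem_singleton] at hl
      rcases hl with rfl | rfl
      · exact ha1
      · exact hb1
    linarith
  have h := log_mm_le hβ hβ1 hM 1
  have h1 := Real.log_pos hmm
  push_cast at h
  linarith

/-- Chunk CTY. -/
theorem RR_one {M : ℕ} (hM : 7 ≤ M) {g C : ℝ} (hg : 0 < g)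
    (h : ∀ β : ℝ, 0 < β → β ≤ 1 → ∀ n v : ℕ, 1 ≤ n → (v = 1 ∨ v = 2) →
      g * n - C ≤ Real.log (cm β M n v)) : g ≤ RR 1 M := by
  have hq : (1 : ℝ) ≤ Slope.q := by exact_mod_cast Slope.hq
  set b0 : ℝ := 1 / (8 * (Slope.q : ℝ)) with hb0
  have hb0pos : 0 < b0 := by positivity
  have hb01 : b0 ≤ 1 := by
    rw [hb0, div_le_one (by positivity)]
    linarith
  have hjump : ∀ β : ℝ, 0 < β → β ≤ 1 → 0 < RR β M → g ≤ RR β M := by
    intro β hβ hβ1 hR
    exact t2 hβ hβ1 hM hR (B := g) (C := C) (n0 := 1) (fun n hn v hv => h β hβ hβ1 n v hn hv)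
  have hlog2 : 0 < Real.log 2 := Real.log_pos (by norm_num)
  have hMpos : (0 : ℝ) < M := by
    have : 0 < M := by omega
    exact_mod_cast this
  set s : ℝ := g / (2 * (Slope.q * M * Real.log 2)) with hs
  have hspos : 0 < s := by positivity
  have hiter : ∀ j : ℕ, 0 < RR (min (b0 + j * s) 1) M := by
    intro j
    induction j with
    | zero =>
      have : min (b0 + ((0 : ℕ) : ℝ) * s) 1 = b0 := by
        rw [min_eq_left]
        · push_cast; ring
        · push_cast; linarith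
      rw [this]
      exact RR_base hM
    | succ j ih =>
      set b := min (b0 + (j : ℝ) * s) 1 with hb
      set b' := min (b0 + ((j + 1 : ℕ) : ℝ) * s) 1 with hb'
      have hjh : (0 : ℝ) ≤ j * s := by positivity
      have hbpos : 0 < b := lt_min (by linarith) (by norm_num)
      have hbb1 : b ≤ 1 := min_le_right _ _
      have hle : b ≤ b' := by
        refine min_le_min_right _ ?_
        push_cast
        linarith
      have hle2 : b' ≤ b + s := by
        rw [hb, ← min_add_add_right, hb']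
        refine le_min ?_ ?_
        · refine le_trans (min_le_left _ _) ?_
          push_cast
          linarith
        · refine le_trans (min_le_right _ _) ?_
          linarith
      have h1 := hjump b hbpos hbb1 ih
      have h2 := RR_lip hbpos hle (min_le_right _ _) hM
      have h3 : (b' - b) * (Slope.q * M * Real.log 2) ≤ g / 2 := by
        calc (b' - b) * (Slope.q * M * Real.log 2) ≤ s * (Slope.q * M * Real.log 2) :=
              mul_le_mul_of_nonneg_right (by linarith) (by positivity)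
          _ = g / 2 := by rw [hs]; field_simp
      linarith
  obtain ⟨j, hj⟩ := exists_nat_gt (1 / s)
  have h1 : b0 + (j : ℝ) * s ≥ 1 := by
    rw [div_lt_iff₀ hspos] at hj
    linarith
  have h2 := hiter j
  rw [min_eq_right h1] at h2
  exact hjump 1 (by norm_num) (le_refl 1) h2

end H62s
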