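import Pool.Agent.Lib.H62s.Paths

set_option autoImplicit false

/-!
Definitions for the second moment argument. See PROOF.md.
-/

open Finset

namespace H62s
open H62w

/-! ### Weighted finite sets -/

/-- Mass of the fibre of `f` through `a`. -/
noncomputable def ms {α γ : Type} [DecidableEq γ] (s : Finset α) (w : α → ℝ) (f : α → γ) (a : α) : ℝ :=
  ∑ b ∈ s.filter (fun b => f b = f a), w b

/-- Collision functional: sum over the fibres of `f` and the values of `g` of `mass (f,g)^2 / mass f`. -/
noncomputable def QQ {α γ δ : Type} [DecidableEq γ] [DecidableEq δ] (s : Finset α) (w : α → ℝ)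
    (f : α → γ) (g : α → δ) : ℝ :=
  ∑ a ∈ s, w a * (ms s w (fun b => (f b, g b)) a / ms s w f a)

open Classical in
/-- Expected number of good windows: the windows of `n` digits of `v`, one after another. A window is good
if, in the class of the lower digits, each value has at least half of the uniform mass. -/
noncomputable def gw {α : Type} (n : ℕ) (w : α → ℝ) : ℕ → Finset α → (α → ℕ) → ℝ
  | 0, _, _ => 0
  | J + 1, s, v =>
    (if ∀ x < 3 ^ n, (∑ a ∈ s, w a) / (2 * 3 ^ n) ≤ ∑ a ∈ s.filter (fun a => v a % 3 ^ n = x), w a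
      then ∑ a ∈ s, w a else 0) +
    ∑ x ∈ range (3 ^ n), gw n w J (s.filter (fun a => v a % 3 ^ n = x)) (fun a => v a / 3 ^ n)

variable [Slope]

/-! ### Block paths -/

/-- Concatenations of `j` blocks of length `g`. -/
def BP (M g : ℕ) : ℕ → ℕ → Finset (List ℕ)
  | 0, _ => {[]}
  | j + 1, y => (PP M g y).biUnion (fun b => (BP M g j (en b y)).image (fun a => b ++ a))

/-- Probability of a block path: each block `b` at `z` has probability `wt b / W z`. -/
noncomputable def kap (β : ℝ) (M g : ℕ) : ℕ → ℕ → List ℕ → ℝ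
  | 0, _, _ => 1
  | j + 1, y, a =>
    wt β g (a.take g) / W β M g y * kap β M g j (en (a.take g) y) (a.drop g)

/-- Label: total sum and the digits `0..i` of the end point. -/
def ky (y i : ℕ) (a : List ℕ) : ℕ × ℕ := (a.sum, en a y % 3 ^ (i + 1))

/-- Window: the digits `i+1..i+n` of the end point. -/
def wd (y i n : ℕ) (a : List ℕ) : ℕ := en a y / 3 ^ (i + 1) % 3 ^ n

/-- Chi-square functional of the window `[i+1, i+n]` after `j` blocks. -/
noncomputable def FF (β : ℝ) (M g n i j y : ℕ) : ℝ :=
  3 ^ n * QQ (BP M g j y) (kap β M g j y) (ky y i) (wd y i n) - 1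

/-- Mean Gini coefficient of the digit `i+1` after `h` blocks, given the sum and the lower digits. -/
noncomputable def GG (β : ℝ) (M g h i r : ℕ) : ℝ :=
  1 - QQ (BP M g h r) (kap β M g h r) (ky r i) (wd r i 1)

/-- The window `[i+1, i+n]` is good for the path `a`. -/
def gd (β : ℝ) (M g n i j y : ℕ) (a : List ℕ) : Prop :=
  ∀ w < 3 ^ n, ms (BP M g j y) (kap β M g j y) (ky y i) a / (2 * 3 ^ n) ≤
    ∑ b ∈ (BP M g j y).filter (fun b => ky y i b = ky y i a ∧ wd y i n b = w), kap β M g j y b

open Classical in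
/-- Probability of a good window. -/
noncomputable def Gd (β : ℝ) (M g n i j y : ℕ) : ℝ :=
  ∑ a ∈ (BP M g j y).filter (fun a => gd β M g n i j y a), kap β M g j y a

/-- Mean of a function over the class `v` mod `3` in `[0, 3^(Λ+1))`. -/
noncomputable def mean (Λ v : ℕ) (f : ℕ → ℝ) : ℝ :=
  (∑ y ∈ (range (3 ^ (Λ + 1))).filter (fun y => y % 3 = v), f y) / 3 ^ Λ

/-- Class mean of `W`. -/
noncomputable def cm (β : ℝ) (M n v : ℕ) : ℝ := mean n v (fun y => W β M n y)

end H62s
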