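import Pool.Agent.Lib.H62s.EVB

set_option autoImplicit false
open Finset
namespace H62s
open H62w

/-! Chunk EBM: bounds for `FF`, `GG`, and the bad windows. -/

section Generic

variable {α : Type}

/-- total mass of the window value `x` -/
noncomputable def EBM_M (s : Finset α) (w : α → ℝ) (v : α → ℕ) (x : ℕ) : ℝ :=
  ∑ b ∈ s.filter (fun b => v b = x), w b

lemma EBM_sum_M {s : Finset α} {w : α → ℝ} {v : α → ℕ} {N : ℕ} (hv : ∀ a ∈ s, v a < N) :
    ∑ x ∈ range N, EBM_M s w v x = ∑ a ∈ s, w a := by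
  unfold EBM_M
  exact Finset.sum_fiberwise_of_maps_to (fun a ha => mem_range.2 (hv a ha)) _

lemma EBM_sum_wM {s : Finset α} {w : α → ℝ} {v : α → ℕ} {N : ℕ} (hv : ∀ a ∈ s, v a < N) :
    ∑ a ∈ s, w a * EBM_M s w v (v a) = ∑ x ∈ range N, EBM_M s w v x ^ 2 := by
  rw [← Finset.sum_fiberwise_of_maps_to (fun a ha => mem_range.2 (hv a ha))
    (fun a => w a * EBM_M s w v (v a))]
  refine Finset.sum_congr rfl fun x _ => ?_
  have h1 : ∀ a ∈ s.filter (fun a => v a = x), w a * EBM_M s w v (v a) = w a * EBM_M s w v x := by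
    intro a ha
    rw [(mem_filter.1 ha).2]
  rw [Finset.sum_congr rfl h1, ← Finset.sum_mul, sq]
  rfl

lemma EBM_cls_eq {s : Finset α} {w : α → ℝ} {v : α → ℕ} {N : ℕ} (hN : 0 < N)
    (hv : ∀ a ∈ s, v a < N) (hm : 0 < ∑ a ∈ s, w a) :
    ∑ a ∈ s, w a * (N * (EBM_M s w v (v a) / ∑ a ∈ s, w a) - 1) =
      N / (∑ a ∈ s, w a) * ∑ x ∈ range N, (EBM_M s w v x - (∑ a ∈ s, w a) / N) ^ 2 := by
  set m := ∑ a ∈ s, w a with hmdef
  have hNr : (0:ℝ) < N := by exact_mod_cast hN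
  have h1 : ∑ a ∈ s, w a * (N * (EBM_M s w v (v a) / m) - 1) =
      N / m * (∑ a ∈ s, w a * EBM_M s w v (v a)) - m := by
    rw [Finset.mul_sum, hmdef, ← Finset.sum_sub_distrib]
    refine Finset.sum_congr rfl fun a _ => ?_
    ring
  rw [h1, EBM_sum_wM hv]
  have h2 : ∑ x ∈ range N, (EBM_M s w v x - m / N) ^ 2 =
      ∑ x ∈ range N, EBM_M s w v x ^ 2 - 2 * (m / N) * ∑ x ∈ range N, EBM_M s w v x +
        N * (m / N) ^ 2 := by
    rw [Finset.mul_sum, ← Finset.sum_sub_distrib]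
    have h3 : (N:ℝ) * (m / N) ^ 2 = ∑ _x ∈ range N, (m / N) ^ 2 := by
      rw [Finset.sum_const, card_range, nsmul_eq_mul]
    rw [h3, ← Finset.sum_add_distrib]
    refine Finset.sum_congr rfl fun x _ => ?_
    ring
  rw [h2, EBM_sum_M hv, ← hmdef]
  field_simp
  ring

lemma EBM_cls_nonneg {s : Finset α} {w : α → ℝ} {v : α → ℕ} {N : ℕ} (hN : 0 < N)
    (hw : ∀ a ∈ s, 0 < w a) (hv : ∀ a ∈ s, v a < N) :
    0 ≤ ∑ a ∈ s, w a * (N * (EBM_M s w v (v a) / ∑ a ∈ s, w a) - 1) := by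
  rcases s.eq_empty_or_nonempty with h | h
  · subst h; simp
  · have hm : 0 < ∑ a ∈ s, w a := Finset.sum_pos hw h
    rw [EBM_cls_eq hN hv hm]
    have hNr : (0:ℝ) < N := by exact_mod_cast hN
    exact mul_nonneg (by positivity) (Finset.sum_nonneg fun x _ => sq_nonneg _)

lemma EBM_cls_bad {s : Finset α} {w : α → ℝ} {v : α → ℕ} {N : ℕ} (hN : 0 < N)
    (hw : ∀ a ∈ s, 0 < w a) (hv : ∀ a ∈ s, v a < N) {x : ℕ} (hx : x < N)
    (hb : EBM_M s w v x < (∑ a ∈ s, w a) / (2 * N)) :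
    (∑ a ∈ s, w a) / (4 * N) ≤
      ∑ a ∈ s, w a * (N * (EBM_M s w v (v a) / ∑ a ∈ s, w a) - 1) := by
  have hNr : (0:ℝ) < N := by exact_mod_cast hN
  have hM0 : 0 ≤ EBM_M s w v x :=
    Finset.sum_nonneg fun b hb => (hw b (mem_filter.1 hb).1).le
  have hm : 0 < ∑ a ∈ s, w a := by
    by_contra h
    have h1 : (∑ a ∈ s, w a) / (2 * N) ≤ 0 :=
      div_nonpos_of_nonpos_of_nonneg (not_lt.1 h) (by positivity)
    linarith
  rw [EBM_cls_eq hN hv hm]
  set m := ∑ a ∈ s, w a with hmdef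
  have h1 : (EBM_M s w v x - m / N) ^ 2 ≤ ∑ x ∈ range N, (EBM_M s w v x - m / N) ^ 2 :=
    Finset.single_le_sum (f := fun x => (EBM_M s w v x - m / N) ^ 2) (fun i _ => sq_nonneg _)
      (mem_range.2 hx)
  have h2 : (m / (2 * N)) ^ 2 ≤ (EBM_M s w v x - m / N) ^ 2 := by
    have h3 : m / (2 * N) ≤ m / N - EBM_M s w v x := by
      have h4 : m / N = m / (2 * N) + m / (2 * N) := by field_simp; ring
      linarith
    have h5 : 0 ≤ m / (2 * N) := by positivity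
    nlinarith
  calc m / (4 * N) = N / m * (m / (2 * N)) ^ 2 := by field_simp; ring
    _ ≤ N / m * ∑ x ∈ range N, (EBM_M s w v x - m / N) ^ 2 :=
        mul_le_mul_of_nonneg_left (h2.trans h1) (by positivity)

end Generic

variable [Slope] {β : ℝ} {M : ℕ}

omit [Slope] in
lemma EBM_wd_lt (y i n : ℕ) (a : List ℕ) : wd y i n a < 3 ^ n := Nat.mod_lt _ (by positivity)

lemma EBM_QQ_le (hβ : 0 < β) (hβ1 : β ≤ 1) (hM : 7 ≤ M) (g n i j y : ℕ) (hy : y % 3 ≠ 0) :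
    QQ (BP M g j y) (kap β M g j y) (ky y i) (wd y i n) ≤ 1 := by
  rw [← kap_sum hβ hβ1 hM (g := g) (j := j) hy]
  exact QQ_le (fun a ha => kap_pos hβ hβ1 hM hy ha) _ _

lemma EBM_QQ_ge (hβ : 0 < β) (hβ1 : β ≤ 1) (hM : 7 ≤ M) (g n i j y : ℕ) (hy : y % 3 ≠ 0) :
    1 ≤ 3 ^ n * QQ (BP M g j y) (kap β M g j y) (ky y i) (wd y i n) := by
  have h := QQ_ge (fun a ha => kap_pos hβ hβ1 hM (g := g) (j := j) hy ha) (ky y i) (wd y i n)
    (N := 3 ^ n) (fun a _ => EBM_wd_lt y i n a)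
  rw [kap_sum hβ hβ1 hM (g := g) (j := j) hy] at h
  push_cast at h
  exact h

theorem FF_nonneg (hβ : 0 < β) (hβ1 : β ≤ 1) (hM : 7 ≤ M) (g n i j y : ℕ) (hy : y % 3 ≠ 0) :
    0 ≤ FF β M g n i j y := by
  have := EBM_QQ_ge hβ hβ1 hM g n i j y hy
  unfold FF
  linarith

theorem FF_le (hβ : 0 < β) (hβ1 : β ≤ 1) (hM : 7 ≤ M) (g n i j y : ℕ) (hy : y % 3 ≠ 0) :
    FF β M g n i j y ≤ 3 ^ n := by
  have h := EBM_QQ_le hβ hβ1 hM g n i j y hy
  have h3 : (0:ℝ) < 3 ^ n := by positivity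
  unfold FF
  nlinarith

theorem GG_nonneg (hβ : 0 < β) (hβ1 : β ≤ 1) (hM : 7 ≤ M) (g h i r : ℕ) (hr : r % 3 ≠ 0) :
    0 ≤ GG β M g h i r := by
  have := EBM_QQ_le hβ hβ1 hM g 1 i h r hr
  unfold GG
  linarith

theorem GG_le_one (hβ : 0 < β) (hβ1 : β ≤ 1) (hM : 7 ≤ M) (g h i r : ℕ) (hr : r % 3 ≠ 0) :
    GG β M g h i r ≤ 1 := by
  have h1 := EBM_QQ_ge hβ hβ1 hM g 1 i h r hr
  unfold GG
  norm_num at h1
  linarith

open Classical in
/-- The key inequality, class by class. -/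
lemma EBM_key (hβ : 0 < β) (hβ1 : β ≤ 1) (hM : 7 ≤ M) (g n i j y : ℕ) (hy : y % 3 ≠ 0)
    (φ : ℕ × ℕ → ℝ) (hφ : ∀ a ∈ BP M g j y, 0 ≤ φ (ky y i a)) :
    ∑ a ∈ BP M g j y, (if gd β M g n i j y a then 0 else
        kap β M g j y a * φ (ky y i a) / (4 * 3 ^ n)) ≤
      ∑ a ∈ BP M g j y, kap β M g j y a * φ (ky y i a) * (3 ^ n * rho β M g n i j y a - 1) := by
  set A := BP M g j y with hA
  set w := kap β M g j y with hw
  have hwpos : ∀ a ∈ A, 0 < w a := fun a ha => kap_pos hβ hβ1 hM hy ha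
  have hN : 0 < 3 ^ n := by positivity
  rw [← Finset.sum_fiberwise_of_maps_to (s := A) (t := A.image (ky y i)) (g := ky y i)
      (fun a ha => mem_image_of_mem _ ha) (fun a => if gd β M g n i j y a then 0 else
        w a * φ (ky y i a) / (4 * 3 ^ n)),
    ← Finset.sum_fiberwise_of_maps_to (s := A) (t := A.image (ky y i)) (g := ky y i)
      (fun a ha => mem_image_of_mem _ ha)
      (fun a => w a * φ (ky y i a) * (3 ^ n * rho β M g n i j y a - 1))]
  refine Finset.sum_le_sum fun κ hκ => ?_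
  obtain ⟨a0, ha0, rfl⟩ := mem_image.1 hκ
  have hφ0 := hφ a0 ha0
  set κ := ky y i a0 with hκdef
  set s := A.filter (fun a => ky y i a = κ) with hs
  set m := ∑ a ∈ s, w a with hm
  have hws : ∀ a ∈ s, 0 < w a := fun a ha => hwpos a (mem_filter.1 ha).1
  have hvs : ∀ a ∈ s, wd y i n a < 3 ^ n := fun a _ => EBM_wd_lt y i n a
  have hms : ∀ a ∈ s, ms A w (ky y i) a = m := by
    intro a ha
    unfold ms
    rw [(mem_filter.1 ha).2]
  have hms2 : ∀ a ∈ s, ms A w (fun b => (ky y i b, wd y i n b)) a =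
      EBM_M s w (wd y i n) (wd y i n a) := by
    intro a ha
    unfold ms EBM_M
    rw [hs, Finset.filter_filter]
    refine Finset.sum_congr ?_ fun _ _ => rfl
    ext b
    simp only [mem_filter, Prod.mk.injEq, (mem_filter.1 ha).2]
  have hrho : ∀ a ∈ s, rho β M g n i j y a = EBM_M s w (wd y i n) (wd y i n a) / m := by
    intro a ha
    unfold rho
    rw [← hA, ← hw, hms a ha, hms2 a ha]
  have hR : ∑ a ∈ s, w a * φ (ky y i a) * (3 ^ n * rho β M g n i j y a - 1) =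
      φ κ * ∑ a ∈ s, w a * (((3 ^ n : ℕ) : ℝ) * (EBM_M s w (wd y i n) (wd y i n a) / m) - 1) := by
    rw [Finset.mul_sum]
    refine Finset.sum_congr rfl fun a ha => ?_
    rw [hrho a ha, (mem_filter.1 ha).2]
    push_cast
    ring
  rw [hR]
  have hgd : ∀ a ∈ s, (gd β M g n i j y a ↔
      ∀ x < 3 ^ n, m / (2 * 3 ^ n) ≤ EBM_M s w (wd y i n) x) := by
    intro a ha
    unfold gd
    rw [← hA, ← hw]
    refine forall_congr' fun x => forall_congr' fun _ => ?_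
    rw [hms a ha]
    unfold EBM_M
    rw [hs, Finset.filter_filter, (mem_filter.1 ha).2]
  by_cases hgood : ∀ x < 3 ^ n, m / (2 * 3 ^ n) ≤ EBM_M s w (wd y i n) x
  · have h1 : ∑ a ∈ s, (if gd β M g n i j y a then 0 else w a * φ (ky y i a) / (4 * 3 ^ n)) = 0 := by
      refine Finset.sum_eq_zero fun a ha => ?_
      rw [if_pos ((hgd a ha).2 hgood)]
    rw [h1]
    exact mul_nonneg hφ0 (EBM_cls_nonneg hN hws hvs)
  · have h1 : ∑ a ∈ s, (if gd β M g n i j y a then 0 else w a * φ (ky y i a) / (4 * 3 ^ n)) =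
        φ κ * (m / (4 * ((3 ^ n : ℕ) : ℝ))) := by
      rw [hm, Finset.sum_div, Finset.mul_sum]
      refine Finset.sum_congr rfl fun a ha => ?_
      rw [if_neg (fun h => hgood ((hgd a ha).1 h)), (mem_filter.1 ha).2]
      push_cast
      ring
    rw [h1]
    push Not at hgood
    obtain ⟨x, hx, hlt⟩ := hgood
    refine mul_le_mul_of_nonneg_left (EBM_cls_bad hN hws hvs hx ?_) hφ0
    push_cast
    exact hlt

lemma EBM_FF_eq (hβ : 0 < β) (hβ1 : β ≤ 1) (hM : 7 ≤ M) (g n i j y : ℕ) (hy : y % 3 ≠ 0) :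
    ∑ a ∈ BP M g j y, kap β M g j y a * (3 ^ n * rho β M g n i j y a - 1) =
      FF β M g n i j y := by
  have h := kap_sum hβ hβ1 hM (g := g) (j := j) hy
  have h1 : ∑ a ∈ BP M g j y, kap β M g j y a * (3 ^ n * rho β M g n i j y a - 1) =
      3 ^ n * (∑ a ∈ BP M g j y, kap β M g j y a * rho β M g n i j y a) -
        ∑ a ∈ BP M g j y, kap β M g j y a := by
    rw [Finset.mul_sum, ← Finset.sum_sub_distrib]
    refine Finset.sum_congr rfl fun a _ => ?_
    ring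
  rw [h1, h]
  rfl

lemma EBM_GG_fun (g h i y : ℕ) (a : List ℕ) :
    GG β M g h i (en a y % 3 ^ (h * g + 1)) =
      GG β M g h i ((ky y (i + h * g) a).2 % 3 ^ (h * g + 1)) := by
  show _ = GG β M g h i (en a y % 3 ^ (i + h * g + 1) % 3 ^ (h * g + 1))
  rw [Nat.mod_mod_of_dvd]
  exact pow_dvd_pow 3 (by omega)

lemma EBM_en_mod {g j y : ℕ} (hy : y % 3 ≠ 0) {a : List ℕ} (ha : a ∈ BP M g j y) (k : ℕ) :
    en a y % 3 ^ (k + 1) % 3 ≠ 0 := by
  rw [Nat.mod_mod_of_dvd _ (dvd_pow_self 3 (by omega))]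
  exact (BP_spec hy ha).2.2.2.1

open Classical in
/-- Common part of `FF_mono` and `bad_mass`. -/
lemma EBM_main (hβ : 0 < β) (hβ1 : β ≤ 1) (hM : 7 ≤ M) {n : ℕ} (hn : 1 ≤ n) (g h i j y : ℕ)
    (hy : y % 3 ≠ 0) :
    FF β M g n i (j + h) y + (∑ a ∈ BP M g j y, (if gd β M g n (i + h * g) j y a then 0 else
        kap β M g j y a * GG β M g h i (en a y % 3 ^ (h * g + 1)) / (4 * 3 ^ n))) / (3 ^ n) ^ 2 ≤
      FF β M g n (i + h * g) j y := by
  have h1 := evol hβ hβ1 hM hn g h i j y hy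
  have h2 := EBM_key hβ hβ1 hM g n (i + h * g) j y hy
    (fun κ : ℕ × ℕ => GG β M g h i (κ.2 % 3 ^ (h * g + 1))) (fun a ha => by
      rw [← EBM_GG_fun]
      exact GG_nonneg hβ hβ1 hM g h i _ (EBM_en_mod hy ha _))
  simp only [← EBM_GG_fun] at h2
  have h3 := EBM_FF_eq hβ hβ1 hM g n (i + h * g) j y hy
  have hN : (0:ℝ) < (3 ^ n) ^ 2 := by positivity
  have h4 : ∑ a ∈ BP M g j y, kap β M g j y a *
      (1 - GG β M g h i (en a y % 3 ^ (h * g + 1)) / (3 ^ n) ^ 2) *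
        (3 ^ n * rho β M g n (i + h * g) j y a - 1) =
      FF β M g n (i + h * g) j y - (∑ a ∈ BP M g j y, kap β M g j y a *
        GG β M g h i (en a y % 3 ^ (h * g + 1)) *
          (3 ^ n * rho β M g n (i + h * g) j y a - 1)) / (3 ^ n) ^ 2 := by
    rw [← h3, Finset.sum_div, ← Finset.sum_sub_distrib]
    refine Finset.sum_congr rfl fun a _ => ?_
    ring
  rw [h4] at h1
  have h5 := div_le_div_of_nonneg_right h2 hN.le
  linarith

/-- Monotonicity (from `evol` with `h = 1`, `GG ≥ 0`, and nonnegativity of each class of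
`a ↦ 3^n rho - 1`). -/
theorem FF_mono (hβ : 0 < β) (hβ1 : β ≤ 1) (hM : 7 ≤ M) {n : ℕ} (hn : 1 ≤ n) (g i j y : ℕ)
    (hy : y % 3 ≠ 0) :
    FF β M g n i (j + 1) y ≤ FF β M g n (i + g) j y := by
  classical
  have h1 := EBM_main hβ hβ1 hM hn g 1 i j y hy
  have h2 : 0 ≤ (∑ a ∈ BP M g j y, (if gd β M g n (i + 1 * g) j y a then 0 else
        kap β M g j y a * GG β M g 1 i (en a y % 3 ^ (1 * g + 1)) / (4 * 3 ^ n))) / (3 ^ n) ^ 2 := by
    refine div_nonneg (Finset.sum_nonneg fun a ha => ?_) (by positivity)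
    split_ifs
    · exact le_rfl
    · exact div_nonneg (mul_nonneg (kap_pos hβ hβ1 hM hy ha).le
        (GG_nonneg hβ hβ1 hM _ _ _ _ (EBM_en_mod hy ha _))) (by positivity)
  have h3 : i + 1 * g = i + g := by ring
  rw [h3] at h1 h2
  linarith

/-- Chunk EBM. Mass of the bad windows, weighted by the Gini coefficient of the continuation.
Proof: let `N = 3^n`, `K = h g`, level `i' = i + K`. By `evol` and
`FF i' j y = ∑ kap (N rho - 1)` (definition of `QQ`, `∑ kap = 1`),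
`∑ kap * GG(r a) * (N rho a - 1) ≤ N^2 (FF i' j y - FF i (j+h) y)`.
Group the left side by the classes of `ky y i'`; `GG (r a)` is constant on each class (`r a` is a function of
`en a y % 3^(i'+1)`). On a class of mass `m` with window masses `m_w`: `∑ kap (N rho - 1) = N ∑ m_w^2 / m - m
= (N/m) ∑ (m_w - m/N)^2 ≥ 0`, and if the class is not good some `w` has `m_w < m/(2N)`, so it is
`≥ (N/m) (m/(2N))^2 = m/(4N)`. -/
theorem bad_mass (hβ : 0 < β) (hβ1 : β ≤ 1) (hM : 7 ≤ M) {n : ℕ} (hn : 1 ≤ n) (g h i j y : ℕ)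
    (hy : y % 3 ≠ 0) :
    ∑ a ∈ BP M g j y, kap β M g j y a * GG β M g h i (en a y % 3 ^ (h * g + 1)) ≤
      Gd β M g n (i + h * g) j y +
        4 * (3 ^ n) ^ 3 * (FF β M g n (i + h * g) j y - FF β M g n i (j + h) y) := by
  classical
  have h1 := EBM_main hβ hβ1 hM hn g h i j y hy
  set S := ∑ a ∈ BP M g j y, (if gd β M g n (i + h * g) j y a then 0 else
        kap β M g j y a * GG β M g h i (en a y % 3 ^ (h * g + 1)) / (4 * 3 ^ n)) with hS
  have hN : (0:ℝ) < 3 ^ n := by positivity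
  have h2 : 4 * 3 ^ n * S ≤
      4 * (3 ^ n) ^ 3 * (FF β M g n (i + h * g) j y - FF β M g n i (j + h) y) := by
    have h3 : S / (3 ^ n) ^ 2 ≤ FF β M g n (i + h * g) j y - FF β M g n i (j + h) y := by linarith
    rw [div_le_iff₀ (by positivity)] at h3
    calc 4 * 3 ^ n * S ≤ 4 * 3 ^ n *
        ((FF β M g n (i + h * g) j y - FF β M g n i (j + h) y) * (3 ^ n) ^ 2) :=
          mul_le_mul_of_nonneg_left h3 (by positivity)
      _ = _ := by ring
  refine le_trans ?_ (add_le_add (le_refl (Gd β M g n (i + h * g) j y)) h2)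
  unfold Gd
  rw [Finset.sum_filter, hS, Finset.mul_sum, ← Finset.sum_add_distrib]
  refine Finset.sum_le_sum fun a ha => ?_
  have hk := (kap_pos hβ hβ1 hM hy ha).le
  have hG := GG_le_one hβ hβ1 hM g h i _ (EBM_en_mod hy ha (h * g))
  split_ifs with hg
  · have : kap β M g j y a * GG β M g h i (en a y % 3 ^ (h * g + 1)) ≤ kap β M g j y a * 1 :=
      mul_le_mul_of_nonneg_left hG hk
    linarith
  · have : 4 * 3 ^ n * (kap β M g j y a * GG β M g h i (en a y % 3 ^ (h * g + 1)) / (4 * 3 ^ n)) =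
        kap β M g j y a * GG β M g h i (en a y % 3 ^ (h * g + 1)) := by field_simp
    linarith

end H62s
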