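import Pool.Agent.Lib.H62s.CONV

set_option autoImplicit false
open Finset
namespace H62s

/-- Chunk EVP. One product class. Proof: apply `conv` (CONV.lean) to
`p t = ∑ b ∈ B.filter (tv b = t), wB b` and `m x = ∑ a ∈ A.filter (wv a = x), wA a`; the mass of
`{(a, b) : c + tv b + u wv a = v}` is `∑ t, p t * m (u⁻¹ (v - c - t))` (`sum_fiberwise`). -/
theorem prod_class {α β' : Type} [DecidableEq α] [DecidableEq β'] {n : ℕ} (hn : 1 ≤ n)
    (A : Finset α) (wA : α → ℝ) (wv : α → ZMod (3 ^ n))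
    (B : Finset β') (wB : β' → ℝ) (hB : ∀ b ∈ B, 0 ≤ wB b) (tv : β' → ZMod (3 ^ n))
    (u : (ZMod (3 ^ n))ˣ) (c : ZMod (3 ^ n)) :
    (∑ v, (∑ x ∈ (A ×ˢ B).filter (fun x => c + tv x.2 + ↑u * wv x.1 = v), wA x.1 * wB x.2) ^ 2) -
        (∑ b ∈ B, wB b) ^ 2 * (∑ a ∈ A, wA a) ^ 2 / 3 ^ n ≤
      ((∑ b ∈ B, wB b) ^ 2 - ((∑ b ∈ B, wB b) ^ 2 -
          ∑ d ∈ range 3, (∑ b ∈ B.filter (fun b => r3 (tv b) = d), wB b) ^ 2) / (3 ^ n) ^ 2) *
        ((∑ x, (∑ a ∈ A.filter (fun a => wv a = x), wA a) ^ 2) - (∑ a ∈ A, wA a) ^ 2 / 3 ^ n) := by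
  set p : ZMod (3 ^ n) → ℝ := fun t => ∑ b ∈ B.filter (fun b => tv b = t), wB b with hp
  set m : ZMod (3 ^ n) → ℝ := fun x => ∑ a ∈ A.filter (fun a => wv a = x), wA a with hm
  have hp0 : ∀ t, 0 ≤ p t := fun t => sum_nonneg fun b hb => hB b (mem_filter.mp hb).1
  have h := conv hn m p hp0 u c
  have e1 : ∑ t, p t = ∑ b ∈ B, wB b := by
    rw [hp]; exact sum_fiberwise B tv wB
  have e2 : ∑ x, m x = ∑ a ∈ A, wA a := by
    rw [hm]; exact sum_fiberwise A wv wA
  have e3 : ∀ d, ∑ t ∈ univ.filter (fun t : ZMod (3 ^ n) => r3 t = d), p t =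
      ∑ b ∈ B.filter (fun b => r3 (tv b) = d), wB b := by
    intro d
    rw [hp]
    simp only [sum_filter]
    have : ∀ t : ZMod (3 ^ n), (if r3 t = d then ∑ b ∈ B, (if tv b = t then wB b else 0) else 0) =
        ∑ b ∈ B, (if tv b = t then (if r3 (tv b) = d then wB b else 0) else 0) := by
      intro t
      split_ifs with ht
      · refine sum_congr rfl fun b _ => ?_
        split_ifs with h1 h2 <;> first | rfl | (rw [h1] at h2; exact absurd ht h2)
      · symm
        refine sum_eq_zero fun b _ => ?_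
        split_ifs with h1 h2
        · rw [h1] at h2; exact absurd h2 ht
        · rfl
        · rfl
    rw [sum_congr rfl fun t _ => this t, sum_comm]
    refine sum_congr rfl fun b _ => ?_
    simp
  have e4 : ∀ v, ∑ t, p t * m (↑u⁻¹ * (v - c - t)) =
      ∑ x ∈ (A ×ˢ B).filter (fun x => c + tv x.2 + ↑u * wv x.1 = v), wA x.1 * wB x.2 := by
    intro v
    have e5 : ∑ t, p t * m (↑u⁻¹ * (v - c - t)) = ∑ b ∈ B, wB b * m (↑u⁻¹ * (v - c - tv b)) := by
      rw [← sum_fiberwise B tv (fun b => wB b * m (↑u⁻¹ * (v - c - tv b)))]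
      refine sum_congr rfl fun t _ => ?_
      rw [hp]
      simp only
      rw [sum_mul]
      refine sum_congr rfl fun b hb => ?_
      rw [(mem_filter.mp hb).2]
    rw [e5, sum_filter, sum_product_right]
    refine sum_congr rfl fun b _ => ?_
    rw [hm]
    simp only
    rw [mul_sum, sum_filter]
    refine sum_congr rfl fun a _ => ?_
    have hiff : (wv a = ↑u⁻¹ * (v - c - tv b)) ↔ (c + tv b + ↑u * wv a = v) := by
      constructor
      · intro h1
        rw [h1, ← mul_assoc, Units.mul_inv, one_mul]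
        ring
      · intro h1
        rw [← h1]
        have : c + tv b + ↑u * wv a - c - tv b = ↑u * wv a := by ring
        rw [this, ← mul_assoc, Units.inv_mul, one_mul]
    by_cases h1 : wv a = ↑u⁻¹ * (v - c - tv b)
    · rw [if_pos h1, if_pos (hiff.mp h1)]; ring
    · rw [if_neg h1, if_neg (fun h2 => h1 (hiff.mpr h2))]
  simp only [e4, e1, e2, e3] at h
  exact h

end H62s
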