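import Pool.Agent.Lib.H62s.GEN
import Pool.Agent.Lib.H62s.EVP

set_option autoImplicit false
open Finset
namespace H62s

/-- Sum over a class of `w * ms (f,g)`. -/
theorem EVA_cls {α γ δ : Type} [DecidableEq γ] [DecidableEq δ] (s : Finset α) (w : α → ℝ)
    (f : α → γ) (g : α → δ) (κ : γ) {D : Finset δ} (hD : ∀ a ∈ s, g a ∈ D) :
    ∑ a ∈ s.filter (fun a => f a = κ), w a * ms s w (fun b => (f b, g b)) a =
      ∑ d ∈ D, (∑ a ∈ s.filter (fun a => f a = κ ∧ g a = d), w a) ^ 2 := by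
  rw [← sum_fiberwise_of_maps_to (s := s.filter (fun a => f a = κ)) (t := D) (g := g)
    (fun a ha => hD a (mem_filter.1 ha).1)]
  refine sum_congr rfl fun d _ => ?_
  rw [filter_filter, sq, sum_mul]
  refine sum_congr rfl fun a ha => ?_
  congr 1
  unfold ms
  refine sum_congr ?_ fun _ _ => rfl
  ext b
  have h := (mem_filter.1 ha).2
  simp only [mem_filter, Prod.mk.injEq, h.1, h.2]

/-- `QQ` depends on the window only through equality of windows. -/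
theorem EVA_QQ_congr {α γ δ δ' : Type} [DecidableEq γ] [DecidableEq δ] [DecidableEq δ'] (s : Finset α)
    (w : α → ℝ) (f : α → γ) (g : α → δ) (g' : α → δ')
    (h : ∀ a ∈ s, ∀ b ∈ s, g b = g a ↔ g' b = g' a) :
    QQ s w f g = QQ s w f g' := by
  unfold QQ
  refine sum_congr rfl fun a ha => ?_
  congr 2
  unfold ms
  refine sum_congr ?_ fun _ _ => rfl
  refine filter_congr fun b hb => ?_
  simp only [Prod.mk.injEq, h a ha b hb]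

theorem EVA_zmod (n x y : ℕ) : x % 3 ^ n = y % 3 ^ n ↔ ((x : ℕ) : ZMod (3 ^ n)) = (y : ZMod (3 ^ n)) :=
  (ZMod.natCast_eq_natCast_iff x y (3 ^ n)).symm

theorem EVA_r3 {n : ℕ} (hn : 1 ≤ n) (x : ℕ) : r3 ((x : ℕ) : ZMod (3 ^ n)) = x % 3 ^ 1 := by
  unfold r3
  rw [ZMod.val_natCast, pow_one]
  exact Nat.mod_mod_of_dvd x (dvd_pow_self 3 (by omega))

/-- The end point arithmetic. -/
theorem EVA_arith (K i e z p : ℕ) :
    (e + 3 * p * (z / 3 ^ (K + 1))) % 3 ^ (i + 1) =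
      (e % 3 ^ (i + 1) + 3 * p * (z % 3 ^ (i + K + 1) / 3 ^ (K + 1))) % 3 ^ (i + 1) ∧
    (e + 3 * p * (z / 3 ^ (K + 1))) / 3 ^ (i + 1) =
      (e % 3 ^ (i + 1) + 3 * p * (z % 3 ^ (i + K + 1) / 3 ^ (K + 1))) / 3 ^ (i + 1) +
        e / 3 ^ (i + 1) + p * (z / 3 ^ (i + K + 1)) := by
  have h1 : z / 3 ^ (K + 1) = z % 3 ^ (i + K + 1) / 3 ^ (K + 1) + 3 ^ i * (z / 3 ^ (i + K + 1)) := by
    have h2 : z = z % 3 ^ (i + K + 1) + 3 ^ (K + 1) * (3 ^ i * (z / 3 ^ (i + K + 1))) := by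
      rw [← mul_assoc, ← pow_add, show K + 1 + i = i + K + 1 by ring]
      exact (Nat.mod_add_div z _).symm
    conv_lhs => rw [h2]
    rw [Nat.add_mul_div_left _ _ (by positivity)]
  have h3 : e + 3 * p * (z / 3 ^ (K + 1)) =
      (e % 3 ^ (i + 1) + 3 * p * (z % 3 ^ (i + K + 1) / 3 ^ (K + 1))) +
        3 ^ (i + 1) * (e / 3 ^ (i + 1) + p * (z / 3 ^ (i + K + 1))) := by
    have h4 := Nat.mod_add_div e (3 ^ (i + 1))
    rw [h1]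
    conv_lhs => rw [← h4]
    ring
  rw [h3]
  constructor
  · rw [Nat.add_mul_mod_self_left]
  · rw [Nat.add_mul_div_left _ _ (by positivity)]
    exact (Nat.add_assoc _ _ _).symm

/-- The inequality for one product class, in normalised form. -/
theorem EVA_norm {N P m S p2 m2 : ℝ} (hN : 0 < N) (hP : 0 ≤ P) (hm : 0 < m) (h0 : P = 0 → S = 0 ∧ p2 = 0)
    (h : S - P ^ 2 * m ^ 2 / N ≤ (P ^ 2 - (P ^ 2 - p2) / N ^ 2) * (m2 - m ^ 2 / N)) :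
    N * (S / (m * P)) - m * P ≤ (P - (P - p2 / P) / N ^ 2) * (N * (m2 / m) - m) := by
  rcases eq_or_lt_of_le hP with hP0 | hP0
  · obtain ⟨h1, h2⟩ := h0 hP0.symm
    rw [← hP0, h1, h2]
    simp
  have h1 : N * (S / (m * P)) - m * P = (N / (m * P)) * (S - P ^ 2 * m ^ 2 / N) := by
    field_simp
  have h2 : (P - (P - p2 / P) / N ^ 2) * (N * (m2 / m) - m) =
      (N / (m * P)) * ((P ^ 2 - (P ^ 2 - p2) / N ^ 2) * (m2 - m ^ 2 / N)) := by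
    field_simp
  rw [h1, h2]
  exact mul_le_mul_of_nonneg_left h (by positivity)

/-- One key of `A` and one key of `B`. -/
theorem EVA_term {α β' : Type} [DecidableEq α] [DecidableEq β'] (A : Finset α) (wA : α → ℝ)
    (hA : ∀ a ∈ A, 0 < wA a) (l z : α → ℕ) (B : ℕ → Finset β') (wB : ℕ → β' → ℝ) (K i n : ℕ) (hn : 1 ≤ n)
    (hB : ∀ a ∈ A, ∀ b ∈ B (z a % 3 ^ (K + 1)), 0 < wB (z a % 3 ^ (K + 1)) b)
    (s : β' → ℕ) (e : ℕ → β' → ℕ) (κ ψ : ℕ × ℕ) (hκ : ∃ a ∈ A, (l a, z a % 3 ^ (i + K + 1)) = κ)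
    (r : ℕ) (hr : r = κ.2 % 3 ^ (K + 1)) :
    3 ^ n * ((∑ v : ZMod (3 ^ n), (∑ x ∈ (A.sigma fun a => B (z a % 3 ^ (K + 1))).filter (fun x =>
          ((l x.1, z x.1 % 3 ^ (i + K + 1)), (s x.2, e (z x.1 % 3 ^ (K + 1)) x.2 % 3 ^ (i + 1))) = (κ, ψ) ∧
          ((((e (z x.1 % 3 ^ (K + 1)) x.2 + 3 * 2 ^ (s x.2) * (z x.1 / 3 ^ (K + 1))) / 3 ^ (i + 1) : ℕ)) :
            ZMod (3 ^ n)) = v), wA x.1 * wB (z x.1 % 3 ^ (K + 1)) x.2) ^ 2) /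
        ((∑ a ∈ A.filter (fun a => (l a, z a % 3 ^ (i + K + 1)) = κ), wA a) *
          ∑ b ∈ (B r).filter (fun b => (s b, e r b % 3 ^ (i + 1)) = ψ), wB r b)) -
        (∑ a ∈ A.filter (fun a => (l a, z a % 3 ^ (i + K + 1)) = κ), wA a) *
          ∑ b ∈ (B r).filter (fun b => (s b, e r b % 3 ^ (i + 1)) = ψ), wB r b ≤
      ((∑ b ∈ (B r).filter (fun b => (s b, e r b % 3 ^ (i + 1)) = ψ), wB r b) -
        ((∑ b ∈ (B r).filter (fun b => (s b, e r b % 3 ^ (i + 1)) = ψ), wB r b) -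
          (∑ d ∈ range 3, (∑ b ∈ (B r).filter (fun b => (s b, e r b % 3 ^ (i + 1)) = ψ ∧
            e r b / 3 ^ (i + 1) % 3 ^ 1 = d), wB r b) ^ 2) /
            (∑ b ∈ (B r).filter (fun b => (s b, e r b % 3 ^ (i + 1)) = ψ), wB r b)) / (3 ^ n) ^ 2) *
      (3 ^ n * ((∑ v : ZMod (3 ^ n), (∑ a ∈ A.filter (fun a => (l a, z a % 3 ^ (i + K + 1)) = κ ∧
          ((z a / 3 ^ (i + K + 1) : ℕ) : ZMod (3 ^ n)) = v), wA a) ^ 2) /
        (∑ a ∈ A.filter (fun a => (l a, z a % 3 ^ (i + K + 1)) = κ), wA a)) -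
        ∑ a ∈ A.filter (fun a => (l a, z a % 3 ^ (i + K + 1)) = κ), wA a) := by
  obtain ⟨a0, ha0, hk0⟩ := hκ
  have hra : ∀ a, (l a, z a % 3 ^ (i + K + 1)) = κ → z a % 3 ^ (K + 1) = r := by
    intro a ha
    rw [hr, ← ha]
    exact (Nat.mod_mod_of_dvd _ (pow_dvd_pow 3 (by omega))).symm
  have hBr : ∀ b ∈ B r, 0 < wB r b := by
    rw [← hra a0 hk0]; exact hB a0 ha0
  set Ak := A.filter (fun a => (l a, z a % 3 ^ (i + K + 1)) = κ) with hAk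
  set Bp := (B r).filter (fun b => (s b, e r b % 3 ^ (i + 1)) = ψ) with hBp
  have hcop : Nat.Coprime (2 ^ ψ.1) (3 ^ n) := Nat.Coprime.pow _ _ (by norm_num)
  set u : (ZMod (3 ^ n))ˣ := ZMod.unitOfCoprime (2 ^ ψ.1) hcop with hu
  have hu' : (↑u : ZMod (3 ^ n)) = ((2 ^ ψ.1 : ℕ) : ZMod (3 ^ n)) := ZMod.coe_unitOfCoprime _ _
  set c : ZMod (3 ^ n) := (((ψ.2 + 3 * 2 ^ ψ.1 * (κ.2 / 3 ^ (K + 1))) / 3 ^ (i + 1) : ℕ) : ZMod (3 ^ n)) with hc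
  have hP0 : 0 ≤ ∑ b ∈ Bp, wB r b := sum_nonneg fun b hb => (hBr b (mem_filter.1 hb).1).le
  have hm0 : 0 < ∑ a ∈ Ak, wA a := sum_pos (fun a ha => hA a (mem_filter.1 ha).1)
    ⟨a0, mem_filter.2 ⟨ha0, hk0⟩⟩
  have key := prod_class hn Ak wA (fun a => ((z a / 3 ^ (i + K + 1) : ℕ) : ZMod (3 ^ n))) Bp (wB r)
    (fun b hb => (hBr b (mem_filter.1 hb).1).le) (fun b => ((e r b / 3 ^ (i + 1) : ℕ) : ZMod (3 ^ n))) u c
  -- identification of the three sums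
  have e1 : ∀ v : ZMod (3 ^ n), (∑ x ∈ (A.sigma fun a => B (z a % 3 ^ (K + 1))).filter (fun x =>
          ((l x.1, z x.1 % 3 ^ (i + K + 1)), (s x.2, e (z x.1 % 3 ^ (K + 1)) x.2 % 3 ^ (i + 1))) = (κ, ψ) ∧
          ((((e (z x.1 % 3 ^ (K + 1)) x.2 + 3 * 2 ^ (s x.2) * (z x.1 / 3 ^ (K + 1))) / 3 ^ (i + 1) : ℕ)) :
            ZMod (3 ^ n)) = v), wA x.1 * wB (z x.1 % 3 ^ (K + 1)) x.2) =
      ∑ x ∈ (Ak ×ˢ Bp).filter (fun x => c + ((e r x.2 / 3 ^ (i + 1) : ℕ) : ZMod (3 ^ n)) +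
        ↑u * ((z x.1 / 3 ^ (i + K + 1) : ℕ) : ZMod (3 ^ n)) = v), wA x.1 * wB r x.2 := by
    intro v
    have harith : ∀ a b, (l a, z a % 3 ^ (i + K + 1)) = κ → (s b, e r b % 3 ^ (i + 1)) = ψ →
        ((((e r b + 3 * 2 ^ (s b) * (z a / 3 ^ (K + 1))) / 3 ^ (i + 1) : ℕ)) : ZMod (3 ^ n)) =
          c + ((e r b / 3 ^ (i + 1) : ℕ) : ZMod (3 ^ n)) +
            ↑u * ((z a / 3 ^ (i + K + 1) : ℕ) : ZMod (3 ^ n)) := by
      intro a b ha hb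
      rw [(EVA_arith K i (e r b) (z a) (2 ^ (s b))).2, hc, hu', ← ha, ← hb]
      push_cast
      ring
    refine sum_bij' (fun x _ => (x.1, x.2)) (fun x _ => ⟨x.1, x.2⟩) ?_ ?_ ?_ ?_ ?_
    · rintro ⟨a, b⟩ hx
      simp only [mem_filter, mem_sigma, Prod.mk.injEq] at hx
      obtain ⟨⟨ha, hb⟩, ⟨h1, h2⟩, h3⟩ := hx
      have h1' : (l a, z a % 3 ^ (i + K + 1)) = κ := h1
      have hr' := hra a h1'
      rw [hr'] at hb h2 h3
      have h2' : (s b, e r b % 3 ^ (i + 1)) = ψ := h2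
      rw [mem_filter, mem_product, hAk, hBp, mem_filter, mem_filter]
      exact ⟨⟨⟨ha, h1'⟩, ⟨hb, h2'⟩⟩, by rw [← harith a b h1' h2']; exact h3⟩
    · rintro ⟨a, b⟩ hx
      rw [mem_filter, mem_product, hAk, hBp, mem_filter, mem_filter] at hx
      obtain ⟨⟨⟨ha, h1'⟩, ⟨hb, h2'⟩⟩, h3⟩ := hx
      have hr' := hra a h1'
      rw [← harith a b h1' h2'] at h3
      simp only [mem_filter, mem_sigma]
      refine ⟨⟨ha, by rw [hr']; exact hb⟩, ?_, by rw [hr']; exact h3⟩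
      rw [hr']
      exact Prod.ext h1' h2'
    · rintro ⟨a, b⟩ _; rfl
    · rintro ⟨a, b⟩ _; rfl
    · rintro ⟨a, b⟩ hx
      simp only [mem_filter, mem_sigma, Prod.mk.injEq] at hx
      rw [hra a hx.2.1.1]
  have e2 : ∀ d, (∑ b ∈ Bp.filter (fun b => r3 (((e r b / 3 ^ (i + 1) : ℕ)) : ZMod (3 ^ n)) = d), wB r b) =
      ∑ b ∈ (B r).filter (fun b => (s b, e r b % 3 ^ (i + 1)) = ψ ∧
            e r b / 3 ^ (i + 1) % 3 ^ 1 = d), wB r b := by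
    intro d
    rw [hBp, filter_filter]
    refine sum_congr ?_ fun _ _ => rfl
    refine filter_congr fun b _ => ?_
    rw [EVA_r3 hn]
  have e3 : ∀ v : ZMod (3 ^ n), (∑ a ∈ Ak.filter (fun a => ((z a / 3 ^ (i + K + 1) : ℕ) : ZMod (3 ^ n)) = v), wA a) =
      ∑ a ∈ A.filter (fun a => (l a, z a % 3 ^ (i + K + 1)) = κ ∧
          ((z a / 3 ^ (i + K + 1) : ℕ) : ZMod (3 ^ n)) = v), wA a := by
    intro v
    rw [hAk, filter_filter]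
  simp only [e2, e3] at key
  simp only [e1]
  refine EVA_norm (by positivity) hP0 hm0 ?_ key
  intro hP
  have hB0 : ∀ b ∈ Bp, wB r b = 0 := (sum_eq_zero_iff_of_nonneg
    (fun b hb => (hBr b (mem_filter.1 hb).1).le)).1 hP
  have hBe : Bp = ∅ := by
    rw [eq_empty_iff_forall_notMem]
    intro b hb
    exact absurd (hB0 b hb) (hBr b (mem_filter.1 hb).1).ne'
  constructor
  · rw [hBe]; simp
  · refine sum_eq_zero fun d _ => ?_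
    rw [← e2 d, hBe]; simp

/-- Chunk EVA. Abstract evolution inequality. `A` = paths `a` with label `l a` and end point `z a`;
`B r` = continuations from the residue `r = z % 3^(K+1)`, with label `s b` and end point `e r b`, so that
the new end point is `e r b + 3 * 2^(s b) * (z / 3^(K+1))`. -/
theorem evolA {α β' : Type} [DecidableEq α] [DecidableEq β'] (A : Finset α) (wA : α → ℝ)
    (hA : ∀ a ∈ A, 0 < wA a) (l z : α → ℕ) (B : ℕ → Finset β') (wB : ℕ → β' → ℝ) (K i n : ℕ) (hn : 1 ≤ n)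
    (hB : ∀ a ∈ A, ∀ b ∈ B (z a % 3 ^ (K + 1)), 0 < wB (z a % 3 ^ (K + 1)) b)
    (hB1 : ∀ a ∈ A, ∑ b ∈ B (z a % 3 ^ (K + 1)), wB (z a % 3 ^ (K + 1)) b = 1)
    (s : β' → ℕ) (e : ℕ → β' → ℕ) :
    3 ^ n * QQ (A.sigma fun a => B (z a % 3 ^ (K + 1)))
        (fun x => wA x.1 * wB (z x.1 % 3 ^ (K + 1)) x.2)
        (fun x => (l x.1 + s x.2,
          (e (z x.1 % 3 ^ (K + 1)) x.2 + 3 * 2 ^ (s x.2) * (z x.1 / 3 ^ (K + 1))) % 3 ^ (i + 1)))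
        (fun x =>
          (e (z x.1 % 3 ^ (K + 1)) x.2 + 3 * 2 ^ (s x.2) * (z x.1 / 3 ^ (K + 1))) / 3 ^ (i + 1) % 3 ^ n) -
        ∑ a ∈ A, wA a ≤
      ∑ a ∈ A, wA a * (1 - (1 - QQ (B (z a % 3 ^ (K + 1))) (wB (z a % 3 ^ (K + 1)))
          (fun b => (s b, e (z a % 3 ^ (K + 1)) b % 3 ^ (i + 1)))
          (fun b => e (z a % 3 ^ (K + 1)) b / 3 ^ (i + 1) % 3 ^ 1)) / (3 ^ n) ^ 2) *
        (3 ^ n * (ms A wA (fun a => ((l a, z a % 3 ^ (i + K + 1)), z a / 3 ^ (i + K + 1) % 3 ^ n)) a /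
          ms A wA (fun a => (l a, z a % 3 ^ (i + K + 1))) a) - 1) := by
  set C := A.sigma fun a => B (z a % 3 ^ (K + 1)) with hC
  have hwpos : ∀ x ∈ C, 0 < wA x.1 * wB (z x.1 % 3 ^ (K + 1)) x.2 := by
    rintro ⟨a, b⟩ hx
    rw [hC, mem_sigma] at hx
    exact mul_pos (hA a hx.1) (hB a hx.1 b hx.2)
  have h1 := EVA_QQ_congr C (fun x => wA x.1 * wB (z x.1 % 3 ^ (K + 1)) x.2)
    (fun x => (l x.1 + s x.2,
          (e (z x.1 % 3 ^ (K + 1)) x.2 + 3 * 2 ^ (s x.2) * (z x.1 / 3 ^ (K + 1))) % 3 ^ (i + 1)))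
    (fun x =>
          (e (z x.1 % 3 ^ (K + 1)) x.2 + 3 * 2 ^ (s x.2) * (z x.1 / 3 ^ (K + 1))) / 3 ^ (i + 1) % 3 ^ n)
    (fun x => ((((e (z x.1 % 3 ^ (K + 1)) x.2 + 3 * 2 ^ (s x.2) * (z x.1 / 3 ^ (K + 1))) / 3 ^ (i + 1) : ℕ)) :
            ZMod (3 ^ n))) (fun a _ b _ => EVA_zmod n _ _)
  have h2 := QQ_merge hwpos
    (fun x => (l x.1 + s x.2,
          (e (z x.1 % 3 ^ (K + 1)) x.2 + 3 * 2 ^ (s x.2) * (z x.1 / 3 ^ (K + 1))) % 3 ^ (i + 1)))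
    (fun x => ((l x.1, z x.1 % 3 ^ (i + K + 1)), (s x.2, e (z x.1 % 3 ^ (K + 1)) x.2 % 3 ^ (i + 1))))
    (by
      rintro ⟨a, b⟩ _ ⟨a', b'⟩ _ h
      simp only [Prod.mk.injEq] at h ⊢
      obtain ⟨⟨h3, h4⟩, h5, h6⟩ := h
      rw [h3, h5, (EVA_arith K i _ (z a') (2 ^ s b)).1, (EVA_arith K i _ (z a) (2 ^ s b)).1, h4, h6]
      exact ⟨rfl, rfl⟩)
    (fun x => ((((e (z x.1 % 3 ^ (K + 1)) x.2 + 3 * 2 ^ (s x.2) * (z x.1 / 3 ^ (K + 1))) / 3 ^ (i + 1) : ℕ)) :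
            ZMod (3 ^ n)))
  set KA := A.image (fun a => (l a, z a % 3 ^ (i + K + 1))) with hKA
  set KB := A.biUnion (fun a => (B (z a % 3 ^ (K + 1))).image
    (fun b => (s b, e (z a % 3 ^ (K + 1)) b % 3 ^ (i + 1)))) with hKB
  have h3 := QQ_eq hwpos
    (fun x => ((l x.1, z x.1 % 3 ^ (i + K + 1)), (s x.2, e (z x.1 % 3 ^ (K + 1)) x.2 % 3 ^ (i + 1))))
    (fun x => ((((e (z x.1 % 3 ^ (K + 1)) x.2 + 3 * 2 ^ (s x.2) * (z x.1 / 3 ^ (K + 1))) / 3 ^ (i + 1) : ℕ)) :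
            ZMod (3 ^ n))) (K := KA ×ˢ KB) (D := univ)
    (by
      rintro ⟨a, b⟩ hx
      rw [hC, mem_sigma] at hx
      rw [mem_product]
      exact ⟨mem_image_of_mem _ hx.1, mem_biUnion.2 ⟨a, hx.1, mem_image_of_mem _ hx.2⟩⟩)
    (fun x _ => mem_univ _)
  rw [sum_product] at h3
  -- masses of the classes
  have hra : ∀ κ : ℕ × ℕ, ∀ a, (l a, z a % 3 ^ (i + K + 1)) = κ → z a % 3 ^ (K + 1) = κ.2 % 3 ^ (K + 1) := by
    intro κ a ha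
    rw [← ha]
    exact (Nat.mod_mod_of_dvd _ (pow_dvd_pow 3 (by omega))).symm
  have hmass : ∀ κ ψ : ℕ × ℕ, (∑ x ∈ C.filter (fun x =>
      ((l x.1, z x.1 % 3 ^ (i + K + 1)), (s x.2, e (z x.1 % 3 ^ (K + 1)) x.2 % 3 ^ (i + 1))) = (κ, ψ)),
        wA x.1 * wB (z x.1 % 3 ^ (K + 1)) x.2) =
      (∑ a ∈ A.filter (fun a => (l a, z a % 3 ^ (i + K + 1)) = κ), wA a) *
        ∑ b ∈ (B (κ.2 % 3 ^ (K + 1))).filter
          (fun b => (s b, e (κ.2 % 3 ^ (K + 1)) b % 3 ^ (i + 1)) = ψ), wB (κ.2 % 3 ^ (K + 1)) b := by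
    intro κ ψ
    rw [sum_mul_sum, ← sum_product']
    refine sum_bij' (fun x _ => (x.1, x.2)) (fun x _ => ⟨x.1, x.2⟩) ?_ ?_ ?_ ?_ ?_
    · rintro ⟨a, b⟩ hx
      rw [mem_filter, hC, mem_sigma, Prod.mk.injEq] at hx
      obtain ⟨⟨ha, hb⟩, h4, h5⟩ := hx
      have h6 := hra κ a h4
      dsimp only at hb h5
      rw [h6] at hb h5
      rw [mem_product, mem_filter, mem_filter]
      exact ⟨⟨ha, h4⟩, ⟨hb, h5⟩⟩
    · rintro ⟨a, b⟩ hx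
      rw [mem_product, mem_filter, mem_filter] at hx
      obtain ⟨⟨ha, h4⟩, ⟨hb, h5⟩⟩ := hx
      have h6 := hra κ a h4
      rw [mem_filter, hC, mem_sigma, Prod.mk.injEq]
      dsimp only
      rw [h6]
      exact ⟨⟨ha, hb⟩, h4, h5⟩
    · rintro ⟨a, b⟩ _; rfl
    · rintro ⟨a, b⟩ _; rfl
    · rintro ⟨a, b⟩ hx
      rw [mem_filter, hC, mem_sigma, Prod.mk.injEq] at hx
      dsimp only
      rw [hra κ a hx.2.1]
  -- the total mass of `A`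
  have hmA : ∑ κ ∈ KA, ∑ a ∈ A.filter (fun a => (l a, z a % 3 ^ (i + K + 1)) = κ), wA a = ∑ a ∈ A, wA a :=
    sum_fiberwise_of_maps_to (fun a ha => mem_image_of_mem _ ha) _
  have hKAex : ∀ κ ∈ KA, ∃ a ∈ A, (l a, z a % 3 ^ (i + K + 1)) = κ := by
    intro κ hκ
    exact mem_image.1 hκ
  have hKBsum : ∀ κ ∈ KA, ∑ ψ ∈ KB, (∑ b ∈ (B (κ.2 % 3 ^ (K + 1))).filter
          (fun b => (s b, e (κ.2 % 3 ^ (K + 1)) b % 3 ^ (i + 1)) = ψ), wB (κ.2 % 3 ^ (K + 1)) b) = 1 := by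
    intro κ hκ
    obtain ⟨a, ha, hk⟩ := hKAex κ hκ
    have h4 := hra κ a hk
    rw [sum_fiberwise_of_maps_to, ← h4]
    · exact hB1 a ha
    · intro b hb
      rw [← h4] at hb ⊢
      exact mem_biUnion.2 ⟨a, ha, mem_image_of_mem _ hb⟩
  -- left side
  have hL : 3 ^ n * QQ C (fun x => wA x.1 * wB (z x.1 % 3 ^ (K + 1)) x.2)
      (fun x => ((l x.1, z x.1 % 3 ^ (i + K + 1)), (s x.2, e (z x.1 % 3 ^ (K + 1)) x.2 % 3 ^ (i + 1))))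
      (fun x => ((((e (z x.1 % 3 ^ (K + 1)) x.2 + 3 * 2 ^ (s x.2) * (z x.1 / 3 ^ (K + 1))) / 3 ^ (i + 1) : ℕ)) :
            ZMod (3 ^ n))) - ∑ a ∈ A, wA a ≤
      ∑ κ ∈ KA, (1 - (1 - QQ (B (κ.2 % 3 ^ (K + 1))) (wB (κ.2 % 3 ^ (K + 1)))
          (fun b => (s b, e (κ.2 % 3 ^ (K + 1)) b % 3 ^ (i + 1)))
          (fun b => e (κ.2 % 3 ^ (K + 1)) b / 3 ^ (i + 1) % 3 ^ 1)) / (3 ^ n) ^ 2) *
        (3 ^ n * ((∑ v : ZMod (3 ^ n), (∑ a ∈ A.filter (fun a => (l a, z a % 3 ^ (i + K + 1)) = κ ∧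
          ((z a / 3 ^ (i + K + 1) : ℕ) : ZMod (3 ^ n)) = v), wA a) ^ 2) /
        (∑ a ∈ A.filter (fun a => (l a, z a % 3 ^ (i + K + 1)) = κ), wA a)) -
        ∑ a ∈ A.filter (fun a => (l a, z a % 3 ^ (i + K + 1)) = κ), wA a) := by
    rw [h3, ← hmA, mul_sum, ← sum_sub_distrib]
    refine sum_le_sum fun κ hκ => ?_
    obtain ⟨a0, ha0, hk0⟩ := hKAex κ hκ
    have hr0 := hra κ a0 hk0
    have hBpos : ∀ b ∈ B (κ.2 % 3 ^ (K + 1)), 0 < wB (κ.2 % 3 ^ (K + 1)) b := by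
      rw [← hr0]; exact hB a0 ha0
    have hQ := QQ_eq hBpos (fun b => (s b, e (κ.2 % 3 ^ (K + 1)) b % 3 ^ (i + 1)))
          (fun b => e (κ.2 % 3 ^ (K + 1)) b / 3 ^ (i + 1) % 3 ^ 1) (K := KB) (D := range 3)
          (by
            intro b hb
            rw [← hr0] at hb ⊢
            exact mem_biUnion.2 ⟨a0, ha0, mem_image_of_mem _ hb⟩)
          (fun b _ => mem_range.2 (Nat.mod_lt _ (by norm_num)))
    rw [hQ]
    have hone := hKBsum κ hκ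
    set mκ := ∑ a ∈ A.filter (fun a => (l a, z a % 3 ^ (i + K + 1)) = κ), wA a with hmκ
    have e1 : mκ = ∑ ψ ∈ KB, mκ * ∑ b ∈ (B (κ.2 % 3 ^ (K + 1))).filter
          (fun b => (s b, e (κ.2 % 3 ^ (K + 1)) b % 3 ^ (i + 1)) = ψ), wB (κ.2 % 3 ^ (K + 1)) b := by
      rw [← mul_sum, hone, mul_one]
    conv_lhs => rw [e1]
    rw [mul_sum, ← sum_sub_distrib]
    have e2 : ∀ x : ℝ, (1 - (1 - ∑ ψ ∈ KB, (∑ d ∈ range 3, (∑ b ∈ (B (κ.2 % 3 ^ (K + 1))).filter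
          (fun b => (s b, e (κ.2 % 3 ^ (K + 1)) b % 3 ^ (i + 1)) = ψ ∧
            e (κ.2 % 3 ^ (K + 1)) b / 3 ^ (i + 1) % 3 ^ 1 = d), wB (κ.2 % 3 ^ (K + 1)) b) ^ 2) /
          (∑ b ∈ (B (κ.2 % 3 ^ (K + 1))).filter
          (fun b => (s b, e (κ.2 % 3 ^ (K + 1)) b % 3 ^ (i + 1)) = ψ), wB (κ.2 % 3 ^ (K + 1)) b)) /
            (3 ^ n) ^ 2) * x =
        ∑ ψ ∈ KB, ((∑ b ∈ (B (κ.2 % 3 ^ (K + 1))).filter
          (fun b => (s b, e (κ.2 % 3 ^ (K + 1)) b % 3 ^ (i + 1)) = ψ), wB (κ.2 % 3 ^ (K + 1)) b) -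
          ((∑ b ∈ (B (κ.2 % 3 ^ (K + 1))).filter
          (fun b => (s b, e (κ.2 % 3 ^ (K + 1)) b % 3 ^ (i + 1)) = ψ), wB (κ.2 % 3 ^ (K + 1)) b) -
          (∑ d ∈ range 3, (∑ b ∈ (B (κ.2 % 3 ^ (K + 1))).filter
          (fun b => (s b, e (κ.2 % 3 ^ (K + 1)) b % 3 ^ (i + 1)) = ψ ∧
            e (κ.2 % 3 ^ (K + 1)) b / 3 ^ (i + 1) % 3 ^ 1 = d), wB (κ.2 % 3 ^ (K + 1)) b) ^ 2) /
          (∑ b ∈ (B (κ.2 % 3 ^ (K + 1))).filter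
          (fun b => (s b, e (κ.2 % 3 ^ (K + 1)) b % 3 ^ (i + 1)) = ψ), wB (κ.2 % 3 ^ (K + 1)) b)) /
            (3 ^ n) ^ 2) * x := by
      intro x
      rw [← sum_mul, sum_sub_distrib, hone, ← sum_div, sum_sub_distrib, hone]
    rw [e2]
    refine sum_le_sum fun ψ _ => ?_
    rw [hmass κ ψ]
    exact EVA_term A wA hA l z B wB K i n hn hB s e κ ψ (hKAex κ hκ) _ rfl
  -- right side
  have hR : ∑ a ∈ A, wA a * (1 - (1 - QQ (B (z a % 3 ^ (K + 1))) (wB (z a % 3 ^ (K + 1)))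
          (fun b => (s b, e (z a % 3 ^ (K + 1)) b % 3 ^ (i + 1)))
          (fun b => e (z a % 3 ^ (K + 1)) b / 3 ^ (i + 1) % 3 ^ 1)) / (3 ^ n) ^ 2) *
        (3 ^ n * (ms A wA (fun a => ((l a, z a % 3 ^ (i + K + 1)), z a / 3 ^ (i + K + 1) % 3 ^ n)) a /
          ms A wA (fun a => (l a, z a % 3 ^ (i + K + 1))) a) - 1) =
      ∑ κ ∈ KA, (1 - (1 - QQ (B (κ.2 % 3 ^ (K + 1))) (wB (κ.2 % 3 ^ (K + 1)))
          (fun b => (s b, e (κ.2 % 3 ^ (K + 1)) b % 3 ^ (i + 1)))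
          (fun b => e (κ.2 % 3 ^ (K + 1)) b / 3 ^ (i + 1) % 3 ^ 1)) / (3 ^ n) ^ 2) *
        (3 ^ n * ((∑ v : ZMod (3 ^ n), (∑ a ∈ A.filter (fun a => (l a, z a % 3 ^ (i + K + 1)) = κ ∧
          ((z a / 3 ^ (i + K + 1) : ℕ) : ZMod (3 ^ n)) = v), wA a) ^ 2) /
        (∑ a ∈ A.filter (fun a => (l a, z a % 3 ^ (i + K + 1)) = κ), wA a)) -
        ∑ a ∈ A.filter (fun a => (l a, z a % 3 ^ (i + K + 1)) = κ), wA a) := by
    rw [← sum_fiberwise_of_maps_to (s := A) (t := KA) (g := fun a => (l a, z a % 3 ^ (i + K + 1)))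
      (fun a ha => mem_image_of_mem _ ha)]
    refine sum_congr rfl fun κ hκ => ?_
    have hcls := EVA_cls A wA (fun a => (l a, z a % 3 ^ (i + K + 1)))
      (fun a => ((z a / 3 ^ (i + K + 1) : ℕ) : ZMod (3 ^ n))) κ (D := univ) (fun _ _ => mem_univ _)
    rw [← hcls, sum_div, mul_sum, ← sum_sub_distrib, mul_sum]
    refine sum_congr rfl fun a ha => ?_
    obtain ⟨ha1, ha2⟩ := mem_filter.1 ha
    have h4 := hra κ a ha2
    have h5 : ms A wA (fun a => (l a, z a % 3 ^ (i + K + 1))) a =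
        ∑ a ∈ A.filter (fun a => (l a, z a % 3 ^ (i + K + 1)) = κ), wA a := by
      unfold ms
      refine sum_congr ?_ fun _ _ => rfl
      refine filter_congr fun b _ => ?_
      exact ⟨fun h => h.trans ha2, fun h => h.trans ha2.symm⟩
    have h6 : ms A wA (fun a => ((l a, z a % 3 ^ (i + K + 1)), z a / 3 ^ (i + K + 1) % 3 ^ n)) a =
        ms A wA (fun b => ((l b, z b % 3 ^ (i + K + 1)), ((z b / 3 ^ (i + K + 1) : ℕ) : ZMod (3 ^ n)))) a := by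
      unfold ms
      refine sum_congr ?_ fun _ _ => rfl
      refine filter_congr fun b _ => ?_
      simp only [Prod.mk.injEq, EVA_zmod]
    rw [h4, h5, h6]
    ring
  rw [hR, h1]
  refine le_trans ?_ hL
  have hN : (0 : ℝ) < 3 ^ n := by positivity
  exact sub_le_sub_right (mul_le_mul_of_nonneg_left h2 hN.le) _

end H62s
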