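import Pool.Agent.Lib.H62s.EVA
import Pool.Agent.Lib.H62s.BPB

set_option autoImplicit false
open Finset
namespace H62s
open H62w
variable [Slope] {β : ℝ} {M : ℕ}

/-- Ratio of the masses of the classes through `a`. -/
noncomputable def rho (β : ℝ) (M g n i j y : ℕ) (a : List ℕ) : ℝ :=
  ms (BP M g j y) (kap β M g j y) (fun b => (ky y i b, wd y i n b)) a /
    ms (BP M g j y) (kap β M g j y) (ky y i) a

omit [Slope] in
theorem EVB_ms_map {α α' γ : Type} [DecidableEq α'] [DecidableEq γ] (s : Finset α) (φ : α → α')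
    (hinj : Set.InjOn φ s) (w : α → ℝ) (w' : α' → ℝ) (f : α → γ) (f' : α' → γ)
    (hw : ∀ x ∈ s, w' (φ x) = w x) (hf : ∀ x ∈ s, f' (φ x) = f x) {a : α} (ha : a ∈ s) :
    ms (s.image φ) w' f' (φ a) = ms s w f a := by
  unfold ms
  rw [Finset.sum_filter, Finset.sum_filter, Finset.sum_image hinj]
  refine Finset.sum_congr rfl fun b hb => ?_
  rw [hf b hb, hf a ha, hw b hb]

omit [Slope] in
theorem EVB_QQ_map {α α' γ δ : Type} [DecidableEq α'] [DecidableEq γ] [DecidableEq δ]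
    (s : Finset α) (φ : α → α')
    (hinj : Set.InjOn φ s) (w : α → ℝ) (w' : α' → ℝ) (f : α → γ) (f' : α' → γ)
    (g : α → δ) (g' : α' → δ)
    (hw : ∀ x ∈ s, w' (φ x) = w x) (hf : ∀ x ∈ s, f' (φ x) = f x)
    (hg : ∀ x ∈ s, g' (φ x) = g x) :
    QQ (s.image φ) w' f' g' = QQ s w f g := by
  unfold QQ
  rw [Finset.sum_image hinj]
  refine Finset.sum_congr rfl fun a ha => ?_
  rw [hw a ha, EVB_ms_map s φ hinj w w' f f' hw hf ha,
    EVB_ms_map s φ hinj w w' (fun b => (f b, g b)) (fun b => (f' b, g' b)) hw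
      (fun x hx => by rw [hf x hx, hg x hx]) ha]

/-- Chunk EVB. Evolution inequality for block paths, `K = h g`.
Proof: `evolA` with `A = BP j y`, `wA = kap j y`, `l = sum`, `z a = en a y`, `B r = BP h r`, `wB r = kap h r`,
`s = sum`, `e r b = en b r`. The map `(a, b) ↦ a ++ b` is a bijection from the sigma set onto `BP (j+h) y`
(`BP_append`, `BP_exists`, lengths by `BP_spec`), `BP h z = BP h (z % 3^(K+1))` and
`en b z = en b (z % 3^(K+1)) + 3 * 2^(b.sum) * (z / 3^(K+1))` by `BP_add, kap_add, en_BP_add`. -/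
theorem evol (hβ : 0 < β) (hβ1 : β ≤ 1) (hM : 7 ≤ M) {n : ℕ} (hn : 1 ≤ n) (g h i j y : ℕ)
    (hy : y % 3 ≠ 0) :
    FF β M g n i (j + h) y ≤ ∑ a ∈ BP M g j y, kap β M g j y a *
      (1 - GG β M g h i (en a y % 3 ^ (h * g + 1)) / (3 ^ n) ^ 2) *
        (3 ^ n * rho β M g n (i + h * g) j y a - 1) := by
  have hr3 : ∀ a ∈ BP M g j y, (en a y % 3 ^ (h * g + 1)) % 3 ≠ 0 := by
    intro a ha
    rw [Nat.mod_mod_of_dvd _ (dvd_pow_self 3 (Nat.succ_ne_zero _))]
    exact (BP_spec hy ha).2.2.2.1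
  have hdec : ∀ a : List ℕ, en a y = en a y % 3 ^ (h * g + 1) +
      3 ^ (h * g + 1) * (en a y / 3 ^ (h * g + 1)) := fun a => (Nat.mod_add_div _ _).symm
  have hBP : ∀ a : List ℕ, BP M g h (en a y) = BP M g h (en a y % 3 ^ (h * g + 1)) := by
    intro a
    conv_lhs => rw [hdec a]
    exact BP_add M g h _ _
  have hkap : ∀ a b : List ℕ, b ∈ BP M g h (en a y % 3 ^ (h * g + 1)) →
      kap β M g h (en a y) b = kap β M g h (en a y % 3 ^ (h * g + 1)) b := by
    intro a b hb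
    conv_lhs => rw [hdec a]
    exact kap_add β hb
  have hen : ∀ a ∈ BP M g j y, ∀ b ∈ BP M g h (en a y % 3 ^ (h * g + 1)),
      en b (en a y) = en b (en a y % 3 ^ (h * g + 1)) +
        3 * 2 ^ b.sum * (en a y / 3 ^ (h * g + 1)) := by
    intro a ha b hb
    conv_lhs => rw [hdec a]
    exact en_BP_add (hr3 a ha) hb
  have key := evolA (BP M g j y) (kap β M g j y) (fun a ha => kap_pos hβ hβ1 hM hy ha)
    (fun a => a.sum) (fun a => en a y) (fun r => BP M g h r) (fun r => kap β M g h r) (h * g) i n hn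
    (fun a ha b hb => kap_pos hβ hβ1 hM (hr3 a ha) hb)
    (fun a ha => kap_sum hβ hβ1 hM (hr3 a ha)) (fun b => b.sum) (fun r b => en b r)
  rw [kap_sum hβ hβ1 hM hy] at key
  have hinj : Set.InjOn (fun x : (_ : List ℕ) × List ℕ => x.1 ++ x.2)
      (((BP M g j y).sigma fun a => BP M g h (en a y % 3 ^ (h * g + 1)) :
        Finset ((_ : List ℕ) × List ℕ)) : Set ((_ : List ℕ) × List ℕ)) := by
    rintro ⟨l, l'⟩ hx ⟨m, m'⟩ hx' heq
    simp only [coe_sigma, Set.mem_sigma_iff, mem_coe] at hx hx'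
    have h2 : l.length = m.length := by
      rw [(BP_spec hy hx.1).1, (BP_spec hy hx'.1).1]
    obtain ⟨h4, h5⟩ := List.append_inj (show l ++ l' = m ++ m' from heq) h2
    rw [h4, h5]
  have himg : BP M g (j + h) y = ((BP M g j y).sigma
      fun a => BP M g h (en a y % 3 ^ (h * g + 1))).image (fun x => x.1 ++ x.2) := by
    ext c
    rw [mem_image]
    constructor
    · intro hc
      obtain ⟨a, ha, b, hb, rfl⟩ := BP_exists hc
      exact ⟨⟨a, b⟩, mem_sigma.2 ⟨ha, by rw [← hBP]; exact hb⟩, rfl⟩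
    · rintro ⟨⟨a, b⟩, hx, rfl⟩
      rw [mem_sigma] at hx
      exact BP_append hx.1 (by rw [hBP]; exact hx.2)
  have e1 := EVB_QQ_map ((BP M g j y).sigma fun a => BP M g h (en a y % 3 ^ (h * g + 1)))
    (fun x => x.1 ++ x.2) hinj
    (fun x => kap β M g j y x.1 * kap β M g h (en x.1 y % 3 ^ (h * g + 1)) x.2)
    (kap β M g (j + h) y)
    (fun x => (x.1.sum + x.2.sum, (en x.2 (en x.1 y % 3 ^ (h * g + 1)) +
      3 * 2 ^ x.2.sum * (en x.1 y / 3 ^ (h * g + 1))) % 3 ^ (i + 1)))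
    (ky y i)
    (fun x => (en x.2 (en x.1 y % 3 ^ (h * g + 1)) +
      3 * 2 ^ x.2.sum * (en x.1 y / 3 ^ (h * g + 1))) / 3 ^ (i + 1) % 3 ^ n)
    (wd y i n)
    (fun x hx => by
      rw [mem_sigma] at hx
      rw [kap_append β hx.1, hkap _ _ hx.2])
    (fun x hx => by
      rw [mem_sigma] at hx
      rw [ky, List.sum_append, en_append, hen _ hx.1 _ hx.2])
    (fun x hx => by
      rw [mem_sigma] at hx
      rw [wd, en_append, hen _ hx.1 _ hx.2])
  rw [← himg] at e1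
  unfold FF
  rw [e1]
  exact key

end H62s
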