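import Pool.Agent.Lib.H62s.Paths

set_option autoImplicit false

/-!
The exponent of the set of near-worst residues. Chunk X.
-/

open Finset

namespace H62s
open H62w

variable [Slope]

theorem EE_nonempty {β : ℝ} (hβ : 0 < β) (hβ1 : β ≤ 1) {M : ℕ} (hM : 7 ≤ M) (m : ℕ) {ε : ℝ}
    (hε : 0 ≤ ε) : (EE β M m ε).Nonempty := by
  obtain ⟨y, hy, h⟩ := exists_mm β M m
  refine ⟨y, ?_⟩
  rw [EE, mem_filter]
  refine ⟨hy, ?_⟩
  rw [h]
  refine (log_mm_le hβ hβ1 hM m).trans ?_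
  have : (0 : ℝ) ≤ m := Nat.cast_nonneg m
  nlinarith

theorem card_EE_le (β : ℝ) (M m : ℕ) (ε : ℝ) : (EE β M m ε).card ≤ 3 ^ (m + 1) := by
  refine (card_filter_le _ _).trans ?_
  rw [U]
  refine (card_filter_le _ _).trans ?_
  rw [card_range]

theorem expo {β : ℝ} (hβ : 0 < β) (hβ1 : β ≤ 1) {M : ℕ} (hM : 7 ≤ M) :
    ∃ d : ℝ,
      (∀ ε2 : ℝ, 0 < ε2 → ∃ ε : ℝ, 0 < ε ∧ ∃ m0 : ℕ, ∀ m : ℕ, m0 ≤ m →
        Real.log ((EE β M m ε).card : ℝ) ≤ (d + ε2) * m * Real.log 3) ∧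
      (∀ ε : ℝ, 0 < ε → ∀ ε2 : ℝ, 0 < ε2 → ∀ m0 : ℕ, ∃ m : ℕ, m0 ≤ m ∧
        (d - ε2) * m * Real.log 3 ≤ Real.log ((EE β M m ε).card : ℝ)) := by
  have hlog3 : 0 < Real.log 3 := Real.log_pos (by norm_num)
  set D : Set ℝ := {x | ∃ ε : ℝ, 0 < ε ∧ ∃ m0 : ℕ, ∀ m : ℕ, m0 ≤ m →
    Real.log ((EE β M m ε).card : ℝ) ≤ x * m * Real.log 3} with hD
  have h2 : (2 : ℝ) ∈ D := by
    refine ⟨1, one_pos, 1, fun m hm => ?_⟩
    have h1 : ((EE β M m 1).card : ℝ) ≤ (3 : ℝ) ^ (m + 1) := by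
      exact_mod_cast card_EE_le β M m 1
    have h3 : (0 : ℝ) < ((EE β M m 1).card : ℝ) := by
      exact_mod_cast (EE_nonempty hβ hβ1 hM m zero_le_one).card_pos
    have h4 := Real.log_le_log h3 h1
    rw [Real.log_pow] at h4
    have hm1 : (1 : ℝ) ≤ m := by exact_mod_cast hm
    push_cast at h4
    nlinarith
  have hbdd : BddBelow D := by
    refine ⟨0, ?_⟩
    rintro x ⟨ε, hε, m0, h⟩
    have h1 := h (m0 + 1) (Nat.le_succ m0)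
    have h3 : (1 : ℝ) ≤ ((EE β M (m0 + 1) ε).card : ℝ) := by
      exact_mod_cast (EE_nonempty hβ hβ1 hM (m0 + 1) hε.le).card_pos
    have h4 := Real.log_nonneg h3
    have h5 : (0 : ℝ) < ((m0 + 1 : ℕ) : ℝ) * Real.log 3 :=
      mul_pos (by exact_mod_cast Nat.succ_pos m0) hlog3
    by_contra hx
    rw [not_le] at hx
    nlinarith
  refine ⟨sInf D, ?_, ?_⟩
  · intro ε2 hε2
    obtain ⟨x, ⟨ε, hε, m0, h⟩, hx⟩ := exists_lt_of_csInf_lt ⟨2, h2⟩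
      (show sInf D < sInf D + ε2 by linarith)
    refine ⟨ε, hε, m0, fun m hm => (h m hm).trans ?_⟩
    have hm0 : (0 : ℝ) ≤ m := Nat.cast_nonneg m
    gcongr
  · intro ε hε ε2 hε2 m0
    by_contra hcon
    push Not at hcon
    have h3 : sInf D - ε2 ∈ D := ⟨ε, hε, m0, fun m hm => (hcon m hm).le⟩
    have h4 := csInf_le hbdd h3
    linarith

end H62s
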