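import Pool.Agent.Lib.H62s.CER
import Pool.Agent.Lib.H62x.Count3

set_option autoImplicit false
open Finset
namespace H62s
open H62w

/-- The `3x+1` map. -/
def T (m : ℕ) : ℕ := if m % 2 = 0 then m / 2 else (3 * m + 1) / 2

theorem fin_hh_cont : Continuous hh := by
  unfold hh
  exact Real.continuous_mul_log.sub (Real.continuous_mul_log.comp (continuous_id.sub continuous_const))

theorem fin_log32 : Real.log 2 < Real.log 3 := Real.log_lt_log (by norm_num) (by norm_num)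

/-- choice of the parameters -/
theorem fin_choice (μ : ℝ) (hμ : Real.log 3 / Real.log 2 < μ) (hμ2 : μ ≤ 2)
    (ε : ℝ) (hε : 0 < ε) (θ : ℝ) (hθ0 : 0 < θ)
    (hθ : θ < (hh μ - Real.log 3) / (μ * Real.log 2 - Real.log 3)) :
    ∃ p0 q0 : ℕ, 0 < q0 ∧ q0 < p0 ∧ p0 ≤ 2 * q0 ∧ ∃ g δ : ℝ, 0 < g ∧ 0 < δ ∧
      g < hh ((p0 : ℝ) / q0) - Real.log 3 ∧
      θ * (((p0 : ℝ) / q0 + δ) * Real.log 2 - Real.log 3) < g ∧
      Real.log 3 < (p0 : ℝ) / q0 * Real.log 2 ∧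
      ∀ m : ℝ, (p0 : ℝ) / q0 ≤ m → m ≤ (p0 : ℝ) / q0 + δ →
        |m / (m * Real.log 2 - Real.log 3) - μ / (μ * Real.log 2 - Real.log 3)| ≤ ε / 2 := by
  have hl2 : 0 < Real.log 2 := Real.log_pos (by norm_num)
  have hl32 := fin_log32
  have hD : 0 < μ * Real.log 2 - Real.log 3 := by
    rw [div_lt_iff₀ hl2] at hμ
    linarith
  set φ : ℝ → ℝ := fun m => hh m - Real.log 3 - θ * (m * Real.log 2 - Real.log 3) with hφ
  set ψ : ℝ → ℝ := fun m => m / (m * Real.log 2 - Real.log 3) with hψ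
  have hφμ : 0 < φ μ := by
    rw [lt_div_iff₀ hD] at hθ
    simp only [hφ]
    linarith
  have hφc : Continuous φ := by
    have := fin_hh_cont
    simp only [hφ]
    fun_prop
  have hψc : ContinuousAt ψ μ := by
    simp only [hψ]
    exact ContinuousAt.div continuousAt_id (by fun_prop) hD.ne'
  have e1 : ∀ᶠ m in nhds μ, φ μ / 2 < φ m :=
    hφc.continuousAt.eventually_const_lt (by linarith)
  have e2 : ∀ᶠ m in nhds μ, |ψ m - ψ μ| < ε / 2 := by
    have := Metric.tendsto_nhds.1 hψc (ε / 2) (by linarith)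
    simpa [Real.dist_eq] using this
  obtain ⟨κ, hκ, hball⟩ := Metric.eventually_nhds_iff.1 (e1.and e2)
  obtain ⟨q, hq1, hq2⟩ := exists_rat_btwn (show max (Real.log 3 / Real.log 2) (μ - κ / 2) < μ from
    max_lt hμ (by linarith))
  have hq3 : Real.log 3 / Real.log 2 < q := (le_max_left _ _).trans_lt hq1
  have hq4 : μ - κ / 2 < q := (le_max_right _ _).trans_lt hq1
  have hone : 1 < Real.log 3 / Real.log 2 := by rwa [one_lt_div hl2]
  have hqpos : (0 : ℝ) < q := by linarith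
  have hqpos' : 0 < q := by exact_mod_cast hqpos
  have hnum : 0 < q.num := Rat.num_pos.2 hqpos'
  have hq : ((q.num.toNat : ℕ) : ℝ) / ((q.den : ℕ) : ℝ) = (q : ℝ) := by
    have h1 : ((q.num.toNat : ℕ) : ℤ) = q.num := Int.toNat_of_nonneg hnum.le
    have h2 : ((q.num.toNat : ℕ) : ℝ) = (q.num : ℝ) := by
      have h3 := congrArg (Int.cast : ℤ → ℝ) h1
      rwa [Int.cast_natCast] at h3
    rw [h2]
    exact (Rat.cast_def q).symm
  have hdenpos : (0 : ℝ) < (q.den : ℝ) := by exact_mod_cast q.den_pos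
  refine ⟨q.num.toNat, q.den, q.den_pos, ?_, ?_, ?_⟩
  · have h1 : (1 : ℝ) < ((q.num.toNat : ℕ) : ℝ) / ((q.den : ℕ) : ℝ) := by
      rw [hq]
      linarith
    rw [one_lt_div hdenpos] at h1
    exact_mod_cast h1
  · have h1 : ((q.num.toNat : ℕ) : ℝ) / ((q.den : ℕ) : ℝ) ≤ 2 := by
      rw [hq]
      linarith
    rw [div_le_iff₀ hdenpos] at h1
    exact_mod_cast h1
  rw [hq]
  set δ : ℝ := min (κ / 2) (φ μ / (4 * θ * Real.log 2)) with hδ
  have hδ1 : 0 < δ := lt_min (by linarith) (by positivity)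
  have hδ2 : δ ≤ κ / 2 := min_le_left _ _
  have hδ3 : θ * (δ * Real.log 2) ≤ φ μ / 4 := by
    have h1 : δ ≤ φ μ / (4 * θ * Real.log 2) := min_le_right _ _
    rw [le_div_iff₀ (by positivity)] at h1
    linarith
  have hin : ∀ m : ℝ, (q : ℝ) ≤ m → m ≤ q + δ → dist m μ < κ := by
    intro m h1 h2
    rw [Real.dist_eq, abs_lt]
    constructor <;> linarith
  have hφq : φ μ / 2 < φ q := (hball (hin q le_rfl (by linarith))).1
  simp only [hφ] at hφq hφμ hδ3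
  have hDq : Real.log 3 < q * Real.log 2 := by
    rwa [div_lt_iff₀ hl2] at hq3
  have hpos : 0 < θ * ((q + δ) * Real.log 2 - Real.log 3) := by
    apply mul_pos hθ0
    nlinarith
  refine ⟨(hh q - Real.log 3 + θ * ((q + δ) * Real.log 2 - Real.log 3)) / 2, δ, ?_, hδ1, ?_, ?_,
    hDq, fun m h1 h2 => (hball (hin m h1 h2)).2.le⟩
  · nlinarith
  · nlinarith
  · nlinarith

theorem fin_wt {θ : ℝ} (n s : ℕ) : ∀ l : List ℕ, l.sum = s →
    H62w.wt θ n l = Real.exp (-(θ * (s * Real.log 2 - n * Real.log 3))) := by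
  intro l hl
  unfold H62w.wt
  rw [hl]
  have h3 : (0 : ℝ) < 3 ^ n / 2 ^ s := by positivity
  rw [Real.rpow_def_of_pos h3, Real.log_div (by positivity) (by positivity), Real.log_pow,
    Real.log_pow]
  congr 1
  ring

/-- the certificate in the form needed by `count_two` -/
theorem fin_cert (p0 q0 : ℕ) (hq : 0 < q0) (hp : q0 < p0) (hpq : p0 ≤ 2 * q0) (g δ θ : ℝ)
    (hg : 0 < g) (hδ : 0 < δ) (hθ0 : 0 < θ) (h : g < hh ((p0 : ℝ) / q0) - Real.log 3)
    (hθ : θ * (((p0 : ℝ) / q0 + δ) * Real.log 2 - Real.log 3) < g)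
    (h3 : Real.log 3 < (p0 : ℝ) / q0 * Real.log 2) :
    ∃ M n s1 s2 : ℕ, 1 ≤ n ∧ 2 * 3 ^ n ≤ 2 ^ s1 ∧ (p0 : ℝ) / q0 * n ≤ s1 ∧
      (s2 : ℝ) ≤ ((p0 : ℝ) / q0 + δ) * n ∧
      ∀ y : ℕ, y % 3 ≠ 0 → 2 ≤ ∑ l ∈ BB M n s1 s2 y, H62w.wt θ n l := by
  obtain ⟨M, -, n1, hM⟩ := cert p0 q0 hq hp hpq g δ hg hδ h
  set ν : ℝ := (p0 : ℝ) / q0 with hν
  have hq' : (0 : ℝ) < q0 := by exact_mod_cast hq
  have hl2 : 0 < Real.log 2 := Real.log_pos (by norm_num)
  set A : ℝ := g - θ * ((ν + δ) * Real.log 2 - Real.log 3) with hA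
  have hA0 : 0 < A := by rw [hA]; linarith
  set B : ℝ := ν * Real.log 2 - Real.log 3 with hB
  have hB0 : 0 < B := by rw [hB]; linarith
  obtain ⟨n2, hn2⟩ := exists_nat_ge (Real.log 2 / A)
  obtain ⟨n3, hn3⟩ := exists_nat_ge (Real.log 2 / B)
  set n : ℕ := max (max n1 1) (max n2 n3) with hn
  have hn1' : n1 ≤ n := (le_max_left _ _).trans (le_max_left _ _)
  have hn1 : 1 ≤ n := (le_max_right _ _).trans (le_max_left _ _)
  have hn2' : (n2 : ℝ) ≤ n := by exact_mod_cast (le_max_left n2 n3).trans (le_max_right _ _)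
  have hn3' : (n3 : ℝ) ≤ n := by exact_mod_cast (le_max_right n2 n3).trans (le_max_right _ _)
  have hnA : Real.log 2 ≤ A * n := by
    have h1 := hn2.trans hn2'
    rw [div_le_iff₀ hA0] at h1
    linarith
  have hnB : Real.log 2 ≤ B * n := by
    have h1 := hn3.trans hn3'
    rw [div_le_iff₀ hB0] at h1
    linarith
  have hn0 : (0 : ℝ) ≤ n := Nat.cast_nonneg _
  have hν0 : 0 < ν := by
    rw [hν]
    have : (0 : ℝ) < p0 := by exact_mod_cast hq.trans hp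
    positivity
  refine ⟨M, n, ⌈ν * n⌉₊, ⌊(ν + δ) * n⌋₊, hn1, ?_, Nat.le_ceil _,
    Nat.floor_le (by positivity), ?_⟩
  · have h1 : Real.log (2 * 3 ^ n) ≤ Real.log ((2 : ℝ) ^ ⌈ν * n⌉₊) := by
      rw [Real.log_mul (by norm_num) (by positivity), Real.log_pow, Real.log_pow]
      have h2 := Nat.le_ceil (ν * n)
      have h3 := mul_le_mul_of_nonneg_right h2 hl2.le
      rw [hB] at hnB
      nlinarith
    have h2 := (Real.log_le_log_iff (by positivity) (by positivity)).1 h1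
    exact_mod_cast h2
  · intro y hy
    have hsub : (words M n).filter (fun l => va l y ∧ en l y % 3 ≠ 0 ∧ p0 * n ≤ q0 * l.sum ∧
        (l.sum : ℝ) ≤ (ν + δ) * n) = BB M n ⌈ν * n⌉₊ ⌊(ν + δ) * n⌋₊ y := by
      unfold BB
      refine filter_congr fun l _ => ?_
      rw [Nat.ceil_le, Nat.le_floor_iff (by positivity)]
      have h1 : (p0 * n ≤ q0 * l.sum) ↔ ν * n ≤ (l.sum : ℝ) := by
        rw [hν, div_mul_eq_mul_div, div_le_iff₀ hq', mul_comm (l.sum : ℝ)]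
        exact_mod_cast Iff.rfl
      rw [h1]
    have h1 := hM n hn1' y hy
    rw [hsub] at h1
    have h2 : ∀ l ∈ BB M n ⌈ν * n⌉₊ ⌊(ν + δ) * n⌋₊ y,
        Real.exp (-(θ * ((ν + δ) * Real.log 2 - Real.log 3)) * n) ≤ H62w.wt θ n l := by
      intro l hl
      rw [fin_wt n l.sum l rfl]
      apply Real.exp_le_exp.2
      rw [← hsub, mem_filter] at hl
      have h3 := mul_le_mul_of_nonneg_right hl.2.2.2.2 hl2.le
      have h4 := mul_le_mul_of_nonneg_left h3 hθ0.le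
      nlinarith
    have h3 := card_nsmul_le_sum _ _ _ h2
    rw [nsmul_eq_mul] at h3
    refine le_trans ?_ h3
    have h4 : Real.exp (Real.log 2) ≤ Real.exp (g * n) *
        Real.exp (-(θ * ((ν + δ) * Real.log 2 - Real.log 3)) * n) := by
      rw [← Real.exp_add]
      apply Real.exp_le_exp.2
      rw [hA] at hnA
      nlinarith
    rw [Real.exp_log (by norm_num)] at h4
    exact h4.trans (mul_le_mul_of_nonneg_right h1 (Real.exp_pos _).le)

/-- the real inequality for the times -/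
theorem fin_time {ν δ γ ε C C1 l2 l3 L T k : ℝ} (hl2 : 0 < l2) (hν : l3 < ν * l2)
    (hε : 0 < ε) (hγ : 0 ≤ γ) (hC : 0 ≤ C) (_hC1 : 0 ≤ C1) (hδ : 0 < δ)
    (hm : ∀ m : ℝ, ν ≤ m → m ≤ ν + δ → |m / (m * l2 - l3) - γ| ≤ ε / 2)
    (hL : 0 ≤ L) (hT : 0 ≤ T) (hk1 : ν * T ≤ k + C) (hk2 : k ≤ (ν + δ) * T + C)
    (hLk : |L - (k * l2 - T * l3)| ≤ C1) :
    |k - γ * L| ≤ ε * L + (C + (ε / 2 + γ) * (C1 + l2 * C)) := by
  -- clamp
  obtain ⟨k', hk'1, hk'2, hkk⟩ : ∃ k' : ℝ, ν * T ≤ k' ∧ k' ≤ (ν + δ) * T ∧ |k - k'| ≤ C := by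
    have hle : ν * T ≤ (ν + δ) * T := by nlinarith
    refine ⟨max (ν * T) (min k ((ν + δ) * T)), le_max_left _ _, max_le hle (min_le_right _ _), ?_⟩
    rw [abs_le]
    rcases max_cases (ν * T) (min k ((ν + δ) * T)) with ⟨h1, h2⟩ | ⟨h1, h2⟩ <;>
      rcases min_cases k ((ν + δ) * T) with ⟨h3, h4⟩ | ⟨h3, h4⟩ <;>
      rw [h1] <;> (try rw [h3]) <;> constructor <;> linarith
  set L' : ℝ := k' * l2 - T * l3 with hL'
  have hL'0 : 0 ≤ L' := by
    rw [hL']
    have h1 := mul_le_mul_of_nonneg_right hk'1 hl2.le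
    nlinarith
  have hLL : |L - L'| ≤ C1 + l2 * C := by
    have h1 : L - L' = (L - (k * l2 - T * l3)) + l2 * (k - k') := by rw [hL']; ring
    rw [h1]
    refine (abs_add_le _ _).trans (add_le_add hLk ?_)
    rw [abs_mul, abs_of_pos hl2]
    exact mul_le_mul_of_nonneg_left hkk hl2.le
  have hk'L : |k' - γ * L'| ≤ ε / 2 * L' := by
    rcases eq_or_lt_of_le hT with h0 | h0
    · have h1 : k' = 0 := by
        rw [← h0, mul_zero] at hk'1 hk'2
        linarith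
      rw [hL', h1, ← h0]
      simp
    · set m : ℝ := k' / T with hm'
      have hmk : k' = m * T := by rw [hm', div_mul_cancel₀ _ h0.ne']
      have h1 : ν ≤ m := by rw [hm', le_div_iff₀ h0]; exact hk'1
      have h2 : m ≤ ν + δ := by rw [hm', div_le_iff₀ h0]; exact hk'2
      have h3 : 0 < m * l2 - l3 := by nlinarith
      have h4 : L' = T * (m * l2 - l3) := by rw [hL', hmk]; ring
      have h5 : k' - γ * L' = (m / (m * l2 - l3) - γ) * L' := by
        rw [sub_mul]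
        congr 1
        rw [h4, hmk]
        field_simp
      rw [h5, abs_mul, abs_of_nonneg hL'0]
      exact mul_le_mul_of_nonneg_right (hm m h1 h2) hL'0
  have h1 : k - γ * L = (k - k') + (k' - γ * L') + γ * (L' - L) := by ring
  have h2 : |γ * (L' - L)| ≤ γ * (C1 + l2 * C) := by
    rw [abs_mul, abs_of_nonneg hγ, abs_sub_comm]
    exact mul_le_mul_of_nonneg_left hLL hγ
  have h3 : L' ≤ L + (C1 + l2 * C) := by
    have := (abs_le.1 hLL).1
    linarith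
  calc |k - γ * L| ≤ |k - k'| + |k' - γ * L'| + |γ * (L' - L)| := by
        rw [h1]
        exact (abs_add_le _ _).trans (add_le_add_left (abs_add_le _ _) _)
    _ ≤ C + ε / 2 * L' + γ * (C1 + l2 * C) := by linarith
    _ ≤ ε * L + (C + (ε / 2 + γ) * (C1 + l2 * C)) := by nlinarith

/-- Chunk FIN. Counting theorem. Proof: for `θ ≤ 0` replace `θ` by a positive smaller exponent
(`x/a ≥ 1`). By continuity choose a rational `μ' = p0/q0 ∈ (log 3/log 2, μ]` close to `μ`, `δ` small and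
`g < h(μ') - log 3` with `g > θ ((μ' + δ) log 2 - log 3)`, `θ > 0`, and such that
`m / (m log 2 - log 3)` differs from `μ/(μ log 2 - log 3)` by less than `ε/4` for `m ∈ [μ', μ' + 2δ]`.
`cert` with `n` large, `s1 = ⌈μ' n⌉`, `s2 = ⌊(μ'+δ) n⌋`: `∑_{BB} wt θ ≥ e^(g n) e^(-θ ((μ'+δ) log 2 - log 3) n) ≥ 2`, and
`2 * 3^n ≤ 2^s1`. `H62w.count_two` gives the points `z ∈ [c x, x]` with `s1 t - C ≤ k ≤ s2 t + C` and
`|log (z/a) - (k log 2 - n t log 3)| ≤ C`, so `log (z/a) = k (log 2 - log 3/m) + O(1)` with `m = k/(n t) ∈ [μ' - o(1), μ' + δ + o(1)]`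
(for `t` large; for bounded `t` everything is bounded), and `|log (z/a) - log (x/a)| ≤ C`. -/
theorem count_all (μ : ℝ) (hμ : Real.log 3 / Real.log 2 < μ) (hμ2 : μ ≤ 2) (hh1 : Real.log 3 < hh μ)
    (ε : ℝ) (hε : 0 < ε) (θ : ℝ) (hθ : θ < (hh μ - Real.log 3) / (μ * Real.log 2 - Real.log 3)) :
    ∃ c C : ℝ, 0 < c ∧ 0 < C ∧ ∀ a x : ℕ, ¬ 3 ∣ a → a ≤ x →
      c * ((x : ℝ) / (a : ℝ)) ^ θ ≤
        (Set.ncard {z : ℕ | z ≤ x ∧ c * (x : ℝ) ≤ (z : ℝ) ∧
          ∃ k : ℕ, T^[k] z = a ∧ (∀ j < k, T^[j] z ≠ a) ∧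
            |(k : ℝ) - μ / (μ * Real.log 2 - Real.log 3) * Real.log ((x : ℝ) / (a : ℝ))| ≤
              ε * Real.log ((x : ℝ) / (a : ℝ)) + C} : ℝ) := by
  have hl2 : 0 < Real.log 2 := Real.log_pos (by norm_num)
  have hl32 := fin_log32
  have hD : 0 < μ * Real.log 2 - Real.log 3 := by
    rw [div_lt_iff₀ hl2] at hμ
    linarith
  have hμ0 : 0 < μ := by
    have hone : 0 < Real.log 3 / Real.log 2 := div_pos (by linarith) hl2
    linarith
  set R : ℝ := (hh μ - Real.log 3) / (μ * Real.log 2 - Real.log 3) with hR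
  have hR0 : 0 < R := div_pos (by linarith) hD
  set θ1 : ℝ := max θ (R / 2) with hθ1
  have hθ10 : 0 < θ1 := lt_of_lt_of_le (by linarith) (le_max_right _ _)
  have hθ1R : θ1 < R := max_lt hθ (by linarith)
  obtain ⟨p0, q0, hq, hp, hpq, g, δ, hg, hδ, hg1, hg2, hB, hm⟩ :=
    fin_choice μ hμ hμ2 ε hε θ1 hθ10 hθ1R
  obtain ⟨M, n, s1, s2, hn, hs, hs1, hs2, H⟩ :=
    fin_cert p0 q0 hq hp hpq g δ θ1 hg hδ hθ10 hg1 hg2 hB
  obtain ⟨c, C, hc, hC, key⟩ := count_two hθ10 hn hs H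
  set γ : ℝ := μ / (μ * Real.log 2 - Real.log 3) with hγ
  have hγ0 : 0 < γ := div_pos hμ0 hD
  set C1 : ℝ := C + |Real.log c| with hC1
  have hC10 : 0 ≤ C1 := by positivity
  refine ⟨c, C + (ε / 2 + γ) * (C1 + Real.log 2 * C), hc, by positivity, fun a x ha hax => ?_⟩
  have ha0 : 0 < a := by
    rcases Nat.eq_zero_or_pos a with h | h
    · exact absurd (h ▸ dvd_zero 3) ha
    · exact h
  have ha' : (0 : ℝ) < a := by exact_mod_cast ha0
  have hx' : (0 : ℝ) < x := by exact_mod_cast lt_of_lt_of_le ha0 hax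
  have hxa : (1 : ℝ) ≤ (x : ℝ) / a := by
    rw [le_div_iff₀ ha', one_mul]
    exact_mod_cast hax
  have hL0 : 0 ≤ Real.log ((x : ℝ) / a) := Real.log_nonneg hxa
  refine le_trans (mul_le_mul_of_nonneg_left
    (Real.rpow_le_rpow_of_exponent_le hxa (le_max_left _ _)) hc.le) ((key a x ha hax).trans ?_)
  have hfin : {z : ℕ | z ≤ x ∧ c * (x : ℝ) ≤ (z : ℝ) ∧
          ∃ k : ℕ, T^[k] z = a ∧ (∀ j < k, T^[j] z ≠ a) ∧
            |(k : ℝ) - γ * Real.log ((x : ℝ) / (a : ℝ))| ≤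
              ε * Real.log ((x : ℝ) / (a : ℝ)) + (C + (ε / 2 + γ) * (C1 + Real.log 2 * C))}.Finite :=
    (Set.finite_Iic x).subset (fun m hm => hm.1)
  have hsub : {z : ℕ | z ≤ x ∧ c * (x : ℝ) ≤ (z : ℝ) ∧
          ∃ t k : ℕ, (fun m : ℕ => if m % 2 = 0 then m / 2 else (3 * m + 1) / 2)^[k] z = a ∧
            (∀ j < k, (fun m : ℕ => if m % 2 = 0 then m / 2 else (3 * m + 1) / 2)^[j] z ≠ a) ∧
            (s1 : ℝ) * t ≤ k + C ∧ (k : ℝ) ≤ s2 * t + C ∧
            |Real.log ((z : ℝ) / (a : ℝ)) - (k * Real.log 2 - n * t * Real.log 3)| ≤ C} ⊆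
      {z : ℕ | z ≤ x ∧ c * (x : ℝ) ≤ (z : ℝ) ∧
          ∃ k : ℕ, T^[k] z = a ∧ (∀ j < k, T^[j] z ≠ a) ∧
            |(k : ℝ) - γ * Real.log ((x : ℝ) / (a : ℝ))| ≤
              ε * Real.log ((x : ℝ) / (a : ℝ)) + (C + (ε / 2 + γ) * (C1 + Real.log 2 * C))} := by
    rintro z ⟨hz1, hz2, t, k, h1, h2, h3, h4, h5⟩
    refine ⟨hz1, hz2, k, h1, h2, ?_⟩
    have ht : (0 : ℝ) ≤ t := Nat.cast_nonneg _
    have hz0 : (0 : ℝ) < z := lt_of_lt_of_le (mul_pos hc hx') hz2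
    have hzx : (z : ℝ) ≤ x := by exact_mod_cast hz1
    refine fin_time hl2 hB hε hγ0.le hC.le hC10 hδ hm hL0
      (show (0 : ℝ) ≤ (n : ℝ) * t by positivity) ?_ ?_ ?_
    · have := mul_le_mul_of_nonneg_right hs1 ht
      linarith
    · have := mul_le_mul_of_nonneg_right hs2 ht
      linarith
    · have h6 : Real.log ((x : ℝ) / a) = Real.log ((z : ℝ) / a) - Real.log ((z : ℝ) / x) := by
        rw [Real.log_div hx'.ne' ha'.ne', Real.log_div hz0.ne' ha'.ne',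
          Real.log_div hz0.ne' hx'.ne']
        ring
      have h7 : |Real.log ((z : ℝ) / x)| ≤ |Real.log c| := by
        have h8 : Real.log c ≤ Real.log ((z : ℝ) / x) :=
          Real.log_le_log hc (by rw [le_div_iff₀ hx']; exact hz2)
        have h9 : Real.log ((z : ℝ) / x) ≤ 0 :=
          Real.log_nonpos (by positivity) (by rw [div_le_one hx']; exact hzx)
        rw [abs_of_nonpos h9, abs_of_nonpos (h8.trans h9)]
        linarith
      have h10 : Real.log ((x : ℝ) / a) - ((k : ℝ) * Real.log 2 - n * t * Real.log 3) =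
          (Real.log ((z : ℝ) / a) - (k * Real.log 2 - n * t * Real.log 3)) +
            (-Real.log ((z : ℝ) / x)) := by
        rw [h6]
        ring
      rw [h10, hC1]
      refine (abs_add_le _ _).trans (add_le_add h5 ?_)
      rwa [abs_neg]
  exact_mod_cast Set.ncard_le_ncard hsub hfin

end H62s
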