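import Pool.Agent.Lib.H62s.BIN

set_option autoImplicit false
namespace H62s

/-- Chunk NUM. A slope `μ` slightly above the root `1.6417941...` of `h(μ) = log 3`. -/
theorem num : ∃ μ : ℝ, Real.log 3 / Real.log 2 < μ ∧ μ ≤ 2 ∧ Real.log 3 < hh μ ∧
    41.677 < μ / (μ * Real.log 2 - Real.log 3) := by
  have l2a := Real.log_two_gt_d9
  have l2b := Real.log_two_lt_d9
  have l3a := Real.log_three_gt_d9
  have l3b := Real.log_three_lt_d9
  have m1 : (0.49578984 : ℝ) ≤ Real.log (16417945 / 10000000) := by
    have h := Real.sum_range_le_log_div (x := 6417945 / 26417945) (by norm_num) (by norm_num) 6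
    have e : ((1 : ℝ) + 6417945 / 26417945) / (1 - 6417945 / 26417945) = 16417945 / 10000000 := by
      norm_num
    rw [e] at h
    norm_num [Finset.sum_range_succ] at h ⊢
    linarith
  have m2 : Real.log (16417945 / 10000000 - 1) ≤ (-0.44348711 : ℝ) := by
    have h := Real.sum_range_le_log_div (x := 3582055 / 16417945) (by norm_num) (by norm_num) 6
    have e : ((1 : ℝ) + 3582055 / 16417945) / (1 - 3582055 / 16417945) = (6417945 / 10000000)⁻¹ := by
      norm_num
    rw [e, Real.log_inv] at h
    have e2 : (16417945 / 10000000 - 1 : ℝ) = 6417945 / 10000000 := by norm_num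
    rw [e2]
    norm_num [Finset.sum_range_succ] at h ⊢
    linarith
  have pos : 0 < 16417945 / 10000000 * Real.log 2 - Real.log 3 := by linarith
  refine ⟨16417945 / 10000000, ?_, by norm_num, ?_, ?_⟩
  · rw [div_lt_iff₀ (by linarith)]
    linarith
  · unfold hh
    linarith
  · rw [lt_div_iff₀ pos]
    linarith

end H62s
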