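import Pool.Agent.Lib.H62s.FIN
import Pool.Agent.Lib.H62s.NUM

set_option autoImplicit false
open Finset
namespace H62s
open H62w

/-- Chunk LIM. Infinitely many integers with a large stopping time. From `count_all` with `ε` small, for each large `x`:
the set is nonempty (`c (x/a)^θ ≥ ...`, take `θ = 0`), and its member `z ∈ [c x, x]` has `k ≥ (γ - ε) log (x/a) - C ≥ c' log z`. -/
theorem many (μ : ℝ) (hμ : Real.log 3 / Real.log 2 < μ) (hμ2 : μ ≤ 2) (hh1 : Real.log 3 < hh μ)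
    (a : ℕ) (ha : ¬ 3 ∣ a) (c : ℝ) (hc : c < μ / (μ * Real.log 2 - Real.log 3)) :
    {n : ℕ | ∃ k : ℕ, T^[k] n = a ∧ (∀ j < k, T^[j] n ≠ a) ∧ c * Real.log n < k}.Infinite := by
  have l2 : 0 < Real.log 2 := Real.log_pos (by norm_num)
  have l3 : 0 < Real.log 3 := Real.log_pos (by norm_num)
  have hD : 0 < μ * Real.log 2 - Real.log 3 := by
    rw [div_lt_iff₀ l2] at hμ
    linarith
  have hμ0 : 0 < μ := lt_of_le_of_lt (by positivity) hμ
  have hγ : 0 < μ / (μ * Real.log 2 - Real.log 3) := by positivity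
  set γ := μ / (μ * Real.log 2 - Real.log 3) with hγ_def
  set c' := max c 0 with hc'_def
  have hc' : c' < γ := max_lt hc hγ
  have hc0 : 0 ≤ c' := le_max_right _ _
  set ε := (γ - c') / 2 with hε_def
  have hε : 0 < ε := by rw [hε_def]; linarith
  obtain ⟨c0, C, hc0', hC, hcount⟩ := count_all μ hμ hμ2 hh1 ε hε 0
    (div_pos (by linarith) hD)
  have ha0 : 0 < a := Nat.pos_of_ne_zero (by rintro rfl; exact ha (dvd_zero 3))
  have ha1 : (0 : ℝ) < a := by exact_mod_cast ha0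
  have hla : 0 ≤ Real.log a := Real.log_natCast_nonneg a
  refine Set.infinite_of_forall_exists_gt fun N => ?_
  obtain ⟨x, hx⟩ := exists_nat_gt (max (max (a : ℝ) ((N : ℝ) / c0))
    (Real.exp (((γ - ε) * Real.log a + C) / ε)))
  have hx1 : (a : ℝ) < x := lt_of_le_of_lt ((le_max_left _ _).trans (le_max_left _ _)) hx
  have hx2 : (N : ℝ) / c0 < x := lt_of_le_of_lt ((le_max_right _ _).trans (le_max_left _ _)) hx
  have hx3 : Real.exp (((γ - ε) * Real.log a + C) / ε) < x :=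
    lt_of_le_of_lt (le_max_right _ _) hx
  have hx0 : (0 : ℝ) < x := ha1.trans hx1
  have hlx : ((γ - ε) * Real.log a + C) / ε < Real.log x := by
    rwa [Real.lt_log_iff_exp_lt hx0]
  rw [div_lt_iff₀ hε] at hlx
  have h1 := hcount a x ha (by exact_mod_cast hx1.le)
  rw [Real.rpow_zero, mul_one] at h1
  have h2 : 0 < Set.ncard {z : ℕ | z ≤ x ∧ c0 * (x : ℝ) ≤ (z : ℝ) ∧
          ∃ k : ℕ, T^[k] z = a ∧ (∀ j < k, T^[j] z ≠ a) ∧
            |(k : ℝ) - γ * Real.log ((x : ℝ) / (a : ℝ))| ≤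
              ε * Real.log ((x : ℝ) / (a : ℝ)) + C} := by
    have := lt_of_lt_of_le hc0' h1
    exact_mod_cast this
  obtain ⟨z, hzx, hz2, k, hk1, hk2, hk3⟩ := (Set.ncard_pos (Set.Finite.subset (Set.finite_Iic x)
    (fun z hz => hz.1))).1 h2
  refine ⟨z, ⟨k, hk1, hk2, ?_⟩, ?_⟩
  · have hlz : 0 ≤ Real.log z := Real.log_natCast_nonneg z
    have hz0 : (0 : ℝ) < z := lt_of_lt_of_le (by positivity) hz2
    have hlz2 : Real.log z ≤ Real.log x := Real.log_le_log hz0 (by exact_mod_cast hzx)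
    have hlxa : Real.log ((x : ℝ) / a) = Real.log x - Real.log a :=
      Real.log_div hx0.ne' ha1.ne'
    rw [hlxa] at hk3
    have h3 := (abs_le.1 hk3).1
    have h4 : c * Real.log z ≤ c' * Real.log x :=
      (mul_le_mul_of_nonneg_right (le_max_left _ _) hlz).trans
        (mul_le_mul_of_nonneg_left hlz2 hc0)
    have h5 : γ = c' + 2 * ε := by rw [hε_def]; ring
    rw [h5] at h3 hlx
    nlinarith
  · rw [div_lt_iff₀ hc0'] at hx2
    have : (N : ℝ) < z := by linarith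
    exact_mod_cast this

theorem main_num : {n : ℕ | ∃ k : ℕ, T^[k] n = 1 ∧ (∀ j < k, T^[j] n ≠ 1) ∧
    41.677 * Real.log n < k}.Infinite := by
  obtain ⟨μ, h1, h2, h3, h4⟩ := num
  exact many μ h1 h2 h3 1 (by norm_num) 41.677 h4

end H62s
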