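import Pool.Agent.Lib.H62s.FullCore
import Pool.Agent.Lib.H62s.Expo

set_option autoImplicit false

/-!
Almost worst residues have many uniform windows: choice of parameters. Chunk F, last part.
-/

open Finset

namespace H62s
open H62w

variable [Slope]

/-- The reduced class has a small weight for one length, if the residue has a small weight for a
larger length. -/
theorem fw_logW_le {β : ℝ} (hβ : 0 < β) (hβ1 : β ≤ 1) {M : ℕ} (hM : 7 ≤ M) (k Q θ : ℕ)
    (hθ : θ % 3 ≠ 0) :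
    Real.log (W β M k θ) + Real.log (mm β M Q) ≤ Real.log (W β M (k + Q) θ) := by
  obtain ⟨C, -, hC⟩ := W_bound hβ hβ1 hM
  have h0 := (hC k θ hθ).1
  have hmm := mm_pos hβ hβ1 hM Q
  rw [← Real.log_mul h0.ne' hmm.ne']
  apply Real.log_le_log (by positivity)
  refine le_trans ?_ (W_super β M k Q θ)
  rw [W, sum_mul]
  refine sum_le_sum fun l hl => ?_
  exact mul_le_mul_of_nonneg_left (mm_le β M Q _ (mem_PP.1 hl).2.2.1) (wt_pos β k l).le

/-- Markov: the words with an end point of large weight are rare. -/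
theorem fw_markov {β : ℝ} (hβ : 0 < β) (hβ1 : β ≤ 1) {M : ℕ} (hM : 7 ≤ M) (k Q θ : ℕ)
    (hθ : θ % 3 ≠ 0) (εs : ℝ) :
    ∑ l ∈ (PP M k θ).filter (fun l => en l θ % 3 ^ (Q + 1) ∉ EE β M Q εs),
        wt β k l / W β M k θ ≤
      Real.exp (Real.log (W β M (k + Q) θ) - Real.log (mm β M k) - (RR β M + εs) * Q) := by
  obtain ⟨C, -, hC⟩ := W_bound hβ hβ1 hM
  have h0 := (hC k θ hθ).1
  have hWm := (hC (k + Q) θ hθ).1
  have hmm := mm_pos hβ hβ1 hM k
  have hmmle := mm_le β M k θ hθ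
  set X := Real.exp ((RR β M + εs) * Q) with hX
  have hX0 : 0 < X := Real.exp_pos _
  have h1 : (∑ l ∈ (PP M k θ).filter (fun l => en l θ % 3 ^ (Q + 1) ∉ EE β M Q εs), wt β k l) * X ≤
      W β M (k + Q) θ := by
    rw [sum_mul]
    refine le_trans ?_ (W_super β M k Q θ)
    refine le_trans (sum_le_sum (g := fun l => wt β k l * W β M Q (en l θ)) ?_) ?_
    · intro l hl
      rw [mem_filter] at hl
      apply mul_le_mul_of_nonneg_left _ (wt_pos β k l).le
      have hu := (mem_PP.1 hl.1).2.2.1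
      have hW := (hC Q (en l θ) hu).1
      have h2 : ¬ Real.log (W β M Q (en l θ % 3 ^ (Q + 1))) ≤ (RR β M + εs) * Q := by
        intro h3
        apply hl.2
        rw [EE, mem_filter]
        exact ⟨mod_mem_U Q _ hu, h3⟩
      rw [← W_mod, not_le] at h2
      rw [hX, ← Real.le_log_iff_exp_le hW]
      exact h2.le
    · exact sum_le_sum_of_subset_of_nonneg (filter_subset _ _) fun l hl _ =>
        mul_nonneg (wt_pos β k l).le (hC Q _ (mem_PP.1 hl).2.2.1).1.le
  rw [← sum_div, Real.exp_sub, Real.exp_sub, Real.exp_log hWm, Real.exp_log hmm, ← hX,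
    div_div, div_le_div_iff₀ h0 (by positivity)]
  have h3 : 0 ≤ ∑ l ∈ (PP M k θ).filter (fun l => en l θ % 3 ^ (Q + 1) ∉ EE β M Q εs), wt β k l :=
    sum_nonneg fun l _ => (wt_pos β k l).le
  calc _ = (∑ l ∈ (PP M k θ).filter (fun l => en l θ % 3 ^ (Q + 1) ∉ EE β M Q εs), wt β k l) * X *
        mm β M k := by ring
    _ ≤ W β M (k + Q) θ * W β M k θ := by gcongr

/-- exponentials beat linear functions -/
theorem fw_exp_small {e : ℝ} (he : 0 < e) {Q : ℝ} (hQ1 : 1 ≤ Q)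
    (hQ : 16 * Real.log 3 / e ^ 2 ≤ Q) : Real.exp (-(e * Q / 2)) * ((Q + 1) * Real.log 3) ≤ 1 := by
  have hl3 : 0 < Real.log 3 := Real.log_pos (by norm_num)
  have hx : 0 < e * Q / 2 := by positivity
  have h1 := Real.quadratic_le_exp_of_nonneg hx.le
  have h2 : (e * Q / 2) ^ 2 / 2 ≤ Real.exp (e * Q / 2) := by linarith
  rw [div_le_iff₀ (by positivity)] at hQ
  have h3 : (Q + 1) * Real.log 3 ≤ (e * Q / 2) ^ 2 / 2 := by
    have h4 : (Q + 1) * Real.log 3 ≤ 2 * Q * Real.log 3 := by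
      have : Q + 1 ≤ 2 * Q := by linarith
      gcongr
    have h5 : 16 * Real.log 3 * Q ≤ Q * e ^ 2 * Q := by gcongr
    nlinarith
  rw [Real.exp_neg, inv_mul_le_iff₀ (Real.exp_pos _), mul_one]
  exact h3.trans h2

theorem full_windows {β : ℝ} (hβ : 0 < β) (hβ1 : β ≤ 1) {M : ℕ} (hM : 7 ≤ M) (hR : 0 < RR β M) :
    ∃ c : ℝ, 0 < c ∧ ∀ n : ℕ, 1 ≤ n → ∀ η : ℝ, 0 < η → ∀ ε0 : ℝ, 0 < ε0 →
      ∃ ε : ℝ, 0 < ε ∧ ε ≤ ε0 ∧ ∀ m0 : ℕ, ∃ m : ℕ, m0 ≤ m ∧
        c * m * ((EE β M m ε).card : ℝ) ≤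
          ∑ i ∈ range (M * (m / (M + 3))), ((full (EE β M m ε) (m / (M + 3) + 1 + i) n η).card : ℝ) := by
  have hl3 : 0 < Real.log 3 := Real.log_pos (by norm_num)
  have hM0 : (0 : ℝ) < M := by
    have : 0 < M := by omega
    exact_mod_cast this
  have hM7 : (7 : ℝ) ≤ M := by exact_mod_cast hM
  set R := RR β M with hRdef
  set c3 := R / (4 * Real.log 3) with hc3
  have hc30 : 0 < c3 := by positivity
  refine ⟨c3 / (4 * (M + 3)), by positivity, fun n hn η hη ε0 hε0 => ?_⟩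
  have hn0 : (0 : ℝ) < n := by exact_mod_cast hn
  obtain ⟨γ, hγ, hcore⟩ := full_core hβ hβ1 hM (R / (4 * M)) (by positivity) n hn η hη
  obtain ⟨d, hd1, hd2⟩ := expo hβ hβ1 hM
  set ε2 := c3 * γ / (16 * n * (M + 3) * Real.log 3) with hε2
  have hε20 : 0 < ε2 := by positivity
  obtain ⟨εs, hεs, m1, hm1⟩ := hd1 ε2 hε20
  set e1 := min ε0 (εs / (8 * (M + 3))) with he1
  have he10 : 0 < e1 := lt_min hε0 (by positivity)
  obtain ⟨C1, hC1, hlow⟩ := log_mm_ge hβ hβ1 hM he10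
  obtain ⟨C2, hC2, hlow2⟩ := log_mm_ge hβ hβ1 hM (show 0 < R / 4 by positivity)
  refine ⟨e1, he10, min_le_left _ _, fun m0 => ?_⟩
  -- the threshold
  set δ := R / (16 * M) with hδ
  have hδ0 : 0 < δ := by positivity
  set T : ℝ := 4 * C1 / εs + 16 * Real.log 3 / εs ^ 2 +
    8 / R * (|C2 + 2 * δ - 1 - Real.log δ|) + 4 * (n / γ * (1 + Real.log 2)) / c3 with hT
  obtain ⟨K, hK⟩ := exists_nat_ge T
  obtain ⟨m, hm, hmE⟩ := hd2 e1 he10 ε2 hε20 (m0 + (M + 3) * (K + m1 + n + 1))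
  refine ⟨m, by omega, ?_⟩
  set k := m / (M + 3) with hk
  have hkK : K + m1 + n + 1 ≤ k := by
    rw [hk, Nat.le_div_iff_mul_le (by omega), mul_comm]
    omega
  have hkm : (M + 3) * k ≤ m := Nat.mul_div_le m (M + 3)
  have hkm2 : m < (M + 3) * (k + 1) := Nat.lt_mul_div_succ m (by omega)
  have hkm3 : k ≤ m := by nlinarith
  obtain ⟨Q, hQ⟩ : ∃ Q, k + Q = m := ⟨m - k, by omega⟩
  have hQk : (M + 2) * k ≤ Q := by nlinarith
  have hkQ : 9 * k ≤ Q := le_trans (Nat.mul_le_mul_right k (by omega)) hQk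
  -- real versions
  have hkr : (K : ℝ) + m1 + n + 1 ≤ k := by exact_mod_cast hkK
  have hm1r : (0 : ℝ) ≤ m1 := Nat.cast_nonneg _
  have hKr : (0 : ℝ) ≤ K := Nat.cast_nonneg _
  have hkT : T ≤ k := by linarith
  have hk1 : (1 : ℝ) ≤ k := by linarith
  have hmk : (m : ℝ) ≤ 2 * (M + 3) * k := by
    have h1 : (m : ℝ) < (M + 3) * (k + 1) := by exact_mod_cast hkm2
    have h2 : ((M : ℝ) + 3) * (k + 1) ≤ (M + 3) * (2 * k) := by
      apply mul_le_mul_of_nonneg_left _ (by positivity)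
      linarith
    linarith
  have hQr : (k : ℝ) + Q = m := by exact_mod_cast hQ
  have hkQr : 9 * (k : ℝ) ≤ Q := by exact_mod_cast hkQ
  have t1 : 0 ≤ 4 * C1 / εs := by positivity
  have t2 : 0 ≤ 16 * Real.log 3 / εs ^ 2 := by positivity
  have t3 : 0 ≤ 8 / R * (|C2 + 2 * δ - 1 - Real.log δ|) := by positivity
  have hl2 : 0 < Real.log 2 := Real.log_pos (by norm_num)
  have t4 : 0 ≤ 4 * (n / γ * (1 + Real.log 2)) / c3 := by positivity
  have k1 : 4 * C1 / εs ≤ k := by linarith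
  have k2 : 16 * Real.log 3 / εs ^ 2 ≤ k := by linarith
  have k3 : 8 / R * (|C2 + 2 * δ - 1 - Real.log δ|) ≤ k := by linarith
  have k4 : 4 * (n / γ * (1 + Real.log 2)) / c3 ≤ k := by linarith
  rw [div_le_iff₀ hεs] at k1
  rw [div_le_iff₀ hc30] at k4
  have k3' : |C2 + 2 * δ - 1 - Real.log δ| ≤ R / 8 * k := by
    have e : R / 8 * (8 / R * (|C2 + 2 * δ - 1 - Real.log δ|)) = |C2 + 2 * δ - 1 - Real.log δ| := by
      field_simp
    rw [← e]
    exact mul_le_mul_of_nonneg_left k3 (by positivity)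
  -- the sets
  set E := EE β M m e1 with hE
  have hEne : E.Nonempty := EE_nonempty hβ hβ1 hM m he10.le
  have hEc : (0 : ℝ) < E.card := by exact_mod_cast hEne.card_pos
  have hEU : E ⊆ U (k + Q) := by
    rw [hQ, hE, EE]
    exact filter_subset _ _
  have hEW : ∀ θ ∈ E, θ % 3 ≠ 0 ∧ Real.log (W β M m θ) ≤ (R + e1) * m := by
    intro θ hθ
    rw [hE, EE, mem_filter] at hθ
    exact ⟨(mem_U.1 hθ.1).2, hθ.2⟩
  set S1 := EE β M Q εs with hS1
  have hS1U : S1 ⊆ range (3 ^ (Q + 1)) := by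
    intro y hy
    rw [hS1, EE, mem_filter] at hy
    exact mem_range.2 (mem_U.1 hy.1).1
  have hS1ne : S1.Nonempty := EE_nonempty hβ hβ1 hM Q hεs.le
  -- the error of epsilon
  have he1m : 2 * (e1 * m) ≤ εs * k / 2 := by
    have h1 : e1 ≤ εs / (8 * (M + 3)) := min_le_right _ _
    calc 2 * (e1 * m) ≤ 2 * (εs / (8 * (M + 3)) * (2 * (M + 3) * k)) := by gcongr
      _ = εs * k / 2 := by
        field_simp
        ring
  set p : ℝ := Real.exp (-(εs * Q / 2)) with hp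
  have hpp : ∀ θ ∈ E, ∑ l ∈ (PP M k θ).filter (fun l => en l θ % 3 ^ (Q + 1) ∉ S1),
        wt β k l / W β M k θ ≤ p := by
    intro θ hθ
    obtain ⟨hu, hW⟩ := hEW θ hθ
    refine (fw_markov hβ hβ1 hM k Q θ hu εs).trans ?_
    rw [hp]
    apply Real.exp_le_exp.mpr
    rw [hQ]
    have h1 := hlow k
    have h2 : e1 * k ≤ e1 * m := by
      have : (k : ℝ) ≤ m := by exact_mod_cast hkm3
      gcongr
    have h3 : εs * k * 9 ≤ εs * Q := by
      calc εs * k * 9 = εs * (9 * k) := by ring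
        _ ≤ εs * Q := by gcongr
    have h4 : R * m = R * k + R * Q := by rw [← hQr]; ring
    have h5 : 0 ≤ εs * k := by positivity
    linarith
  have hRk : E.image (fun θ => θ % 3 ^ (k + 1)) ⊆ EE β M k εs := by
    intro y hy
    obtain ⟨θ, hθ, rfl⟩ := mem_image.1 hy
    obtain ⟨hu, hW⟩ := hEW θ hθ
    rw [EE, mem_filter, ← W_mod]
    refine ⟨mod_mem_U k _ hu, ?_⟩
    have h1 := fw_logW_le hβ hβ1 hM k Q θ hu
    rw [hQ] at h1
    have h2 := hlow Q
    have h3 : e1 * Q ≤ e1 * m := by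
      have : (Q : ℝ) ≤ m := by linarith
      gcongr
    have h4 : R * m = R * k + R * Q := by rw [← hQr]; ring
    have h5 : 0 ≤ εs * k := by positivity
    linarith
  have hcard := hcore k Q E S1 p (by omega) hEne hEU hS1U hS1ne hpp (by nlinarith)
  -- error term
  have hRne : (E.image (fun θ => θ % 3 ^ (k + 1))).Nonempty := hEne.image _
  have x1 : Real.log (S1.card : ℝ) ≤ (d + ε2) * Q * Real.log 3 := hm1 Q (by omega)
  have x2 : Real.log ((E.image (fun θ => θ % 3 ^ (k + 1))).card : ℝ) ≤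
      (d + ε2) * k * Real.log 3 := by
    refine le_trans ?_ (hm1 k (by omega))
    apply Real.log_le_log
    · exact_mod_cast hRne.card_pos
    · exact_mod_cast card_le_card hRk
  have x3 : (d - ε2) * m * Real.log 3 ≤ Real.log (E.card : ℝ) := hmE
  have x4 : p * ((Q + 1) * Real.log 3) ≤ 1 := by
    rw [hp]
    exact fw_exp_small hεs (by linarith) (by linarith)
  have x5 : Real.log (S1.card : ℝ) + p * ((Q + 1) * Real.log 3) + Real.log 2
            + Real.log ((E.image (fun θ => θ % 3 ^ (k + 1))).card : ℝ) - Real.log (E.card : ℝ) ≤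
      2 * ε2 * (2 * (M + 3) * k) * Real.log 3 + (1 + Real.log 2) := by
    have h1 : (d + ε2) * Q * Real.log 3 + (d + ε2) * k * Real.log 3 =
        (d - ε2) * m * Real.log 3 + 2 * ε2 * m * Real.log 3 := by
      rw [← hQr]; ring
    have h2 : 2 * ε2 * m * Real.log 3 ≤ 2 * ε2 * (2 * (M + 3) * k) * Real.log 3 := by gcongr
    linarith
  have x6 : (n : ℝ) / γ * (Real.log (S1.card : ℝ) + p * ((Q + 1) * Real.log 3) + Real.log 2
            + Real.log ((E.image (fun θ => θ % 3 ^ (k + 1))).card : ℝ) - Real.log (E.card : ℝ)) ≤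
      c3 * k / 2 := by
    have h1 := mul_le_mul_of_nonneg_left x5 (show 0 ≤ (n : ℝ) / γ by positivity)
    refine h1.trans ?_
    rw [mul_add]
    have h2 : (n : ℝ) / γ * (2 * ε2 * (2 * (M + 3) * k) * Real.log 3) = c3 * k / 4 := by
      rw [hε2]
      field_simp
      ring
    rw [h2]
    linarith
  -- main term
  have y1 : Real.log (2 * ((M * k + 1 : ℕ) : ℝ)) ≤ R / 8 * k + (2 * δ - 1 - Real.log δ) := by
    have h0 : (0 : ℝ) < 2 * ((M * k + 1 : ℕ) : ℝ) := by positivity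
    have h1 := Real.log_le_sub_one_of_pos (mul_pos hδ0 h0)
    rw [Real.log_mul hδ0.ne' h0.ne'] at h1
    have h2 : δ * (2 * ((M * k + 1 : ℕ) : ℝ)) = R / 8 * k + 2 * δ := by
      rw [hδ]
      push_cast
      field_simp
      ring
    linarith
  have y2 : R / 4 * k ≤ Real.log (mm β M k) - Real.log (2 * ((M * k + 1 : ℕ) : ℝ)) -
      R / (4 * M) * ((M * k : ℕ) : ℝ) := by
    have h1 := hlow2 k
    have h2 : R / (4 * M) * ((M * k : ℕ) : ℝ) = R / 4 * k := by
      push_cast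
      field_simp
    have h3 := le_abs_self (C2 + 2 * δ - 1 - Real.log δ)
    rw [h2]
    linarith
  have y3 : c3 * k ≤ (Real.log (mm β M k) - Real.log (2 * ((M * k + 1 : ℕ) : ℝ)) -
      R / (4 * M) * ((M * k : ℕ) : ℝ)) / Real.log 3 := by
    rw [le_div_iff₀ hl3]
    refine le_trans (le_of_eq ?_) y2
    rw [hc3]
    field_simp
  have z1 : c3 * k / 2 ≤ ∑ j ∈ range (M * k), ((full E (k + 1 + j) n η).card : ℝ) / E.card := by
    linarith
  rw [← sum_div, le_div_iff₀ hEc] at z1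
  refine le_trans ?_ z1
  apply mul_le_mul_of_nonneg_right _ hEc.le
  calc c3 / (4 * (M + 3)) * m ≤ c3 / (4 * (M + 3)) * (2 * (M + 3) * k) := by gcongr
    _ = c3 * k / 2 := by
      field_simp
      ring

end H62s
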