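import Pool.Agent.Lib.H62s.Defs2

set_option autoImplicit false
open Finset
namespace H62s

variable {α β γ γ' δ : Type} [DecidableEq γ] [DecidableEq γ'] [DecidableEq δ]

/-! Chunk GEN: generic facts on weighted finite sets. -/

theorem ms_pos {s : Finset α} {w : α → ℝ} (hw : ∀ a ∈ s, 0 < w a) (f : α → γ) {a : α} (ha : a ∈ s) :
    0 < ms s w f a := by
  unfold ms
  refine sum_pos (fun b hb => hw b (mem_filter.mp hb).1) ⟨a, mem_filter.mpr ⟨ha, rfl⟩⟩

/-- A finer key has a smaller fibre. -/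
theorem ms_le {s : Finset α} {w : α → ℝ} (hw : ∀ a ∈ s, 0 < w a) (f : α → γ) (f' : α → γ')
    (h : ∀ a ∈ s, ∀ b ∈ s, f' b = f' a → f b = f a) {a : α} (ha : a ∈ s) :
    ms s w f' a ≤ ms s w f a := by
  unfold ms
  refine sum_le_sum_of_subset_of_nonneg ?_ fun b hb _ => (hw b (mem_filter.mp hb).1).le
  intro b hb
  rw [mem_filter] at hb ⊢
  exact ⟨hb.1, h a ha b hb.1 hb.2⟩

/-- `ms` only depends on the partition. -/
theorem ms_congr {s : Finset α} {w : α → ℝ} (f : α → γ) (f' : α → γ')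
    (h : ∀ a ∈ s, ∀ b ∈ s, f' b = f' a ↔ f b = f a) {a : α} (ha : a ∈ s) :
    ms s w f' a = ms s w f a := by
  unfold ms
  refine sum_congr ?_ fun _ _ => rfl
  ext b
  rw [mem_filter, mem_filter]
  constructor
  · rintro ⟨hb, h1⟩
    exact ⟨hb, (h a ha b hb).mp h1⟩
  · rintro ⟨hb, h1⟩
    exact ⟨hb, (h a ha b hb).mpr h1⟩

/-- `QQ` by keys. -/
theorem QQ_eq {s : Finset α} {w : α → ℝ} (hw : ∀ a ∈ s, 0 < w a) (f : α → γ) (g : α → δ)
    {K : Finset γ} {D : Finset δ} (hK : ∀ a ∈ s, f a ∈ K) (hD : ∀ a ∈ s, g a ∈ D) :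
    QQ s w f g = ∑ k ∈ K, (∑ d ∈ D, (∑ a ∈ s.filter (fun a => f a = k ∧ g a = d), w a) ^ 2) /
      (∑ a ∈ s.filter (fun a => f a = k), w a) := by
  unfold QQ
  rw [← sum_fiberwise_of_maps_to hK]
  refine sum_congr rfl fun k _ => ?_
  rw [← sum_fiberwise_of_maps_to (s := s.filter (fun a => f a = k)) (t := D) (g := g)
    (fun a ha => hD a (mem_filter.mp ha).1), sum_div]
  refine sum_congr rfl fun d _ => ?_
  rw [filter_filter]
  rw [sq, mul_div_assoc, sum_mul]
  refine sum_congr rfl fun a ha => ?_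
  rw [mem_filter] at ha
  congr 1
  unfold ms
  congr 1
  · refine sum_congr ?_ fun _ _ => rfl
    ext b
    rw [mem_filter, mem_filter, Prod.mk.injEq, ha.2.1, ha.2.2]
  · refine sum_congr ?_ fun _ _ => rfl
    ext b
    rw [mem_filter, mem_filter, ha.2.1]

/-- Upper bound. -/
theorem QQ_le {s : Finset α} {w : α → ℝ} (hw : ∀ a ∈ s, 0 < w a) (f : α → γ) (g : α → δ) :
    QQ s w f g ≤ ∑ a ∈ s, w a := by
  unfold QQ
  refine sum_le_sum fun a ha => ?_
  have h1 : ms s w (fun b => (f b, g b)) a / ms s w f a ≤ 1 := by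
    rw [div_le_one (ms_pos hw f ha)]
    exact ms_le hw f (fun b => (f b, g b)) (fun a _ b _ h => (Prod.mk.inj h).1) ha
  calc w a * (ms s w (fun b => (f b, g b)) a / ms s w f a) ≤ w a * 1 :=
        mul_le_mul_of_nonneg_left h1 (hw a ha).le
    _ = w a := mul_one _

/-- Lower bound (Cauchy-Schwarz in each fibre). -/
theorem QQ_ge {s : Finset α} {w : α → ℝ} (hw : ∀ a ∈ s, 0 < w a) (f : α → γ) (g : α → ℕ) {N : ℕ}
    (hN : ∀ a ∈ s, g a < N) :
    ∑ a ∈ s, w a ≤ N * QQ s w f g := by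
  have hK : ∀ a ∈ s, f a ∈ s.image f := fun a ha => mem_image_of_mem f ha
  have hD : ∀ a ∈ s, g a ∈ range N := fun a ha => mem_range.mpr (hN a ha)
  rw [QQ_eq hw f g hK hD, ← sum_fiberwise_of_maps_to hK, mul_sum]
  refine sum_le_sum fun k hk => ?_
  obtain ⟨a0, ha0, rfl⟩ := mem_image.mp hk
  have hpos : 0 < ∑ a ∈ s.filter (fun a => f a = f a0), w a := ms_pos hw f ha0
  rw [← mul_div_assoc, le_div_iff₀ hpos]
  have h1 : ∑ a ∈ s.filter (fun a => f a = f a0), w a
      = ∑ d ∈ range N, ∑ a ∈ s.filter (fun a => f a = f a0 ∧ g a = d), w a := by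
    rw [← sum_fiberwise_of_maps_to (s := s.filter (fun a => f a = f a0)) (t := range N) (g := g)
      (fun a ha => hD a (mem_filter.mp ha).1)]
    refine sum_congr rfl fun d _ => ?_
    rw [filter_filter]
  rw [← sq, h1]
  have h2 := sq_sum_le_card_mul_sum_sq (s := range N)
    (f := fun d => ∑ a ∈ s.filter (fun a => f a = f a0 ∧ g a = d), w a)
  rw [card_range] at h2
  exact h2

/-- Merging of keys decreases `QQ` (Sedrakyan: `(∑ x)^2 / ∑ m ≤ ∑ x^2 / m`; `Finset.sum_sq_le_sum_mul_sum_of_sq_eq_mul`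
or `Finset.sum_div_...`). -/
theorem QQ_merge {s : Finset α} {w : α → ℝ} (hw : ∀ a ∈ s, 0 < w a) (f : α → γ) (f' : α → γ')
    (h : ∀ a ∈ s, ∀ b ∈ s, f' b = f' a → f b = f a) (g : α → δ) :
    QQ s w f g ≤ QQ s w f' g := by
  classical
  rcases s.eq_empty_or_nonempty with rfl | ⟨a0, ha0⟩
  · simp [QQ]
  obtain ⟨φ, hφ⟩ : ∃ φ : γ' → γ, ∀ a ∈ s, φ (f' a) = f a := by
    refine ⟨fun k' => if h : ∃ a ∈ s, f' a = k' then f h.choose else f a0, fun a ha => ?_⟩
    have hex : ∃ b ∈ s, f' b = f' a := ⟨a, ha, rfl⟩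
    simp only [dif_pos hex]
    exact h a ha _ hex.choose_spec.1 hex.choose_spec.2
  have hK : ∀ a ∈ s, f a ∈ s.image f := fun a ha => mem_image_of_mem f ha
  have hK' : ∀ a ∈ s, f' a ∈ s.image f' := fun a ha => mem_image_of_mem f' ha
  have hD : ∀ a ∈ s, g a ∈ s.image g := fun a ha => mem_image_of_mem g ha
  have hφK : ∀ k' ∈ s.image f', φ k' ∈ s.image f := by
    intro k' hk'
    obtain ⟨a, ha, rfl⟩ := mem_image.mp hk'
    rw [hφ a ha]
    exact hK a ha
  rw [QQ_eq hw f g hK hD, QQ_eq hw f' g hK' hD, ← sum_fiberwise_of_maps_to hφK]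
  refine sum_le_sum fun k hk => ?_
  -- masses
  have hm : ∑ a ∈ s.filter (fun a => f a = k), w a
      = ∑ k' ∈ (s.image f').filter (fun k' => φ k' = k), ∑ a ∈ s.filter (fun a => f' a = k'), w a := by
    rw [← sum_fiberwise_of_maps_to (s := s.filter (fun a => f a = k))
      (t := (s.image f').filter (fun k' => φ k' = k)) (g := f')]
    · refine sum_congr rfl fun k' hk' => ?_
      rw [filter_filter]
      refine sum_congr ?_ fun _ _ => rfl
      ext a
      rw [mem_filter, mem_filter]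
      constructor
      · rintro ⟨h1, _, h3⟩
        exact ⟨h1, h3⟩
      · rintro ⟨h1, h3⟩
        refine ⟨h1, ?_, h3⟩
        rw [← hφ a h1, h3]
        exact (mem_filter.mp hk').2
    · intro a ha
      rw [mem_filter] at ha ⊢
      exact ⟨hK' a ha.1, by rw [hφ a ha.1]; exact ha.2⟩
  have hmd : ∀ d, ∑ a ∈ s.filter (fun a => f a = k ∧ g a = d), w a
      = ∑ k' ∈ (s.image f').filter (fun k' => φ k' = k),
        ∑ a ∈ s.filter (fun a => f' a = k' ∧ g a = d), w a := by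
    intro d
    rw [← sum_fiberwise_of_maps_to (s := s.filter (fun a => f a = k ∧ g a = d))
      (t := (s.image f').filter (fun k' => φ k' = k)) (g := f')]
    · refine sum_congr rfl fun k' hk' => ?_
      rw [filter_filter]
      refine sum_congr ?_ fun _ _ => rfl
      ext a
      rw [mem_filter, mem_filter]
      constructor
      · rintro ⟨h1, ⟨_, h4⟩, h3⟩
        exact ⟨h1, h3, h4⟩
      · rintro ⟨h1, h3, h4⟩
        refine ⟨h1, ⟨?_, h4⟩, h3⟩
        rw [← hφ a h1, h3]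
        exact (mem_filter.mp hk').2
    · intro a ha
      rw [mem_filter] at ha ⊢
      exact ⟨hK' a ha.1, by rw [hφ a ha.1]; exact ha.2.1⟩
  have hpos : ∀ k' ∈ (s.image f').filter (fun k' => φ k' = k),
      0 < ∑ a ∈ s.filter (fun a => f' a = k'), w a := by
    intro k' hk'
    rw [mem_filter] at hk'
    obtain ⟨a, ha, rfl⟩ := mem_image.mp hk'.1
    exact ms_pos hw f' ha
  rw [sum_div]
  have h1 : ∀ d ∈ s.image g, (∑ a ∈ s.filter (fun a => f a = k ∧ g a = d), w a) ^ 2 /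
      ∑ a ∈ s.filter (fun a => f a = k), w a ≤
      ∑ k' ∈ (s.image f').filter (fun k' => φ k' = k),
        (∑ a ∈ s.filter (fun a => f' a = k' ∧ g a = d), w a) ^ 2 /
          ∑ a ∈ s.filter (fun a => f' a = k'), w a := by
    intro d _
    rw [hmd d, hm]
    exact Finset.sq_sum_div_le_sum_sq_div _ _ hpos
  refine (sum_le_sum h1).trans (le_of_eq ?_)
  rw [sum_comm]
  refine sum_congr rfl fun k' _ => ?_
  rw [sum_div]

end H62s
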