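import Pool.Agent.Lib.H62s.GEN
import Pool.Agent.Lib.H62s.BPB

set_option autoImplicit false
open Finset
namespace H62s
open H62w
variable [Slope] {β : ℝ} {M : ℕ}

/-! Chunk GIN: lower bound for the sum of the Gini coefficients by entropy. -/

omit [Slope] in
/-- `s^2 ≤ e^s - 1` with `s = -log x`. (`e^s ≥ 1 + s + s^2/2` for `s ≤ 2`;
`e^s = (e^(s/2))^2 ≥ (1 + s/2 + s^2/8)^2 ≥ 1 + s^2` for all `s ≥ 0`.) -/
theorem log_gini (x : ℝ) (hx : 0 < x) (hx1 : x ≤ 1) : (Real.log x) ^ 2 ≤ (1 - x) / x := by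
  set s := -Real.log x with hs
  have hs0 : 0 ≤ s := by
    rw [hs]
    exact neg_nonneg.2 (Real.log_nonpos hx.le hx1)
  have h1 : (1 - x) / x = Real.exp s - 1 := by
    rw [hs, Real.exp_neg, Real.exp_log hx]
    field_simp
  have h2 : (Real.log x) ^ 2 = s ^ 2 := by rw [hs]; ring
  rw [h1, h2]
  have h3 := Real.quadratic_le_exp_of_nonneg (x := s / 2) (by positivity)
  have h4 : Real.exp s = Real.exp (s / 2) ^ 2 := by
    rw [← Real.exp_nat_mul]; congr 1; push_cast; ring
  have h5 : (1 + s / 2 + (s / 2) ^ 2 / 2) ^ 2 ≤ Real.exp (s / 2) ^ 2 :=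
    pow_le_pow_left₀ (by positivity) h3 2
  rw [← h4] at h5
  have h6 : (1 + s / 2 + (s / 2) ^ 2 / 2) ^ 2 =
      1 + s + s ^ 2 / 2 + s ^ 3 / 8 + s ^ 4 / 64 := by ring
  rw [h6] at h5
  have h7 : 0 ≤ s * ((s - 2) ^ 2 + 4) := by positivity
  have h8 : 0 ≤ s ^ 4 := by positivity
  nlinarith

section
omit [Slope]
variable {α γ : Type} [DecidableEq γ]

/-- Sum of `w / ms f`: number of classes. -/
lemma GIN_sum_div {s : Finset α} {w : α → ℝ} (hw : ∀ a ∈ s, 0 < w a) (f : α → γ) :
    ∑ a ∈ s, w a / ms s w f a = ((s.image f).card : ℝ) := by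
  rw [← Finset.sum_fiberwise_of_maps_to (s := s) (t := s.image f) (g := f)
    (fun a ha => mem_image_of_mem _ ha) (fun a => w a / ms s w f a)]
  rw [Finset.card_eq_sum_ones]
  push_cast
  refine Finset.sum_congr rfl fun k hk => ?_
  obtain ⟨a0, ha0, rfl⟩ := mem_image.1 hk
  have h1 : ∀ a ∈ s.filter (fun a => f a = f a0), w a / ms s w f a = w a / ms s w f a0 := by
    intro a ha
    unfold ms
    rw [(mem_filter.1 ha).2]
  rw [Finset.sum_congr rfl h1, ← Finset.sum_div]
  exact div_self (ms_pos hw f ha0).ne'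

/-- Sum over one value of `g`. -/
lemma GIN_sum_three {s : Finset α} {w : α → ℝ} (hw : ∀ a ∈ s, 0 < w a)
    (f : α → γ) (g : α → ℕ) (d : ℕ) :
    ∑ a ∈ s.filter (fun a => g a = d),
      w a * (ms s w f a / ms s w (fun b => (f b, g b)) a) ≤ ∑ a ∈ s, w a := by
  set sd := s.filter (fun a => g a = d) with hsd
  rw [← Finset.sum_fiberwise_of_maps_to (s := sd) (t := s.image f) (g := f)
    (fun a ha => mem_image_of_mem _ (mem_filter.1 ha).1)
    (fun a => w a * (ms s w f a / ms s w (fun b => (f b, g b)) a)),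
    ← Finset.sum_fiberwise_of_maps_to (s := s) (t := s.image f) (g := f)
    (fun a ha => mem_image_of_mem _ ha) w]
  refine Finset.sum_le_sum fun k hk => ?_
  obtain ⟨a0, ha0, rfl⟩ := mem_image.1 hk
  rcases (sd.filter (fun a => f a = f a0)).eq_empty_or_nonempty with h | h
  · rw [h, Finset.sum_empty]
    exact Finset.sum_nonneg fun a ha => (hw a (mem_filter.1 ha).1).le
  · obtain ⟨a1, ha1⟩ := h
    have ha1s : a1 ∈ s := (mem_filter.1 (mem_filter.1 ha1).1).1
    have hf1 : f a1 = f a0 := (mem_filter.1 ha1).2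
    have hg1 : g a1 = d := (mem_filter.1 (mem_filter.1 ha1).1).2
    have h1 : ∀ a ∈ sd.filter (fun a => f a = f a0),
        w a * (ms s w f a / ms s w (fun b => (f b, g b)) a) =
          w a * (ms s w f a0 / ms s w (fun b => (f b, g b)) a1) := by
      intro a ha
      have e1 : f a = f a0 := (mem_filter.1 ha).2
      have e2 : g a = g a1 := by
        rw [hg1]; exact (mem_filter.1 (mem_filter.1 ha).1).2
      have e3 : ms s w f a = ms s w f a0 := by unfold ms; rw [e1]
      have e4 : ms s w (fun b => (f b, g b)) a = ms s w (fun b => (f b, g b)) a1 := by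
        unfold ms
        refine Finset.sum_congr ?_ fun _ _ => rfl
        ext b
        simp only [mem_filter, Prod.mk.injEq, e1, e2, hf1]
      rw [e3, e4]
    rw [Finset.sum_congr rfl h1, ← Finset.sum_mul]
    have h2 : ∑ a ∈ sd.filter (fun a => f a = f a0), w a = ms s w (fun b => (f b, g b)) a1 := by
      unfold ms
      rw [hsd, Finset.filter_filter]
      refine Finset.sum_congr ?_ fun _ _ => rfl
      ext b
      simp only [mem_filter, Prod.mk.injEq, hf1, hg1]
      tauto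
    have h3 := ms_pos hw (fun b => (f b, g b)) ha1s
    rw [h2, mul_div_cancel₀ _ h3.ne']
    exact le_rfl

end

omit [Slope] in
/-- One step of the chain rule. `rho a = ms (f,g) a / ms f a`. By `log_gini` and Cauchy-Schwarz
`∑ w |log rho| ≤ ∑ w sqrt((1-rho)/rho) ≤ sqrt (∑ w / rho) * sqrt (∑ w (1 - rho))`;
`∑ w / rho = ∑ over (f,g) classes of ms f ≤ 3 ∑ w = 3` because `g` has at most three values;
`∑ w (1 - rho) = 1 - QQ`. -/
theorem ent_step {α γ : Type} [DecidableEq γ] {s : Finset α} {w : α → ℝ} (hw : ∀ a ∈ s, 0 < w a)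
    (hw1 : ∑ a ∈ s, w a = 1) (f : α → γ) (g : α → ℕ) (hg : ∀ a ∈ s, g a < 3) :
    ∑ a ∈ s, w a * (Real.log (ms s w f a) - Real.log (ms s w (fun b => (f b, g b)) a)) ≤
      Real.sqrt (3 * (1 - QQ s w f g)) := by
  set fg : α → γ × ℕ := fun b => (f b, g b) with hfg
  set rho : α → ℝ := fun a => ms s w fg a / ms s w f a with hrho
  have hp1 : ∀ a ∈ s, 0 < ms s w f a := fun a ha => ms_pos hw f ha
  have hp2 : ∀ a ∈ s, 0 < ms s w fg a := fun a ha => ms_pos hw fg ha
  have hle : ∀ a ∈ s, ms s w fg a ≤ ms s w f a := fun a ha =>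
    ms_le hw f fg (fun a _ b _ h => (Prod.mk.injEq _ _ _ _ ▸ h : f b = f a ∧ g b = g a).1) ha
  have hr0 : ∀ a ∈ s, 0 < rho a := fun a ha => div_pos (hp2 a ha) (hp1 a ha)
  have hr1 : ∀ a ∈ s, rho a ≤ 1 := fun a ha => (div_le_one (hp1 a ha)).2 (hle a ha)
  have hCS := Finset.sum_sq_le_sum_mul_sum_of_sq_le_mul s
    (r := fun a => w a * (Real.log (ms s w f a) - Real.log (ms s w fg a)))
    (f := fun a => w a / rho a)
    (g := fun a => w a * rho a * (Real.log (ms s w f a) - Real.log (ms s w fg a)) ^ 2)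
    (fun a ha => (div_pos (hw a ha) (hr0 a ha)).le)
    (fun a ha => mul_nonneg (mul_pos (hw a ha) (hr0 a ha)).le (sq_nonneg _))
    (fun a ha => le_of_eq (by
      have := (hr0 a ha).ne'
      field_simp))
  have hA : ∑ a ∈ s, w a / rho a ≤ 3 := by
    have e1 : ∑ a ∈ s, w a / rho a = ∑ a ∈ s, w a * (ms s w f a / ms s w fg a) := by
      refine Finset.sum_congr rfl fun a _ => ?_
      rw [hrho]
      simp only [div_div_eq_mul_div]
      ring
    rw [e1, ← Finset.sum_fiberwise_of_maps_to (s := s) (t := range 3) (g := g)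
      (fun a ha => mem_range.2 (hg a ha)) (fun a => w a * (ms s w f a / ms s w fg a))]
    refine (Finset.sum_le_sum fun d _ => GIN_sum_three hw f g d).trans ?_
    rw [hw1]
    simp
  have hB : ∑ a ∈ s, w a * rho a * (Real.log (ms s w f a) - Real.log (ms s w fg a)) ^ 2 ≤
      1 - QQ s w f g := by
    have e1 : 1 - QQ s w f g = ∑ a ∈ s, w a * (1 - rho a) := by
      have e0 : ∑ a ∈ s, w a * (1 - rho a) = ∑ a ∈ s, w a - ∑ a ∈ s, w a * rho a := by
        rw [← Finset.sum_sub_distrib]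
        refine Finset.sum_congr rfl fun a _ => ?_
        ring
      rw [e0, hw1]
      rfl
    rw [e1]
    refine Finset.sum_le_sum fun a ha => ?_
    have e2 : (Real.log (ms s w f a) - Real.log (ms s w fg a)) ^ 2 = Real.log (rho a) ^ 2 := by
      rw [hrho]
      simp only
      rw [Real.log_div (hp2 a ha).ne' (hp1 a ha).ne']
      ring
    rw [e2]
    have e3 := log_gini (rho a) (hr0 a ha) (hr1 a ha)
    have e4 : w a * rho a * Real.log (rho a) ^ 2 ≤ w a * rho a * ((1 - rho a) / rho a) :=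
      mul_le_mul_of_nonneg_left e3 (mul_pos (hw a ha) (hr0 a ha)).le
    refine e4.trans (le_of_eq ?_)
    have := (hr0 a ha).ne'
    field_simp
  have hB0 : 0 ≤ ∑ a ∈ s, w a * rho a *
      (Real.log (ms s w f a) - Real.log (ms s w fg a)) ^ 2 :=
    Finset.sum_nonneg fun a ha => mul_nonneg (mul_pos (hw a ha) (hr0 a ha)).le (sq_nonneg _)
  refine (le_abs_self _).trans (Real.abs_le_sqrt (hCS.trans ?_))
  exact mul_le_mul hA hB hB0 (by norm_num)

omit [Slope] in
/-- Entropy is at most the logarithm of the number of values (Jensen). -/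
theorem ent_card {α γ : Type} [DecidableEq γ] {s : Finset α} {w : α → ℝ} (hw : ∀ a ∈ s, 0 < w a)
    (hw1 : ∑ a ∈ s, w a = 1) (f : α → γ) (K : Finset γ) (hK : ∀ a ∈ s, f a ∈ K) :
    - ∑ a ∈ s, w a * Real.log (ms s w f a) ≤ Real.log K.card := by
  have hs : s.Nonempty := by
    rcases s.eq_empty_or_nonempty with h | h
    · subst h; simp at hw1
    · exact h
  obtain ⟨a0, ha0⟩ := hs
  have hKc : (0:ℝ) < K.card := by
    exact_mod_cast Finset.card_pos.2 ⟨f a0, hK a0 ha0⟩
  have h1 : ∀ a ∈ s, w a * (-Real.log (ms s w f a) - Real.log K.card) ≤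
      w a / ms s w f a / K.card - w a := by
    intro a ha
    have hp := ms_pos hw f ha
    have e1 : -Real.log (ms s w f a) - Real.log K.card = Real.log ((ms s w f a * K.card)⁻¹) := by
      rw [Real.log_inv, Real.log_mul hp.ne' hKc.ne']; ring
    rw [e1]
    have e2 := Real.log_le_sub_one_of_pos (x := (ms s w f a * K.card)⁻¹) (by positivity)
    have e3 : w a * Real.log ((ms s w f a * K.card)⁻¹) ≤ w a * ((ms s w f a * K.card)⁻¹ - 1) :=
      mul_le_mul_of_nonneg_left e2 (hw a ha).le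
    refine e3.trans (le_of_eq ?_)
    field_simp
  have h2 := Finset.sum_le_sum h1
  rw [Finset.sum_sub_distrib, ← Finset.sum_div, GIN_sum_div hw f, hw1] at h2
  have h3 : (((s.image f).card : ℝ)) / K.card ≤ 1 := by
    rw [div_le_one hKc]
    exact_mod_cast Finset.card_le_card (Finset.image_subset_iff.2 hK)
  have h4 : ∑ a ∈ s, w a * (-Real.log (ms s w f a) - Real.log K.card) =
      - ∑ a ∈ s, w a * Real.log (ms s w f a) - Real.log K.card := by
    have e1 : ∑ a ∈ s, w a * (-Real.log (ms s w f a) - Real.log K.card) =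
        - ∑ a ∈ s, w a * Real.log (ms s w f a) - (∑ a ∈ s, w a) * Real.log K.card := by
      rw [← Finset.sum_neg_distrib, Finset.sum_mul, ← Finset.sum_sub_distrib]
      refine Finset.sum_congr rfl fun a _ => ?_
      ring
    rw [e1, hw1, one_mul]
  rw [h4] at h2
  linarith

omit [Slope] in
lemma GIN_key_iff (r i : ℕ) (a b : List ℕ) :
    ky r (i + 1) b = ky r (i + 1) a ↔ (ky r i b, wd r i 1 b) = (ky r i a, wd r i 1 a) := by
  unfold ky wd
  simp only [Prod.mk.injEq, pow_one]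
  constructor
  · rintro ⟨h1, h2⟩
    have h3 : en b r % 3 ^ (i + 1) = en a r % 3 ^ (i + 1) := by
      have h4 : en b r % 3 ^ (i + 1 + 1) % 3 ^ (i + 1) = en a r % 3 ^ (i + 1 + 1) % 3 ^ (i + 1) := by
        rw [h2]
      rwa [Nat.mod_mod_of_dvd _ (pow_dvd_pow 3 (by omega)),
        Nat.mod_mod_of_dvd _ (pow_dvd_pow 3 (by omega))] at h4
    refine ⟨⟨h1, h3⟩, ?_⟩
    have eb := @Nat.mod_pow_succ (en b r) 3 (i + 1)
    have ea := @Nat.mod_pow_succ (en a r) 3 (i + 1)
    rw [eb, ea, h3] at h2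
    have h4 := Nat.add_left_cancel h2
    exact Nat.eq_of_mul_eq_mul_left (by positivity) h4
  · rintro ⟨⟨h1, h2⟩, h3⟩
    refine ⟨h1, ?_⟩
    have eb := @Nat.mod_pow_succ (en b r) 3 (i + 1)
    have ea := @Nat.mod_pow_succ (en a r) 3 (i + 1)
    rw [eb, ea, h2, h3]

lemma GIN_tele (hβ : 0 < β) (hβ1 : β ≤ 1) (hM : 7 ≤ M) (g h i0 r : ℕ) (hr3 : r % 3 ≠ 0) (n : ℕ) :
    - ∑ a ∈ BP M g h r, kap β M g h r a *
        Real.log (ms (BP M g h r) (kap β M g h r) (ky r (i0 + n)) a) ≤
      - ∑ a ∈ BP M g h r, kap β M g h r a *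
        Real.log (ms (BP M g h r) (kap β M g h r) (ky r i0) a) +
      ∑ i ∈ Ico i0 (i0 + n), Real.sqrt (3 * GG β M g h i r) := by
  have hw : ∀ a ∈ BP M g h r, 0 < kap β M g h r a := fun a ha => kap_pos hβ hβ1 hM hr3 ha
  have hw1 := kap_sum hβ hβ1 hM (g := g) (j := h) hr3
  induction n with
  | zero => simp
  | succ n ih =>
    have h1 := ent_step hw hw1 (ky r (i0 + n)) (wd r (i0 + n) 1) (fun a _ => by
      unfold wd; rw [pow_one]; exact Nat.mod_lt _ (by norm_num))
    have h2 : ∀ a ∈ BP M g h r, ms (BP M g h r) (kap β M g h r)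
        (fun b => (ky r (i0 + n) b, wd r (i0 + n) 1 b)) a =
          ms (BP M g h r) (kap β M g h r) (ky r (i0 + (n + 1))) a := by
      intro a ha
      symm
      exact ms_congr _ _ (fun a _ b _ => GIN_key_iff r (i0 + n) a b) ha
    have h3 : ∑ a ∈ BP M g h r, kap β M g h r a *
        (Real.log (ms (BP M g h r) (kap β M g h r) (ky r (i0 + n)) a) -
          Real.log (ms (BP M g h r) (kap β M g h r)
            (fun b => (ky r (i0 + n) b, wd r (i0 + n) 1 b)) a)) =
        ∑ a ∈ BP M g h r, kap β M g h r a *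
          Real.log (ms (BP M g h r) (kap β M g h r) (ky r (i0 + n)) a) -
        ∑ a ∈ BP M g h r, kap β M g h r a *
          Real.log (ms (BP M g h r) (kap β M g h r) (ky r (i0 + (n + 1))) a) := by
      rw [← Finset.sum_sub_distrib]
      refine Finset.sum_congr rfl fun a ha => ?_
      rw [h2 a ha]; ring
    rw [h3] at h1
    have h4 : ∑ i ∈ Ico i0 (i0 + (n + 1)), Real.sqrt (3 * GG β M g h i r) =
        ∑ i ∈ Ico i0 (i0 + n), Real.sqrt (3 * GG β M g h i r) +
          Real.sqrt (3 * GG β M g h (i0 + n) r) := by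
      rw [← add_assoc, Finset.sum_Ico_succ_top (by omega)]
    rw [h4]
    have h5 : Real.sqrt (3 * (1 - QQ (BP M g h r) (kap β M g h r) (ky r (i0 + n))
        (wd r (i0 + n) 1))) = Real.sqrt (3 * GG β M g h (i0 + n) r) := rfl
    rw [h5] at h1
    linarith

/-- Chunk GIN, main statement. Proof: `K = h g`. `kap b ≤ mm g ^ (-h)` (`kap_le`), so
`h log (mm g) ≤ -∑ kap log kap`. By `BP_inj` the key `ky r (M K)` is injective on `BP h r`, so
`ms (ky r (M K)) b = kap b`. Telescoping over `i0 ≤ i < M K` (the key `(ky r i, wd r i 1)` has the same fibres as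
`ky r (i+1)`: `ms_congr`): `-∑ kap log kap ≤ log (#keys of ky r i0) + ∑ sqrt (3 GG i)` with
`#keys ≤ (M K + 1) 3^(i0+1)`. Cauchy-Schwarz for the last sum. -/
theorem gini_sum (hβ : 0 < β) (hβ1 : β ≤ 1) (hM : 7 ≤ M) (g h i0 r : ℕ) (hr : r < 3 ^ (h * g + 1))
    (hr3 : r % 3 ≠ 0) (hi : i0 ≤ M * (h * g)) :
    h * Real.log (mm β M g) ≤ Real.log (((M * (h * g) + 1) * 3 ^ (i0 + 1) : ℕ) : ℝ) +
      Real.sqrt (3 * (M * (h * g) : ℕ) * ∑ i ∈ Ico i0 (M * (h * g)), GG β M g h i r) := by
  set s := BP M g h r with hs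
  set w := kap β M g h r with hwdef
  set L := M * (h * g) with hL
  have hw : ∀ a ∈ s, 0 < w a := fun a ha => kap_pos hβ hβ1 hM hr3 ha
  have hw1 : ∑ a ∈ s, w a = 1 := kap_sum hβ hβ1 hM hr3
  have hmm := mm_pos hβ hβ1 hM g
  -- lower bound of the entropy
  have h1 : h * Real.log (mm β M g) ≤ - ∑ a ∈ s, w a * Real.log (ms s w (ky r L) a) := by
    have e1 : ∀ a ∈ s, ms s w (ky r L) a = w a := by
      intro a ha
      unfold ms
      have : s.filter (fun b => ky r L b = ky r L a) = {a} := by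
        ext b
        simp only [mem_filter, mem_singleton]
        constructor
        · rintro ⟨hb, hk⟩
          unfold ky at hk
          simp only [Prod.mk.injEq] at hk
          exact BP_inj hr hr3 hb ha hk.1 hk.2
        · rintro rfl
          exact ⟨ha, rfl⟩
      rw [this, Finset.sum_singleton]
    have e2 : ∀ a ∈ s, w a * (h * Real.log (mm β M g)) ≤ - (w a * Real.log (ms s w (ky r L) a)) := by
      intro a ha
      rw [e1 a ha]
      have e3 := kap_le hβ hβ1 hM hr3 (g := g) (j := h) ha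
      have e4 := Real.log_nonpos (mul_pos (hw a ha) (pow_pos hmm h)).le e3
      rw [Real.log_mul (hw a ha).ne' (pow_pos hmm h).ne', Real.log_pow] at e4
      have e5 := hw a ha
      nlinarith
    have e3 := Finset.sum_le_sum e2
    rw [← Finset.sum_mul, hw1, one_mul, Finset.sum_neg_distrib] at e3
    exact e3
  -- telescoping
  have h2 := GIN_tele hβ hβ1 hM g h i0 r hr3 (L - i0)
  rw [Nat.add_sub_cancel' hi] at h2
  -- number of keys
  have h3 : - ∑ a ∈ s, w a * Real.log (ms s w (ky r i0) a) ≤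
      Real.log (((L + 1) * 3 ^ (i0 + 1) : ℕ) : ℝ) := by
    have := ent_card hw hw1 (ky r i0) (range (L + 1) ×ˢ range (3 ^ (i0 + 1))) (fun a ha => by
      unfold ky
      rw [mem_product, mem_range, mem_range]
      exact ⟨Nat.lt_succ_of_le (BP_spec hr3 ha).2.2.2.2, Nat.mod_lt _ (by positivity)⟩)
    rwa [card_product, card_range, card_range] at this
  -- Cauchy-Schwarz
  have hG0 : ∀ i, 0 ≤ GG β M g h i r := by
    intro i
    have e1 := QQ_le hw (ky r i) (wd r i 1)
    rw [hw1] at e1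
    unfold GG
    linarith
  have h4 : ∑ i ∈ Ico i0 L, Real.sqrt (3 * GG β M g h i r) ≤
      Real.sqrt (3 * (L : ℕ) * ∑ i ∈ Ico i0 L, GG β M g h i r) := by
    have e1 := sq_sum_le_card_mul_sum_sq (s := Ico i0 L)
      (f := fun i => Real.sqrt (3 * GG β M g h i r))
    have e2 : ∑ i ∈ Ico i0 L, Real.sqrt (3 * GG β M g h i r) ^ 2 =
        3 * ∑ i ∈ Ico i0 L, GG β M g h i r := by
      rw [Finset.mul_sum]
      refine Finset.sum_congr rfl fun i _ => ?_
      exact Real.sq_sqrt (mul_nonneg (by norm_num) (hG0 i))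
    rw [e2] at e1
    have e3 : (((Ico i0 L).card : ℕ) : ℝ) ≤ L := by
      rw [Nat.card_Ico]
      exact_mod_cast Nat.sub_le _ _
    have e4 : 0 ≤ 3 * ∑ i ∈ Ico i0 L, GG β M g h i r :=
      mul_nonneg (by norm_num) (Finset.sum_nonneg fun i _ => hG0 i)
    refine (le_abs_self _).trans (Real.abs_le_sqrt (e1.trans ?_))
    calc ((Ico i0 L).card : ℝ) * (3 * ∑ i ∈ Ico i0 L, GG β M g h i r) ≤
        L * (3 * ∑ i ∈ Ico i0 L, GG β M g h i r) := mul_le_mul_of_nonneg_right e3 e4
      _ = _ := by ring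
  linarith

end H62s
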