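import Mathlib

set_option autoImplicit false
open Finset
namespace H62s

/-! Chunk STAR: two inequalities for means of logarithms. -/

theorem STAR_jensen {κ : Type} (t : Finset κ) (w g : κ → ℝ) (hw : ∀ k ∈ t, 0 ≤ w k)
    (hw1 : ∑ k ∈ t, w k = 1) (hg : ∀ k ∈ t, 0 < g k) :
    ∑ k ∈ t, w k * Real.log (g k) ≤ Real.log (∑ k ∈ t, w k * g k) := by
  have h := strictConcaveOn_log_Ioi.concaveOn.le_map_sum (t := t) (w := w) (p := g) hw hw1
    (fun k hk => hg k hk)
  simpa [smul_eq_mul] using h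

/-- Superadditivity of the geometric mean. Proof: `L k = mean of log (Y k)`, `S = ∑ c k e^(L k)`,
`π k = c k e^(L k) / S`; by concavity of `log` (`StrictConcaveOn.. / ConcaveOn.le_map_sum`)
`log (∑ c Y) = log S + log (∑ π k Y k e^(-L k)) ≥ log S + ∑ π k (log (Y k) - L k)`; take the mean. -/
theorem geo {ι κ : Type} (s : Finset ι) (hs : s.Nonempty) (t : Finset κ) (ht : t.Nonempty)
    (c : κ → ℝ) (hc : ∀ k ∈ t, 0 < c k) (Y : κ → ι → ℝ) (hY : ∀ k ∈ t, ∀ u ∈ s, 0 < Y k u) :
    Real.log (∑ k ∈ t, c k * Real.exp ((∑ u ∈ s, Real.log (Y k u)) / s.card)) ≤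
      (∑ u ∈ s, Real.log (∑ k ∈ t, c k * Y k u)) / s.card := by
  have hcard : (0:ℝ) < s.card := by exact_mod_cast hs.card_pos
  set L : κ → ℝ := fun k => (∑ u ∈ s, Real.log (Y k u)) / s.card with hL
  set S : ℝ := ∑ k ∈ t, c k * Real.exp (L k) with hS
  have hSpos : 0 < S := Finset.sum_pos (fun k hk => mul_pos (hc k hk) (Real.exp_pos _)) ht
  set w : κ → ℝ := fun k => c k * Real.exp (L k) / S with hw
  have hw0 : ∀ k ∈ t, 0 ≤ w k := fun k hk =>
    div_nonneg (mul_nonneg (hc k hk).le (Real.exp_pos _).le) hSpos.le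
  have hw1 : ∑ k ∈ t, w k = 1 := by
    simp only [hw]
    rw [← Finset.sum_div, ← hS, div_self hSpos.ne']
  have hu : ∀ u ∈ s, Real.log S + ∑ k ∈ t, w k * (Real.log (Y k u) - L k) ≤
      Real.log (∑ k ∈ t, c k * Y k u) := by
    intro u hu
    have h1 : ∑ k ∈ t, c k * Y k u = S * ∑ k ∈ t, w k * (Y k u * Real.exp (-L k)) := by
      rw [Finset.mul_sum]
      refine Finset.sum_congr rfl fun k _ => ?_
      simp only [hw]
      rw [Real.exp_neg]
      field_simp
    have hg : ∀ k ∈ t, 0 < Y k u * Real.exp (-L k) := fun k hk =>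
      mul_pos (hY k hk u hu) (Real.exp_pos _)
    have hsum : 0 < ∑ k ∈ t, w k * (Y k u * Real.exp (-L k)) := by
      have h2 : 0 < ∑ k ∈ t, c k * Y k u :=
        Finset.sum_pos (fun k hk => mul_pos (hc k hk) (hY k hk u hu)) ht
      rw [h1] at h2
      exact (mul_pos_iff_of_pos_left hSpos).1 h2
    rw [h1, Real.log_mul hSpos.ne' hsum.ne']
    have h3 := STAR_jensen t w (fun k => Y k u * Real.exp (-L k)) hw0 hw1 hg
    have h4 : ∑ k ∈ t, w k * (Real.log (Y k u) - L k) =
        ∑ k ∈ t, w k * Real.log (Y k u * Real.exp (-L k)) := by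
      refine Finset.sum_congr rfl fun k hk => ?_
      rw [Real.log_mul (hY k hk u hu).ne' (Real.exp_pos _).ne', Real.log_exp]
      ring
    rw [h4]
    linarith
  rw [le_div_iff₀ hcard]
  refine le_trans ?_ (Finset.sum_le_sum hu)
  rw [Finset.sum_add_distrib, Finset.sum_const, nsmul_eq_mul, Finset.sum_comm]
  have h5 : ∀ k, ∑ u ∈ s, w k * (Real.log (Y k u) - L k) = 0 := by
    intro k
    rw [← Finset.mul_sum, Finset.sum_sub_distrib, Finset.sum_const, nsmul_eq_mul]
    simp only [hL]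
    rw [mul_div_cancel₀ _ hcard.ne']
    simp
  simp only [h5]
  simp only [Finset.sum_const_zero, add_zero]
  linarith

/-- Mixing with a law that is at least half uniform. `N = 3^n`, indices in `Z/N` written as residues.
Proof: `q = (1/2) unif + (1/2) q'` with `q' x = 2 q x - 1/N ≥ 0`, `∑ q' = 1`. Concavity of `log` :
`log ∑ q f h ≥ (1/2) log ((1/N) ∑_x h x f (x X + u)) + (1/2) ∑ q' x (log (h x) + log (f (x X + u)))`.
Mean over `u`: the second part gives `(1/2)(∑ q' log h + mean log f)`. First part: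
`(1/N) ∑_x h x f (X x + u) = mean f * ∑_y π y h(X⁻¹ (y - u))`, `π = f / ∑ f`, so its `log` is
`≥ log mean f + ∑_y π y log h (X⁻¹ (y - u))`, whose mean over `u` is `log mean f + mean log h`.
Together `(1/2) log mean f + (1/2) mean log f + ∑ q log h`. -/
theorem star {N : ℕ} [NeZero N] (X : (ZMod N)ˣ) (f h q : ZMod N → ℝ) (hf : ∀ x, 0 < f x)
    (hh : ∀ x, 0 < h x) (hq : ∀ x, 1 / (2 * (N : ℝ)) ≤ q x) (hq1 : ∑ x, q x = 1) :
    (1 / 2) * Real.log ((∑ x, f x) / N) + (1 / 2) * ((∑ x, Real.log (f x)) / N) +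
        ∑ x, q x * Real.log (h x) ≤
      (∑ u, Real.log (∑ x, q x * (f (↑X * x + u) * h x))) / N := by
  have hN : (0:ℝ) < N := by exact_mod_cast Nat.pos_of_ne_zero (NeZero.ne N)
  have hcard : ((Finset.univ : Finset (ZMod N)).card : ℝ) = N := by
    rw [Finset.card_univ, ZMod.card]
  have hne : (Finset.univ : Finset (ZMod N)).Nonempty := ⟨0, Finset.mem_univ _⟩
  set F : ℝ := ∑ x, f x with hF
  have hFpos : 0 < F := Finset.sum_pos (fun x _ => hf x) hne
  have hsx : ∀ (g : ZMod N → ℝ) (u : ZMod N), ∑ x, g (↑X * x + u) = ∑ x, g x := by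
    intro g u
    have h1 : ∑ x, g (↑X * x + u) = ∑ x, g (x + u) :=
      Equiv.sum_comp (Units.mulLeft X) (fun x => g (x + u))
    rw [h1]
    exact Equiv.sum_comp (Equiv.addRight u) g
  have hsu : ∀ (g : ZMod N → ℝ) (x : ZMod N), ∑ u, g (↑X * x + u) = ∑ u, g u := fun g x =>
    Equiv.sum_comp (Equiv.addLeft ((X : ZMod N) * x)) g
  set q' : ZMod N → ℝ := fun x => 2 * q x - 1 / N with hq'
  have hq'0 : ∀ x, 0 ≤ q' x := by
    intro x
    have h1 := hq x
    have h2 : 1 / (2 * (N:ℝ)) = 1 / N / 2 := by field_simp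
    rw [h2] at h1
    simp only [hq']
    linarith
  have hq'1 : ∑ x, q' x = 1 := by
    simp only [hq']
    rw [Finset.sum_sub_distrib, ← Finset.mul_sum, hq1, Finset.sum_const, nsmul_eq_mul, hcard]
    field_simp
    norm_num
  -- pointwise inequality
  have hpt : ∀ u, (1 / 2) * (Real.log (F / N) + ∑ x, f (↑X * x + u) / F * Real.log (h x)) +
      (1 / 2) * ∑ x, q' x * (Real.log (f (↑X * x + u)) + Real.log (h x)) ≤
      Real.log (∑ x, q x * (f (↑X * x + u) * h x)) := by
    intro u
    set A : ℝ := ∑ x, (1 / (N:ℝ)) * (f (↑X * x + u) * h x) with hA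
    set B : ℝ := ∑ x, q' x * (f (↑X * x + u) * h x) with hB
    have hg : ∀ x, 0 < f (↑X * x + u) * h x := fun x => mul_pos (hf _) (hh _)
    have hApos : 0 < A := Finset.sum_pos (fun x _ => mul_pos (by positivity) (hg x)) hne
    have hBpos : 0 < B := by
      have h1 : ∃ x ∈ Finset.univ, 0 < q' x := by
        by_contra hcon
        push Not at hcon
        have : ∑ x, q' x ≤ 0 := Finset.sum_nonpos hcon
        rw [hq'1] at this
        linarith
      obtain ⟨x0, -, hx0⟩ := h1
      exact Finset.sum_pos' (fun x _ => mul_nonneg (hq'0 x) (hg x).le)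
        ⟨x0, Finset.mem_univ _, mul_pos hx0 (hg x0)⟩
    have hAB : ∑ x, q x * (f (↑X * x + u) * h x) = 1 / 2 * A + 1 / 2 * B := by
      rw [hA, hB, Finset.mul_sum, Finset.mul_sum, ← Finset.sum_add_distrib]
      refine Finset.sum_congr rfl fun x _ => ?_
      simp only [hq']
      ring
    have hlogA : Real.log (F / N) + ∑ x, f (↑X * x + u) / F * Real.log (h x) ≤ Real.log A := by
      have h1 : A = F / N * ∑ x, f (↑X * x + u) / F * h x := by
        rw [hA, Finset.mul_sum]
        refine Finset.sum_congr rfl fun x _ => ?_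
        field_simp
      have h2 : 0 < ∑ x, f (↑X * x + u) / F * h x :=
        Finset.sum_pos (fun x _ => mul_pos (div_pos (hf _) hFpos) (hh _)) hne
      rw [h1, Real.log_mul (by positivity) h2.ne']
      have h3 := STAR_jensen Finset.univ (fun x => f (↑X * x + u) / F) h
        (fun x _ => (div_pos (hf _) hFpos).le)
        (by rw [← Finset.sum_div, hsx f u, div_self hFpos.ne']) (fun x _ => hh x)
      linarith
    have hlogB : ∑ x, q' x * (Real.log (f (↑X * x + u)) + Real.log (h x)) ≤ Real.log B := by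
      have h3 := STAR_jensen Finset.univ q' (fun x => f (↑X * x + u) * h x)
        (fun x _ => hq'0 x) hq'1 (fun x _ => hg x)
      refine le_trans (le_of_eq ?_) h3
      refine Finset.sum_congr rfl fun x _ => ?_
      rw [Real.log_mul (hf _).ne' (hh _).ne']
    have hcomb : 1 / 2 * Real.log A + 1 / 2 * Real.log B ≤ Real.log (1 / 2 * A + 1 / 2 * B) := by
      have h1 := strictConcaveOn_log_Ioi.concaveOn.2 (show A ∈ Set.Ioi 0 from hApos)
        (show B ∈ Set.Ioi 0 from hBpos) (show (0:ℝ) ≤ 1 / 2 by norm_num)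
        (show (0:ℝ) ≤ 1 / 2 by norm_num) (by norm_num)
      simp only [smul_eq_mul] at h1
      exact h1
    rw [hAB]
    linarith
  rw [le_div_iff₀ hN]
  refine le_trans (le_of_eq ?_) (Finset.sum_le_sum fun u _ => hpt u)
  have h1 : ∑ u, ∑ x, f (↑X * x + u) / F * Real.log (h x) = ∑ x, Real.log (h x) := by
    rw [Finset.sum_comm]
    refine Finset.sum_congr rfl fun x _ => ?_
    rw [← Finset.sum_mul, ← Finset.sum_div, hsu f x, div_self hFpos.ne', one_mul]
  have h2 : ∑ u, ∑ x, q' x * (Real.log (f (↑X * x + u)) + Real.log (h x)) =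
      (∑ x, Real.log (f x)) + N * ∑ x, q' x * Real.log (h x) := by
    rw [Finset.sum_comm]
    have h3 : ∀ x, ∑ u, q' x * (Real.log (f (↑X * x + u)) + Real.log (h x)) =
        q' x * (∑ x, Real.log (f x)) + N * (q' x * Real.log (h x)) := by
      intro x
      rw [← Finset.mul_sum, Finset.sum_add_distrib, hsu (fun y => Real.log (f y)) x,
        Finset.sum_const, nsmul_eq_mul, hcard]
      ring
    simp only [h3]
    rw [Finset.sum_add_distrib, ← Finset.sum_mul, hq'1, one_mul, ← Finset.mul_sum]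
  have h4 : ∑ x, q' x * Real.log (h x) =
      2 * ∑ x, q x * Real.log (h x) - (∑ x, Real.log (h x)) / N := by
    simp only [hq']
    rw [Finset.mul_sum, Finset.sum_div, ← Finset.sum_sub_distrib]
    refine Finset.sum_congr rfl fun x _ => ?_
    ring
  rw [Finset.sum_add_distrib, ← Finset.mul_sum, ← Finset.mul_sum, Finset.sum_add_distrib,
    Finset.sum_const, nsmul_eq_mul, hcard, h1, h2, h4]
  field_simp
  ring

end H62s
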