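import Pool.Agent.Lib.H62s.Defs2
import Pool.Agent.Lib.H62s.STAR

set_option autoImplicit false
open Finset
namespace H62s
open H62w

theorem GWA_digits (a b : ℕ) (F : ℕ → ℝ) :
    ∑ U ∈ range (a * b), F U = ∑ x ∈ range a, ∑ y ∈ range b, F (x + a * y) := by
  rcases Nat.eq_zero_or_pos a with rfl | ha
  · simp
  rw [← sum_product']
  symm
  refine sum_bij' (fun x _ => x.1 + a * x.2) (fun U _ => (U % a, U / a)) ?_ ?_ ?_ ?_ ?_
  · rintro ⟨x, y⟩ h
    rw [mem_product, mem_range, mem_range] at h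
    rw [mem_range]
    obtain ⟨h1, h2⟩ := h
    dsimp only at h1 h2 ⊢
    calc x + a * y < a + a * y := by omega
      _ = a * (y + 1) := by ring
      _ ≤ a * b := Nat.mul_le_mul_left _ h2
  · intro U h
    rw [mem_range] at h
    rw [mem_product, mem_range, mem_range]
    exact ⟨Nat.mod_lt _ ha, Nat.div_lt_of_lt_mul h⟩
  · rintro ⟨x, y⟩ h
    rw [mem_product, mem_range, mem_range] at h
    dsimp only at h ⊢
    rw [Nat.add_mul_mod_self_left, Nat.mod_eq_of_lt h.1, Nat.add_mul_div_left _ _ ha,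
      Nat.div_eq_of_lt h.1, Nat.zero_add]
  · intro U _
    exact Nat.mod_add_div U a
  · rintro ⟨x, y⟩ _; rfl

theorem GWA_perm {m u : ℕ} (e : ℕ) (hm : 0 < m) (hu : Nat.Coprime u m) (F : ℕ → ℝ)
    (hF : ∀ t, F t = F (t % m)) : ∑ U ∈ range m, F (e + u * U) = ∑ U ∈ range m, F U := by
  refine sum_bij (fun U _ => (e + u * U) % m) ?_ ?_ ?_ ?_
  · intro U _
    exact mem_range.2 (Nat.mod_lt _ hm)
  · intro U hU V hV h
    rw [mem_range] at hU hV
    have h1 : e + u * U ≡ e + u * V [MOD m] := h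
    have h2 : u * U ≡ u * V [MOD m] := Nat.ModEq.add_left_cancel' e h1
    have h3 : U ≡ V [MOD m] := Nat.ModEq.cancel_left_of_coprime (by rwa [Nat.coprime_comm] at hu) h2
    exact Nat.ModEq.eq_of_lt_of_lt h3 hU hV
  · have hinj : Set.InjOn (fun U => (e + u * U) % m) (range m : Finset ℕ) := by
      intro U hU V hV h
      rw [mem_coe, mem_range] at hU hV
      have h1 : e + u * U ≡ e + u * V [MOD m] := h
      have h2 : u * U ≡ u * V [MOD m] := Nat.ModEq.add_left_cancel' e h1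
      have h3 : U ≡ V [MOD m] := Nat.ModEq.cancel_left_of_coprime (by rwa [Nat.coprime_comm] at hu) h2
      exact Nat.ModEq.eq_of_lt_of_lt h3 hU hV
    have himg : (range m).image (fun U => (e + u * U) % m) = range m := by
      apply eq_of_subset_of_card_le
      · intro x hx
        obtain ⟨U, _, rfl⟩ := mem_image.1 hx
        exact mem_range.2 (Nat.mod_lt _ hm)
      · rw [card_image_of_injOn hinj]
    intro b hb
    rw [← himg] at hb
    obtain ⟨U, hU, h⟩ := mem_image.1 hb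
    exact ⟨U, hU, h⟩
  · intro U _
    exact hF _

variable [Slope] {β : ℝ} {M : ℕ}

theorem GWA_W0 (β : ℝ) (M y : ℕ) (hy : y % 3 ≠ 0) : W β M 0 y = 1 := by
  have h : PP M 0 y = {[]} := by
    ext l
    rw [mem_PP, mem_singleton, List.length_eq_zero_iff]
    constructor
    · rintro ⟨⟨h, -⟩, -⟩; exact h
    · rintro rfl
      exact ⟨⟨rfl, by simp⟩, trivial, hy, by simp⟩
  unfold W
  rw [h, sum_singleton]
  unfold wt
  simp

theorem GWA_unit {c : ℕ} (hc : c = 1 ∨ c = 2) (t : ℕ) : (c + 3 * t) % 3 ≠ 0 := by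
  omega

/-- `W` along one block, from a point with given residue and quotient. -/
theorem GWA_step (β : ℝ) (M n L c t : ℕ) (hc : c = 1 ∨ c = 2) :
    ∑ b ∈ PP M n (c + 3 * (t % 3 ^ n)), wt β n b *
        W β M L (en b (c + 3 * (t % 3 ^ n)) + 3 * 2 ^ b.sum * (t / 3 ^ n)) ≤ W β M (n + L) (c + 3 * t) := by
  have h1 : c + 3 * t = (c + 3 * (t % 3 ^ n)) + 3 ^ (n + 1) * (t / 3 ^ n) := by
    have := Nat.mod_add_div t (3 ^ n)
    rw [pow_succ]
    nlinarith
  have h2 : (c + 3 * t) % 3 ^ (n + 1) = c + 3 * (t % 3 ^ n) := by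
    rw [h1, Nat.add_mul_mod_self_left]
    apply Nat.mod_eq_of_lt
    have : t % 3 ^ n < 3 ^ n := Nat.mod_lt _ (by positivity)
    rw [pow_succ]
    omega
  refine le_trans (le_of_eq ?_) (W_super β M n L (c + 3 * t))
  rw [PP_mod M n (c + 3 * t), h2]
  refine sum_congr rfl fun b hb => ?_
  have hb' := mem_PP.1 hb
  have h3 := (en_add b (c + 3 * (t % 3 ^ n)) (t / 3 ^ n) hb'.2.1).2
  rw [hb'.1.1, ← h1] at h3
  rw [h3]

/-- The mean over the upper digits, the first window digits `U0` being fixed. -/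
theorem GWA_fixed (hβ : 0 < β) (hβ1 : β ≤ 1) (hM : 7 ≤ M) {n J : ℕ} {α : Type} [DecidableEq α]
    (w : α → ℝ) (s : Finset α) (hs : s.Nonempty) (hw : ∀ a ∈ s, 0 < w a) (v : α → ℕ) (X c U0 : ℕ)
    (hX : X % 3 ≠ 0) (hc : c = 1 ∨ c = 2) (θ : ℕ → ℝ)
    (ih : ∀ x ∈ s.image (fun a => v a % 3 ^ n), ∀ X' c' : ℕ, X' % 3 ≠ 0 → (c' = 1 ∨ c' = 2) →
      Real.log (∑ a ∈ s.filter (fun a => v a % 3 ^ n = x), w a) + J * Real.log (mm β M n) + θ x ≤
      (∑ U ∈ range (3 ^ (n * J)), Real.log (∑ a ∈ s.filter (fun a => v a % 3 ^ n = x),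
        w a * W β M (n * J) (c' + 3 * (X' * (v a / 3 ^ n) + U)))) / 3 ^ (n * J)) :
    J * Real.log (mm β M n) + Real.log (∑ x ∈ s.image (fun a => v a % 3 ^ n),
        (∑ a ∈ s.filter (fun a => v a % 3 ^ n = x), w a) * Real.exp (θ x) *
          W β M n (c + 3 * ((X * x + U0) % 3 ^ n))) ≤
      (∑ U1 ∈ range (3 ^ (n * J)), Real.log (∑ a ∈ s,
        w a * W β M (n + n * J) (c + 3 * (X * v a + (U0 + 3 ^ n * U1))))) / 3 ^ (n * J) := by
  obtain ⟨Cb, -, hWb⟩ := W_bound hβ hβ1 hM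
  have hWpos : ∀ k y : ℕ, y % 3 ≠ 0 → 0 < W β M k y := fun k y hy => (hWb k y hy).1
  set XS := s.image (fun a => v a % 3 ^ n) with hXS
  have hXne : XS.Nonempty := hs.image _
  have hcls : ∀ x ∈ XS, (s.filter (fun a => v a % 3 ^ n = x)).Nonempty := by
    intro x hx
    obtain ⟨a, ha, h⟩ := mem_image.1 hx
    exact ⟨a, mem_filter.2 ⟨ha, h⟩⟩
  have hTpos : ∀ x ∈ XS, 0 < ∑ a ∈ s.filter (fun a => v a % 3 ^ n = x), w a := fun x hx =>
    sum_pos (fun a ha => hw a (mem_filter.1 ha).1) (hcls x hx)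
  have hPne : ∀ y, y % 3 ≠ 0 → (PP M n y).Nonempty := by
    intro y hy
    by_contra h
    rw [not_nonempty_iff_eq_empty] at h
    have := hWpos n y hy
    unfold W at this
    rw [h, sum_empty] at this
    exact lt_irrefl _ this
  set t : Finset (Σ _ : ℕ, List ℕ) := XS.sigma (fun x => PP M n (c + 3 * ((X * x + U0) % 3 ^ n))) with ht
  set Y : (Σ _ : ℕ, List ℕ) → ℕ → ℝ := fun k U1 =>
    ∑ a ∈ s.filter (fun a => v a % 3 ^ n = k.1), w a * W β M (n * J)
      (en k.2 (c + 3 * ((X * k.1 + U0) % 3 ^ n)) +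
        3 * 2 ^ k.2.sum * ((X * k.1 + U0) / 3 ^ n + X * (v a / 3 ^ n) + U1)) with hY
  have hen : ∀ k ∈ t, en k.2 (c + 3 * ((X * k.1 + U0) % 3 ^ n)) % 3 ≠ 0 := by
    intro k hk
    rw [ht, mem_sigma] at hk
    exact (mem_PP.1 hk.2).2.2.1
  have hYpos : ∀ k ∈ t, ∀ U1, 0 < Y k U1 := by
    intro k hk U1
    have h1 := hen k hk
    rw [ht, mem_sigma] at hk
    refine sum_pos (fun a ha => mul_pos (hw a (mem_filter.1 ha).1) (hWpos _ _ ?_)) (hcls k.1 hk.1)
    rw [mul_assoc, Nat.add_mul_mod_self_left]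
    exact h1
  have hgeo := geo (range (3 ^ (n * J))) ⟨0, mem_range.2 (by positivity)⟩ t
    (by
      obtain ⟨x, hx⟩ := hXne
      obtain ⟨b, hb⟩ := hPne (c + 3 * ((X * x + U0) % 3 ^ n)) (GWA_unit hc _)
      exact ⟨⟨x, b⟩, mem_sigma.2 ⟨hx, hb⟩⟩)
    (fun k => wt β n k.2) (fun k _ => wt_pos β n k.2) Y (fun k hk u _ => hYpos k hk u)
  have hcard : (((range (3 ^ (n * J))).card : ℕ) : ℝ) = 3 ^ (n * J) := by
    rw [card_range]; push_cast; ring
  rw [hcard] at hgeo
  -- lower bound for the left side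
  have hlow : ∀ k ∈ t, Real.exp (J * Real.log (mm β M n)) *
      ((∑ a ∈ s.filter (fun a => v a % 3 ^ n = k.1), w a) * Real.exp (θ k.1)) ≤
      Real.exp ((∑ U1 ∈ range (3 ^ (n * J)), Real.log (Y k U1)) / 3 ^ (n * J)) := by
    intro k hk
    have he := hen k hk
    rw [ht, mem_sigma] at hk
    have hT := hTpos k.1 hk.1
    have hih := ih k.1 hk.1 (2 ^ k.2.sum * X) (en k.2 (c + 3 * ((X * k.1 + U0) % 3 ^ n)) % 3) (by
        have h2 : (2 ^ k.2.sum) % 3 ≠ 0 := by
          intro h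
          have h3 : 3 ∣ 2 ^ k.2.sum := Nat.dvd_of_mod_eq_zero h
          have := Nat.Prime.dvd_of_dvd_pow Nat.prime_three h3
          omega
        intro h
        have h3 : 3 ∣ 2 ^ k.2.sum * X := Nat.dvd_of_mod_eq_zero h
        rcases (Nat.Prime.dvd_mul Nat.prime_three).1 h3 with h4 | h4
        · exact h2 (Nat.mod_eq_zero_of_dvd h4)
        · exact hX (Nat.mod_eq_zero_of_dvd h4)) (by omega)
    have hperm : ∑ U1 ∈ range (3 ^ (n * J)), Real.log (Y k U1) =
        ∑ U ∈ range (3 ^ (n * J)), Real.log (∑ a ∈ s.filter (fun a => v a % 3 ^ n = k.1),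
          w a * W β M (n * J) (en k.2 (c + 3 * ((X * k.1 + U0) % 3 ^ n)) % 3 +
            3 * (2 ^ k.2.sum * X * (v a / 3 ^ n) + U))) := by
      rw [← GWA_perm (m := 3 ^ (n * J)) (u := 2 ^ k.2.sum)
        (en k.2 (c + 3 * ((X * k.1 + U0) % 3 ^ n)) / 3 + 2 ^ k.2.sum * ((X * k.1 + U0) / 3 ^ n))
        (by positivity) (Nat.Coprime.pow _ _ (by norm_num))
        (fun U => Real.log (∑ a ∈ s.filter (fun a => v a % 3 ^ n = k.1),
          w a * W β M (n * J) (en k.2 (c + 3 * ((X * k.1 + U0) % 3 ^ n)) % 3 +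
            3 * (2 ^ k.2.sum * X * (v a / 3 ^ n) + U))))]
      · refine sum_congr rfl fun U1 _ => ?_
        congr 1
        refine sum_congr rfl fun a _ => ?_
        congr 2
        have h4 := Nat.mod_add_div (en k.2 (c + 3 * ((X * k.1 + U0) % 3 ^ n))) 3
        conv_lhs => rw [← h4]
        ring
      · intro U
        congr 1
        refine sum_congr rfl fun a _ => ?_
        congr 1
        rw [W_mod β M (n * J) (en k.2 (c + 3 * ((X * k.1 + U0) % 3 ^ n)) % 3 +
          3 * (2 ^ k.2.sum * X * (v a / 3 ^ n) + U)), W_mod β M (n * J)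
          (en k.2 (c + 3 * ((X * k.1 + U0) % 3 ^ n)) % 3 +
          3 * (2 ^ k.2.sum * X * (v a / 3 ^ n) + U % 3 ^ (n * J)))]
        congr 1
        have h5 : U = U % 3 ^ (n * J) + 3 ^ (n * J) * (U / 3 ^ (n * J)) := (Nat.mod_add_div _ _).symm
        have h6 : en k.2 (c + 3 * ((X * k.1 + U0) % 3 ^ n)) % 3 +
            3 * (2 ^ k.2.sum * X * (v a / 3 ^ n) + U) =
            (en k.2 (c + 3 * ((X * k.1 + U0) % 3 ^ n)) % 3 +
            3 * (2 ^ k.2.sum * X * (v a / 3 ^ n) + U % 3 ^ (n * J))) +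
              3 ^ (n * J + 1) * (U / 3 ^ (n * J)) := by
          conv_lhs => rw [h5]
          rw [pow_succ]
          ring
        rw [h6, Nat.add_mul_mod_self_left]
    have h7 : Real.exp (J * Real.log (mm β M n)) *
      ((∑ a ∈ s.filter (fun a => v a % 3 ^ n = k.1), w a) * Real.exp (θ k.1)) =
      Real.exp (Real.log (∑ a ∈ s.filter (fun a => v a % 3 ^ n = k.1), w a) +
        J * Real.log (mm β M n) + θ k.1) := by
      rw [Real.exp_add, Real.exp_add, Real.exp_log hT]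
      ring
    rw [h7, hperm]
    exact Real.exp_le_exp.2 hih
  have hsumlow : Real.exp (J * Real.log (mm β M n)) * (∑ x ∈ XS,
        (∑ a ∈ s.filter (fun a => v a % 3 ^ n = x), w a) * Real.exp (θ x) *
          W β M n (c + 3 * ((X * x + U0) % 3 ^ n))) ≤
      ∑ k ∈ t, wt β n k.2 *
        Real.exp ((∑ U1 ∈ range (3 ^ (n * J)), Real.log (Y k U1)) / 3 ^ (n * J)) := by
    rw [ht, mul_sum, sum_sigma]
    refine sum_le_sum fun x hx => ?_
    unfold W
    rw [mul_sum, mul_sum]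
    refine sum_le_sum fun b hb => ?_
    have h8 := hlow ⟨x, b⟩ (by rw [ht, mem_sigma]; exact ⟨hx, hb⟩)
    have h9 := mul_le_mul_of_nonneg_left h8 (wt_pos β n b).le
    dsimp only at h9
    linarith
  have hposS : 0 < ∑ x ∈ XS, (∑ a ∈ s.filter (fun a => v a % 3 ^ n = x), w a) * Real.exp (θ x) *
          W β M n (c + 3 * ((X * x + U0) % 3 ^ n)) :=
    sum_pos (fun x hx => mul_pos (mul_pos (hTpos x hx) (Real.exp_pos _)) (hWpos _ _ (GWA_unit hc _))) hXne
  have h10 := Real.log_le_log (mul_pos (Real.exp_pos _) hposS) hsumlow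
  rw [Real.log_mul (Real.exp_pos _).ne' hposS.ne', Real.log_exp] at h10
  refine le_trans h10 (le_trans hgeo ?_)
  -- upper bound
  have h3N : (0 : ℝ) < 3 ^ (n * J) := by positivity
  refine div_le_div_of_nonneg_right (sum_le_sum fun U1 _ => ?_) h3N.le
  have htne : t.Nonempty := by
    obtain ⟨x, hx⟩ := hXne
    obtain ⟨b, hb⟩ := hPne (c + 3 * ((X * x + U0) % 3 ^ n)) (GWA_unit hc _)
    exact ⟨⟨x, b⟩, mem_sigma.2 ⟨hx, hb⟩⟩
  apply Real.log_le_log
  · exact sum_pos (fun k hk => mul_pos (wt_pos β n k.2) (hYpos k hk U1)) htne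
  rw [ht, sum_sigma, ← sum_fiberwise_of_maps_to (s := s) (t := XS) (g := fun a => v a % 3 ^ n)
    (fun a ha => mem_image_of_mem _ ha) (f := fun a => w a *
      W β M (n + n * J) (c + 3 * (X * v a + (U0 + 3 ^ n * U1))))]
  refine sum_le_sum fun x hx => ?_
  simp only [hY, mul_sum]
  rw [sum_comm]
  refine sum_le_sum fun a ha => ?_
  have hva := (mem_filter.1 ha).2
  have h11 : X * v a + (U0 + 3 ^ n * U1) = (X * x + U0) + 3 ^ n * (X * (v a / 3 ^ n) + U1) := by
    have h12 := Nat.mod_add_div (v a) (3 ^ n)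
    rw [hva] at h12
    conv_lhs => rw [← h12]
    ring
  have h13 := GWA_step β M n (n * J) c (X * v a + (U0 + 3 ^ n * U1)) hc
  have h14 : (X * v a + (U0 + 3 ^ n * U1)) % 3 ^ n = (X * x + U0) % 3 ^ n := by
    rw [h11, Nat.add_mul_mod_self_left]
  have h15 : (X * v a + (U0 + 3 ^ n * U1)) / 3 ^ n = (X * x + U0) / 3 ^ n + X * (v a / 3 ^ n) + U1 := by
    rw [h11, Nat.add_mul_div_left _ _ (by positivity), Nat.add_assoc]
  rw [h14, h15] at h13
  have h16 := mul_le_mul_of_nonneg_left h13 (hw a (mem_filter.1 ha).1).le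
  rw [mul_sum] at h16
  refine le_trans (le_of_eq ?_) h16
  refine sum_congr rfl fun b _ => ?_
  ring

/-- Weighted Jensen for the logarithm of a sum of exponentials. -/
theorem GWA_jensen {ι : Type} (K : Finset ι) (hK : K.Nonempty) (q : ι → ℝ) (hq : ∀ x ∈ K, 0 < q x) (φ : ι → ℝ) :
    (∑ x ∈ K, q x) * Real.log (∑ x ∈ K, q x) + ∑ x ∈ K, q x * φ x ≤
      (∑ x ∈ K, q x) * Real.log (∑ x ∈ K, q x * Real.exp (φ x)) := by
  set Q := ∑ x ∈ K, q x with hQ
  have hQ0 : 0 < Q := sum_pos hq hK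
  have h1 := convexOn_exp.map_sum_le (t := K) (w := fun x => q x / Q) (p := φ)
    (fun x hx => (div_pos (hq x hx) hQ0).le) (by rw [← sum_div, div_self hQ0.ne']) (fun _ _ => Set.mem_univ _)
  simp only [smul_eq_mul] at h1
  have h2 : ∑ x ∈ K, q x / Q * Real.exp (φ x) = (∑ x ∈ K, q x * Real.exp (φ x)) / Q := by
    rw [sum_div]
    exact sum_congr rfl fun x _ => by ring
  have h3 : ∑ x ∈ K, q x / Q * φ x = (∑ x ∈ K, q x * φ x) / Q := by
    rw [sum_div]
    exact sum_congr rfl fun x _ => by ring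
  have hS : 0 < ∑ x ∈ K, q x * Real.exp (φ x) :=
    sum_pos (fun x hx => mul_pos (hq x hx) (Real.exp_pos _)) hK
  rw [h2, h3] at h1
  have h4 := Real.log_le_log (Real.exp_pos _) h1
  rw [Real.log_exp, Real.log_div hS.ne' hQ0.ne'] at h4
  have h5 := mul_le_mul_of_nonneg_left h4 hQ0.le
  rw [mul_div_cancel₀ _ hQ0.ne'] at h5
  linarith

theorem GWA_zsum (m : ℕ) [NeZero m] (F : ℕ → ℝ) : ∑ x : ZMod m, F x.val = ∑ x ∈ range m, F x := by
  refine sum_bij (fun x _ => x.val) (fun x _ => mem_range.2 (ZMod.val_lt x)) (fun x _ y _ h => ZMod.val_injective m h)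
    (fun b hb => ⟨(b : ZMod m), mem_univ _, ZMod.val_cast_of_lt (mem_range.1 hb)⟩) (fun _ _ => rfl)

/-- Mean over `U0`. -/
theorem GWA_mean (hβ : 0 < β) (hβ1 : β ≤ 1) (hM : 7 ≤ M) {n : ℕ} (D : ℝ)
    (hD : ∀ v : ℕ, v = 1 ∨ v = 2 → Real.log (mm β M n) + D ≤ Real.log (cm β M n v))
    {α : Type} [DecidableEq α]
    (w : α → ℝ) (s : Finset α) (hs : s.Nonempty) (hw : ∀ a ∈ s, 0 < w a) (v : α → ℕ) (X c : ℕ)
    (hX : X % 3 ≠ 0) (hc : c = 1 ∨ c = 2) (θ : ℕ → ℝ) (T : ℝ) (hT : T = ∑ a ∈ s, w a) (G : ℝ)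
    (hG : (G = T ∧ ∀ x < 3 ^ n, T / (2 * 3 ^ n) ≤ ∑ a ∈ s.filter (fun a => v a % 3 ^ n = x), w a) ∨
      G = 0) :
    T * Real.log T + T * Real.log (mm β M n) +
        (∑ x ∈ s.image (fun a => v a % 3 ^ n),
          (∑ a ∈ s.filter (fun a => v a % 3 ^ n = x), w a) * θ x) + D / 2 * G ≤
      T * ((∑ U0 ∈ range (3 ^ n), Real.log (∑ x ∈ s.image (fun a => v a % 3 ^ n),
        (∑ a ∈ s.filter (fun a => v a % 3 ^ n = x), w a) * Real.exp (θ x) *
          W β M n (c + 3 * ((X * x + U0) % 3 ^ n)))) / 3 ^ n) := by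
  obtain ⟨Cb, -, hWb⟩ := W_bound hβ hβ1 hM
  have hWpos : ∀ k y : ℕ, y % 3 ≠ 0 → 0 < W β M k y := fun k y hy => (hWb k y hy).1
  set XS := s.image (fun a => v a % 3 ^ n) with hXS
  have hXne : XS.Nonempty := hs.image _
  set Tx : ℕ → ℝ := fun x => ∑ a ∈ s.filter (fun a => v a % 3 ^ n = x), w a with hTx
  have hTxpos : ∀ x ∈ XS, 0 < Tx x := by
    intro x hx
    obtain ⟨a, ha, h⟩ := mem_image.1 hx
    exact sum_pos (fun a ha => hw a (mem_filter.1 ha).1) ⟨a, mem_filter.2 ⟨ha, h⟩⟩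
  have hTsum : ∑ x ∈ XS, Tx x = T := by
    rw [hT]
    exact sum_fiberwise_of_maps_to (fun a ha => mem_image_of_mem _ ha) _
  have hTpos : 0 < T := by rw [hT]; exact sum_pos hw hs
  have hmm := mm_pos hβ hβ1 hM n
  have h3n : (0 : ℝ) < 3 ^ n := by positivity
  rcases hG with ⟨hGT, hgood⟩ | hG0
  · -- good window
    rw [hGT]
    have hXSr : XS = range (3 ^ n) := by
      ext x
      rw [mem_range]
      constructor
      · intro hx
        obtain ⟨a, _, rfl⟩ := mem_image.1 hx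
        exact Nat.mod_lt _ (by positivity)
      · intro hx
        have h1 : 0 < Tx x := lt_of_lt_of_le (by positivity) (hgood x hx)
        have h2 : (s.filter (fun a => v a % 3 ^ n = x)).Nonempty := by
          by_contra h
          rw [not_nonempty_iff_eq_empty] at h
          simp only [hTx, h, sum_empty] at h1
          exact lt_irrefl _ h1
        obtain ⟨a, ha⟩ := h2
        rw [mem_filter] at ha
        exact mem_image.2 ⟨a, ha.1, ha.2⟩
    have hcop : Nat.Coprime X (3 ^ n) := by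
      apply Nat.Coprime.pow_right
      rw [Nat.coprime_comm, Nat.Prime.coprime_iff_not_dvd Nat.prime_three]
      intro h; exact hX (Nat.mod_eq_zero_of_dvd h)
    have hcast : (((3 ^ n : ℕ)) : ℝ) = 3 ^ n := by push_cast; rfl
    have hst := star (N := 3 ^ n) (ZMod.unitOfCoprime X hcop) (fun x => W β M n (c + 3 * x.val))
      (fun x => Real.exp (θ x.val)) (fun x => Tx x.val / T) (fun x => hWpos _ _ (GWA_unit hc _))
      (fun x => Real.exp_pos _)
      (fun x => by
        have h1 := hgood x.val (ZMod.val_lt x)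
        rw [hcast, le_div_iff₀ hTpos]
        refine le_trans (le_of_eq ?_) h1
        ring)
      (by
        rw [GWA_zsum (3 ^ n) (fun x => Tx x / T), ← sum_div, ← hXSr, hTsum, div_self hTpos.ne'])
    rw [GWA_zsum (3 ^ n) (fun x => W β M n (c + 3 * x)),
      GWA_zsum (3 ^ n) (fun x => Real.log (W β M n (c + 3 * x))), hcast] at hst
    simp only [Real.log_exp] at hst
    rw [GWA_zsum (3 ^ n) (fun x => Tx x / T * θ x)] at hst
    have hu : ∀ u : ZMod (3 ^ n), (∑ x : ZMod (3 ^ n), Tx x.val / T *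
        (W β M n (c + 3 * (((ZMod.unitOfCoprime X hcop : (ZMod (3 ^ n))ˣ) : ZMod (3 ^ n)) * x + u).val) *
          Real.exp (θ x.val))) =
        (∑ x ∈ XS, Tx x * Real.exp (θ x) * W β M n (c + 3 * ((X * x + u.val) % 3 ^ n))) / T := by
      intro u
      have h1 : ∀ x : ZMod (3 ^ n), (((ZMod.unitOfCoprime X hcop : (ZMod (3 ^ n))ˣ) : ZMod (3 ^ n)) * x + u).val =
          (X * x.val + u.val) % 3 ^ n := by
        intro x
        rw [ZMod.coe_unitOfCoprime]
        have h2 : ((X : ZMod (3 ^ n)) * x + u) = ((X * x.val + u.val : ℕ) : ZMod (3 ^ n)) := by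
          push_cast
          rw [ZMod.natCast_zmod_val, ZMod.natCast_zmod_val]
        rw [h2, ZMod.val_natCast]
      simp only [h1]
      rw [GWA_zsum (3 ^ n) (fun x => Tx x / T * (W β M n (c + 3 * ((X * x + u.val) % 3 ^ n)) * Real.exp (θ x))),
        hXSr, sum_div]
      exact sum_congr rfl fun x _ => by ring
    simp only [hu] at hst
    rw [GWA_zsum (3 ^ n) (fun u => Real.log ((∑ x ∈ XS, Tx x * Real.exp (θ x) *
      W β M n (c + 3 * ((X * x + u) % 3 ^ n))) / T))] at hst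
    have hlogdiv : ∀ u, Real.log ((∑ x ∈ XS, Tx x * Real.exp (θ x) *
        W β M n (c + 3 * ((X * x + u) % 3 ^ n))) / T) =
        Real.log (∑ x ∈ XS, Tx x * Real.exp (θ x) *
        W β M n (c + 3 * ((X * x + u) % 3 ^ n))) - Real.log T := by
      intro u
      rw [Real.log_div _ hTpos.ne']
      exact (sum_pos (fun x hx => mul_pos (mul_pos (hTxpos x hx) (Real.exp_pos _))
        (hWpos _ _ (GWA_unit hc _))) hXne).ne'
    simp only [hlogdiv, sum_sub_distrib, sum_const, card_range, nsmul_eq_mul, hcast] at hst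
    rw [sub_div, mul_div_cancel_left₀ _ h3n.ne'] at hst
    -- class mean and minimum
    have hcm : (∑ x ∈ range (3 ^ n), W β M n (c + 3 * x)) / 3 ^ n = cm β M n c := by
      unfold cm mean
      congr 1
      refine sum_bij' (fun x _ => c + 3 * x) (fun y _ => y / 3) ?_ ?_ ?_ ?_ ?_
      · intro x hx
        rw [mem_range] at hx
        rw [mem_filter, mem_range, pow_succ]
        omega
      · intro y hy
        rw [mem_filter, mem_range, pow_succ] at hy
        rw [mem_range]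
        omega
      · intro x hx; omega
      · intro y hy
        rw [mem_filter] at hy
        omega
      · intro x _; rfl
    rw [hcm] at hst
    have h4 := hD c hc
    have h5 : Real.log (mm β M n) ≤ (∑ x ∈ range (3 ^ n), Real.log (W β M n (c + 3 * x))) / 3 ^ n := by
      rw [le_div_iff₀ h3n]
      have h6 : ∑ _x ∈ range (3 ^ n), Real.log (mm β M n) ≤
          ∑ x ∈ range (3 ^ n), Real.log (W β M n (c + 3 * x)) :=
        sum_le_sum fun x _ => Real.log_le_log hmm (mm_le β M n _ (GWA_unit hc x))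
      rw [sum_const, card_range, nsmul_eq_mul, hcast] at h6
      linarith
    have h7 : ∑ x ∈ range (3 ^ n), Tx x / T * θ x = (∑ x ∈ XS, Tx x * θ x) / T := by
      rw [hXSr, sum_div]
      exact sum_congr rfl fun x _ => by ring
    rw [h7] at hst
    have h8 : Real.log T + Real.log (mm β M n) + (∑ x ∈ XS, Tx x * θ x) / T + D / 2 ≤
        (∑ U0 ∈ range (3 ^ n), Real.log (∑ x ∈ XS, Tx x * Real.exp (θ x) *
          W β M n (c + 3 * ((X * x + U0) % 3 ^ n)))) / 3 ^ n := by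
      linarith
    have h9 := mul_le_mul_of_nonneg_left h8 hTpos.le
    refine le_trans (le_of_eq ?_) h9
    field_simp
    simp only [hTx]
    ring
  · -- no gain
    rw [hG0, mul_zero, add_zero]
    have hterm : ∀ U0 ∈ range (3 ^ n), T * Real.log T + T * Real.log (mm β M n) + ∑ x ∈ XS, Tx x * θ x ≤
        T * Real.log (∑ x ∈ XS, Tx x * Real.exp (θ x) * W β M n (c + 3 * ((X * x + U0) % 3 ^ n))) := by
      intro U0 _
      have hS : 0 < ∑ x ∈ XS, Tx x * Real.exp (θ x) :=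
        sum_pos (fun x hx => mul_pos (hTxpos x hx) (Real.exp_pos _)) hXne
      have h1 : (∑ x ∈ XS, Tx x * Real.exp (θ x)) * mm β M n ≤
          ∑ x ∈ XS, Tx x * Real.exp (θ x) * W β M n (c + 3 * ((X * x + U0) % 3 ^ n)) := by
        rw [sum_mul]
        exact sum_le_sum fun x hx => mul_le_mul_of_nonneg_left (mm_le β M n _ (GWA_unit hc _))
          (mul_pos (hTxpos x hx) (Real.exp_pos _)).le
      have h2 := Real.log_le_log (mul_pos hS hmm) h1
      rw [Real.log_mul hS.ne' hmm.ne'] at h2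
      have h3 := GWA_jensen XS hXne Tx hTxpos θ
      rw [hTsum] at h3
      have h4 := mul_le_mul_of_nonneg_left h2 hTpos.le
      linarith
    have h5 := sum_le_sum hterm
    rw [sum_const, card_range, nsmul_eq_mul, ← mul_sum] at h5
    have hcast : (((3 ^ n : ℕ)) : ℝ) = 3 ^ n := by push_cast; rfl
    rw [hcast] at h5
    rw [mul_div_assoc', le_div_iff₀ h3n]
    linarith

theorem GWA_gw_empty {α : Type} (n : ℕ) (w : α → ℝ) (J : ℕ) (v : α → ℕ) : gw n w J ∅ v = 0 := by
  induction J generalizing v with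
  | zero => rfl
  | succ J ih =>
    rw [gw]
    simp only [filter_empty, ih, sum_const_zero, add_zero, sum_empty]
    split_ifs <;> rfl

/-- Chunk GWA. Gain along the windows. Induction on `J` (for all `s, v, X, c`). -/
theorem gain (hβ : 0 < β) (hβ1 : β ≤ 1) (hM : 7 ≤ M) {n : ℕ} (hn : 1 ≤ n) (D : ℝ)
    (hD : ∀ v : ℕ, v = 1 ∨ v = 2 → Real.log (mm β M n) + D ≤ Real.log (cm β M n v))
    {α : Type} [DecidableEq α] (w : α → ℝ) (J : ℕ) (s : Finset α) (hs : s.Nonempty) (hw : ∀ a ∈ s, 0 < w a)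
    (v : α → ℕ) (X c : ℕ) (hX : X % 3 ≠ 0) (hc : c = 1 ∨ c = 2) :
    (∑ a ∈ s, w a) * (Real.log (∑ a ∈ s, w a) + J * Real.log (mm β M n)) + D / 2 * gw n w J s v ≤
      (∑ a ∈ s, w a) * ((∑ U ∈ range (3 ^ (n * J)),
        Real.log (∑ a ∈ s, w a * W β M (n * J) (c + 3 * (X * v a + U)))) / 3 ^ (n * J)) := by
  induction J generalizing s v X c with
  | zero =>
    rw [Nat.mul_zero, pow_zero, pow_zero, sum_range_one, div_one, gw]
    have h : ∑ a ∈ s, w a * W β M 0 (c + 3 * (X * v a + 0)) = ∑ a ∈ s, w a :=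
      sum_congr rfl fun a _ => by rw [GWA_W0 β M _ (GWA_unit hc _), mul_one]
    rw [h]
    simp
  | succ J ih =>
    set T := ∑ a ∈ s, w a with hT
    set XS := s.image (fun a => v a % 3 ^ n) with hXS
    set Tx : ℕ → ℝ := fun x => ∑ a ∈ s.filter (fun a => v a % 3 ^ n = x), w a with hTx
    have hTpos : 0 < T := sum_pos hw hs
    have hcls : ∀ x ∈ XS, (s.filter (fun a => v a % 3 ^ n = x)).Nonempty := by
      intro x hx
      obtain ⟨a, ha, h⟩ := mem_image.1 hx
      exact ⟨a, mem_filter.2 ⟨ha, h⟩⟩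
    have hTxpos : ∀ x ∈ XS, 0 < Tx x := fun x hx =>
      sum_pos (fun a ha => hw a (mem_filter.1 ha).1) (hcls x hx)
    have hTsum : ∑ x ∈ XS, Tx x = T :=
      sum_fiberwise_of_maps_to (fun a ha => mem_image_of_mem _ ha) _
    set θ : ℕ → ℝ := fun x => D / 2 *
      gw n w J (s.filter (fun a => v a % 3 ^ n = x)) (fun a => v a / 3 ^ n) / Tx x with hθ
    have hfix : ∀ U0 : ℕ, J * Real.log (mm β M n) + Real.log (∑ x ∈ XS,
        (∑ a ∈ s.filter (fun a => v a % 3 ^ n = x), w a) * Real.exp (θ x) *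
          W β M n (c + 3 * ((X * x + U0) % 3 ^ n))) ≤
      (∑ U1 ∈ range (3 ^ (n * J)), Real.log (∑ a ∈ s,
        w a * W β M (n + n * J) (c + 3 * (X * v a + (U0 + 3 ^ n * U1))))) / 3 ^ (n * J) := by
      intro U0
      refine GWA_fixed hβ hβ1 hM w s hs hw v X c U0 hX hc θ ?_
      intro x hx X' c' hX' hc'
      have h1 := ih (s.filter (fun a => v a % 3 ^ n = x)) (hcls x hx)
        (fun a ha => hw a (mem_filter.1 ha).1) (fun a => v a / 3 ^ n) X' c' hX' hc'
      have h2 := hTxpos x hx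
      have h3 : Tx x * (Real.log (Tx x) + J * Real.log (mm β M n) + θ x) ≤
          Tx x * ((∑ U ∈ range (3 ^ (n * J)), Real.log (∑ a ∈ s.filter (fun a => v a % 3 ^ n = x),
        w a * W β M (n * J) (c' + 3 * (X' * (v a / 3 ^ n) + U)))) / 3 ^ (n * J)) := by
        refine le_trans (le_of_eq ?_) h1
        rw [mul_add]
        congr 1
        rw [hθ]
        dsimp only
        rw [mul_div_cancel₀ _ h2.ne']
      exact le_of_mul_le_mul_left h3 h2
    set G : ℝ := if ∀ x < 3 ^ n, T / (2 * 3 ^ n) ≤ ∑ a ∈ s.filter (fun a => v a % 3 ^ n = x), w a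
      then T else 0 with hG
    have hmean := GWA_mean hβ hβ1 hM D hD w s hs hw v X c hX hc θ T hT G (by
      rw [hG]
      split_ifs with h
      · left; exact ⟨rfl, h⟩
      · right; rfl)
    have hgw : gw n w (J + 1) s v = G +
        ∑ x ∈ range (3 ^ n), gw n w J (s.filter (fun a => v a % 3 ^ n = x)) (fun a => v a / 3 ^ n) := by
      rw [gw]
    have hθsum : ∑ x ∈ XS, Tx x * θ x = D / 2 *
        ∑ x ∈ range (3 ^ n), gw n w J (s.filter (fun a => v a % 3 ^ n = x)) (fun a => v a / 3 ^ n) := by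
      rw [mul_sum]
      have h1 : ∀ x ∈ XS, Tx x * θ x = D / 2 *
          gw n w J (s.filter (fun a => v a % 3 ^ n = x)) (fun a => v a / 3 ^ n) := by
        intro x hx
        rw [hθ]
        dsimp only
        rw [mul_div_cancel₀ _ (hTxpos x hx).ne']
      rw [sum_congr rfl h1]
      refine sum_subset ?_ ?_
      · intro x hx
        obtain ⟨a, _, rfl⟩ := mem_image.1 hx
        exact mem_range.2 (Nat.mod_lt _ (by positivity))
      · intro x _ hx
        have h2 : s.filter (fun a => v a % 3 ^ n = x) = ∅ := by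
          rw [eq_empty_iff_forall_notMem]
          intro a ha
          rw [mem_filter] at ha
          exact hx (mem_image.2 ⟨a, ha.1, ha.2⟩)
        rw [h2, GWA_gw_empty, mul_zero]
    have h3n : (0 : ℝ) < 3 ^ n := by positivity
    -- the double mean
    have hdouble : (∑ U ∈ range (3 ^ (n * (J + 1))),
        Real.log (∑ a ∈ s, w a * W β M (n * (J + 1)) (c + 3 * (X * v a + U)))) / 3 ^ (n * (J + 1)) =
        (∑ U0 ∈ range (3 ^ n), (∑ U1 ∈ range (3 ^ (n * J)), Real.log (∑ a ∈ s,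
        w a * W β M (n + n * J) (c + 3 * (X * v a + (U0 + 3 ^ n * U1))))) / 3 ^ (n * J)) / 3 ^ n := by
      have e1 : n * (J + 1) = n + n * J := by ring
      rw [e1, pow_add, GWA_digits, ← sum_div, div_div, pow_add]
      congr 1
      ring
    rw [hdouble]
    have h4 : J * Real.log (mm β M n) + (∑ U0 ∈ range (3 ^ n), Real.log (∑ x ∈ XS,
        (∑ a ∈ s.filter (fun a => v a % 3 ^ n = x), w a) * Real.exp (θ x) *
          W β M n (c + 3 * ((X * x + U0) % 3 ^ n)))) / 3 ^ n ≤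
        (∑ U0 ∈ range (3 ^ n), (∑ U1 ∈ range (3 ^ (n * J)), Real.log (∑ a ∈ s,
        w a * W β M (n + n * J) (c + 3 * (X * v a + (U0 + 3 ^ n * U1))))) / 3 ^ (n * J)) / 3 ^ n := by
      rw [le_div_iff₀ h3n, add_mul, div_mul_cancel₀ _ h3n.ne']
      have h5 := sum_le_sum (s := range (3 ^ n)) fun U0 _ => hfix U0
      rw [sum_add_distrib, sum_const, card_range, nsmul_eq_mul] at h5
      have hcast : (((3 ^ n : ℕ)) : ℝ) = 3 ^ n := by push_cast; rfl
      rw [hcast] at h5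
      linarith
    have h6 := mul_le_mul_of_nonneg_left h4 hTpos.le
    refine le_trans ?_ h6
    rw [hgw]
    push_cast
    have h7 : ∑ x ∈ XS, (∑ a ∈ s.filter (fun a => v a % 3 ^ n = x), w a) * θ x = ∑ x ∈ XS, Tx x * θ x := rfl
    rw [h7, hθsum] at hmean
    nlinarith [hmean]

end H62s
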