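import Mathlib

set_option autoImplicit false
open Finset
namespace H62s

/-- iteration of the monotonicity -/
theorem PIG_iter {F : ℕ → ℕ → ℝ} {g : ℕ} (hmono : ∀ i j, F i (j + 1) ≤ F (i + g) j) (t : ℕ) :
    ∀ i j, F i (j + t) ≤ F (i + t * g) j := by
  induction t with
  | zero => intro i j; simp
  | succ t ih =>
    intro i j
    have h1 := ih i (j + 1)
    have h2 := hmono (i + t * g) j
    have h3 : j + (t + 1) = j + 1 + t := by ring
    have h4 : i + (t + 1) * g = i + t * g + g := by ring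
    rw [h3, h4]
    exact h1.trans h2

/-- sums over consecutive stretches -/
theorem PIG_stretch (Φ : ℕ → ℝ) (K : ℕ) (b a : ℕ) :
    ∑ i ∈ Ico a (a + b * K), Φ i = ∑ t ∈ range b, ∑ x ∈ range K, Φ (a + t * K + x) := by
  induction b with
  | zero => simp
  | succ b ih =>
    rw [sum_range_succ, ← ih, ← sum_Ico_consecutive Φ (Nat.le_add_right a (b * K))
      (show a + b * K ≤ a + (b + 1) * K by nlinarith [Nat.zero_le K])]
    congr 1
    rw [sum_Ico_eq_sum_range]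
    have h1 : a + (b + 1) * K - (a + b * K) = K := by
      have : a + (b + 1) * K = a + b * K + K := by ring
      omega
    rw [h1]

/-- shifting the time -/
theorem PIG_shift {F : ℕ → ℕ → ℝ} {N : ℝ} (hF0 : ∀ i j, 0 ≤ F i j) (hFN : ∀ i j, F i j ≤ N)
    (N' i h : ℕ) : ∑ j ∈ range N', F i j ≤ h * N + ∑ j ∈ range N', F i (j + h) := by
  have h1 : ∑ j ∈ range N', F i j ≤ ∑ j ∈ range (h + N'), F i j := by
    refine sum_le_sum_of_subset_of_nonneg ?_ fun j _ _ => hF0 i j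
    intro x hx
    rw [mem_range] at hx ⊢
    omega
  rw [sum_range_add] at h1
  have h2 : ∑ j ∈ range h, F i j ≤ h * N := by
    have := sum_le_sum fun j (_ : j ∈ range h) => hFN i j
    simpa using this
  have h3 : ∑ x ∈ range N', F i (h + x) = ∑ j ∈ range N', F i (j + h) :=
    sum_congr rfl fun j _ => by rw [add_comm]
  rw [h3] at h1
  linarith

/-- Chunk PIG. Pigeonhole over scales. `B = B0 (M+1)`, `h_σ = B^(σ+1)`, `K_σ = h_σ g`, `i0 = (M+1) B^σ g = K_σ / B0`,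
`σ < s`. Write `Φ i = ∑_{j<N'} F i j`, `φ_σ = ∑_{i ∈ [M K_σ, (M+1) K_σ)} Φ i`, `ψ_σ = ∑_{i ∈ [i0, i0 + K_σ)} Φ i`.
(1) `∑_{j<N'} F i (j+h) ≥ Φ i - h N`. (2) `∑_{i ∈ [i0, M K)} (Φ (i+K) - Φ i) = φ - ψ`. (3) `F i (j + t h_σ) ≤
F (i + t K_σ) j` by iteration, so `Φ i ≤ Φ (i + t K_σ) + t h_σ N`; sum over `i ∈ [M K_σ, (M+1) K_σ)`, `1 ≤ t ≤ B`: the
indices `i + t K_σ` fill `[(M+1) K_σ, (M+1) K_σ + K_{σ+1})`, hence `φ_σ / K_σ ≤ ψ_{σ+1} / K_{σ+1} + B h_σ N`.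
(4) Sum over `σ`: `∑ (φ_σ - ψ_σ)/K_σ ≤ N N' + s B^s N`-like; some `σ` has at most the mean. Total error
`K_σ N (N'/s + (M+1) B^s)`. -/
theorem pigeon (F : ℕ → ℕ → ℝ) (N : ℝ) (hF0 : ∀ i j, 0 ≤ F i j) (hFN : ∀ i j, F i j ≤ N)
    (g M B0 s N' : ℕ) (hg : 1 ≤ g) (hM : 1 ≤ M) (hB : 1 ≤ B0) (hs : 1 ≤ s)
    (hmono : ∀ i j, F i (j + 1) ≤ F (i + g) j)
    (hN' : s * (M + 2) * (B0 * (M + 1)) ^ (s + 1) ≤ N') :
    ∃ h i0 : ℕ, 1 ≤ h ∧ h ≤ (B0 * (M + 1)) ^ s ∧ B0 * i0 = h * g ∧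
      ∑ j ∈ range N', ∑ i ∈ Ico i0 (M * (h * g)), (F (i + h * g) j - F i (j + h)) ≤
        2 * (h * g) * N * N' / s := by
  have hN0 : 0 ≤ N := (hF0 0 0).trans (hFN 0 0)
  set B : ℕ := B0 * (M + 1) with hBdef
  have hB1 : 1 ≤ B := Nat.mul_pos (by omega) (by omega)
  set Φ : ℕ → ℝ := fun i => ∑ j ∈ range N', F i j with hΦ
  have hΦ0 : ∀ i, 0 ≤ Φ i := fun i => sum_nonneg fun j _ => hF0 i j
  have hΦN : ∀ i, Φ i ≤ N' * N := by
    intro i
    have := sum_le_sum fun j (_ : j ∈ range N') => hFN i j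
    simpa using this
  set K : ℕ → ℕ := fun σ => B ^ (σ + 1) * g with hK
  set i0 : ℕ → ℕ := fun σ => (M + 1) * B ^ σ * g with hi0
  set φ : ℕ → ℝ := fun σ => ∑ i ∈ Ico (M * K σ) (M * K σ + K σ), Φ i with hφ
  set ψ : ℕ → ℝ := fun σ => ∑ i ∈ Ico (i0 σ) (i0 σ + K σ), Φ i with hψ
  have hKpos : ∀ σ, 0 < K σ := fun σ => Nat.mul_pos (Nat.pos_of_ne_zero (by positivity)) hg
  have hKpos' : ∀ σ, (0 : ℝ) < K σ := fun σ => by exact_mod_cast hKpos σ
  have hKsucc : ∀ σ, K (σ + 1) = B * K σ := fun σ => by simp only [hK]; ring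
  have hi0succ : ∀ σ, i0 (σ + 1) = M * K σ + K σ := fun σ => by simp only [hi0, hK]; ring
  have hB1' : (1 : ℝ) ≤ B := by exact_mod_cast hB1
  -- step 3
  have h3 : ∀ σ, (B : ℝ) * φ σ ≤ ψ (σ + 1) + K σ * (B * B) * (B : ℝ) ^ (σ + 1) * N := by
    intro σ
    have e1 : ψ (σ + 1) = ∑ t ∈ range B, ∑ x ∈ range (K σ), Φ (M * K σ + K σ + t * K σ + x) := by
      simp only [hψ]
      rw [hi0succ, hKsucc, PIG_stretch]
    have e2 : φ σ = ∑ x ∈ range (K σ), Φ (M * K σ + x) := by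
      simp only [hφ]
      rw [sum_Ico_eq_sum_range]
      simp
    have e3 : ∀ t ∈ range B, ∀ x ∈ range (K σ), Φ (M * K σ + x) ≤
        Φ (M * K σ + K σ + t * K σ + x) + B * (B : ℝ) ^ (σ + 1) * N := by
      intro t ht x _
      have f1 := PIG_shift hF0 hFN N' (M * K σ + x) ((t + 1) * B ^ (σ + 1))
      have f2 : ∑ j ∈ range N', F (M * K σ + x) (j + (t + 1) * B ^ (σ + 1)) ≤
          Φ (M * K σ + K σ + t * K σ + x) := by
        refine sum_le_sum fun j _ => ?_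
        have f3 := PIG_iter hmono ((t + 1) * B ^ (σ + 1)) (M * K σ + x) j
        have f4 : M * K σ + x + (t + 1) * B ^ (σ + 1) * g = M * K σ + K σ + t * K σ + x := by
          simp only [hK]; ring
        rwa [f4] at f3
      have f5 : (((t + 1) * B ^ (σ + 1) : ℕ) : ℝ) * N ≤ B * (B : ℝ) ^ (σ + 1) * N := by
        refine mul_le_mul_of_nonneg_right ?_ hN0
        push_cast
        refine mul_le_mul_of_nonneg_right ?_ (by positivity)
        have : t + 1 ≤ B := mem_range.1 ht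
        exact_mod_cast this
      linarith
    have e4 : ∑ t ∈ range B, ∑ x ∈ range (K σ), Φ (M * K σ + x) ≤
        ∑ t ∈ range B, ∑ x ∈ range (K σ), (Φ (M * K σ + K σ + t * K σ + x) +
          B * (B : ℝ) ^ (σ + 1) * N) :=
      sum_le_sum fun t ht => sum_le_sum fun x hx => e3 t ht x hx
    simp only [sum_add_distrib, sum_const, card_range, nsmul_eq_mul] at e4
    rw [← e1, ← e2] at e4
    refine e4.trans (le_of_eq ?_)
    ring
  -- step 4
  obtain ⟨σ, hσs, hσ⟩ : ∃ σ ∈ range s, φ σ - ψ σ ≤ K σ * (N * N' / s + N * (B : ℝ) ^ (s + 1)) := by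
    by_contra hcon
    push Not at hcon
    have g1 : ∀ σ ∈ range s, N * N' / s + N * (B : ℝ) ^ (s + 1) < (φ σ - ψ σ) / K σ := by
      intro σ hσ
      rw [lt_div_iff₀ (hKpos' σ), mul_comm]
      exact hcon σ hσ
    have g2 := sum_lt_sum_of_nonempty (s := range s) ⟨0, mem_range.2 (by omega)⟩ g1
    rw [sum_const, card_range, nsmul_eq_mul] at g2
    have hs0 : (0 : ℝ) < s := by exact_mod_cast (show 0 < s by omega)
    have g3 : (s : ℝ) * (N * N' / s + N * (B : ℝ) ^ (s + 1)) = N * N' + s * (N * (B : ℝ) ^ (s + 1)) := by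
      field_simp
    have g4 : ∀ σ ∈ range s, (φ σ - ψ σ) / K σ ≤
        (ψ (σ + 1) / K (σ + 1) - ψ σ / K σ) + N * (B : ℝ) ^ (s + 1) := by
      intro σ hσ
      have f1 := h3 σ
      have f2 : φ σ / K σ ≤ ψ (σ + 1) / K (σ + 1) + B * (B : ℝ) ^ (σ + 1) * N := by
        have hc : ((K (σ + 1) : ℕ) : ℝ) = (B : ℝ) * (K σ : ℝ) := by
          rw [hKsucc]
          exact Nat.cast_mul _ _
        rw [hc, div_le_iff₀ (hKpos' σ)]
        have f3 : (ψ (σ + 1) / (B * K σ) + B * (B : ℝ) ^ (σ + 1) * N) * K σ =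
            (ψ (σ + 1) + K σ * (B * B) * (B : ℝ) ^ (σ + 1) * N) / B := by
          have := (hKpos' σ).ne'
          have hB0 : (B : ℝ) ≠ 0 := by positivity
          field_simp
        rw [f3, le_div_iff₀ (by positivity)]
        linarith
      have f4 : B * (B : ℝ) ^ (σ + 1) * N ≤ N * (B : ℝ) ^ (s + 1) := by
        rw [mul_comm _ N]
        refine mul_le_mul_of_nonneg_left ?_ hN0
        rw [← pow_succ']
        exact pow_le_pow_right₀ hB1' (by have := mem_range.1 hσ; omega)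
      rw [sub_div]
      linarith
    have g5 := sum_le_sum g4
    rw [sum_add_distrib, sum_range_sub (fun σ => ψ σ / (K σ : ℝ)), sum_const, card_range,
      nsmul_eq_mul] at g5
    have g6 : 0 ≤ ψ 0 / (K 0 : ℝ) :=
      div_nonneg (sum_nonneg fun i _ => hΦ0 i) (hKpos' 0).le
    have g7 : ψ s / (K s : ℝ) ≤ N * N' := by
      rw [div_le_iff₀ (hKpos' s)]
      have f1 : ψ s ≤ ∑ i ∈ Ico (i0 s) (i0 s + K s), (N' * N : ℝ) :=
        sum_le_sum fun i _ => hΦN i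
      rw [sum_const, Nat.card_Ico, nsmul_eq_mul] at f1
      have f2 : i0 s + K s - i0 s = K s := by omega
      rw [f2] at f1
      linarith
    rw [g3] at g2
    linarith
  refine ⟨B ^ (σ + 1), i0 σ, Nat.one_le_pow _ _ hB1, Nat.pow_le_pow_right hB1 (mem_range.1 hσs), ?_, ?_⟩
  · simp only [hi0, hBdef]; ring
  -- steps 1 and 2
  change ∑ j ∈ range N', ∑ i ∈ Ico (i0 σ) (M * K σ), (F (i + K σ) j - F i (j + B ^ (σ + 1))) ≤ _
  rw [sum_comm]
  have k1 : ∀ i ∈ Ico (i0 σ) (M * K σ), ∑ j ∈ range N', (F (i + K σ) j - F i (j + B ^ (σ + 1))) ≤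
      (Φ (i + K σ) - Φ i) + ((B ^ (σ + 1) : ℕ) : ℝ) * N := by
    intro i _
    rw [sum_sub_distrib]
    have f1 := PIG_shift hF0 hFN N' i (B ^ (σ + 1))
    change Φ (i + K σ) - _ ≤ Φ (i + K σ) - Φ i + _
    change Φ i ≤ _ at f1
    linarith
  refine (sum_le_sum k1).trans ?_
  rw [sum_add_distrib, sum_const, nsmul_eq_mul, Nat.card_Ico]
  have hi0K : i0 σ ≤ K σ := by
    simp only [hi0, hK, pow_succ, hBdef]
    have : (M + 1) * (B0 * (M + 1)) ^ σ * g = (B0 * (M + 1)) ^ σ * (1 * (M + 1)) * g := by ring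
    rw [this]
    gcongr
  have hi0M : i0 σ ≤ M * K σ := hi0K.trans (Nat.le_mul_of_pos_left _ hM)
  have k2 : ∑ i ∈ Ico (i0 σ) (M * K σ), (Φ (i + K σ) - Φ i) = φ σ - ψ σ := by
    rw [sum_sub_distrib]
    have f1 : ∑ i ∈ Ico (i0 σ) (M * K σ), Φ (i + K σ) =
        ∑ i ∈ Ico (i0 σ + K σ) (M * K σ + K σ), Φ i := by
      rw [← sum_Ico_add' Φ]
    have f2 := sum_Ico_consecutive Φ hi0M (Nat.le_add_right (M * K σ) (K σ))
    have f3 := sum_Ico_consecutive Φ (Nat.le_add_right (i0 σ) (K σ))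
      (Nat.add_le_add_right hi0M (K σ))
    rw [f1]
    simp only [hφ, hψ]
    linarith
  rw [k2]
  have k3 : ((M * K σ - i0 σ : ℕ) : ℝ) ≤ M * K σ := by
    have : M * K σ - i0 σ ≤ M * K σ := Nat.sub_le _ _
    exact_mod_cast this
  have k4 : ((B ^ (σ + 1) : ℕ) : ℝ) ≤ (B : ℝ) ^ (s + 1) := by
    push_cast
    exact pow_le_pow_right₀ hB1' (by have := mem_range.1 hσs; omega)
  have k5 : ((M * K σ - i0 σ : ℕ) : ℝ) * (((B ^ (σ + 1) : ℕ) : ℝ) * N) ≤
      M * K σ * ((B : ℝ) ^ (s + 1) * N) := by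
    refine mul_le_mul k3 (mul_le_mul_of_nonneg_right k4 hN0) (by positivity) (by positivity)
  have hs0 : (0 : ℝ) < s := by exact_mod_cast (show 0 < s by omega)
  have k6 : (M + 2 : ℝ) * (B : ℝ) ^ (s + 1) ≤ N' / s := by
    rw [le_div_iff₀ hs0]
    have : ((s * (M + 2) * B ^ (s + 1) : ℕ) : ℝ) ≤ N' := by exact_mod_cast hN'
    push_cast at this
    linarith
  have k7 : (2 : ℝ) * ((B ^ (σ + 1) : ℕ) * g) * N * N' / s = K σ * (2 * (N * (N' / s))) := by
    simp only [hK]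
    push_cast
    ring
  rw [k7]
  have k8 : K σ * (N * N' / s + N * (B : ℝ) ^ (s + 1)) + M * K σ * ((B : ℝ) ^ (s + 1) * N) ≤
      K σ * (2 * (N * (N' / s))) := by
    have f1 : K σ * (N * N' / s + N * (B : ℝ) ^ (s + 1)) + M * K σ * ((B : ℝ) ^ (s + 1) * N) =
        K σ * (N * (N' / s) + N * ((M + 1) * (B : ℝ) ^ (s + 1))) := by ring
    rw [f1]
    refine mul_le_mul_of_nonneg_left ?_ (hKpos' σ).le
    have f2 : (M + 1 : ℝ) * (B : ℝ) ^ (s + 1) ≤ (M + 2 : ℝ) * (B : ℝ) ^ (s + 1) :=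
      mul_le_mul_of_nonneg_right (by linarith) (by positivity)
    have f3 := mul_le_mul_of_nonneg_left (f2.trans k6) hN0
    linarith
  linarith

end H62s
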