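import Pool.Agent.Lib.H62s.EBM
import Pool.Agent.Lib.H62s.GIN
import Pool.Agent.Lib.H62s.RIG
import Pool.Agent.Lib.H62s.PIG

set_option autoImplicit false
open Finset
namespace H62s
open H62w
variable [Slope] {β : ℝ} {M : ℕ}

omit [Slope] in
private lemma T2A_card (Λ v : ℕ) (hv : v = 1 ∨ v = 2) :
    ((range (3 ^ (Λ + 1))).filter (fun y => y % 3 = v)).card = 3 ^ Λ := by
  have h : (range (3 ^ (Λ + 1))).filter (fun y => y % 3 = v) =
      (range (3 ^ Λ)).image (fun u => v + 3 * u) := by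
    ext y
    rw [mem_filter, mem_range, mem_image, pow_succ]
    constructor
    · rintro ⟨h1, h2⟩
      refine ⟨y / 3, mem_range.mpr ?_, ?_⟩ <;> omega
    · rintro ⟨u, hu, rfl⟩
      rw [mem_range] at hu
      omega
  rw [h, card_image_of_injective, card_range]
  intro a b hab
  simp only at hab
  omega

omit [Slope] in
private lemma T2A_mean_const (Λ v : ℕ) (hv : v = 1 ∨ v = 2) (c : ℝ) :
    mean Λ v (fun _ => c) = c := by
  unfold mean
  rw [sum_const, T2A_card Λ v hv, nsmul_eq_mul]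
  push_cast
  field_simp

omit [Slope] in
private lemma T2A_mean_mono {Λ v : ℕ} {f g : ℕ → ℝ} (h : ∀ y, y % 3 = v → f y ≤ g y) :
    mean Λ v f ≤ mean Λ v g := by
  unfold mean
  refine div_le_div_of_nonneg_right ?_ (by positivity)
  exact sum_le_sum fun y hy => h y (mem_filter.1 hy).2

omit [Slope] in
private lemma T2A_mean_sum {Λ v : ℕ} {ι : Type} (s : Finset ι) (f : ι → ℕ → ℝ) :
    mean Λ v (fun y => ∑ i ∈ s, f i y) = ∑ i ∈ s, mean Λ v (f i) := by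
  unfold mean
  rw [sum_comm, ← sum_div]

omit [Slope] in
private lemma T2A_mean_lin {Λ v : ℕ} (f g h : ℕ → ℝ) (c : ℝ) :
    mean Λ v (fun y => f y + c * (g y - h y)) = mean Λ v f + c * (mean Λ v g - mean Λ v h) := by
  unfold mean
  rw [sum_add_distrib, ← mul_sum, sum_sub_distrib]
  ring

private lemma T2A_gini (hβ : 0 < β) (hβ1 : β ≤ 1) (hM : 7 ≤ M) (hR : 0 < RR β M) (B0 : ℕ)
    (hB0 : 8 * Real.log 3 / RR β M ≤ B0) (hB1 : 1 ≤ B0) :
    ∃ g1 : ℕ, 1 ≤ g1 ∧ ∀ g : ℕ, g1 ≤ g → ∀ h i0 : ℕ, 1 ≤ h → B0 * i0 = h * g →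
      i0 ≤ M * (h * g) ∧ ∀ r : ℕ, r < 3 ^ (h * g + 1) → r % 3 ≠ 0 →
      RR β M ^ 2 / (12 * M) * (h * g) ≤ ∑ i ∈ Ico i0 (M * (h * g)), GG β M g h i r := by
  set R := RR β M with hRdef
  have hM0 : (0 : ℝ) < M := by exact_mod_cast (show 0 < M by omega)
  have hM1 : (1 : ℝ) ≤ M := by exact_mod_cast (show 1 ≤ M by omega)
  obtain ⟨C, hC0, hC⟩ := log_mm_ge hβ hβ1 hM (show 0 < R / 8 by positivity)
  rw [← hRdef] at hC
  have hlog := Real.isLittleO_log_id_atTop.bound (show 0 < R / (32 * M) by positivity)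
  rw [Filter.eventually_atTop] at hlog
  obtain ⟨X0, hX0⟩ := hlog
  refine ⟨⌈8 * C / R⌉₊ + ⌈X0⌉₊ + ⌈16 * Real.log 3 / R⌉₊ + 1, by omega, ?_⟩
  intro g hg h i0 hh hi0
  have hgR : ((⌈8 * C / R⌉₊ + ⌈X0⌉₊ + ⌈16 * Real.log 3 / R⌉₊ + 1 : ℕ) : ℝ) ≤ g := by
    exact_mod_cast hg
  push_cast at hgR
  have c1 : (0 : ℝ) ≤ ⌈8 * C / R⌉₊ := Nat.cast_nonneg _
  have c2 : (0 : ℝ) ≤ ⌈X0⌉₊ := Nat.cast_nonneg _
  have c3 : (0 : ℝ) ≤ ⌈16 * Real.log 3 / R⌉₊ := Nat.cast_nonneg _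
  have d1 : 8 * C / R ≤ g := by linarith [Nat.le_ceil (8 * C / R)]
  have d2 : X0 ≤ g := by linarith [Nat.le_ceil X0]
  have d3 : 16 * Real.log 3 / R ≤ g := by linarith [Nat.le_ceil (16 * Real.log 3 / R)]
  have d4 : (1 : ℝ) ≤ g := by linarith
  have hhR : (1 : ℝ) ≤ h := by exact_mod_cast hh
  have hK : (g : ℝ) ≤ h * g := by nlinarith
  have hKpos : (0 : ℝ) < h * g := by positivity
  rw [div_le_iff₀ hR] at d1 d3 hB0
  have hi0K : i0 ≤ h * g := by
    rw [← hi0]; exact Nat.le_mul_of_pos_left _ hB1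
  have hi0M : i0 ≤ M * (h * g) := hi0K.trans (Nat.le_mul_of_pos_left _ (by omega))
  refine ⟨hi0M, fun r hr hr3 => ?_⟩
  -- (a)
  have a1 : 3 / 4 * R * (h * g) ≤ h * Real.log (mm β M g) := by
    have := hC g
    have h1 : 3 / 4 * R * g ≤ Real.log (mm β M g) := by linarith
    nlinarith
  -- (b)
  have hi0R : (B0 : ℝ) * i0 = h * g := by exact_mod_cast hi0
  have hlog3 : 0 < Real.log 3 := Real.log_pos (by norm_num)
  have b1 : Real.log (((M * (h * g) + 1) * 3 ^ (i0 + 1) : ℕ) : ℝ) ≤ R * (h * g) / 4 := by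
    push_cast
    have hx0 : (0 : ℝ) < M * (h * g) + 1 := by positivity
    rw [Real.log_mul hx0.ne' (by positivity), Real.log_pow]
    have hMK : (h : ℝ) * g ≤ M * (h * g) := by nlinarith
    have e1 := hX0 (M * (h * g) + 1) (by linarith)
    rw [Real.norm_eq_abs, id, Real.norm_eq_abs, abs_of_pos hx0] at e1
    have e2 : Real.log (M * (h * g) + 1) ≤ R / (32 * M) * (M * (h * g) + 1) :=
      (le_abs_self _).trans e1
    have e3 : R / (32 * M) * (M * (h * g) + 1) ≤ R * (h * g) / 16 := by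
      have : R / (32 * M) * (M * (h * g) + 1) ≤ R / (32 * M) * (2 * (M * (h * g))) := by
        refine mul_le_mul_of_nonneg_left ?_ (by positivity)
        linarith
      refine this.trans (le_of_eq ?_)
      field_simp
      ring
    push_cast
    have e4 : (i0 : ℝ) * Real.log 3 ≤ R * (h * g) / 8 := by
      have hi00 : (0 : ℝ) ≤ i0 := Nat.cast_nonneg _
      have : (i0 : ℝ) * (8 * Real.log 3) ≤ i0 * (B0 * R) := mul_le_mul_of_nonneg_left hB0 hi00
      have e5 : (i0 : ℝ) * (B0 * R) = R * (h * g) := by rw [← hi0R]; ring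
      linarith
    have e6 : Real.log 3 ≤ R * (h * g) / 16 := by nlinarith
    linarith
  have k := gini_sum hβ hβ1 hM g h i0 r hr hr3 hi0M
  set S := ∑ i ∈ Ico i0 (M * (h * g)), GG β M g h i r with hS
  have k2 : R * (h * g) / 2 ≤ Real.sqrt (3 * (M * (h * g) : ℕ) * S) := by linarith
  rw [Real.le_sqrt' (by positivity)] at k2
  push_cast at k2
  have k3 : (R * (h * g) / 2) ^ 2 = (R ^ 2 / (12 * M) * (h * g)) * (3 * (M * (h * g))) := by
    field_simp
    ring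
  have k4 : 3 * ((M : ℝ) * (h * g)) * S = S * (3 * (M * (h * g))) := by ring
  rw [k3, k4] at k2
  exact le_of_mul_le_mul_right k2 (by positivity)

/-- Chunk T2A. For `g` large there are a number `h` of blocks, a time `j` and a range of levels in which the
mean good mass is at least a constant times the length of the range.
Proof. `R = RR β M`, `N = 3^n`, `g0 = R^2/(12 M)`, `B0 ≥ 8 log 3 / R`, `s ≥ 16 N^4 / g0`, `H = (B0 (M+1))^s`,
`N' = s (M+2) (B0 (M+1))^(s+1)`. Fix the class `v`, `Λ = N' g`, and apply `pigeon` to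
`F i j = mean Λ v (FF n i j)` (bounds `FF_nonneg, FF_le`, `FF_mono`): `h, i0`, `K = h g`, `B0 i0 = K`.
So some `j < N'` has `∑_{i ∈ [i0, M K)} (F (i+K) j - F i (j+h)) ≤ 2 K N / s`.
By `gini_sum` and `log_mm_ge` (with `ε = R/8`), for `g ≥ g1`:
`∑_{i ∈ [i0, M K)} GG h i r ≥ g0 K` for every unit `r < 3^(K+1)`: `h log mm g ≥ (3/4) R K`,
`log ((M K+1) 3^(i0+1)) ≤ R K / 8 + log (M K + 1) + log 3 ≤ R K / 4`, so the square root is `≥ R K / 2`.
Sum `bad_mass` over `i`, take the mean over `y`: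
`g0 K ≤ ∑_i mean Gd (i + K) j + 4 N^3 * 2 K N / s ≤ ∑_i mean Gd (i+K) j + g0 K / 2`. -/
theorem t2a (hβ : 0 < β) (hβ1 : β ≤ 1) (hM : 7 ≤ M) (hR : 0 < RR β M) (n : ℕ) (hn : 1 ≤ n) :
    ∃ H N' g1 : ℕ, ∀ g : ℕ, g1 ≤ g → ∀ v : ℕ, v = 1 ∨ v = 2 →
      ∃ h j i0 : ℕ, 1 ≤ h ∧ h ≤ H ∧ j < N' ∧ i0 ≤ M * (h * g) ∧
        RR β M ^ 2 / (24 * M) * (h * g) ≤
          ∑ i ∈ Ico i0 (M * (h * g)), mean (N' * g) v (fun y => Gd β M g n (i + h * g) j y) := by
  have hM0 : (0 : ℝ) < M := by exact_mod_cast (show 0 < M by omega)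
  have hN1 : (1 : ℝ) ≤ 3 ^ n := one_le_pow₀ (by norm_num)
  set R := RR β M with hRdef
  set g0 : ℝ := R ^ 2 / (12 * M) with hg0
  have hg0pos : 0 < g0 := by positivity
  obtain ⟨B0, hB0, hB1⟩ : ∃ B0 : ℕ, 8 * Real.log 3 / R ≤ B0 ∧ 1 ≤ B0 := by
    refine ⟨⌈8 * Real.log 3 / R⌉₊ + 1, ?_, by omega⟩
    push_cast
    linarith [Nat.le_ceil (8 * Real.log 3 / R)]
  obtain ⟨s, hs, hs1⟩ : ∃ s : ℕ, 16 * ((3 : ℝ) ^ n) ^ 4 / g0 ≤ s ∧ 1 ≤ s := by
    refine ⟨⌈16 * ((3 : ℝ) ^ n) ^ 4 / g0⌉₊ + 1, ?_, by omega⟩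
    push_cast
    linarith [Nat.le_ceil (16 * ((3 : ℝ) ^ n) ^ 4 / g0)]
  obtain ⟨g1, hg1, hG⟩ := T2A_gini hβ hβ1 hM hR B0 hB0 hB1
  refine ⟨(B0 * (M + 1)) ^ s, s * (M + 2) * (B0 * (M + 1)) ^ (s + 1), g1, ?_⟩
  intro g hg v hv
  set N' := s * (M + 2) * (B0 * (M + 1)) ^ (s + 1) with hN'
  have hN'pos : 0 < N' := by
    have : 0 < B0 * (M + 1) := Nat.mul_pos (by omega) (by omega)
    positivity
  have hv3 : ∀ y, y % 3 = v → y % 3 ≠ 0 := by intro y hy; omega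
  obtain ⟨h, i0, hh, hhH, hBi, hsum⟩ := pigeon
    (fun i j => mean (N' * g) v (fun y => FF β M g n i j y)) (3 ^ n)
    (fun i j => by
      have := T2A_mean_mono (Λ := N' * g) (v := v) (f := fun _ => (0 : ℝ))
        (g := fun y => FF β M g n i j y)
        (fun y hy => FF_nonneg hβ hβ1 hM g n i j y (hv3 y hy))
      rwa [T2A_mean_const _ _ hv] at this)
    (fun i j => by
      have := T2A_mean_mono (Λ := N' * g) (v := v) (f := fun y => FF β M g n i j y)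
        (g := fun _ => (3 : ℝ) ^ n)
        (fun y hy => FF_le hβ hβ1 hM g n i j y (hv3 y hy))
      rwa [T2A_mean_const _ _ hv] at this)
    g M B0 s N' (by omega) (by omega) hB1 hs1
    (fun i j => T2A_mean_mono fun y hy => FF_mono hβ hβ1 hM hn g i j y (hv3 y hy))
    le_rfl
  -- the time
  have hN'R : (0 : ℝ) < N' := by exact_mod_cast hN'pos
  have hsR : (0 : ℝ) < s := by exact_mod_cast (show 0 < s by omega)
  obtain ⟨j, hj, hjle⟩ := exists_le_of_sum_le (s := range N')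
    (g := fun _ => 2 * (h * g : ℝ) * 3 ^ n / s) ⟨0, mem_range.2 hN'pos⟩
    (by
      refine hsum.trans (le_of_eq ?_)
      rw [sum_const, card_range, nsmul_eq_mul]
      ring)
  obtain ⟨hi0M, hgini⟩ := hG g hg h i0 hh hBi
  refine ⟨h, j, i0, hh, hhH, mem_range.1 hj, hi0M, ?_⟩
  -- one point
  have hpt : ∀ y, y % 3 = v → g0 * (h * g) ≤ ∑ i ∈ Ico i0 (M * (h * g)),
      (Gd β M g n (i + h * g) j y +
        4 * (3 ^ n) ^ 3 * (FF β M g n (i + h * g) j y - FF β M g n i (j + h) y)) := by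
    intro y hy
    have hy3 := hv3 y hy
    have f1 : g0 * (h * g) ≤ ∑ a ∈ BP M g j y, kap β M g j y a *
        ∑ i ∈ Ico i0 (M * (h * g)), GG β M g h i (en a y % 3 ^ (h * g + 1)) := by
      have f2 : ∑ a ∈ BP M g j y, kap β M g j y a * (g0 * (h * g)) ≤
          ∑ a ∈ BP M g j y, kap β M g j y a *
            ∑ i ∈ Ico i0 (M * (h * g)), GG β M g h i (en a y % 3 ^ (h * g + 1)) := by
        refine sum_le_sum fun a ha => mul_le_mul_of_nonneg_left ?_ (kap_pos hβ hβ1 hM hy3 ha).le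
        refine hgini _ (Nat.mod_lt _ (by positivity)) ?_
        rw [Nat.mod_mod_of_dvd _ (dvd_pow_self 3 (Nat.succ_ne_zero _))]
        exact (BP_spec hy3 ha).2.2.2.1
      rw [← sum_mul, kap_sum hβ hβ1 hM hy3, one_mul] at f2
      exact f2
    refine f1.trans ?_
    simp only [mul_sum]
    rw [sum_comm]
    exact sum_le_sum fun i _ => bad_mass hβ hβ1 hM hn g h i j y hy3
  have hmean := T2A_mean_mono (Λ := N' * g) hpt
  rw [T2A_mean_const _ _ hv, T2A_mean_sum] at hmean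
  simp only [T2A_mean_lin] at hmean
  rw [sum_add_distrib, ← mul_sum] at hmean
  have hj2 : 4 * ((3 : ℝ) ^ n) ^ 3 * ∑ i ∈ Ico i0 (M * (h * g)),
      (mean (N' * g) v (fun y => FF β M g n (i + h * g) j y) -
        mean (N' * g) v (fun y => FF β M g n i (j + h) y)) ≤ g0 * (h * g) / 2 := by
    have q1 := mul_le_mul_of_nonneg_left hjle (show 0 ≤ 4 * ((3 : ℝ) ^ n) ^ 3 by positivity)
    refine q1.trans ?_
    have q2 : 4 * ((3 : ℝ) ^ n) ^ 3 * (2 * (h * g : ℝ) * 3 ^ n / s) =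
        (16 * ((3 : ℝ) ^ n) ^ 4) * (h * g) / 2 / s := by ring
    rw [q2, div_le_iff₀ hsR]
    rw [div_le_iff₀ hg0pos] at hs
    have q3 : (0 : ℝ) ≤ h * g := by positivity
    have q4 := mul_le_mul_of_nonneg_right hs q3
    have q5 : g0 * (h * g) / 2 * s = (s * g0) * (h * g) / 2 := by ring
    rw [q5]
    linarith
  have hfin : R ^ 2 / (24 * M) * (h * g) = g0 * (h * g) / 2 := by
    rw [hg0]; field_simp; ring
  rw [hfin]
  linarith

end H62s
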