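import Pool.Agent.Lib.H62s.T2A
import Pool.Agent.Lib.H62s.AVG
import Pool.Agent.Lib.H62s.CLS

set_option autoImplicit false
open Finset
namespace H62s
open H62w
variable [Slope] {β : ℝ} {M : ℕ}

omit [Slope] in
private lemma T2B_blocks (F : ℕ → ℝ) (n J : ℕ) :
    ∑ x ∈ range (n * J), F x = ∑ o ∈ range n, ∑ t ∈ range J, F (o + n * t) := by
  rw [sum_comm]
  induction J with
  | zero => simp
  | succ J ih =>
    rw [Nat.mul_succ, sum_range_add, ih, sum_range_succ]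
    congr 1
    exact sum_congr rfl fun o _ => by rw [add_comm]

omit [Slope] in
private lemma T2B_offset (f : ℕ → ℝ) (hf : ∀ i, 0 ≤ f i) {n J a b : ℕ} (hn : 1 ≤ n)
    (hJ : b - a ≤ n * J) {c : ℝ} (hc : c ≤ ∑ i ∈ Ico a b, f i) :
    ∃ o, o < n ∧ c / n ≤ ∑ t ∈ range J, f (a + o + n * t) := by
  rw [sum_Ico_eq_sum_range] at hc
  have h1 : ∑ x ∈ range (b - a), f (a + x) ≤ ∑ x ∈ range (n * J), f (a + x) := by
    refine sum_le_sum_of_subset_of_nonneg ?_ fun x _ _ => hf _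
    intro x hx
    rw [mem_range] at hx ⊢
    omega
  rw [T2B_blocks (fun x => f (a + x))] at h1
  have hn0 : (0 : ℝ) < n := by exact_mod_cast (show 0 < n by omega)
  obtain ⟨o, ho, h2⟩ := exists_le_of_sum_le (s := range n) (f := fun _ => c / n)
    (g := fun o => ∑ t ∈ range J, f (a + (o + n * t))) ⟨0, mem_range.2 (by omega)⟩
    (by
      rw [sum_const, card_range, nsmul_eq_mul, mul_div_cancel₀ _ hn0.ne']
      exact hc.trans h1)
  refine ⟨o, mem_range.1 ho, h2.trans (le_of_eq ?_)⟩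
  exact sum_congr rfl fun t _ => by rw [add_assoc]

private lemma T2B_mean_nonneg (hβ : 0 < β) (hβ1 : β ≤ 1) (hM : 7 ≤ M) (g n i j Λ v : ℕ)
    (hv : v = 1 ∨ v = 2) : 0 ≤ mean Λ v (fun y => Gd β M g n i j y) := by
  unfold mean
  refine div_nonneg (sum_nonneg fun y hy => ?_) (by positivity)
  have hy3 : y % 3 ≠ 0 := by
    have := (mem_filter.1 hy).2
    omega
  classical
  unfold Gd
  refine sum_nonneg fun a ha => ?_
  rw [mem_filter] at ha
  exact (kap_pos hβ hβ1 hM hy3 ha.1).le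

/-- Chunk T2B. The worst case growth rate is at least the growth rate of the class means, as soon as it is
positive. Proof by contradiction, `λ = B - R > 0`, `g0 = R^2/(24 M)` (the constant of `t2a`).
Choose `ε1 = λ g0 / (16 M)` (and `< λ/2`) and then, by `log_mm_ge`, `n` with `log mm n ≥ (R - ε1) n`, `n ≥ n0`, and
`D = B n - C - R n ≥ λ n / 2` (so `hD` holds by `log_mm_le`). `H, N', g1` from `t2a`.
Choose `ε > 0` with `2 ε (N' + 2 (M+1) H + 2) ≤ λ g0 / 16` and constants `C1` from `av_upper`, `C2` from `log_mm_ge`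
for this `ε`, and `g` large. From `t2a` (`v = 1`) get `h, j, i0`, `K = h g`. Let `a = i0 + K`,
`b = (M+1) K`, `J = (b - a)/n + 1`. Since `Gd ≥ 0` there is `o < n` with
`∑_{t<J} mean Gd (a + o + n t) j ≥ (1/n) ∑_{i ∈ [a,b)} mean Gd i j ≥ g0 K / n`. Put `k = a + o`.
`av_lower` and `av_upper` at `m = j g + k + n J`:
`j ((R-ε) g - C2) + ((R-ε) k - C2) + J (R - ε1) n + (λ n/4) (g0 K / n) ≤ (R + ε) m + C1`, that is
`λ g0 K / 4 ≤ ε (m + j g + k) + ε1 n J + C1 + (j + 1) C2`. Here `n J ≤ M K + n`, `m ≤ N' g + 2 (M+1) K + 2 n`, `K ≥ g`, so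
the right side is `≤ λ g0 K / 16 + λ g0 K / 16 + (bounded)`: contradiction for `g` large. -/
theorem t2 (hβ : 0 < β) (hβ1 : β ≤ 1) (hM : 7 ≤ M) (hR : 0 < RR β M) {B C : ℝ} {n0 : ℕ}
    (h : ∀ n : ℕ, n0 ≤ n → ∀ v : ℕ, v = 1 ∨ v = 2 → B * n - C ≤ Real.log (cm β M n v)) :
    B ≤ RR β M := by
  by_contra hcon
  push Not at hcon
  set R := RR β M with hRdef
  obtain ⟨lam, hlam⟩ : ∃ lam, lam = B - R := ⟨_, rfl⟩
  have hlam0 : 0 < lam := by rw [hlam]; linarith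
  have hM0 : (0 : ℝ) < M := by exact_mod_cast (show 0 < M by omega)
  obtain ⟨g0, hg0⟩ : ∃ g0, g0 = R ^ 2 / (24 * M) := ⟨_, rfl⟩
  have hg0pos : 0 < g0 := by rw [hg0]; positivity
  obtain ⟨ε1, hε1⟩ : ∃ ε1, ε1 = lam * g0 / (16 * M) := ⟨_, rfl⟩
  have hε1pos : 0 < ε1 := by rw [hε1]; positivity
  obtain ⟨C', hC'0, hC'⟩ := log_mm_ge hβ hβ1 hM (show 0 < ε1 / 2 by positivity)
  rw [← hRdef] at hC'
  -- choice of `n`
  obtain ⟨n, hn1, hn0, hnC, hnC'⟩ : ∃ n : ℕ, 1 ≤ n ∧ n0 ≤ n ∧ C ≤ lam * n / 2 ∧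
      C' ≤ ε1 / 2 * n := by
    refine ⟨n0 + 1 + ⌈2 * C / lam⌉₊ + ⌈2 * C' / ε1⌉₊, by omega, by omega, ?_, ?_⟩
    · push_cast
      have h1 := Nat.le_ceil (2 * C / lam)
      have h2 : (0 : ℝ) ≤ ⌈2 * C' / ε1⌉₊ := Nat.cast_nonneg _
      have h3 : (0 : ℝ) ≤ n0 := Nat.cast_nonneg _
      rw [div_le_iff₀ hlam0] at h1
      nlinarith
    · push_cast
      have h1 := Nat.le_ceil (2 * C' / ε1)
      have h2 : (0 : ℝ) ≤ ⌈2 * C / lam⌉₊ := Nat.cast_nonneg _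
      have h3 : (0 : ℝ) ≤ n0 := Nat.cast_nonneg _
      rw [div_le_iff₀ hε1pos] at h1
      nlinarith
  have hnR : (0 : ℝ) < n := by exact_mod_cast (show 0 < n by omega)
  obtain ⟨D, hDdef⟩ : ∃ D, D = B * n - C - R * n := ⟨_, rfl⟩
  have hDge : lam * n / 2 ≤ D := by rw [hDdef]; rw [hlam] at hnC ⊢; linarith
  have hD : ∀ v : ℕ, v = 1 ∨ v = 2 → Real.log (mm β M n) + D ≤ Real.log (cm β M n v) := by
    intro v hv
    have h1 := h n hn0 v hv
    have h2 := log_mm_le hβ hβ1 hM n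
    rw [← hRdef] at h2
    rw [hDdef]
    linarith
  have hmmn : (R - ε1) * n ≤ Real.log (mm β M n) := by
    have := hC' n
    linarith
  obtain ⟨H, N', g1, hG⟩ := t2a hβ hβ1 hM hR n hn1
  rw [← hRdef, ← hg0] at hG
  obtain ⟨ε, hε⟩ : ∃ ε, ε = lam * g0 / (32 * (N' + 2 * (M + 1))) := ⟨_, rfl⟩
  have hN'0 : (0 : ℝ) ≤ N' := Nat.cast_nonneg _
  have hεpos : 0 < ε := by rw [hε]; positivity
  obtain ⟨C1, hC10, hC1⟩ := av_upper hβ hβ1 hM hR ε hεpos
  obtain ⟨C2, hC20, hC2⟩ := log_mm_ge hβ hβ1 hM hεpos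
  rw [← hRdef] at hC1 hC2
  -- choice of `g`
  obtain ⟨g, hg1, hg2, hg3⟩ : ∃ g : ℕ, g1 ≤ g ∧ 1 ≤ g ∧
      4 * ε * n + ε1 * n + C1 + (N' + 1) * C2 < lam * g0 / 8 * g := by
    obtain ⟨k, hk⟩ := exists_nat_gt ((4 * ε * n + ε1 * n + C1 + (N' + 1) * C2) / (lam * g0 / 8))
    rw [div_lt_iff₀ (by positivity)] at hk
    refine ⟨g1 + 1 + k, by omega, by omega, ?_⟩
    push_cast
    have h1 : (0 : ℝ) ≤ g1 := Nat.cast_nonneg _
    have h2 : 0 < lam * g0 / 8 := by positivity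
    nlinarith
  obtain ⟨hh, j, i0, hh1, hhH, hj, hi0, hsum⟩ := hG g hg1 1 (Or.inl rfl)
  -- the offset
  obtain ⟨J, hJdef⟩ : ∃ J, J = (M * (hh * g) - i0) / n + 1 := ⟨_, rfl⟩
  have hdm := Nat.div_add_mod (M * (hh * g) - i0) n
  have hml := Nat.mod_lt (M * (hh * g) - i0) (show n > 0 by omega)
  have hnJ : n * J = n * ((M * (hh * g) - i0) / n) + n := by rw [hJdef]; ring
  have hJ1 : M * (hh * g) - i0 ≤ n * J := by omega
  have hJ2 : n * J ≤ M * (hh * g) + n := by omega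
  obtain ⟨o, ho, hoff⟩ := T2B_offset
    (fun i => mean (N' * g) 1 (fun y => Gd β M g n (i + hh * g) j y))
    (fun i => T2B_mean_nonneg hβ hβ1 hM g n _ j _ 1 (Or.inl rfl)) hn1 hJ1 hsum
  obtain ⟨k, hk⟩ : ∃ k, k = i0 + hh * g + o := ⟨_, rfl⟩
  have hoff2 : g0 * (hh * g) / n ≤
      ∑ t ∈ range J, mean (N' * g) 1 (fun y => Gd β M g n (k + n * t) j y) := by
    refine hoff.trans (le_of_eq (sum_congr rfl fun t _ => ?_))
    have : i0 + o + n * t + hh * g = k + n * t := by rw [hk]; ring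
    simp only [this]
  have hjg : j * g ≤ N' * g := Nat.mul_le_mul_right _ hj.le
  have hlow := av_lower hβ hβ1 hM hn1 D hD g j k J (N' * g) 1 hjg (Or.inl rfl)
  have hup := hC1 (j * g + k + n * J) 1 (Or.inl rfl)
  have hmg := hC2 g
  have hmk := hC2 k
  -- gain
  have hgain : lam / 4 * (g0 * (hh * g)) ≤
      D / 2 * ∑ t ∈ range J, mean (N' * g) 1 (fun y => Gd β M g n (k + n * t) j y) := by
    have hq : (0 : ℝ) ≤ g0 * (hh * g) / n := by positivity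
    have h1 : lam / 4 * (g0 * (hh * g)) = (lam * n / 2) / 2 * (g0 * (hh * g) / n) := by
      field_simp
      ring
    rw [h1]
    have hD2 : (lam * n / 2) / 2 ≤ D / 2 := by linarith
    have hD0 : 0 ≤ D / 2 := by
      have : 0 ≤ lam * n / 2 := by positivity
      linarith
    exact (mul_le_mul_of_nonneg_right hD2 hq).trans (mul_le_mul_of_nonneg_left hoff2 hD0)
  -- numbers
  have hjR : (j : ℝ) ≤ N' := by exact_mod_cast hj.le
  have hj0 : (0 : ℝ) ≤ j := Nat.cast_nonneg _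
  have hJ0 : (0 : ℝ) ≤ J := Nat.cast_nonneg _
  have hg0R : (1 : ℝ) ≤ g := by exact_mod_cast hg2
  have hh1R : (1 : ℝ) ≤ hh := by exact_mod_cast hh1
  obtain ⟨K, hK⟩ : ∃ K : ℝ, K = hh * g := ⟨_, rfl⟩
  have hgK : (g : ℝ) ≤ K := by rw [hK]; nlinarith
  have hi0R : (i0 : ℝ) ≤ M * K := by rw [hK]; exact_mod_cast hi0
  have hoR : (o : ℝ) ≤ n := by exact_mod_cast ho.le
  have hnJR : (n : ℝ) * J ≤ M * K + n := by rw [hK]; exact_mod_cast hJ2
  have hkR : (k : ℝ) = i0 + K + o := by rw [hk, hK]; push_cast; ring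
  have hk0 : (0 : ℝ) ≤ k := Nat.cast_nonneg _
  have e1 : (j : ℝ) * ((R - ε) * g - C2) ≤ j * Real.log (mm β M g) :=
    mul_le_mul_of_nonneg_left (by linarith) hj0
  have e2 : (J : ℝ) * ((R - ε1) * n) ≤ J * Real.log (mm β M n) :=
    mul_le_mul_of_nonneg_left hmmn hJ0
  push_cast at hup
  rw [← hK] at hgain
  have e3 : lam / 4 * (g0 * K) ≤ ε * (2 * (j * g + k) + n * J) + ε1 * (n * J) + C1 + (j + 1) * C2 := by
    linarith
  have e4 : (j : ℝ) * g ≤ N' * K := mul_le_mul hjR hgK (by positivity) hN'0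
  have e5 : ε * (2 * (j * g + k) + n * J) ≤ ε * (2 * (N' + 2 * (M + 1)) * K + 4 * n) := by
    refine mul_le_mul_of_nonneg_left ?_ hεpos.le
    have hK0 : 0 ≤ K := by rw [hK]; positivity
    have hMK : 0 ≤ M * K := by positivity
    linarith
  have e6 : ε * (2 * (N' + 2 * (M + 1)) * K) = lam * g0 / 16 * K := by
    rw [hε]
    have : (N' + 2 * ((M : ℝ) + 1)) ≠ 0 := by positivity
    field_simp
    ring
  have e7 : ε1 * (n * J) ≤ lam * g0 / 16 * K + ε1 * n := by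
    have h1 := mul_le_mul_of_nonneg_left hnJR hε1pos.le
    have h2 : ε1 * (M * K) = lam * g0 / 16 * K := by
      rw [hε1]; field_simp
    linarith
  have e8 : ((j : ℝ) + 1) * C2 ≤ (N' + 1) * C2 := mul_le_mul_of_nonneg_right (by linarith) hC20
  have e9 : lam * g0 / 8 * g ≤ lam * g0 / 8 * K := mul_le_mul_of_nonneg_left hgK (by positivity)
  linarith

end H62s
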