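import Pool.Agent.Lib.H62s.Paths
import Pool.Agent.Lib.H62s.FullWin

/-!
# Chunk J: Theorem B (worst case growth is at least the Haar average growth)
-/

set_option autoImplicit false
open Finset
namespace H62s
open H62w

variable [Slope]

variable {β : ℝ} {M : ℕ}

theorem J_mem_PP {M k y : ℕ} {l : List ℕ} (h : l ∈ PP M k y) :
    l.length = k ∧ va l y ∧ en l y % 3 ≠ 0 := by
  unfold PP at h
  rw [mem_filter] at h
  exact ⟨(mem_words.1 h.1).1, h.2.1, h.2.2.1⟩

theorem J_mem_full {E : Finset ℕ} {t n : ℕ} {η : ℝ} {x : ℕ} :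
    x ∈ full E t n η ↔ x ∈ E ∧ ∀ w ∈ range (3 ^ n),
      |(((cls E t x).filter (fun y => y / 3 ^ t % 3 ^ n = w)).card : ℝ) / (cls E t x).card
        - 1 / 3 ^ n| ≤ η := by
  simp only [full, mem_filter]

theorem J_W_pos (hβ : 0 < β) (hβ1 : β ≤ 1) (hM : 7 ≤ M) (k y : ℕ) (hy : y % 3 ≠ 0) :
    0 < W β M k y := by
  obtain ⟨C, _, h⟩ := W_bound hβ hβ1 hM
  exact (h k y hy).1

/-- Jensen step. -/
theorem J_log_ratio (hβ : 0 < β) (hβ1 : β ≤ 1) (hM : 7 ≤ M) (t n x : ℕ) (hx : x % 3 ≠ 0) :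
    (∑ l ∈ PP M t x, wt β t l * Real.log (W β M n (en l x))) / W β M t x
      ≤ Real.log (W β M (t + n) x) - Real.log (W β M t x) := by
  have hWt : 0 < W β M t x := J_W_pos hβ hβ1 hM t x hx
  have hWtn : 0 < W β M (t + n) x := J_W_pos hβ hβ1 hM (t + n) x hx
  have hpos : ∀ l ∈ PP M t x, 0 < W β M n (en l x) := fun l hl =>
    J_W_pos hβ hβ1 hM n _ (J_mem_PP hl).2.2
  have hsum1 : ∑ l ∈ PP M t x, wt β t l / W β M t x = 1 := by
    rw [← Finset.sum_div]
    exact div_self (ne_of_gt hWt)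
  have hJ := (strictConcaveOn_log_Ioi.concaveOn).le_map_sum
    (t := PP M t x) (w := fun l => wt β t l / W β M t x) (p := fun l => W β M n (en l x))
    (fun l _ => div_nonneg (wt_pos β t l).le hWt.le) hsum1 (fun l hl => hpos l hl)
  simp only [smul_eq_mul] at hJ
  have h1 : ∑ l ∈ PP M t x, wt β t l / W β M t x * Real.log (W β M n (en l x))
      = (∑ l ∈ PP M t x, wt β t l * Real.log (W β M n (en l x))) / W β M t x := by
    rw [Finset.sum_div]
    exact Finset.sum_congr rfl fun l _ => by ring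
  have h2 : ∑ l ∈ PP M t x, wt β t l / W β M t x * W β M n (en l x)
      = (∑ l ∈ PP M t x, wt β t l * W β M n (en l x)) / W β M t x := by
    rw [Finset.sum_div]
    exact Finset.sum_congr rfl fun l _ => by ring
  rw [h1, h2] at hJ
  refine hJ.trans ?_
  rw [← Real.log_div (ne_of_gt hWtn) (ne_of_gt hWt)]
  have hne : (PP M t x).Nonempty := by
    by_contra hcon
    rw [Finset.not_nonempty_iff_eq_empty] at hcon
    unfold W at hWt
    rw [hcon, Finset.sum_empty] at hWt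
    exact lt_irrefl _ hWt
  have hS : 0 < ∑ l ∈ PP M t x, wt β t l * W β M n (en l x) :=
    Finset.sum_pos (fun l hl => mul_pos (wt_pos β t l) (hpos l hl)) hne
  exact Real.log_le_log (div_pos hS hWt)
    (div_le_div_of_nonneg_right (W_super β M t n x) hWt.le)

theorem J_ratio_ge_min (hβ : 0 < β) (hβ1 : β ≤ 1) (hM : 7 ≤ M) (t n x : ℕ) (hx : x % 3 ≠ 0) :
    Real.log (mm β M n) ≤ Real.log (W β M (t + n) x) - Real.log (W β M t x) := by
  refine le_trans ?_ (J_log_ratio hβ hβ1 hM t n x hx)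
  have hWt : 0 < W β M t x := J_W_pos hβ hβ1 hM t x hx
  rw [le_div_iff₀ hWt]
  have : Real.log (mm β M n) * W β M t x
      = ∑ l ∈ PP M t x, wt β t l * Real.log (mm β M n) := by
    unfold W
    rw [Finset.mul_sum]
    exact Finset.sum_congr rfl fun l _ => by ring
  rw [this]
  refine Finset.sum_le_sum fun l hl => ?_
  refine mul_le_mul_of_nonneg_left ?_ (wt_pos β t l).le
  exact Real.log_le_log (mm_pos hβ hβ1 hM n) (mm_le β M n _ (J_mem_PP hl).2.2)

/-- change of variables: the windows run through a class mod `3`. -/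
theorem J_window_sum (n e s : ℕ) (f : ℕ → ℝ) (hf : ∀ y, f y = f (y % 3 ^ (n + 1))) :
    ∑ w ∈ range (3 ^ n), f (e + 3 * 2 ^ s * w)
      = ∑ y ∈ (range (3 ^ (n + 1))).filter (fun y => y % 3 = e % 3), f y := by
  classical
  set φ : ℕ → ℕ := fun w => (e + 3 * 2 ^ s * w) % 3 ^ (n + 1) with hφ
  have hinj : Set.InjOn φ (range (3 ^ n) : Finset ℕ) := by
    intro w hw w' hw' h
    simp only [coe_range, Set.mem_Iio] at hw hw'
    have h1 : e + 3 * 2 ^ s * w ≡ e + 3 * 2 ^ s * w' [MOD 3 ^ (n + 1)] := h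
    have h2 : 3 * 2 ^ s * w ≡ 3 * 2 ^ s * w' [MOD 3 ^ (n + 1)] := Nat.ModEq.add_left_cancel' e h1
    have h3 : 2 ^ s * w ≡ 2 ^ s * w' [MOD 3 ^ n] := by
      have h4 : 3 * (2 ^ s * w) ≡ 3 * (2 ^ s * w') [MOD 3 * 3 ^ n] := by
        have : 3 * 3 ^ n = 3 ^ (n + 1) := by ring
        rw [this, ← mul_assoc, ← mul_assoc]
        exact h2
      exact Nat.ModEq.mul_left_cancel' (by norm_num) h4
    have hcop : Nat.gcd (3 ^ n) (2 ^ s) = 1 :=
      Nat.Coprime.pow n s (by norm_num)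
    have h5 : w ≡ w' [MOD 3 ^ n] := Nat.ModEq.cancel_left_of_coprime hcop h3
    exact Nat.ModEq.eq_of_lt_of_lt h5 hw hw'
  have hsub : (range (3 ^ n)).image φ ⊆
      (range (3 ^ (n + 1))).filter (fun y => y % 3 = e % 3) := by
    intro y hy
    rw [mem_image] at hy
    obtain ⟨w, _, rfl⟩ := hy
    rw [mem_filter, mem_range]
    refine ⟨Nat.mod_lt _ (by positivity), ?_⟩
    rw [hφ]
    simp only
    rw [Nat.mod_mod_of_dvd _ (by exact dvd_pow_self 3 (by omega))]
    rw [mul_assoc, Nat.add_mul_mod_self_left]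
  have hcard : ((range (3 ^ (n + 1))).filter (fun y => y % 3 = e % 3)).card ≤ 3 ^ n := by
    have hsub2 : (range (3 ^ (n + 1))).filter (fun y => y % 3 = e % 3) ⊆
        (range (3 ^ n)).image (fun w => 3 * w + e % 3) := by
      intro y hy
      rw [mem_filter, mem_range] at hy
      rw [mem_image]
      refine ⟨y / 3, ?_, ?_⟩
      · rw [mem_range]
        have : 3 ^ (n + 1) = 3 ^ n * 3 := by ring
        rw [this] at hy
        exact Nat.div_lt_of_lt_mul (by rw [mul_comm]; exact hy.1)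
      · rw [← hy.2]; exact Nat.div_add_mod y 3
    calc _ ≤ ((range (3 ^ n)).image (fun w => 3 * w + e % 3)).card := card_le_card hsub2
      _ ≤ (range (3 ^ n)).card := card_image_le
      _ = 3 ^ n := card_range _
  have himg : (range (3 ^ n)).image φ =
      (range (3 ^ (n + 1))).filter (fun y => y % 3 = e % 3) := by
    refine Finset.eq_of_subset_of_card_le hsub ?_
    rw [card_image_of_injOn hinj, card_range]
    exact hcard
  rw [← himg, Finset.sum_image hinj]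
  refine Finset.sum_congr rfl fun w _ => ?_
  rw [hf (e + 3 * 2 ^ s * w)]

/-- On a class mod `3^(t+1)` with an almost uniform window, the mean of `log W_n` of an end point is
almost at least `AA`. -/
theorem J_class_end (hβ : 0 < β) (hβ1 : β ≤ 1) (hM : 7 ≤ M) {Cb : ℝ}
    (hCb : ∀ k y : ℕ, y % 3 ≠ 0 → 0 < W β M k y ∧ |Real.log (W β M k y)| ≤ Cb * k)
    (t n r : ℕ) (hr : r < 3 ^ (t + 1)) (η : ℝ) (hη : 0 ≤ η) (C : Finset ℕ)
    (hC : ∀ x ∈ C, x % 3 ^ (t + 1) = r)
    (hun : ∀ w ∈ range (3 ^ n),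
      |((C.filter (fun x => x / 3 ^ (t + 1) % 3 ^ n = w)).card : ℝ) / C.card - 1 / 3 ^ n| ≤ η)
    (l : List ℕ) (hl : l ∈ PP M t r) :
    (C.card : ℝ) * (AA β M n - η * 3 ^ n * (Cb * n)) ≤ ∑ x ∈ C, Real.log (W β M n (en l x)) := by
  classical
  obtain ⟨hlen, hva, hen⟩ := J_mem_PP hl
  set e := en l r with he
  set s := l.sum with hs
  set g : ℕ → ℝ := fun w => Real.log (W β M n (e + 3 * 2 ^ s * w)) with hg
  have hWper : ∀ y, Real.log (W β M n y) = Real.log (W β M n (y % 3 ^ (n + 1))) := fun y => by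
    rw [← W_mod]
  have hgper : ∀ u, g u = g (u % 3 ^ n) := by
    intro u
    simp only [hg]
    rw [hWper, hWper (e + 3 * 2 ^ s * (u % 3 ^ n))]
    congr 2
    have h1 : 3 * 2 ^ s * u ≡ 3 * 2 ^ s * (u % 3 ^ n) [MOD 3 ^ (n + 1)] := by
      have h2 : u ≡ u % 3 ^ n [MOD 3 ^ n] := (Nat.mod_modEq u (3 ^ n)).symm
      have h3 : 3 * u ≡ 3 * (u % 3 ^ n) [MOD 3 * 3 ^ n] := Nat.ModEq.mul_left' 3 h2
      have h4 : 2 ^ s * (3 * u) ≡ 2 ^ s * (3 * (u % 3 ^ n)) [MOD 3 * 3 ^ n] :=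
        Nat.ModEq.mul_left _ h3
      have h5 : 3 * 3 ^ n = 3 ^ (n + 1) := by ring
      rw [h5] at h4
      have e1 : 3 * 2 ^ s * u = 2 ^ s * (3 * u) := by ring
      have e2 : 3 * 2 ^ s * (u % 3 ^ n) = 2 ^ s * (3 * (u % 3 ^ n)) := by ring
      rw [e1, e2]; exact h4
    have h2 : e + 3 * 2 ^ s * u ≡ e + 3 * 2 ^ s * (u % 3 ^ n) [MOD 3 ^ (n + 1)] :=
      Nat.ModEq.add_left e h1
    rw [h2]
  have hunit : ∀ w, (e + 3 * 2 ^ s * w) % 3 ≠ 0 := by
    intro w
    rw [mul_assoc, Nat.add_mul_mod_self_left]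
    exact hen
  have hgb : ∀ w, |g w| ≤ Cb * n := fun w => (hCb n _ (hunit w)).2
  have hx : ∀ x ∈ C, Real.log (W β M n (en l x)) = g (x / 3 ^ (t + 1) % 3 ^ n) := by
    intro x hxC
    have hxr := hC x hxC
    have hdecomp : x = r + 3 ^ (l.length + 1) * (x / 3 ^ (t + 1)) := by
      rw [hlen]
      have := Nat.mod_add_div x (3 ^ (t + 1))
      rw [hxr] at this
      exact this.symm
    have h1 := (en_add l r (x / 3 ^ (t + 1)) hva).2
    rw [← hdecomp] at h1
    rw [h1, ← hgper]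
  have hmaps : ∀ x ∈ C, x / 3 ^ (t + 1) % 3 ^ n ∈ range (3 ^ n) := fun x _ => by
    rw [mem_range]; exact Nat.mod_lt _ (by positivity)
  have hS : ∑ x ∈ C, Real.log (W β M n (en l x))
      = ∑ w ∈ range (3 ^ n),
        ((C.filter (fun x => x / 3 ^ (t + 1) % 3 ^ n = w)).card : ℝ) * g w := by
    rw [Finset.sum_congr rfl hx, ← Finset.sum_fiberwise_of_maps_to hmaps]
    refine Finset.sum_congr rfl fun w _ => ?_
    rw [Finset.sum_congr rfl (g := fun _ => g w)]
    · rw [Finset.sum_const, nsmul_eq_mul]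
    · intro x hx'
      rw [mem_filter] at hx'
      rw [hx'.2]
  rcases Finset.eq_empty_or_nonempty C with hCe | hCne
  · subst hCe; simp
  have hCpos : (0 : ℝ) < C.card := by exact_mod_cast hCne.card_pos
  rw [hS]
  have hterm : ∀ w ∈ range (3 ^ n),
      (C.card : ℝ) * (g w / 3 ^ n - η * (Cb * n)) ≤
        ((C.filter (fun x => x / 3 ^ (t + 1) % 3 ^ n = w)).card : ℝ) * g w := by
    intro w hw
    have h1 := hun w hw
    set N := ((C.filter (fun x => x / 3 ^ (t + 1) % 3 ^ n = w)).card : ℝ) with hN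
    have h2 : N * g w = C.card * (N / C.card * g w) := by
      rw [← mul_assoc, mul_div_cancel₀ _ hCpos.ne']
    rw [h2]
    refine mul_le_mul_of_nonneg_left ?_ hCpos.le
    have h3 : (1 / 3 ^ n - N / C.card) * g w ≤ η * (Cb * n) := by
      calc (1 / 3 ^ n - N / C.card) * g w ≤ |(1 / 3 ^ n - N / C.card) * g w| := le_abs_self _
        _ = |N / C.card - 1 / 3 ^ n| * |g w| := by
            rw [abs_mul, abs_sub_comm]
        _ ≤ η * (Cb * n) := mul_le_mul h1 (hgb w) (abs_nonneg _) hη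
    have h4 : (1 / 3 ^ n - N / C.card) * g w = g w / 3 ^ n - N / C.card * g w := by ring
    linarith
  refine le_trans ?_ (Finset.sum_le_sum hterm)
  rw [← Finset.mul_sum]
  refine mul_le_mul_of_nonneg_left ?_ hCpos.le
  rw [Finset.sum_sub_distrib, Finset.sum_const, card_range, nsmul_eq_mul, ← Finset.sum_div]
  have hav : ∑ w ∈ range (3 ^ n), g w
      = ∑ y ∈ (range (3 ^ (n + 1))).filter (fun y => y % 3 = e % 3),
          Real.log (W β M n y) :=
    J_window_sum n e s (fun y => Real.log (W β M n y)) hWper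
  have hAA : AA β M n ≤ (∑ w ∈ range (3 ^ n), g w) / 3 ^ n := by
    rw [hav]
    have h12 : e % 3 = 1 ∨ e % 3 = 2 := by omega
    rcases h12 with h | h
    · rw [h]; exact min_le_left _ _
    · rw [h]; exact min_le_right _ _
  have : η * 3 ^ n * (Cb * n) = ((3 ^ n : ℕ) : ℝ) * (η * (Cb * n)) := by push_cast; ring
  rw [this]
  linarith

/-- Sum of the log-ratios over a class mod `3^(t+1)` with an almost uniform window. -/
theorem J_class_ratio (hβ : 0 < β) (hβ1 : β ≤ 1) (hM : 7 ≤ M) {Cb : ℝ}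
    (hCb : ∀ k y : ℕ, y % 3 ≠ 0 → 0 < W β M k y ∧ |Real.log (W β M k y)| ≤ Cb * k)
    (t n r : ℕ) (hr : r < 3 ^ (t + 1)) (hr3 : r % 3 ≠ 0) (η : ℝ) (hη : 0 ≤ η) (C : Finset ℕ)
    (hC : ∀ x ∈ C, x % 3 ^ (t + 1) = r)
    (hun : ∀ w ∈ range (3 ^ n),
      |((C.filter (fun x => x / 3 ^ (t + 1) % 3 ^ n = w)).card : ℝ) / C.card - 1 / 3 ^ n| ≤ η) :
    (C.card : ℝ) * (AA β M n - η * 3 ^ n * (Cb * n)) ≤
      ∑ x ∈ C, (Real.log (W β M (t + n) x) - Real.log (W β M t x)) := by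
  have hWr : 0 < W β M t r := J_W_pos hβ hβ1 hM t r hr3
  have hx3 : ∀ x ∈ C, x % 3 ≠ 0 := by
    intro x hx
    have h1 := hC x hx
    rw [← h1, Nat.mod_mod_of_dvd _ (dvd_pow_self 3 (by omega))] at hr3
    exact hr3
  have hPP : ∀ x ∈ C, PP M t x = PP M t r := fun x hx => by
    rw [PP_mod, hC x hx]
  have hWx : ∀ x ∈ C, W β M t x = W β M t r := fun x hx => by
    rw [W_mod, hC x hx]
  have h1 : ∑ x ∈ C, (∑ l ∈ PP M t r, wt β t l * Real.log (W β M n (en l x))) / W β M t r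
      ≤ ∑ x ∈ C, (Real.log (W β M (t + n) x) - Real.log (W β M t x)) := by
    refine Finset.sum_le_sum fun x hx => ?_
    have := J_log_ratio hβ hβ1 hM t n x (hx3 x hx)
    rw [hPP x hx, hWx x hx] at this
    rw [hWx x hx]
    exact this
  refine le_trans ?_ h1
  rw [← Finset.sum_div, le_div_iff₀ hWr, Finset.sum_comm]
  have h2 : (C.card : ℝ) * (AA β M n - η * 3 ^ n * (Cb * n)) * W β M t r
      = ∑ l ∈ PP M t r, wt β t l * ((C.card : ℝ) * (AA β M n - η * 3 ^ n * (Cb * n))) := by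
    unfold W
    rw [Finset.mul_sum]
    exact Finset.sum_congr rfl fun l _ => by ring
  rw [h2]
  refine Finset.sum_le_sum fun l hl => ?_
  rw [← Finset.mul_sum]
  refine mul_le_mul_of_nonneg_left ?_ (wt_pos β t l).le
  exact J_class_end hβ hβ1 hM hCb t n r hr η hη C hC hun l hl

theorem J_full_ratio (hβ : 0 < β) (hβ1 : β ≤ 1) (hM : 7 ≤ M) {Cb : ℝ}
    (hCb : ∀ k y : ℕ, y % 3 ≠ 0 → 0 < W β M k y ∧ |Real.log (W β M k y)| ≤ Cb * k)
    (t n : ℕ) (η : ℝ) (hη : 0 ≤ η) (E : Finset ℕ) (hE : ∀ x ∈ E, x % 3 ≠ 0) :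
    ((full E (t + 1) n η).card : ℝ) * (AA β M n - η * 3 ^ n * (Cb * n)) ≤
      ∑ x ∈ full E (t + 1) n η, (Real.log (W β M (t + n) x) - Real.log (W β M t x)) := by
  classical
  set F := full E (t + 1) n η with hF
  have hmaps : ∀ x ∈ F, x % 3 ^ (t + 1) ∈ F.image (fun x => x % 3 ^ (t + 1)) :=
    fun x hx => mem_image_of_mem _ hx
  rw [← Finset.sum_fiberwise_of_maps_to hmaps, Finset.card_eq_sum_card_fiberwise hmaps]
  push_cast
  rw [Finset.sum_mul]
  refine Finset.sum_le_sum fun r hr => ?_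
  rw [mem_image] at hr
  obtain ⟨θ, hθ, rfl⟩ := hr
  have hθ' := hθ
  rw [hF, J_mem_full] at hθ'
  have hfib : F.filter (fun x => x % 3 ^ (t + 1) = θ % 3 ^ (t + 1)) = cls E (t + 1) θ := by
    ext x
    rw [mem_filter]
    unfold cls
    rw [mem_filter]
    constructor
    · rintro ⟨hx, hx'⟩
      rw [hF, J_mem_full] at hx
      exact ⟨hx.1, hx'⟩
    · rintro ⟨hx, hx'⟩
      refine ⟨?_, hx'⟩
      rw [hF, J_mem_full]
      refine ⟨hx, ?_⟩
      have hcls : cls E (t + 1) x = cls E (t + 1) θ := by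
        unfold cls
        rw [hx']
      rw [hcls]
      exact hθ'.2
  rw [hfib]
  refine J_class_ratio hβ hβ1 hM hCb t n (θ % 3 ^ (t + 1)) (Nat.mod_lt _ (by positivity)) ?_ η hη
    (cls E (t + 1) θ) ?_ hθ'.2
  · rw [Nat.mod_mod_of_dvd _ (dvd_pow_self 3 (by omega))]
    exact hE θ hθ'.1
  · intro x hx
    unfold cls at hx
    exact (mem_filter.1 hx).2

/-- Sum of the log-ratios over `E`. -/
theorem J_E_ratio (hβ : 0 < β) (hβ1 : β ≤ 1) (hM : 7 ≤ M) {Cb : ℝ}
    (hCb : ∀ k y : ℕ, y % 3 ≠ 0 → 0 < W β M k y ∧ |Real.log (W β M k y)| ≤ Cb * k)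
    (t n : ℕ) (η : ℝ) (hη : 0 ≤ η) (E : Finset ℕ) (hE : ∀ x ∈ E, x % 3 ≠ 0) :
    ((full E (t + 1) n η).card : ℝ) * (AA β M n - η * 3 ^ n * (Cb * n) - Real.log (mm β M n))
        + (E.card : ℝ) * Real.log (mm β M n) ≤
      ∑ x ∈ E, (Real.log (W β M (t + n) x) - Real.log (W β M t x)) := by
  classical
  set F := full E (t + 1) n η with hF
  have hFE : F ⊆ E := by
    intro x hx
    rw [hF, J_mem_full] at hx
    exact hx.1
  rw [← Finset.sum_sdiff hFE]
  have h1 := J_full_ratio hβ hβ1 hM hCb t n η hη E hE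
  rw [← hF] at h1
  have h2 : ((E \ F).card : ℝ) * Real.log (mm β M n) ≤
      ∑ x ∈ E \ F, (Real.log (W β M (t + n) x) - Real.log (W β M t x)) := by
    rw [← nsmul_eq_mul]
    refine Finset.card_nsmul_le_sum _ _ _ fun x hx => ?_
    exact J_ratio_ge_min hβ hβ1 hM t n x (hE x (mem_sdiff.1 hx).1)
  have h3 : ((E \ F).card : ℝ) = E.card - F.card := by
    rw [Finset.card_sdiff_of_subset hFE, Nat.cast_sub (card_le_card hFE)]
  rw [h3] at h2
  nlinarith [h1, h2]

theorem J_telescope (a : ℕ → ℝ) (k n h : ℕ) :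
    ∑ i ∈ range h, (a (k + i + n) - a (k + i)) =
      ∑ j ∈ range n, (a (k + h + j) - a (k + j)) := by
  induction h with
  | zero => simp
  | succ h ih =>
    rw [Finset.sum_range_succ, ih]
    have h1 : ∑ j ∈ range n, (a (k + (h + 1) + j) - a (k + j))
        = ∑ j ∈ range n, (a (k + h + j) - a (k + j))
          + ∑ j ∈ range n, (a (k + h + (j + 1)) - a (k + h + j)) := by
      rw [← Finset.sum_add_distrib]
      refine Finset.sum_congr rfl fun j _ => ?_
      have : k + (h + 1) + j = k + h + (j + 1) := by ring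
      rw [this]; ring
    rw [h1, Finset.sum_range_sub (fun j => a (k + h + j)) n]
    simp only [add_zero]

/-- The growth of `log W_t` on the near-worst set. -/
theorem J_logW_bounds (hβ : 0 < β) (hβ1 : β ≤ 1) (hM : 7 ≤ M) {ε C : ℝ} (hε : 0 < ε)
    (hC : ∀ k : ℕ, RR β M * k - ε * k - C ≤ Real.log (mm β M k)) (m t x : ℕ) (ht : t ≤ m)
    (hx3 : x % 3 ≠ 0) (hx : Real.log (W β M m x) ≤ (RR β M + ε) * m) :
    RR β M * t - ε * m - C ≤ Real.log (W β M t x) ∧
      Real.log (W β M t x) ≤ RR β M * t + 2 * ε * m + C := by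
  constructor
  · have h1 : Real.log (mm β M t) ≤ Real.log (W β M t x) :=
      Real.log_le_log (mm_pos hβ hβ1 hM t) (mm_le β M t x hx3)
    have h2 := hC t
    have h3 : ε * t ≤ ε * m := mul_le_mul_of_nonneg_left (by exact_mod_cast ht) hε.le
    linarith
  · have h1 := J_ratio_ge_min hβ hβ1 hM t (m - t) x hx3
    rw [Nat.add_sub_cancel' ht] at h1
    have h2 := hC (m - t)
    rw [Nat.cast_sub ht] at h2
    have h3 : ε * ((m : ℝ) - t) ≤ ε * m := by
      refine mul_le_mul_of_nonneg_left ?_ hε.le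
      have : (0 : ℝ) ≤ t := Nat.cast_nonneg t
      linarith
    nlinarith [h1, h2, h3]

/-- Step 6: the key inequality for one `m`. -/
theorem J_key (hβ : 0 < β) (hβ1 : β ≤ 1) (hM : 7 ≤ M) {Cb : ℝ}
    (hCb : ∀ k y : ℕ, y % 3 ≠ 0 → 0 < W β M k y ∧ |Real.log (W β M k y)| ≤ Cb * k)
    {ε C : ℝ} (hε : 0 < ε)
    (hC : ∀ k : ℕ, RR β M * k - ε * k - C ≤ Real.log (mm β M k))
    (n : ℕ) (η : ℝ) (hη : 0 ≤ η) (c : ℝ) (m : ℕ) (hm : n * (M + 3) ≤ m)
    (hEne : (EE β M m ε).Nonempty)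
    (hfull : c * m * ((EE β M m ε).card : ℝ) ≤
      ∑ i ∈ range (M * (m / (M + 3))), ((full (EE β M m ε) (m / (M + 3) + 1 + i) n η).card : ℝ))
    (hpos : 0 ≤ AA β M n - η * 3 ^ n * (Cb * n) - Real.log (mm β M n)) :
    c * m * (AA β M n - η * 3 ^ n * (Cb * n) - Real.log (mm β M n)) ≤
      m * (RR β M * n - Real.log (mm β M n)) + n * (3 * ε * m + 2 * C) := by
  set E := EE β M m ε with hE
  set k := m / (M + 3) with hk
  set h := M * k with hh
  set D := AA β M n - η * 3 ^ n * (Cb * n) - Real.log (mm β M n) with hD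
  have hEpos : (0 : ℝ) < E.card := by exact_mod_cast hEne.card_pos
  have hE3 : ∀ x ∈ E, x % 3 ≠ 0 := by
    intro x hx
    rw [hE] at hx
    unfold EE U at hx
    rw [mem_filter, mem_filter] at hx
    exact hx.1.2
  have hElog : ∀ x ∈ E, Real.log (W β M m x) ≤ (RR β M + ε) * m := by
    intro x hx
    rw [hE] at hx
    unfold EE at hx
    rw [mem_filter] at hx
    exact hx.2
  have hkm : k * (M + 3) ≤ m := Nat.div_mul_le_self m (M + 3)
  have hnk : n ≤ k := by
    rw [hk, Nat.le_div_iff_mul_le (by omega)]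
    exact hm
  have hkh : k + h + n ≤ m := by
    calc k + h + n ≤ k + M * k + k := by omega
      _ ≤ k * (M + 3) := by nlinarith
      _ ≤ m := hkm
  have hhm : h ≤ m := by omega
  -- sum over i of the E-sums
  have h1 : ∀ i ∈ range h,
      ((full E (k + 1 + i) n η).card : ℝ) * D + (E.card : ℝ) * Real.log (mm β M n) ≤
        ∑ x ∈ E, (Real.log (W β M (k + i + n) x) - Real.log (W β M (k + i) x)) := by
    intro i _
    have := J_E_ratio hβ hβ1 hM hCb (k + i) n η hη E hE3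
    have e1 : k + i + 1 = k + 1 + i := by ring
    rw [e1] at this
    exact this
  have h2 := Finset.sum_le_sum h1
  rw [Finset.sum_add_distrib, ← Finset.sum_mul, Finset.sum_const, card_range, nsmul_eq_mul,
    Finset.sum_comm] at h2
  have h3 : ∑ x ∈ E, ∑ i ∈ range h,
      (Real.log (W β M (k + i + n) x) - Real.log (W β M (k + i) x)) ≤
        (E.card : ℝ) * (n * (RR β M * h + 3 * ε * m + 2 * C)) := by
    rw [← nsmul_eq_mul]
    refine Finset.sum_le_card_nsmul _ _ _ fun x hx => ?_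
    rw [J_telescope (fun t => Real.log (W β M t x)) k n h]
    have : ∑ j ∈ range n, (Real.log (W β M (k + h + j) x) - Real.log (W β M (k + j) x)) ≤
        ∑ _j ∈ range n, (RR β M * h + 3 * ε * m + 2 * C) := by
      refine Finset.sum_le_sum fun j hj => ?_
      rw [mem_range] at hj
      have a1 := (J_logW_bounds hβ hβ1 hM hε hC m (k + h + j) x (by omega) (hE3 x hx)
        (hElog x hx)).2
      have a2 := (J_logW_bounds hβ hβ1 hM hε hC m (k + j) x (by omega) (hE3 x hx)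
        (hElog x hx)).1
      push_cast at a1 a2
      nlinarith [a1, a2]
    refine this.trans ?_
    rw [Finset.sum_const, card_range, nsmul_eq_mul]
  have h4 : c * m * (E.card : ℝ) * D ≤
      (∑ i ∈ range h, ((full E (k + 1 + i) n η).card : ℝ)) * D :=
    mul_le_mul_of_nonneg_right hfull hpos
  have h5 : (E.card : ℝ) * (c * m * D + h * Real.log (mm β M n)) ≤
      (E.card : ℝ) * (n * (RR β M * h + 3 * ε * m + 2 * C)) := by
    have : (E.card : ℝ) * (c * m * D + h * Real.log (mm β M n))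
        = c * m * (E.card : ℝ) * D + h * ((E.card : ℝ) * Real.log (mm β M n)) := by ring
    rw [this]
    linarith [h2, h3, h4]
  have h6 := le_of_mul_le_mul_left h5 hEpos
  have h7 : (h : ℝ) * (RR β M * n - Real.log (mm β M n)) ≤
      m * (RR β M * n - Real.log (mm β M n)) := by
    refine mul_le_mul_of_nonneg_right (by exact_mod_cast hhm) ?_
    linarith [log_mm_le hβ hβ1 hM n]
  nlinarith [h6, h7]

/-- Theorem B in the form `A_n ≤ R n + b_n / c + δ`. -/
theorem J_bound (hβ : 0 < β) (hβ1 : β ≤ 1) (hM : 7 ≤ M) (hR : 0 < RR β M) :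
    ∃ c : ℝ, 0 < c ∧ ∀ n : ℕ, 1 ≤ n →
      AA β M n ≤ RR β M * n + (RR β M * n - Real.log (mm β M n)) / c := by
  obtain ⟨Cb, hCb0, hCb⟩ := W_bound hβ hβ1 hM
  obtain ⟨c, hc, hfw⟩ := full_windows hβ hβ1 hM hR
  refine ⟨c, hc, fun n hn => ?_⟩
  have hb : 0 ≤ RR β M * n - Real.log (mm β M n) := by linarith [log_mm_le hβ hβ1 hM n]
  refine le_of_forall_pos_le_add fun δ hδ => ?_
  -- choose η, ε0
  have hn0 : (0 : ℝ) < n := by exact_mod_cast hn
  set η := δ / 2 / (3 ^ n * (Cb * n) + 1) with hη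
  have hden : (0 : ℝ) < 3 ^ n * (Cb * n) + 1 := by positivity
  have hηpos : 0 < η := by positivity
  have hηb : η * 3 ^ n * (Cb * n) ≤ δ / 2 := by
    rw [hη]
    have : δ / 2 / (3 ^ n * (Cb * n) + 1) * 3 ^ n * (Cb * n)
        = δ / 2 * ((3 ^ n * (Cb * n)) / (3 ^ n * (Cb * n) + 1)) := by
      field_simp
    rw [this]
    have h1 : (3 ^ n * (Cb * n)) / (3 ^ n * (Cb * n) + 1) ≤ 1 := by
      rw [div_le_one hden]; linarith
    nlinarith
  set ε0 := c * δ / (16 * n) with hε0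
  have hε0pos : 0 < ε0 := by positivity
  obtain ⟨ε, hε, hεle, hm⟩ := hfw n hn η hηpos ε0 hε0pos
  obtain ⟨C, hC0, hC⟩ := log_mm_ge hβ hβ1 hM hε
  obtain ⟨m1, hm1⟩ := exists_nat_gt (8 * n * C / (c * δ))
  obtain ⟨m, hmm, hfull⟩ := hm (max (n * (M + 3)) (max m1 1))
  have hm2 : n * (M + 3) ≤ m := le_trans (le_max_left _ _) hmm
  have hm3 : m1 ≤ m := le_trans (le_trans (le_max_left _ _) (le_max_right _ _)) hmm
  have hm4 : 1 ≤ m := le_trans (le_trans (le_max_right _ _) (le_max_right _ _)) hmm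
  have hmpos : (0 : ℝ) < m := by exact_mod_cast hm4
  by_cases hpos : 0 ≤ AA β M n - η * 3 ^ n * (Cb * n) - Real.log (mm β M n)
  swap
  · have h1 := log_mm_le hβ hβ1 hM n
    have h2 : 0 ≤ (RR β M * n - Real.log (mm β M n)) / c := div_nonneg hb hc.le
    push Not at hpos
    linarith
  have hEne : (EE β M m ε).Nonempty := by
    obtain ⟨y, hy, hyW⟩ := exists_mm β M m
    refine ⟨y, ?_⟩
    unfold EE
    rw [mem_filter]
    refine ⟨hy, ?_⟩
    rw [hyW]
    have h1 := log_mm_le hβ hβ1 hM m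
    nlinarith [mul_pos hε hmpos]
  have key := J_key hβ hβ1 hM hCb hε hC n η hηpos.le c m hm2 hEne hfull hpos
  -- divide by m
  have h1 : 8 * n * C ≤ c * δ * m := by
    have h2 : 8 * n * C / (c * δ) < m := lt_of_lt_of_le hm1 (by exact_mod_cast hm3)
    rw [div_lt_iff₀ (by positivity)] at h2
    linarith
  have h2 : n * (3 * ε * m) ≤ 3 / 16 * (c * δ) * m := by
    have h3 : ε * n ≤ c * δ / 16 := by
      calc ε * n ≤ ε0 * n := mul_le_mul_of_nonneg_right hεle hn0.le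
        _ = c * δ / 16 := by rw [hε0]; field_simp
    nlinarith
  have h3 : c * m * (AA β M n - η * 3 ^ n * (Cb * n) - Real.log (mm β M n)) ≤
      m * ((RR β M * n - Real.log (mm β M n)) + c * δ / 2) := by
    nlinarith
  have h4 : c * (AA β M n - η * 3 ^ n * (Cb * n) - Real.log (mm β M n)) ≤
      (RR β M * n - Real.log (mm β M n)) + c * δ / 2 := by
    have : m * (c * (AA β M n - η * 3 ^ n * (Cb * n) - Real.log (mm β M n))) ≤
        m * ((RR β M * n - Real.log (mm β M n)) + c * δ / 2) := by linarith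
    exact le_of_mul_le_mul_left this hmpos
  have h5 : AA β M n - η * 3 ^ n * (Cb * n) - Real.log (mm β M n) ≤
      (RR β M * n - Real.log (mm β M n)) / c + δ / 2 := by
    have : (RR β M * n - Real.log (mm β M n)) / c + δ / 2
        = ((RR β M * n - Real.log (mm β M n)) + c * δ / 2) / c := by
      field_simp
    rw [this, le_div_iff₀ hc]
    linarith
  linarith [log_mm_le hβ hβ1 hM n]

theorem thmB {β : ℝ} (hβ : 0 < β) (hβ1 : β ≤ 1) {M : ℕ} (hM : 7 ≤ M) (hR : 0 < RR β M) :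
    ∀ ε : ℝ, 0 < ε → ∃ n0 : ℕ, ∀ n : ℕ, n0 ≤ n → AA β M n ≤ (RR β M + ε) * n := by
  intro ε hε
  obtain ⟨c, hc, hb⟩ := J_bound hβ hβ1 hM hR
  obtain ⟨C, hC0, hC⟩ := log_mm_ge hβ hβ1 hM (ε := c * ε / 2) (by positivity)
  obtain ⟨n1, hn1⟩ := exists_nat_gt (2 * C / (c * ε))
  refine ⟨max n1 1, fun n hn => ?_⟩
  have hn1' : n1 ≤ n := le_trans (le_max_left _ _) hn
  have hn' : 1 ≤ n := le_trans (le_max_right _ _) hn
  refine (hb n hn').trans ?_
  have h1 := hC n
  have h2 : 2 * C ≤ c * ε * n := by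
    have h3 : 2 * C / (c * ε) < n := lt_of_lt_of_le hn1 (by exact_mod_cast hn1')
    rw [div_lt_iff₀ (by positivity)] at h3
    linarith
  have h3 : (RR β M * n - Real.log (mm β M n)) / c ≤ ε * n := by
    rw [div_le_iff₀ hc]
    nlinarith
  linarith

end H62s
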